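import Pool.Agent.H797.Refl3

set_option autoImplicit false
open Set MeasureTheory
open scoped ContDiff ENNReal

namespace Pool.Agent.H797

noncomputable section

/-- the conserved energy -/
def en (u : Sm) : ℝ := J u - 1 / 2 * J (lap u * u)

theorem Sol.energy {T : ℝ} {u : ℝ → Sm} (hT : 0 ≤ T) (h : Sol T u) :
    ∀ t ∈ Icc 0 T, en (u t) = en (u 0) := by
  have hd : ∀ t ∈ Icc 0 T, HasDerivWithinAt (fun t => en (u t)) 0 (Icc 0 T) t := by
    intro t ht
    have h1 := (h.flow 0).Jd t ht
    have h2 := ((h.flow 2).lapl.mul (h.flow 0)).Jd t ht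
    have h3 := h1.sub (h2.const_mul (1 / 2))
    refine HasDerivWithinAt.congr_deriv h3 ?_
    have e1 : J (lap (ff (u t) - 1) * u t + lap (u t) * (ff (u t) - 1))
        = 2 * J (ff (u t) * lap (u t)) := by
      rw [map_add, J_lap_symm, sub_mul, one_mul, map_sub, J_lap_zero,
        mul_sub, mul_one, map_sub, J_lap_zero, mul_comm (lap (u t))]
      ring
    rw [e1, map_sub, J_one]
    have e2 := J_fw (h.pos t ht)
    rw [ww, mul_sub, mul_one, map_sub] at e2
    linarith
  intro t ht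
  have h1 := growth (K := 0) hd (fun _ _ => le_rfl) (left_mem_Icc.mpr hT) ht ht.1
  have h2 := growth (h := fun t => - en (u t)) (K := 0) (fun t ht => (hd t ht).neg)
    (fun _ _ => by simp) (left_mem_Icc.mpr hT) ht ht.1
  linarith

theorem lap_cst_mul (r : ℝ) (g : Sm) : lap (cst r * g) = cst r * lap g := by
  rw [lap_eq3, lap_eq3]
  simp only [L_cst_mul]
  ring

theorem lap_expS (u : Sm) : lap (expS u) = expS u * (lap u + ∑ i, L i u * L i u) := by
  simp only [lap_eq, L_expS, L_mul, Fin.sum_univ_three]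
  ring

/-- zeroth order bound -/
theorem u_bound (u0 : Sm) : ∃ C : ℝ, 0 ≤ C ∧ ∀ (T : ℝ) (u : ℝ → Sm), 0 ≤ T → Sol T u → u 0 = u0 →
    ∀ t ∈ Icc 0 T, (∀ p, |(u t).1 p| ≤ C) ∧ ∀ i p, |(L i (u t)).1 p| ≤ C := by
  obtain ⟨G0, hG0, hlip⟩ := exists_lip u0
  obtain ⟨G, hG, hgrad⟩ := grad_bound G0 hG0
  have hm := mass_pos
  refine ⟨(|en u0| + 6 * G ^ 2 * mass) / mass + 2 * G, by positivity,
    fun T u hT h h0 t ht => ?_⟩
  have hl := hgrad T u hT h (by rw [h0]; exact hlip) t ht
  have hL : ∀ i p, |(L i (u t)).1 p| ≤ 2 * G := fun i p => L_of_lip (u t) G hl i p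
  refine ⟨fun p => ?_, fun i p => (hL i p).trans ?_⟩
  · have he := h.energy hT t ht
    rw [h0, en] at he
    have h1 : J (L 0 (u t) * L 0 (u t)) ≤ (2 * G) ^ 2 * mass := N0_le_of_sup _ _ (fun q => by
      rw [← sq_abs]; exact pow_le_pow_left₀ (abs_nonneg _) (hL 0 q) 2)
    have h2 : J (L 1 (u t) * L 1 (u t)) ≤ (2 * G) ^ 2 * mass := N0_le_of_sup _ _ (fun q => by
      rw [← sq_abs]; exact pow_le_pow_left₀ (abs_nonneg _) (hL 1 q) 2)
    have h3 : J (L 2 (u t) * L 2 (u t)) ≤ (2 * G) ^ 2 * mass := N0_le_of_sup _ _ (fun q => by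
      rw [← sq_abs]; exact pow_le_pow_left₀ (abs_nonneg _) (hL 2 q) 2)
    have h4 := grad_J (u t)
    rw [Fin.sum_univ_three] at h4
    have g1 := J_sq_nonneg (L 0 (u t))
    have g2 := J_sq_nonneg (L 1 (u t))
    have g3 := J_sq_nonneg (L 2 (u t))
    have h5 : |J (u t)| ≤ |en u0| + 6 * G ^ 2 * mass := by
      have e1 := neg_abs_le (en u0)
      have e2 := le_abs_self (en u0)
      have e3 : 0 ≤ G ^ 2 * mass := by positivity
      rw [abs_le]
      constructor <;> nlinarith
    have h6 : |(u t).1 p * mass - J (u t)| ≤ 2 * G * mass := by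
      have e1 : ∀ q, |(u t).1 p - (u t).1 q| ≤ 2 * G := by
        intro q
        refine (hl p q).trans ?_
        have := norm_sub_le (p : E3) (q : E3)
        rw [S2_norm, S2_norm] at this
        nlinarith
      have e2 : J (cst ((u t).1 p) - u t) ≤ J (cst (2 * G)) := by
        apply J_mono; intro q
        rw [sm_sub, cst_apply, cst_apply]
        exact (abs_le.mp (e1 q)).2
      have e3 : J (u t - cst ((u t).1 p)) ≤ J (cst (2 * G)) := by
        apply J_mono; intro q
        rw [sm_sub, cst_apply, cst_apply]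
        have := (abs_le.mp (e1 q)).1
        linarith
      rw [map_sub, J_cst, J_cst] at e2 e3
      rw [abs_le]
      constructor <;> linarith
    have h7 : |(u t).1 p| * mass ≤ |en u0| + 6 * G ^ 2 * mass + 2 * G * mass := by
      have e1 : |(u t).1 p| * mass = |(u t).1 p * mass| := by rw [abs_mul, abs_of_pos hm]
      have e2 : (u t).1 p * mass = ((u t).1 p * mass - J (u t)) + J (u t) := by ring
      rw [e1, e2]
      exact (abs_add_le _ _).trans (by linarith)
    have h8 : |(u t).1 p| ≤ (|en u0| + 6 * G ^ 2 * mass + 2 * G * mass) / mass := by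
      rw [le_div_iff₀ hm]; exact h7
    refine h8.trans (le_of_eq ?_)
    field_simp
  · have : 0 ≤ (|en u0| + 6 * G ^ 2 * mass) / mass := by positivity
    linarith

theorem bet_bounds (u : Sm) (C : ℝ) (h : ∀ p, |u.1 p| ≤ C) (p : S2) :
    Real.exp (-(4 * C)) ≤ (bet u).1 p ∧ (bet u).1 p ≤ Real.exp (4 * C) := by
  have hm := mass_pos
  have h1 : Real.exp (-(2 * C)) ≤ ar u / mass := by
    rw [le_div_iff₀ hm, ← J_cst]
    apply J_mono; intro q
    rw [cst_apply, expS_apply, sm_mul, cst_apply]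
    apply Real.exp_le_exp.mpr
    have := (abs_le.mp (h q)).1
    linarith
  have h2 : ar u / mass ≤ Real.exp (2 * C) := by
    rw [div_le_iff₀ hm, ← J_cst]
    apply J_mono; intro q
    rw [cst_apply, expS_apply, sm_mul, cst_apply]
    apply Real.exp_le_exp.mpr
    have := (abs_le.mp (h q)).2
    linarith
  have h3 : Real.exp (-(2 * C)) ≤ Real.exp (-2 * u.1 p) := by
    apply Real.exp_le_exp.mpr
    have := (abs_le.mp (h p)).2
    linarith
  have h4 : Real.exp (-2 * u.1 p) ≤ Real.exp (2 * C) := by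
    apply Real.exp_le_exp.mpr
    have := (abs_le.mp (h p)).1
    linarith
  rw [bet_apply]
  have har : 0 ≤ ar u / mass := div_nonneg (ar_pos u).le hm.le
  constructor
  · calc Real.exp (-(4 * C)) = Real.exp (-(2 * C)) * Real.exp (-(2 * C)) := by
          rw [← Real.exp_add]; congr 1; ring
      _ ≤ _ := by
          have := Real.exp_pos (-(2 * C))
          gcongr
  · calc _ ≤ Real.exp (2 * C) * Real.exp (2 * C) := by
          have := Real.exp_pos (-2 * u.1 p)
          have := Real.exp_pos (2 * C)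
          gcongr
      _ = _ := by rw [← Real.exp_add]; congr 1; ring

theorem fbar_nonneg {u : Sm} (hw : ∀ p, 0 < (ww u).1 p) : 0 ≤ fbar u := by
  apply div_nonneg _ (ar_pos u).le
  apply J_nonneg
  intro p
  rw [sm_mul, expS_apply]
  have := ff_pos hw p
  positivity

/-- upper bound for the speed -/
theorem f_bound (u0 : Sm) : ∃ C : ℝ, 0 < C ∧ ∀ (T : ℝ) (u : ℝ → Sm), 0 ≤ T → Sol T u → u 0 = u0 →
    ∀ t ∈ Icc 0 T, ∀ p, (ff (u t)).1 p ≤ C := by
  obtain ⟨C, hC, hu⟩ := u_bound u0
  obtain ⟨Λ, hΛ⟩ : ∃ x, x = 3 * Real.exp (4 * C) := ⟨_, rfl⟩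
  have hΛ0 : 0 < Λ := by rw [hΛ]; positivity
  obtain ⟨M, hM⟩ : ∃ x, x = ‖(ff u0).1‖ + Λ * C + 2 * Λ := ⟨_, rfl⟩
  have hM0 : 0 < M := by rw [hM]; positivity
  refine ⟨M + Λ * C, by positivity, fun T u hT h h0 => ?_⟩
  have H : HD (Icc 0 T) 0 (fun t => ff (u t) + cst Λ * u t)
      (fun t => (bet (u t) * (ff (u t) * ff (u t)) * lap (ff (u t)) + cst 2 * (ff (u t) * ff (u t))
      - cst (2 * fbar (u t)) * ff (u t)) + cst Λ * (ff (u t) - 1)) :=
    (h.ffd 0).add (hd_lin (h.flow 0) Λ)
  have key := max_princ hT H M (by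
    intro p
    rw [h0, sm_add, sm_mul, cst_apply]
    have h1 : (ff u0).1 p ≤ ‖(ff u0).1‖ := (le_abs_self _).trans ((ff u0).1.norm_coe_le_norm p)
    have h2 : u0.1 p ≤ C := by
      have := (hu T u hT h h0 0 (left_mem_Icc.mpr hT)).1 p
      rw [h0] at this
      exact (abs_le.mp this).2
    have h3 : Λ * u0.1 p ≤ Λ * C := by gcongr
    linarith) (by
    intro t ht p hmax hgt
    have hw := h.pos t ht
    have hlap := lap_of_max (ff (u t) + cst Λ * u t) p (Filter.Eventually.of_forall hmax)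
    have e1 : lap (cst Λ * u t) = cst Λ * lap (u t) := lap_cst_mul _ _
    rw [map_add, e1, sm_add, sm_mul, cst_apply] at hlap
    have hub := (hu T u hT h h0 t ht).1 p
    rw [sm_add, sm_mul, cst_apply] at hgt
    set f := (ff (u t)).1 p with hf
    set b := (bet (u t)).1 p with hb
    set w := (ww (u t)).1 p with hww
    have hwl : (lap (u t)).1 p = 1 - w := by rw [hww, ww, sm_sub, sm_one]; ring
    rw [hwl] at hlap
    have hf0 : 0 < f := ff_pos hw p
    have hb0 : 0 < b := bet_pos (u t) p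
    have hw0 : 0 < w := hw p
    have hbfw : b * w * f = 1 := by
      have := congrArg (fun k : Sm => k.1 p) (ff_eq hw)
      simpa using this
    have hfb := fbar_nonneg hw
    have hbΛ : 3 ≤ Λ * b := by
      have h1 := (bet_bounds (u t) C (hu T u hT h h0 t ht).1 p).1
      calc 3 = 3 * Real.exp (4 * C) * Real.exp (-(4 * C)) := by
            rw [mul_assoc, ← Real.exp_add]; simp
        _ ≤ Λ * b := by rw [hΛ]; gcongr
    have hfbig : 2 * Λ < f := by
      have h1 : Λ * (u t).1 p ≤ Λ * C := by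
        have := (abs_le.mp hub).2
        gcongr
      have := norm_nonneg (ff u0).1
      linarith
    simp only [sm_add, sm_sub, sm_mul, cst_apply, sm_one]
    rw [← hf, ← hb]
    set lf := (lap (ff (u t))).1 p with hlf
    have h1 : b * (f * f) * lf ≤ Λ * f - Λ * b * f ^ 2 := by
      have h2 : lf ≤ Λ * (w - 1) := by linarith
      calc b * (f * f) * lf ≤ b * (f * f) * (Λ * (w - 1)) := by gcongr
        _ = Λ * f * (b * w * f) - Λ * b * f ^ 2 := by ring
        _ = _ := by rw [hbfw]; ring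
    have h3 : 3 * f ^ 2 ≤ Λ * b * f ^ 2 := by gcongr
    have h4 : 0 ≤ 2 * fbar (u t) * f := by positivity
    nlinarith)
  intro t ht p
  have h1 := key t ht p
  rw [sm_add, sm_mul, cst_apply] at h1
  have h2 := (abs_le.mp ((hu T u hT h h0 t ht).1 p)).1
  have h3 : Λ * (-C) ≤ Λ * (u t).1 p := by gcongr
  linarith

/-- product of the speed and the curvature density -/
theorem fw_eq {u : Sm} (hw : ∀ p, 0 < (ww u).1 p) :
    ff u * ww u = cst (mass / ar u) * expS (cst 2 * u) := by
  apply sm_ext; intro p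
  rw [sm_mul, ff_apply hw, bet_apply, sm_mul, cst_apply, expS_apply, sm_mul, cst_apply]
  have h1 := ar_pos u
  have h2 := mass_pos
  have h3 := hw p
  have h4 : Real.exp (2 * u.1 p) = (Real.exp (-2 * u.1 p))⁻¹ := by
    rw [← Real.exp_neg]; congr 1; ring
  have h5 := Real.exp_pos (-2 * u.1 p)
  rw [h4]
  field_simp

theorem w_point {f w lf lw u0 u1 u2 f0 f1 f2 w0 w1 w2 E : ℝ} (hE0 : 0 < E) (hf0 : 0 < f)
    (hw0 : 0 < w) (hsmall : 4 * f < 1)
    (hL0 : w0 * E + w * (E * u0) = 0) (hL1 : w1 * E + w * (E * u1) = 0)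
    (hL2 : w2 * E + w * (E * u2) = 0)
    (vk0 : f0 * w + f * w0 = 2 * (f * w) * u0) (vk1 : f1 * w + f * w1 = 2 * (f * w) * u1)
    (vk2 : f2 * w + f * w2 = 2 * (f * w) * u2)
    (hlap : lw * E + 2 * (w0 * (E * u0) + w1 * (E * u1) + w2 * (E * u2))
      + w * (E * (1 - w + (u0 * u0 + u1 * u1 + u2 * u2))) ≤ 0)
    (vlk : lf * w + 2 * (f0 * w0 + f1 * w1 + f2 * w2) + f * lw
      = f * w * (2 * (1 - w) + 4 * (u0 * u0 + u1 * u1 + u2 * u2))) :
    -lf * E + w * (E * (f - 1)) < 0 := by
  have a0 : w0 = -(w * u0) := by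
    have : E * (w0 + w * u0) = 0 := by linarith
    rcases mul_eq_zero.mp this with h | h
    · exact absurd h hE0.ne'
    · linarith
  have a1 : w1 = -(w * u1) := by
    have : E * (w1 + w * u1) = 0 := by linarith
    rcases mul_eq_zero.mp this with h | h
    · exact absurd h hE0.ne'
    · linarith
  have a2 : w2 = -(w * u2) := by
    have : E * (w2 + w * u2) = 0 := by linarith
    rcases mul_eq_zero.mp this with h | h
    · exact absurd h hE0.ne'
    · linarith
  have b0 : f0 = 3 * f * u0 := by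
    have : w * (f0 - 3 * f * u0) = 0 := by rw [a0] at vk0; linarith
    rcases mul_eq_zero.mp this with h | h
    · exact absurd h hw0.ne'
    · linarith
  have b1 : f1 = 3 * f * u1 := by
    have : w * (f1 - 3 * f * u1) = 0 := by rw [a1] at vk1; linarith
    rcases mul_eq_zero.mp this with h | h
    · exact absurd h hw0.ne'
    · linarith
  have b2 : f2 = 3 * f * u2 := by
    have : w * (f2 - 3 * f * u2) = 0 := by rw [a2] at vk2; linarith
    rcases mul_eq_zero.mp this with h | h
    · exact absurd h hw0.ne'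
    · linarith
  have hg : 0 ≤ u0 * u0 + u1 * u1 + u2 * u2 :=
    add_nonneg (add_nonneg (mul_self_nonneg _) (mul_self_nonneg _)) (mul_self_nonneg _)
  have c1 : lw ≤ w * (u0 * u0 + u1 * u1 + u2 * u2) - w * (1 - w) := by
    rw [a0, a1, a2] at hlap
    have h1 : E * (lw - w * (u0 * u0 + u1 * u1 + u2 * u2) + w * (1 - w)) ≤ 0 := by linarith
    by_contra hcon
    push Not at hcon
    have : 0 < E * (lw - w * (u0 * u0 + u1 * u1 + u2 * u2) + w * (1 - w)) :=
      mul_pos hE0 (by linarith)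
    linarith
  have c2 : lf * w = f * w * (2 * (1 - w) + 4 * (u0 * u0 + u1 * u1 + u2 * u2))
      + 6 * f * w * (u0 * u0 + u1 * u1 + u2 * u2) - f * lw := by
    rw [a0, a1, a2, b0, b1, b2] at vlk
    linarith
  have c3 : f * lw ≤ f * (w * (u0 * u0 + u1 * u1 + u2 * u2) - w * (1 - w)) := by gcongr
  have c4 : 0 ≤ f * w * (u0 * u0 + u1 * u1 + u2 * u2) := mul_nonneg (mul_pos hf0 hw0).le hg
  have c5 : 3 * f * (1 - w) * w ≤ lf * w := by
    rw [c2]; linarith
  have c6 : 3 * f * (1 - w) ≤ lf := le_of_mul_le_mul_right c5 hw0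
  have hfin : -lf * E + w * (E * (f - 1)) = E * (-lf + w * (f - 1)) := by ring
  rw [hfin]
  apply mul_neg_of_pos_of_neg hE0
  nlinarith

/-- upper bound for the curvature density -/
theorem w_bound (u0 : Sm) : ∃ C : ℝ, 0 < C ∧ ∀ (T : ℝ) (u : ℝ → Sm), 0 ≤ T → Sol T u → u 0 = u0 →
    ∀ t ∈ Icc 0 T, ∀ p, (ww (u t)).1 p ≤ C := by
  obtain ⟨C, hC, hu⟩ := u_bound u0
  obtain ⟨M, hM⟩ : ∃ x, x = ‖(ww u0).1‖ * Real.exp C + 4 * Real.exp (5 * C) := ⟨_, rfl⟩
  have hM0 : 0 < M := by rw [hM]; positivity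
  refine ⟨M * Real.exp C, by positivity, fun T u hT h h0 => ?_⟩
  have H : HD (Icc 0 T) 0 (fun t => ww (u t) * expS (u t))
      (fun t => - lap (ff (u t)) * expS (u t) + ww (u t) * (expS (u t) * (ff (u t) - 1))) :=
    (h.wwd 0).mul (h.flow 0).expo
  have key := max_princ hT H M (by
    intro p
    rw [h0, sm_mul, expS_apply]
    have h1 : (ww u0).1 p ≤ ‖(ww u0).1‖ := (le_abs_self _).trans ((ww u0).1.norm_coe_le_norm p)
    have h2 : u0.1 p ≤ C := by
      have := (hu T u hT h h0 0 (left_mem_Icc.mpr hT)).1 p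
      rw [h0] at this
      exact (abs_le.mp this).2
    have h3 : Real.exp (u0.1 p) ≤ Real.exp C := Real.exp_le_exp.mpr h2
    have h4 := Real.exp_pos (u0.1 p)
    calc (ww u0).1 p * Real.exp (u0.1 p) ≤ ‖(ww u0).1‖ * Real.exp (u0.1 p) := by gcongr
      _ ≤ ‖(ww u0).1‖ * Real.exp C := by gcongr
      _ ≤ M := by rw [hM]; have := Real.exp_pos (5 * C); linarith) (by
    intro t ht p hmax hgt
    have hw := h.pos t ht
    have hloc := Filter.Eventually.of_forall hmax (f := nhds p)
    have hlap := lap_of_max (ww (u t) * expS (u t)) p hloc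
    have hL := fun i => L_of_max (ww (u t) * expS (u t)) p hloc i
    have e0 : lap (ww (u t) * expS (u t)) = lap (ww (u t)) * expS (u t)
        + 2 * (∑ i, L i (ww (u t)) * (expS (u t) * L i (u t)))
        + ww (u t) * (expS (u t) * (lap (u t) + ∑ i, L i (u t) * L i (u t))) := by
      rw [lap_mul, lap_expS]
      simp only [L_expS]
    have ek := fw_eq hw
    have eLk : ∀ i, L i (ff (u t) * ww (u t)) = cst 2 * (ff (u t) * ww (u t)) * L i (u t) := by
      intro i
      rw [ek, L_cst_mul, L_expS, L_cst_mul]; ring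
    have elk : lap (ff (u t) * ww (u t)) = (ff (u t) * ww (u t)) *
        (cst 2 * lap (u t) + cst 4 * ∑ i, L i (u t) * L i (u t)) := by
      rw [ek, lap_cst_mul, lap_expS, lap_cst_mul]
      simp only [L_cst_mul, Fin.sum_univ_three]
      apply sm_ext; intro q
      simp
      ring
    -- values at the point
    have vk := fun i => congrArg (fun k : Sm => k.1 p) (eLk i)
    have vlk := congrArg (fun k : Sm => k.1 p) elk
    rw [e0] at hlap
    rw [lap_mul] at vlk
    simp only [L_mul, L_expS, sm_add, sm_mul, expS_apply, cst_apply, sm_two,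
      Fin.sum_univ_three] at hL hlap vk vlk
    have hwl : (lap (u t)).1 p = 1 - (ww (u t)).1 p := by rw [ww, sm_sub, sm_one]; ring
    rw [hwl] at hlap vlk
    have hub := abs_le.mp ((hu T u hT h h0 t ht).1 p)
    rw [sm_mul, expS_apply] at hgt
    have hE0 : 0 < Real.exp ((u t).1 p) := Real.exp_pos _
    have hf0 := ff_pos hw p
    have hw0 := hw p
    have hbfw : (bet (u t)).1 p * (ww (u t)).1 p * (ff (u t)).1 p = 1 := by
      have := congrArg (fun k : Sm => k.1 p) (ff_eq hw)
      simpa using this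
    have hb := (bet_bounds (u t) C (hu T u hT h h0 t ht).1 p).1
    simp only [sm_add, sm_neg, sm_mul, sm_sub, sm_one, expS_apply]
    apply w_point hE0 hf0 hw0 ?_ (hL 0) (hL 1) (hL 2) (vk 0) (vk 1) (vk 2) hlap vlk
    generalize (ff (u t)).1 p = f at *
    generalize (ww (u t)).1 p = w at *
    generalize (bet (u t)).1 p = b at *
    generalize hE : Real.exp ((u t).1 p) = E at *
    have hwbig : 4 * Real.exp (4 * C) < w := by
      have h1 : M * Real.exp (-C) < w := by
        have h2 : E ≤ Real.exp C := by rw [← hE]; exact Real.exp_le_exp.mpr hub.2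
        have h3 : M < w * Real.exp C := hgt.trans_le (by gcongr)
        calc M * Real.exp (-C) < w * Real.exp C * Real.exp (-C) := by
              have := Real.exp_pos (-C)
              gcongr
          _ = w := by rw [mul_assoc, ← Real.exp_add]; simp
      refine lt_of_le_of_lt ?_ h1
      calc 4 * Real.exp (4 * C) = 4 * Real.exp (5 * C) * Real.exp (-C) := by
            rw [mul_assoc, ← Real.exp_add]; congr 2; ring
        _ ≤ M * Real.exp (-C) := by
            have := Real.exp_pos (-C)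
            have : 0 ≤ ‖(ww u0).1‖ * Real.exp C := by positivity
            gcongr
            rw [hM]; linarith
    have hfsmall : 4 * f < 1 := by
      have h2 : 4 < b * w := by
        have hbpos : 0 < b := (Real.exp_pos _).trans_le hb
        calc 4 = Real.exp (-(4 * C)) * (4 * Real.exp (4 * C)) := by
              rw [mul_left_comm, ← Real.exp_add]; simp
          _ ≤ b * (4 * Real.exp (4 * C)) := by gcongr
          _ < b * w := by gcongr
      nlinarith
    exact hfsmall)
  intro t ht p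
  have h1 := key t ht p
  rw [sm_mul, expS_apply] at h1
  have h2 := (abs_le.mp ((hu T u hT h h0 t ht).1 p)).1
  have h3 : 0 < (ww (u t)).1 p := h.pos t ht p
  have h4 : (ww (u t)).1 p * Real.exp (-C) ≤ M := by
    refine le_trans ?_ h1
    gcongr
  calc (ww (u t)).1 p = (ww (u t)).1 p * Real.exp (-C) * Real.exp C := by
        rw [mul_assoc, ← Real.exp_add]; simp
    _ ≤ M * Real.exp C := by gcongr

/-- all pointwise bounds together -/
structure PB (M m : ℝ) (v : Sm) : Prop where
  u : ∀ p, |v.1 p| ≤ M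
  L : ∀ i p, |(H797.L i v).1 p| ≤ M
  w1 : ∀ p, m ≤ (ww v).1 p
  w2 : ∀ p, (ww v).1 p ≤ M
  f1 : ∀ p, m ≤ (ff v).1 p
  f2 : ∀ p, (ff v).1 p ≤ M
  b1 : ∀ p, m ≤ (bet v).1 p
  b2 : ∀ p, (bet v).1 p ≤ M

theorem c0_bounds (u0 : Sm) : ∃ M m : ℝ, 0 < M ∧ 0 < m ∧ ∀ (T : ℝ) (u : ℝ → Sm), 0 ≤ T → Sol T u →
    u 0 = u0 → ∀ t ∈ Icc 0 T, PB M m (u t) := by
  obtain ⟨C1, hC1, h1⟩ := u_bound u0
  obtain ⟨C2, hC2, h2⟩ := f_bound u0
  obtain ⟨C3, hC3, h3⟩ := w_bound u0
  obtain ⟨M, hM⟩ : ∃ x, x = C1 + C2 + C3 + Real.exp (4 * C1) := ⟨_, rfl⟩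
  obtain ⟨m, hm⟩ : ∃ x, x = min (Real.exp (-(4 * C1)))
    (min ((Real.exp (4 * C1))⁻¹ / C2) ((Real.exp (4 * C1))⁻¹ / C3)) := ⟨_, rfl⟩
  have he := Real.exp_pos (4 * C1)
  refine ⟨M, m, by rw [hM]; positivity, by rw [hm]; positivity, fun T u hT h h0 t ht => ?_⟩
  have hu := h1 T u hT h h0 t ht
  have hw := h.pos t ht
  have hb := bet_bounds (u t) C1 hu.1
  have hff := h2 T u hT h h0 t ht
  have hww := h3 T u hT h h0 t ht
  have hbfw : ∀ p, (bet (u t)).1 p * (ww (u t)).1 p * (ff (u t)).1 p = 1 := by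
    intro p
    have := congrArg (fun k : Sm => k.1 p) (ff_eq hw)
    simpa using this
  refine ⟨fun p => (hu.1 p).trans (by rw [hM]; linarith),
    fun i p => (hu.2 i p).trans (by rw [hM]; linarith), fun p => ?_,
    fun p => (hww p).trans (by rw [hM]; linarith), fun p => ?_,
    fun p => (hff p).trans (by rw [hM]; linarith), fun p => ?_,
    fun p => (hb p).2.trans (by rw [hM]; linarith)⟩
  · have e1 : m ≤ (Real.exp (4 * C1))⁻¹ / C2 := by
      rw [hm]; exact (min_le_right _ _).trans (min_le_left _ _)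
    refine e1.trans ?_
    rw [div_le_iff₀ hC2, inv_le_iff_one_le_mul₀ he]
    refine (hbfw p).symm.le.trans ?_
    have n1 := ff_pos hw p
    have n2 := hw p
    have n3 := bet_pos (u t) p
    calc (bet (u t)).1 p * (ww (u t)).1 p * (ff (u t)).1 p
        ≤ Real.exp (4 * C1) * (ww (u t)).1 p * C2 := by
          have := (hb p).2
          have := hff p
          gcongr
      _ = _ := by ring
  · have e1 : m ≤ (Real.exp (4 * C1))⁻¹ / C3 := by
      rw [hm]; exact (min_le_right _ _).trans (min_le_right _ _)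
    refine e1.trans ?_
    rw [div_le_iff₀ hC3, inv_le_iff_one_le_mul₀ he]
    refine (hbfw p).symm.le.trans ?_
    have n1 := ff_pos hw p
    have n2 := hw p
    have n3 := bet_pos (u t) p
    calc (bet (u t)).1 p * (ww (u t)).1 p * (ff (u t)).1 p
        ≤ Real.exp (4 * C1) * C3 * (ff (u t)).1 p := by
          have := (hb p).2
          have := hww p
          gcongr
      _ = _ := by ring
  · have e1 : m ≤ Real.exp (-(4 * C1)) := by rw [hm]; exact min_le_left _ _
    exact e1.trans (hb p).1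

end

end Pool.Agent.H797
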