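import Pool.Agent.H797.Energy

set_option autoImplicit false
open Set MeasureTheory
open scoped ContDiff ENNReal

namespace Pool.Agent.H797

noncomputable section

theorem N0_le_of_sup (p : Sm) (s : ℝ) (h : ∀ q, (p.1 q) ^ 2 ≤ s) : J (p * p) ≤ s * mass := by
  have := J_sup_mul p 1 s h
  simpa [J_one] using this

theorem exp_bd (k : ℕ) : ∀ M : ℝ, 0 ≤ M → ∃ C : ℝ, 0 ≤ C ∧ ∀ u : Sm, N (k + 2) u ≤ M →
    N (k + 2) (expS u) ≤ C := by
  obtain ⟨Cs, hCs0, hCs⟩ := sup_sq
  induction k with
  | zero =>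
    intro M hM
    obtain ⟨D, hD0, hD⟩ := J_prod_bd'
    obtain ⟨S, hS⟩ : ∃ x, x = Real.exp (2 * √(Cs * M)) := ⟨_, rfl⟩
    have hS0 : 0 < S := by rw [hS]; exact Real.exp_pos _
    refine ⟨S * mass + 3 * (2 * S * M + 2 * (3 * (S * (D * M * M)))),
      by have := mass_pos; positivity, fun u hu => ?_⟩
    have hsup : ∀ q, ((expS u).1 q) ^ 2 ≤ S := by
      intro q
      rw [expS_apply, ← Real.exp_nat_mul, hS]
      apply Real.exp_le_exp.mpr
      push_cast
      have : u.1 q ≤ √(Cs * M) := by
        apply Real.le_sqrt_of_sq_le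
        exact (hCs u q).trans (by gcongr)
      linarith
    have e : N (0 + 2) (expS u) = J (expS u * expS u) + ∑ i, N 1 (L i (expS u)) := rfl
    have h0 := N0_le_of_sup (expS u) S hsup
    have h1 : ∀ i, N 1 (L i (expS u)) ≤ 2 * S * M + 2 * (3 * (S * (D * M * M))) := by
      intro i
      rw [L_expS]
      refine (N1_mul_le (expS u) (L i u) S hsup).trans ?_
      have a1 : N 1 (L i u) ≤ M := (N_L_le 1 i u).trans hu
      have a2 : ∀ j, J (L j (expS u) * L i u * (L j (expS u) * L i u)) ≤ S * (D * M * M) := by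
        intro j
        rw [L_expS, show expS u * L j u * L i u * (expS u * L j u * L i u)
          = expS u * (L j u * L i u) * (expS u * (L j u * L i u)) by ring]
        refine (J_sup_mul _ _ S hsup).trans ?_
        have a3 : N 1 (L j u) ≤ M := (N_L_le 1 j u).trans hu
        have a4 := hD (L j u) (L i u)
        have n1 := N_nonneg 1 (L i u)
        have n2 := N_nonneg 1 (L j u)
        have a5 : D * N 1 (L j u) * N 1 (L i u) ≤ D * M * M := by gcongr
        have a6 := a4.trans a5
        gcongr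
      have a7 := sum3_le a2
      have : 2 * S * N 1 (L i u) ≤ 2 * S * M := by gcongr
      linarith
    rw [e]
    have h2 := sum3_le h1
    linarith
  | succ k ih =>
    intro M hM
    obtain ⟨C1, hC10, hC1⟩ := ih M hM
    obtain ⟨Ca, hCa0, hCa⟩ := alg k
    refine ⟨C1 + 3 * (Ca * C1 * M), by positivity, fun u hu => ?_⟩
    have hu' : N (k + 2) u ≤ M := (N_mono (by omega) u).trans hu
    have e : N (k + 1 + 2) (expS u) = J (expS u * expS u) + ∑ i, N (k + 2) (L i (expS u)) := rfl
    have h0 : J (expS u * expS u) ≤ C1 :=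
      (N_mono (k := 0) (l := k + 2) (by omega) (expS u)).trans (hC1 u hu')
    have h1 : ∀ i, N (k + 2) (L i (expS u)) ≤ Ca * C1 * M := by
      intro i
      rw [L_expS]
      refine (hCa _ _).trans ?_
      have a1 := hC1 u hu'
      have a2 : N (k + 2) (L i u) ≤ M := (N_L_le (k + 2) i u).trans hu
      have n1 := N_nonneg (k + 2) (L i u)
      have n2 := N_nonneg (k + 2) (expS u)
      gcongr
    rw [e]
    have h2 := sum3_le h1
    linarith

theorem inv_bd (k : ℕ) : ∀ M m : ℝ, 0 ≤ M → 0 < m → ∃ C : ℝ, 0 ≤ C ∧ ∀ g : Sm,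
    (∀ p, m ≤ g.1 p) → N (k + 2) g ≤ M → N (k + 2) (invS g) ≤ C := by
  induction k with
  | zero =>
    intro M m hM hm
    obtain ⟨D, hD0, hD⟩ := J_prod_bd'
    obtain ⟨s, hs⟩ : ∃ x, x = m⁻¹ := ⟨_, rfl⟩
    have hs0 : 0 < s := by rw [hs]; positivity
    refine ⟨s ^ 2 * mass + 3 * (2 * s ^ 4 * M + 2 * (3 * (4 * s ^ 6 * (D * M * M)))),
      by have := mass_pos; positivity, fun g hg hu => ?_⟩
    have hne : ∀ p, g.1 p ≠ 0 := fun p => (lt_of_lt_of_le hm (hg p)).ne'
    have hr : ∀ q, 0 ≤ (invS g).1 q ∧ (invS g).1 q ≤ s := by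
      intro q
      rw [invS_apply g hne, hs]
      exact ⟨inv_nonneg.mpr (hm.le.trans (hg q)), inv_anti₀ hm (hg q)⟩
    have e : N (0 + 2) (invS g) = J (invS g * invS g) + ∑ i, N 1 (L i (invS g)) := rfl
    have h0 := N0_le_of_sup (invS g) (s ^ 2) (fun q => pow_le_pow_left₀ (hr q).1 (hr q).2 2)
    have h1 : ∀ i, N 1 (L i (invS g)) ≤ 2 * s ^ 4 * M + 2 * (3 * (4 * s ^ 6 * (D * M * M))) := by
      intro i
      rw [L_invS i g hne, N_neg]
      have hrr : ∀ q, ((invS g * invS g).1 q) ^ 2 ≤ s ^ 4 := by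
        intro q
        rw [sm_mul, ← sq, ← pow_mul]
        exact pow_le_pow_left₀ (hr q).1 (hr q).2 4
      refine (N1_mul_le (invS g * invS g) (L i g) (s ^ 4) hrr).trans ?_
      have a1 : N 1 (L i g) ≤ M := (N_L_le 1 i g).trans hu
      have a2 : ∀ j, J (L j (invS g * invS g) * L i g * (L j (invS g * invS g) * L i g))
          ≤ 4 * s ^ 6 * (D * M * M) := by
        intro j
        have e2 : L j (invS g * invS g) * L i g
            = (cst (-2) * (invS g * invS g * invS g)) * (L j g * L i g) := by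
          rw [L_mul, L_invS j g hne]
          apply sm_ext; intro p; simp; ring
        rw [e2]
        refine (J_sup_mul _ _ (4 * s ^ 6) ?_).trans ?_
        · intro q
          simp only [sm_mul, cst_apply]
          have : (-2 * ((invS g).1 q * (invS g).1 q * (invS g).1 q)) ^ 2
              = 4 * ((invS g).1 q) ^ 6 := by ring
          rw [this]
          have := pow_le_pow_left₀ (hr q).1 (hr q).2 6
          linarith
        · have a3 : N 1 (L j g) ≤ M := (N_L_le 1 j g).trans hu
          have a4 := hD (L j g) (L i g)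
          have n1 := N_nonneg 1 (L i g)
          have n2 := N_nonneg 1 (L j g)
          have a5 : D * N 1 (L j g) * N 1 (L i g) ≤ D * M * M := by gcongr
          have a6 := a4.trans a5
          gcongr
      have a7 := sum3_le a2
      have : 2 * s ^ 4 * N 1 (L i g) ≤ 2 * s ^ 4 * M := by gcongr
      linarith
    rw [e]
    have h2 := sum3_le h1
    linarith
  | succ k ih =>
    intro M m hM hm
    obtain ⟨C1, hC10, hC1⟩ := ih M m hM hm
    obtain ⟨Ca, hCa0, hCa⟩ := alg k
    refine ⟨C1 + 3 * (Ca * (Ca * C1 * C1) * M), by positivity, fun g hg hu => ?_⟩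
    have hne : ∀ p, g.1 p ≠ 0 := fun p => (lt_of_lt_of_le hm (hg p)).ne'
    have hu' : N (k + 2) g ≤ M := (N_mono (by omega) g).trans hu
    have e : N (k + 1 + 2) (invS g) = J (invS g * invS g) + ∑ i, N (k + 2) (L i (invS g)) := rfl
    have hc := hC1 g hg hu'
    have h0 : J (invS g * invS g) ≤ C1 :=
      (N_mono (k := 0) (l := k + 2) (by omega) (invS g)).trans hc
    have h1 : ∀ i, N (k + 2) (L i (invS g)) ≤ Ca * (Ca * C1 * C1) * M := by
      intro i
      rw [L_invS i g hne, N_neg]
      refine (hCa _ _).trans ?_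
      have a2 : N (k + 2) (L i g) ≤ M := (N_L_le (k + 2) i g).trans hu
      have n1 := N_nonneg (k + 2) (L i g)
      have n2 := N_nonneg (k + 2) (invS g)
      have a3 : N (k + 2) (invS g * invS g) ≤ Ca * C1 * C1 := (hCa _ _).trans (by gcongr)
      gcongr
    rw [e]
    have h2 := sum3_le h1
    linarith

/-- qualitative interpolation -/
theorem interp (k : ℕ) : ∀ ε M : ℝ, 0 < ε → ∃ δ : ℝ, 0 < δ ∧ ∀ g : Sm, N 0 g ≤ δ →
    N (2 * k) g ≤ M → N k g ≤ ε := by
  induction k with
  | zero =>
    intro ε M hε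
    exact ⟨ε, hε, fun g hg _ => hg⟩
  | succ k ih =>
    intro ε M hε
    obtain ⟨δ, hδ, hδ2⟩ := ih (ε / 6) M (by positivity)
    refine ⟨min (ε / 2) (δ ^ 2 / (|M| + 1)), by positivity, fun g hg hM => ?_⟩
    have hM0 : 0 ≤ M := (N_nonneg _ _).trans hM
    have h1 : N (k + 1) g = J (g * g) + ∑ i, N k (L i g) := rfl
    have h2 : ∀ i, N k (L i g) ≤ ε / 6 := by
      intro i
      apply hδ2
      · have e1 : N 0 (L i g) ≤ √(N 0 g) * √(N 0 (L i (L i g))) := by
          rw [N_zero, J_ibp]
          exact (neg_le_abs _).trans (J_CS_abs g (L i (L i g)))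
        refine e1.trans ?_
        have e2 : N 0 (L i (L i g)) ≤ M := by
          refine (N_L_le 0 i (L i g)).trans ((N_L_le 1 i g).trans ?_)
          exact (N_mono (by omega) g).trans hM
        rw [← Real.sqrt_mul (N_nonneg 0 g)]
        rw [show δ = √(δ ^ 2) from (Real.sqrt_sq hδ.le).symm]
        apply Real.sqrt_le_sqrt
        have e3 : N 0 g ≤ δ ^ 2 / (|M| + 1) := hg.trans (min_le_right _ _)
        have n1 := N_nonneg 0 (L i (L i g))
        calc N 0 g * N 0 (L i (L i g)) ≤ δ ^ 2 / (|M| + 1) * M := by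
              apply mul_le_mul e3 e2 n1 (by positivity)
          _ ≤ δ ^ 2 / (|M| + 1) * (|M| + 1) := by
              gcongr
              have := le_abs_self M
              linarith
          _ = δ ^ 2 := by field_simp
      · refine (N_L_le (2 * k) i g).trans ((N_mono (by omega) g).trans hM)
    have h3 := sum3_le h2
    have h4 : J (g * g) ≤ ε / 2 := hg.trans (min_le_left _ _)
    rw [h1]
    linarith

end

end Pool.Agent.H797
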