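import Pool.Agent.H797.Lip

set_option autoImplicit false
open Set MeasureTheory Filter Topology
open scoped ContDiff

namespace Pool.Agent.H797

noncomputable section

theorem norm_le_N : ∃ C : ℝ, 0 ≤ C ∧ ∀ g : Sm, ‖g.1‖ ≤ √(C * N 2 g) := by
  obtain ⟨C, hC0, hC⟩ := sup_sq
  refine ⟨C, hC0, fun g => ?_⟩
  rw [ContinuousMap.norm_le _ (Real.sqrt_nonneg _)]
  intro p
  rw [Real.norm_eq_abs]
  exact Real.abs_le_sqrt (hC g p)

theorem N0_le_norm (g : Sm) : N 0 g ≤ ‖g.1‖ ^ 2 * mass := by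
  apply N0_le_of_sup
  intro q
  rw [← sq_abs]
  exact pow_le_pow_left₀ (abs_nonneg _) (g.1.norm_coe_le_norm q) 2

/-- Cauchy in all norms -/
def CN (g : ℕ → Sm) : Prop := ∀ k, ∀ ε > 0, ∃ n0, ∀ m ≥ n0, ∀ n ≥ n0, N k (g m - g n) ≤ ε

theorem CN.L {g : ℕ → Sm} (h : CN g) (i : Fin 3) : CN (fun n => L i (g n)) := by
  intro k ε hε
  obtain ⟨n0, hn0⟩ := h (k + 1) ε hε
  refine ⟨n0, fun m hm n hn => ?_⟩
  rw [← map_sub]
  exact (N_L_le k i _).trans (hn0 m hm n hn)

theorem CN.unif {g : ℕ → Sm} (h : CN g) : ∃ v : C(S2, ℝ), Tendsto (fun n => (g n).1) atTop (𝓝 v) := by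
  obtain ⟨C, hC0, hC⟩ := norm_le_N
  apply cauchySeq_tendsto_of_complete
  rw [Metric.cauchySeq_iff]
  intro ε hε
  obtain ⟨n0, hn0⟩ := h 2 (ε ^ 2 / (4 * (C + 1))) (by positivity)
  refine ⟨n0, fun m hm n hn => ?_⟩
  rw [dist_eq_norm]
  change ‖(g m - g n).1‖ < ε
  refine (hC _).trans_lt ?_
  rw [Real.sqrt_lt' hε]
  calc C * N 2 (g m - g n) ≤ C * (ε ^ 2 / (4 * (C + 1))) := by
        gcongr; exact hn0 m hm n hn
    _ ≤ (C + 1) * (ε ^ 2 / (4 * (C + 1))) := by gcongr; linarith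
    _ = ε ^ 2 / 4 := by field_simp
    _ < ε ^ 2 := by linarith [pow_pos hε 2]

/-- the differential built from rotation derivatives -/
def dform (w : Fin 3 → C(S2, ℝ)) (z : E3) : E3 →L[ℝ] ℝ :=
  ∑ i, ((‖z‖ ^ 2)⁻¹ * ex (w i) z) • innerSL ℝ (A i z)

theorem fderiv_dform (g : Sm) {z : E3} (hz : z ≠ 0) :
    fderiv ℝ (ex g.1) z = dform (fun i => (L i g).1) z := by
  ext h
  rw [fderiv_formula g hz, dform, sum_apply, Finset.mul_sum]
  apply Finset.sum_congr rfl
  intro i _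
  simp only [smul_apply, innerSL_apply_apply, smul_eq_mul]
  ring

theorem dform_sub (w w' : Fin 3 → C(S2, ℝ)) (z : E3) (hz : z ≠ 0) (δ : ℝ)
    (h : ∀ i, ‖w i - w' i‖ ≤ δ) : ‖dform w z - dform w' z‖ ≤ 3 * δ / ‖z‖ := by
  have hn : 0 < ‖z‖ := norm_pos_iff.mpr hz
  have e : dform w z - dform w' z = ∑ i, ((‖z‖ ^ 2)⁻¹ * ex (w i - w' i) z) • innerSL ℝ (A i z) := by
    rw [dform, dform, ← Finset.sum_sub_distrib]
    apply Finset.sum_congr rfl
    intro i _
    have : ex (w i - w' i) z = ex (w i) z - ex (w' i) z := rfl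
    rw [this, mul_sub, sub_smul]
  rw [e]
  have h1 : ∀ i : Fin 3, ‖((‖z‖ ^ 2)⁻¹ * ex (w i - w' i) z) • innerSL ℝ (A i z)‖ ≤ δ / ‖z‖ := by
    intro i
    rw [norm_smul, innerSL_apply_norm, norm_mul, norm_inv, norm_pow, norm_norm]
    have a1 : ‖ex (w i - w' i) z‖ ≤ δ := ((w i - w' i).norm_coe_le_norm (proj z)).trans (h i)
    have a2 := A_norm_le i z
    calc (‖z‖ ^ 2)⁻¹ * ‖ex (w i - w' i) z‖ * ‖A i z‖ ≤ (‖z‖ ^ 2)⁻¹ * δ * ‖z‖ := by
          have : 0 ≤ δ := (norm_nonneg _).trans (h i)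
          gcongr
      _ = δ / ‖z‖ := by field_simp
  refine (norm_sum_le _ _).trans ((sum3_le h1).trans (le_of_eq ?_))
  ring

theorem contDiffOn_dform {n : WithTop ℕ∞} (w : Fin 3 → C(S2, ℝ))
    (h : ∀ i, ContDiffOn ℝ n (ex (w i)) U0) : ContDiffOn ℝ n (dform w) U0 := by
  unfold dform
  apply ContDiffOn.sum
  intro i _
  refine ContDiffOn.smul (f := fun z => (‖z‖ ^ 2)⁻¹ * ex (w i) z)
    (g := fun z => innerSL ℝ (A i z)) ?_ ?_
  · apply ContDiffOn.mul _ (h i)
    intro x hx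
    have h1 : ContDiffAt ℝ n (fun x : E3 => ‖x‖ ^ 2) x := (contDiffAt_id.norm_sq ℝ)
    exact (h1.inv (by have := norm_pos_iff.mpr hx; positivity)).contDiffWithinAt
  · exact ((innerSL ℝ).contDiff.comp (A i).contDiff).contDiffOn

theorem hasFDerivAt_lim {g : ℕ → Sm} {v : C(S2, ℝ)} {w : Fin 3 → C(S2, ℝ)}
    (hv : Tendsto (fun n => (g n).1) atTop (𝓝 v))
    (hw : ∀ i, Tendsto (fun n => (L i (g n)).1) atTop (𝓝 (w i))) {z : E3} (hz : z ≠ 0) :
    HasFDerivAt (ex v) (dform w z) z := by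
  apply hasFDerivAt_of_tendstoLocallyUniformlyOn isOpen_U0 (l := atTop)
    (f := fun n => ex (g n).1) (f' := fun n z => fderiv ℝ (ex (g n).1) z) (x := z) _ _ _ hz
  · rw [Metric.tendstoLocallyUniformlyOn_iff]
    intro ε hε z0 hz0
    have hn : 0 < ‖z0‖ := norm_pos_iff.mpr hz0
    refine ⟨{z | ‖z0‖ / 2 < ‖z‖}, ?_, ?_⟩
    · apply mem_nhdsWithin_of_mem_nhds
      apply IsOpen.mem_nhds (isOpen_lt continuous_const continuous_norm)
      change ‖z0‖ / 2 < ‖z0‖
      linarith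
    · have h1 : ∀ᶠ n in atTop, ∀ i, ‖(L i (g n)).1 - w i‖ ≤ ε * ‖z0‖ / 12 := by
        rw [Filter.eventually_all]
        intro i
        have := (tendsto_iff_norm_sub_tendsto_zero.mp (hw i)).eventually_le_const
          (show 0 < ε * ‖z0‖ / 12 by positivity)
        exact this
      filter_upwards [h1] with n hn1 z hz1
      have hz2 : ‖z0‖ / 2 < ‖z‖ := hz1
      have hz3 : z ≠ 0 := by
        intro h
        rw [h, norm_zero] at hz2
        linarith
      rw [dist_comm, dist_eq_norm, fderiv_dform _ hz3]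
      refine (dform_sub _ _ z hz3 _ hn1).trans_lt ?_
      rw [div_lt_iff₀ (by linarith)]
      nlinarith
  · intro n x hx
    exact (diffAt_ex (g n) hx).hasFDerivAt
  · intro x hx
    exact ((continuous_eval_const (proj x)).tendsto v).comp hv

theorem smooth_lim (n : ℕ) : ∀ (g : ℕ → Sm) (v : C(S2, ℝ)), CN g →
    Tendsto (fun n => (g n).1) atTop (𝓝 v) → ContDiffOn ℝ n (ex v) U0 := by
  induction n with
  | zero =>
    intro g v _ _
    exact contDiffOn_zero.mpr (continuousOn_ex v)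
  | succ n ih =>
    intro g v hg hv
    choose w hw using fun i => (hg.L i).unif
    have h1 : ∀ z ∈ U0, HasFDerivAt (ex v) (dform w z) z := fun z hz => hasFDerivAt_lim hv hw hz
    have h2 : ContDiffOn ℝ n (dform w) U0 :=
      contDiffOn_dform w (fun i => ih _ _ (hg.L i) (hw i))
    have h3 : ContDiffOn ℝ n (fderiv ℝ (ex v)) U0 := h2.congr (fun z hz => (h1 z hz).fderiv)
    have : ((n + 1 : ℕ) : WithTop ℕ∞) = (n : WithTop ℕ∞) + 1 := by push_cast; rfl
    rw [this, contDiffOn_succ_iff_fderiv_of_isOpen isOpen_U0]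
    refine ⟨fun z hz => (h1 z hz).differentiableAt.differentiableWithinAt, ?_, h3⟩
    intro h
    exact absurd h (by simp)

theorem L_lim {g : ℕ → Sm} {v : Sm} (hg : CN g)
    (hv : Tendsto (fun n => (g n).1) atTop (𝓝 v.1)) (i : Fin 3) :
    Tendsto (fun n => (L i (g n)).1) atTop (𝓝 (L i v).1) := by
  choose w hw using fun i => (hg.L i).unif
  have key : ∀ i, w i = (L i v).1 := by
    intro i
    ext p
    have h1 := (hasFDerivAt_lim hv hw (S2_ne p)).fderiv
    rw [L_apply, h1]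
    have h2 : Tendsto (fun n => (L i (g n)).1 p) atTop (𝓝 (w i p)) :=
      ((continuous_eval_const p).tendsto (w i)).comp (hw i)
    have h3 : Tendsto (fun n => (L i (g n)).1 p) atTop (𝓝 (dform w p (A i p))) := by
      have e : ∀ n, (L i (g n)).1 p = dform (fun j => (L j (g n)).1) p (A i p) := by
        intro n
        rw [L_apply, fderiv_dform _ (S2_ne p)]
      simp only [e, dform, sum_apply, smul_apply, smul_eq_mul]
      apply tendsto_finsetSum
      intro j _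
      apply Tendsto.mul_const
      apply Tendsto.const_mul
      exact ((continuous_eval_const (proj (p : E3))).tendsto (w j)).comp (hw j)
    exact tendsto_nhds_unique h2 h3
  rw [← key i]
  exact hw i

theorem N_lim (k : ℕ) : ∀ (g : ℕ → Sm) (v : Sm), CN g →
    Tendsto (fun n => (g n).1) atTop (𝓝 v.1) → Tendsto (fun n => N k (g n - v)) atTop (𝓝 0) := by
  have base : ∀ (g : ℕ → Sm) (v : Sm), Tendsto (fun n => (g n).1) atTop (𝓝 v.1) →
      Tendsto (fun n => J ((g n - v) * (g n - v))) atTop (𝓝 0) := by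
    intro g v hv
    have h1 := tendsto_iff_norm_sub_tendsto_zero.mp hv
    have h2 : Tendsto (fun n => ‖(g n).1 - v.1‖ ^ 2 * mass) atTop (𝓝 0) := by
      have := (h1.pow 2).mul_const mass
      simpa using this
    exact squeeze_zero (fun n => J_sq_nonneg _) (fun n => N0_le_norm (g n - v)) h2
  induction k with
  | zero => exact fun g v _ hv => base g v hv
  | succ k ih =>
    intro g v hg hv
    have h1 := base g v hv
    have h2 : Tendsto (fun n => ∑ i, N k (L i (g n) - L i v)) atTop (𝓝 0) := by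
      have := tendsto_finsetSum (Finset.univ : Finset (Fin 3))
        (fun i _ => ih _ _ (hg.L i) (L_lim hg hv i))
      simpa using this
    have h3 := h1.add h2
    simp only [add_zero] at h3
    refine h3.congr (fun n => ?_)
    rw [N_succ]
    simp only [map_sub]

theorem CN.lim {g : ℕ → Sm} (hg : CN g) : ∃ v : Sm, Tendsto (fun n => (g n).1) atTop (𝓝 v.1) ∧
    ∀ k, Tendsto (fun n => N k (g n - v)) atTop (𝓝 0) := by
  obtain ⟨v, hv⟩ := hg.unif
  have hs : ContDiffOn ℝ ∞ (ex v) U0 := contDiffOn_infty.mpr (fun n => smooth_lim n g v hg hv)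
  refine ⟨⟨v, hs⟩, hv, fun k => N_lim k g ⟨v, hs⟩ hg hv⟩

/-- uniformly Cauchy and bounded in all norms implies Cauchy in all norms -/
theorem CN.of_unif {g : ℕ → Sm} (hb : ∀ k, ∃ C, ∀ n, N k (g n) ≤ C)
    (hc : CauchySeq (fun n => (g n).1)) : CN g := by
  intro k ε hε
  obtain ⟨C, hC⟩ := hb (2 * k)
  obtain ⟨δ, hδ, hδ2⟩ := interp k ε (4 * C) hε
  have hm := mass_pos
  obtain ⟨n0, hn0⟩ := Metric.cauchySeq_iff.mp hc (√(δ / mass)) (Real.sqrt_pos.mpr (by positivity))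
  refine ⟨n0, fun m hm' n hn => ?_⟩
  apply hδ2
  · have h1 := hn0 m hm' n hn
    rw [dist_eq_norm] at h1
    have h2 : ‖(g m - g n).1‖ ^ 2 ≤ δ / mass := by
      have h3 : ‖(g m - g n).1‖ ≤ √(δ / mass) := h1.le
      calc ‖(g m - g n).1‖ ^ 2 ≤ √(δ / mass) ^ 2 := by gcongr
        _ = δ / mass := Real.sq_sqrt (by positivity)
    refine (N0_le_norm _).trans ?_
    calc ‖(g m - g n).1‖ ^ 2 * mass ≤ δ / mass * mass := by gcongr
      _ = δ := by field_simp
  · refine (N_sub_le _ _ _).trans ?_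
    have := hC m
    have := hC n
    linarith

/-- Arzela Ascoli for Lipschitz sequences -/
theorem arz {X : Type*} [MetricSpace X] [CompactSpace X] (g : ℕ → C(X, ℝ)) (K : NNReal) (M : ℝ)
    (hM : ∀ n x, |g n x| ≤ M) (hK : ∀ n, LipschitzWith K (g n)) :
    ∃ φ : ℕ → ℕ, StrictMono φ ∧ ∃ v : C(X, ℝ), Tendsto (fun n => g (φ n)) atTop (𝓝 v) := by
  let B : ℕ → BoundedContinuousFunction X ℝ := fun n => BoundedContinuousFunction.mkOfCompact (g n)
  have hcomp := BoundedContinuousFunction.arzela_ascoli (Icc (-M) M) isCompact_Icc (range B)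
    (by
      rintro f x ⟨n, rfl⟩
      exact abs_le.mp (hM n x)) (by
      apply UniformEquicontinuous.equicontinuous
      apply LipschitzWith.uniformEquicontinuous _ K
      rintro ⟨f, n, rfl⟩
      exact hK n)
  obtain ⟨v, _, φ, hφ, hv⟩ := hcomp.tendsto_subseq (x := B) (fun n => subset_closure ⟨n, rfl⟩)
  refine ⟨φ, hφ, v.toContinuousMap, ?_⟩
  rw [tendsto_iff_dist_tendsto_zero] at hv ⊢
  refine hv.congr (fun n => ?_)
  rw [← BoundedContinuousFunction.dist_toContinuousMap]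
  rfl

/-- compactness in the smooth topology -/
theorem compact_Sm (g : ℕ → Sm) (hb : ∀ k, ∃ C, ∀ n, N k (g n) ≤ C) :
    ∃ φ : ℕ → ℕ, StrictMono φ ∧ ∃ v : Sm, Tendsto (fun n => (g (φ n)).1) atTop (𝓝 v.1) ∧
      ∀ k, Tendsto (fun n => N k (g (φ n) - v)) atTop (𝓝 0) := by
  obtain ⟨C, hC0, hC⟩ := norm_le_N
  obtain ⟨C3, hC3⟩ := hb 3
  have hC30 : 0 ≤ C3 := (N_nonneg _ _).trans (hC3 0)
  have h1 : ∀ n, ‖(g n).1‖ ≤ √(C * C3) := fun n => (hC (g n)).trans (Real.sqrt_le_sqrt (by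
    have := (N_mono (k := 2) (l := 3) (by norm_num) (g n)).trans (hC3 n)
    gcongr))
  have h2 : ∀ n i, ‖(L i (g n)).1‖ ≤ √(C * C3) := fun n i => (hC (L i (g n))).trans
    (Real.sqrt_le_sqrt (by
      have := (N_L_le 2 i (g n)).trans (hC3 n)
      gcongr))
  have hlip : ∀ n, LipschitzWith (Real.toNNReal (8 * √(C * C3))) (fun p => (g n).1 p) := by
    intro n
    apply LipschitzWith.of_dist_le_mul
    intro x y
    rw [Real.coe_toNNReal _ (by positivity), Real.dist_eq]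
    have := lip_of_L (g n) (√(C * C3)) (√(C * C3))
      (fun i p => ((L i (g n)).1.norm_coe_le_norm p).trans (h2 n i))
      (fun p => ((g n).1.norm_coe_le_norm p).trans (h1 n)) x y
    have e : dist x y = ‖(x : E3) - y‖ := by rw [Subtype.dist_eq, dist_eq_norm]
    rw [e]
    refine this.trans (le_of_eq ?_)
    ring
  obtain ⟨φ, hφ, v, hv⟩ := arz (fun n => (g n).1) _ (√(C * C3))
    (fun n x => ((g n).1.norm_coe_le_norm x).trans (h1 n)) hlip
  have hCN : CN (fun n => g (φ n)) :=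
    CN.of_unif (fun k => by
      obtain ⟨D, hD⟩ := hb k
      exact ⟨D, fun n => hD (φ n)⟩) hv.cauchySeq
  obtain ⟨w, hw, hw2⟩ := hCN.lim
  exact ⟨φ, hφ, w, hw, hw2⟩

end

end Pool.Agent.H797
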