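import Pool.Agent.H797.Integ

set_option autoImplicit false
open Set MeasureTheory
open scoped ContDiff ENNReal

namespace Pool.Agent.H797

noncomputable section

abbrev P2 : Type := Fin 2 → ℝ

/-- insertion as a point of the space -/
def ins (c : Fin 3) (t : ℝ) (y : P2) : E3 :=
  WithLp.toLp 2 (Fin.insertNth (α := fun _ => ℝ) c t y)

theorem ins_same (c : Fin 3) (t : ℝ) (y : P2) : ins c t y c = t := by
  simp [ins]

theorem ins_above (c : Fin 3) (t : ℝ) (y : P2) (j : Fin 2) : ins c t y (c.succAbove j) = y j := by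
  simp [ins]

theorem ins_ext {c : Fin 3} {x y : E3} (h : x c = y c)
    (h2 : ∀ j : Fin 2, x (c.succAbove j) = y (c.succAbove j)) : x = y := by
  ext j
  rcases Fin.eq_self_or_eq_succAbove c j with rfl | ⟨k, rfl⟩
  · exact h
  · exact h2 k

theorem ins_smul (c : Fin 3) (r t : ℝ) (y : P2) : r • ins c t y = ins c (r * t) (r • y) := by
  apply ins_ext (c := c)
  · simp [ins_same]
  · intro j; simp [ins_above]

theorem ins_add (c : Fin 3) (s t : ℝ) (x y : P2) :
    ins c s x + ins c t y = ins c (s + t) (x + y) := by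
  apply ins_ext (c := c)
  · simp [ins_same]
  · intro j; simp [ins_above]

theorem ins_ne (c : Fin 3) (y : P2) : ins c 1 y ≠ 0 := by
  intro h
  have := congrArg (fun x : E3 => x c) h
  simp [ins_same] at this

theorem mp_ins (c : Fin 3) :
    MeasurePreserving (fun z : ℝ × P2 => ins c z.1 z.2) volume volume := by
  have h1 := (volume_preserving_piFinSuccAbove (fun _ : Fin 3 => ℝ) c).symm
    (MeasurableEquiv.piFinSuccAbove (fun _ : Fin 3 => ℝ) c)
  exact (PiLp.volume_preserving_toLp (Fin 3)).comp h1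

def cone (c : Fin 3) (ρ τ : ℝ) : Set E3 :=
  {x | 0 < x c ∧ x c ≤ τ ∧ ∀ j : Fin 2, |x (c.succAbove j)| ≤ ρ * x c}

def box (ρ : ℝ) : Set P2 := {y | ∀ j, |y j| ≤ ρ}

theorem meas_coord (c : Fin 3) : Measurable (fun x : E3 => x c) := by
  fun_prop

theorem measurable_cone (c : Fin 3) (ρ τ : ℝ) : MeasurableSet (cone c ρ τ) := by
  have h1 : MeasurableSet {x : E3 | 0 < x c} := measurableSet_lt measurable_const (meas_coord c)
  have h2 : MeasurableSet {x : E3 | x c ≤ τ} := measurableSet_le (meas_coord c) measurable_const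
  have h3 : MeasurableSet {x : E3 | ∀ j : Fin 2, |x (c.succAbove j)| ≤ ρ * x c} := by
    rw [ofPred_forall]
    apply MeasurableSet.iInter
    intro j
    exact measurableSet_le (by fun_prop) (by fun_prop)
  exact h1.inter (h2.inter h3)

theorem measurable_box (ρ : ℝ) : MeasurableSet (box ρ) := by
  rw [box, ofPred_forall]
  apply MeasurableSet.iInter
  intro j
  exact measurableSet_le (by fun_prop) (by fun_prop)

theorem lint_scale (f : P2 → ℝ≥0∞) (hf : Measurable f) (t : ℝ) (ht : 0 < t) :
    ∫⁻ y, f y = ENNReal.ofReal (t ^ 2) * ∫⁻ y, f (t • y) := by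
  have h1 := Measure.map_addHaar_smul (volume : Measure P2) ht.ne'
  have h2 : ∫⁻ y, f (t • y) = ∫⁻ y, f y ∂(Measure.map (fun x => t • x) (volume : Measure P2)) := by
    rw [lintegral_map hf (by fun_prop)]
  rw [h2, h1, lintegral_smul_measure, smul_eq_mul, ← mul_assoc, ← ENNReal.ofReal_mul (by positivity)]
  have h3 : t ^ 2 * |(t ^ Module.finrank ℝ P2)⁻¹| = 1 := by
    have : Module.finrank ℝ P2 = 2 := by simp
    rw [this, abs_of_pos (by positivity)]
    field_simp
  rw [h3]
  simp

theorem cone_int (c : Fin 3) (F : E3 → ℝ≥0∞) (hF : Measurable F)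
    (hom : ∀ r : ℝ, 0 < r → ∀ x, F (r • x) = F x) (ρ τ : ℝ) (hτ : 0 ≤ τ) :
    ∫⁻ x in cone c ρ τ, F x = ENNReal.ofReal (τ ^ 3 / 3) * ∫⁻ y in box ρ, F (ins c 1 y) := by
  rw [← lintegral_indicator (measurable_cone c ρ τ)]
  have hG : Measurable ((cone c ρ τ).indicator F) := hF.indicator (measurable_cone c ρ τ)
  have hI : Measurable (fun y : P2 => F (ins c 1 y)) := by
    apply hF.comp
    exact (mp_ins c).measurable.comp (measurable_const.prodMk measurable_id)
  rw [← (mp_ins c).lintegral_comp hG]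
  change ∫⁻ z : ℝ × P2, (cone c ρ τ).indicator F (ins c z.1 z.2) ∂(volume.prod volume) = _
  rw [lintegral_prod (fun z : ℝ × P2 => (cone c ρ τ).indicator F (ins c z.1 z.2))
    ((hG.comp (mp_ins c).measurable).aemeasurable)]
  have inner : ∀ t : ℝ, ∫⁻ y, (cone c ρ τ).indicator F (ins c t y)
      = (Ioc 0 τ).indicator (fun t => ENNReal.ofReal (t ^ 2) * ∫⁻ y in box ρ, F (ins c 1 y)) t := by
    intro t
    by_cases ht : t ∈ Ioc 0 τ
    · rw [indicator_of_mem ht]
      rw [lint_scale (fun y => (cone c ρ τ).indicator F (ins c t y))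
        (hG.comp ((mp_ins c).measurable.comp (measurable_const.prodMk measurable_id))) t ht.1]
      congr 1
      rw [← lintegral_indicator (measurable_box ρ)]
      apply lintegral_congr
      intro y
      have e1 : ins c t (t • y) = t • ins c 1 y := by rw [ins_smul, mul_one]
      have e2 : ins c t (t • y) ∈ cone c ρ τ ↔ y ∈ box ρ := by
        simp only [cone, box, mem_ofPred_eq, ins_same, ins_above, ht.1, ht.2, true_and,
          Pi.smul_apply, smul_eq_mul, abs_mul, abs_of_pos ht.1]
        constructor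
        · intro h j
          have := h j
          rw [mul_comm ρ] at this
          exact le_of_mul_le_mul_left this ht.1
        · intro h j
          rw [mul_comm ρ]
          exact mul_le_mul_of_nonneg_left (h j) ht.1.le
      by_cases hy : y ∈ box ρ
      · rw [indicator_of_mem (e2.mpr hy), indicator_of_mem hy, e1, hom t ht.1]
      · rw [indicator_of_notMem (fun h => hy (e2.mp h)), indicator_of_notMem hy]
    · rw [indicator_of_notMem ht]
      have : ∀ y, (cone c ρ τ).indicator F (ins c t y) = 0 := by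
        intro y
        apply indicator_of_notMem
        intro h
        apply ht
        have h1 := h.1
        have h2 := h.2.1
        rw [ins_same] at h1 h2
        exact ⟨h1, h2⟩
      simp [this]
  simp_rw [inner]
  rw [lintegral_indicator measurableSet_Ioc, lintegral_mul_const _ (by fun_prop)]
  congr 1
  rw [← ofReal_integral_eq_lintegral_ofReal]
  · congr 1
    rw [← intervalIntegral.integral_of_le hτ, integral_pow]
    norm_num
  · have : ContinuousOn (fun t : ℝ => t ^ 2) (Icc 0 τ) := by fun_prop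
    exact (this.integrableOn_Icc).mono_set Ioc_subset_Icc_self
  · exact Filter.Eventually.of_forall (fun t => by positivity)

theorem measurable_ex (g : C(S2, ℝ)) : Measurable (ex g) :=
  measurable_of_continuousOn_compl_singleton 0 (continuousOn_ex g)

theorem ball_lint (h : C(S2, ℝ)) (H : ∀ p, 0 ≤ h p) :
    ENNReal.ofReal (I h) = 3 * ∫⁻ x in Metric.ball (0 : E3) 1, ENNReal.ofReal (ex h x) := by
  rw [I_ball, ENNReal.ofReal_mul (by norm_num), ofReal_integral_eq_lintegral_ofReal]
  · norm_num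
  · apply Measure.integrableOn_of_bounded (M := ‖h‖)
    · exact (measure_ball_lt_top).ne
    · exact (measurable_ex h).aestronglyMeasurable
    · exact Filter.Eventually.of_forall (fun x => h.norm_coe_le_norm _)
  · exact Filter.Eventually.of_forall (fun x => H _)

theorem isom_lint (R : E3 ≃ₗᵢ[ℝ] E3) (F : E3 → ℝ≥0∞) (hF : Measurable F) :
    ∫⁻ x in Metric.ball (0 : E3) 1, F (R x) = ∫⁻ x in Metric.ball (0 : E3) 1, F x := by
  have := R.measurePreserving.setLIntegral_comp_preimage (s := Metric.ball (0 : E3) 1)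
    Metric.isOpen_ball.measurableSet hF
  rw [← this]
  congr 2
  ext x; simp

theorem cone_sub (c : Fin 3) : cone c 2 (1 / 4) ⊆ Metric.ball (0 : E3) 1 := by
  intro x hx
  obtain ⟨h1, h2, h3⟩ := hx
  have h4 : ‖x‖ ^ 2 = x c ^ 2 + x (c.succAbove 0) ^ 2 + x (c.succAbove 1) ^ 2 := by
    rw [EuclideanSpace.real_norm_sq_eq, Fin.sum_univ_succAbove _ c, Fin.sum_univ_two]; ring
  have h5 := h3 0
  have h6 := h3 1
  have h7 : x (c.succAbove 0) ^ 2 ≤ (2 * x c) ^ 2 := by
    rw [← sq_abs]; exact pow_le_pow_left₀ (abs_nonneg _) h5 2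
  have h8 : x (c.succAbove 1) ^ 2 ≤ (2 * x c) ^ 2 := by
    rw [← sq_abs]; exact pow_le_pow_left₀ (abs_nonneg _) h6 2
  have h9 : ‖x‖ ^ 2 < 1 := by nlinarith
  rw [mem_ball_zero_iff]
  nlinarith [norm_nonneg x]

/-- chart integrals are controlled by sphere integrals -/
theorem chart_le (R : E3 ≃ₗᵢ[ℝ] E3) (c : Fin 3) (h : C(S2, ℝ)) (H : ∀ p, 0 ≤ h p) :
    ∫⁻ y in box 2, ENNReal.ofReal (ex h (R (ins c 1 y))) ≤ ENNReal.ofReal (64 * I h) := by
  have hm : Measurable (fun x => ENNReal.ofReal (ex h (R x))) :=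
    ((measurable_ex h).comp R.continuous.measurable).ennreal_ofReal
  have h1 := cone_int c (fun x => ENNReal.ofReal (ex h (R x))) hm
    (fun r hr x => by rw [map_smul, ex_smul h r hr]) 2 (1 / 4) (by norm_num)
  have h2 : ∫⁻ x in cone c 2 (1 / 4), ENNReal.ofReal (ex h (R x))
      ≤ ∫⁻ x in Metric.ball (0 : E3) 1, ENNReal.ofReal (ex h (R x)) :=
    lintegral_mono_set (cone_sub c)
  rw [isom_lint R (fun x => ENNReal.ofReal (ex h x)) (measurable_ex h).ennreal_ofReal, h1] at h2
  have h3 := ball_lint h H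
  have h4 : ENNReal.ofReal (64 * I h)
      = 192 * ∫⁻ x in Metric.ball (0 : E3) 1, ENNReal.ofReal (ex h x) := by
    rw [ENNReal.ofReal_mul (by norm_num), h3, ← mul_assoc]
    congr 1
    rw [show (64 : ℝ) = ((64 : ℕ) : ℝ) by norm_num, ENNReal.ofReal_natCast]
    norm_num
  rw [h4]
  have h5 : ∫⁻ y in box 2, ENNReal.ofReal (ex h (R (ins c 1 y)))
      = 192 * (ENNReal.ofReal ((1 / 4) ^ 3 / 3) *
        ∫⁻ y in box 2, ENNReal.ofReal (ex h (R (ins c 1 y)))) := by
    rw [← mul_assoc, show (192 : ℝ≥0∞) = ENNReal.ofReal 192 by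
      rw [show (192 : ℝ) = ((192 : ℕ) : ℝ) by norm_num, ENNReal.ofReal_natCast]; norm_num,
      ← ENNReal.ofReal_mul (by norm_num)]
    norm_num
  rw [h5]
  gcongr

theorem cover (x : E3) (hx : x ≠ 0) (hb : ‖x‖ < 1) :
    ∃ c : Fin 3, x ∈ cone c 1 1 ∨ -x ∈ cone c 1 1 := by
  obtain ⟨c, hc⟩ := Finite.exists_max (fun c => |x c|)
  refine ⟨c, ?_⟩
  have hn : ∀ c, |x c| ≤ 1 := by
    intro c
    have := PiLp.norm_apply_le x c
    rw [Real.norm_eq_abs] at this
    linarith
  have hne : x c ≠ 0 := by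
    intro h
    apply hx
    ext j
    have := hc j
    rw [h, abs_zero] at this
    simpa using abs_nonpos_iff.mp this
  rcases lt_or_gt_of_ne hne with h | h
  · right
    have e : |x c| = -x c := abs_of_neg h
    refine ⟨by simpa using h, ?_, ?_⟩
    · have := hn c
      rw [e] at this; simpa using this
    · intro j
      have := hc (c.succAbove j)
      simp only [e] at this
      simpa using this
  · left
    have e : |x c| = x c := abs_of_pos h
    refine ⟨h, ?_, ?_⟩
    · have := hn c
      rwa [e] at this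
    · intro j
      have := hc (c.succAbove j)
      simp only [e] at this
      simpa using this

/-- the identity or the antipodal map -/
def Rs (b : Bool) : E3 ≃ₗᵢ[ℝ] E3 :=
  if b then LinearIsometryEquiv.refl ℝ E3 else LinearIsometryEquiv.neg ℝ

/-- sphere integrals are controlled by chart integrals -/
theorem le_chart (h : C(S2, ℝ)) (H : ∀ p, 0 ≤ h p) (B : ℝ≥0∞)
    (hB : ∀ (c : Fin 3) (b : Bool),
      ∫⁻ y in box 1, ENNReal.ofReal (ex h (Rs b (ins c 1 y))) ≤ B) :
    ENNReal.ofReal (I h) ≤ 6 * B := by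
  rw [ball_lint h H]
  set F : E3 → ℝ≥0∞ := fun x => ENNReal.ofReal (ex h x) with hF
  have hFm : Measurable F := (measurable_ex h).ennreal_ofReal
  set T : Fin 3 → Set E3 := fun c => cone c 1 1 ∪ (fun x => -x) ⁻¹' (cone c 1 1) with hT
  have h1 : ∫⁻ x in Metric.ball (0 : E3) 1, F x ≤ ∫⁻ x in ⋃ c, T c, F x := by
    have e0 : ∀ᵐ x : E3, x ≠ 0 := by
      rw [ae_iff]; simp
    have e1 : (Metric.ball (0 : E3) 1 : Set E3) ≤ᵐ[volume] (⋃ c, T c : Set E3) := by
      filter_upwards [e0] with x hx hxb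
      have hb : ‖x‖ < 1 := by
        have : x ∈ Metric.ball (0 : E3) 1 := hxb
        simpa using this
      obtain ⟨c, hc⟩ := cover x hx hb
      exact mem_iUnion.mpr ⟨c, hc⟩
    exact lintegral_mono' (Measure.restrict_mono_ae e1) le_rfl
  have h2 : ∫⁻ x in ⋃ c, T c, F x ≤ ∑ c, ∫⁻ x in T c, F x := by
    have := lintegral_iUnion_le (μ := volume) T F
    rwa [tsum_fintype] at this
  have h3 : ∀ c, ∫⁻ x in T c, F x ≤ ENNReal.ofReal (1 / 3) * B + ENNReal.ofReal (1 / 3) * B := by
    intro c
    refine (lintegral_union_le _ _ _).trans ?_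
    gcongr
    · rw [cone_int c F hFm (fun r hr x => by simp only [hF]; rw [ex_smul h r hr]) 1 1 (by norm_num)]
      have := hB c true
      norm_num
      gcongr
      simpa [Rs] using this
    · have e1 : ∫⁻ x in (fun x : E3 => -x) ⁻¹' (cone c 1 1), F x
          = ∫⁻ x in cone c 1 1, F (-x) := by
        have := (LinearIsometryEquiv.neg ℝ (E := E3)).measurePreserving.setLIntegral_comp_preimage
          (measurable_cone c 1 1) (f := fun x => F (-x)) (hFm.comp measurable_neg)
        rw [← this]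
        simp
      rw [e1, cone_int c (fun x => F (-x)) (hFm.comp measurable_neg)
        (fun r hr x => by simp only [hF]; rw [← smul_neg, ex_smul h r hr]) 1 1 (by norm_num)]
      have := hB c false
      norm_num
      gcongr
      simpa [Rs] using this
  calc 3 * ∫⁻ x in Metric.ball (0 : E3) 1, F x ≤ 3 * ∑ c : Fin 3, ∫⁻ x in T c, F x := by
        gcongr; exact h1.trans h2
    _ ≤ 3 * ∑ c : Fin 3, (ENNReal.ofReal (1 / 3) * B + ENNReal.ofReal (1 / 3) * B) := by
        gcongr with c; exact h3 c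
    _ = 6 * B := by
        rw [Finset.sum_const, Finset.card_univ, Fintype.card_fin, nsmul_eq_mul]
        have e : (3 : ℝ≥0∞) * ENNReal.ofReal (1 / 3) = 1 := by
          rw [show (3 : ℝ≥0∞) = ENNReal.ofReal 3 by norm_num, ← ENNReal.ofReal_mul (by norm_num)]
          norm_num
        calc (3 : ℝ≥0∞) * (((3 : ℕ) : ℝ≥0∞) * (ENNReal.ofReal (1 / 3) * B + ENNReal.ofReal (1 / 3) * B))
            = (3 * ENNReal.ofReal (1 / 3)) * (6 * B) := by push_cast; ring
          _ = 6 * B := by rw [e, one_mul]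

end

end Pool.Agent.H797
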