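import Pool.Agent.H797.SpecG

set_option autoImplicit false
open Set MeasureTheory Filter Topology
open scoped ContDiff

namespace Pool.Agent.H797

noncomputable section

theorem CONSTR_area {T : ℝ} {u φ : ℝ → Sm} {n : ℕ}
    (hu : HD (Icc 0 T) n u (fun t => φ t - 1)) : ∀ t ∈ Icc 0 T,
    HasDerivWithinAt (fun t => ar (u t)) (2 * ar (u t) * (mu (u t) (φ t) - 1)) (Icc 0 T) t := by
  intro t ht
  have h1 := ((hd_lin hu 2).expo).Jd t ht
  refine HasDerivWithinAt.congr_deriv h1 ?_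
  have h2 : expS (cst 2 * u t) * (cst 2 * (φ t - 1))
      = cst 2 * (φ t * expS (cst 2 * u t)) - cst 2 * expS (cst 2 * u t) := by ring
  rw [h2, map_sub, J_cst_mul, J_cst_mul, mu]
  have := ar_pos (u t)
  change 2 * J (φ t * expS (cst 2 * u t)) - 2 * ar (u t) = _
  field_simp

theorem CONSTR_betd {T : ℝ} {u φ : ℝ → Sm} (n : ℕ)
    (hu : HD (Icc 0 T) n u (fun t => φ t - 1)) : HD (Icc 0 T) n (fun t => bet (u t))
    (fun t => -(cst 2 * (bet (u t) * (φ t - cst (mu (u t) (φ t)))))) := by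
  have h1 := HD.scal n (T := Icc 0 T) (y := fun t => ar (u t) / mass)
    (y' := fun t => 2 * ar (u t) * (mu (u t) (φ t) - 1) / mass)
    (fun t ht => (CONSTR_area hu t ht).div_const mass)
  have h2 := (hd_lin hu (-2)).expo
  refine (h1.mul h2).congr (fun _ _ => rfl) (fun t _ => ?_)
  apply sm_ext; intro p
  simp only [sm_neg, sm_mul, sm_add, sm_sub, cst_apply, sm_one, bet_apply, expS_apply]
  have := mass_pos
  field_simp
  ring

theorem CONSTR_wwd {T : ℝ} {u φ : ℝ → Sm} (n : ℕ)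
    (hu : HD (Icc 0 T) (n + 2) u (fun t => φ t - 1)) : HD (Icc 0 T) n (fun t => ww (u t))
    (fun t => - lap (φ t)) := by
  have h1 := (HD.const n (T := Icc 0 T) 1).sub hu.lapl
  refine h1.congr (fun _ _ => rfl) (fun t _ => ?_)
  rw [map_sub]
  have : lap (1 : Sm) = 0 := by
    have := lap_cst 1
    simpa using this
  rw [this]; ring

theorem CONSTR_q {T : ℝ} {u φ : ℝ → Sm} (n : ℕ)
    (hu : HD (Icc 0 T) (n + 2) u (fun t => φ t - 1))
    (hφ : HD (Icc 0 T) n φ (fun t => Fe (u t) (φ t))) :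
    HD (Icc 0 T) n (fun t => bet (u t) * φ t * ww (u t))
      (fun t => bet (u t) * φ t * lap (φ t) * (bet (u t) * φ t * ww (u t) - 1)) := by
  have h1 := ((CONSTR_betd n (hu.of_le (by omega))).mul hφ).mul (CONSTR_wwd n hu)
  refine h1.congr (fun _ _ => rfl) (fun t _ => ?_)
  have e2 : cst (2 * mu (u t) (φ t)) = cst 2 * cst (mu (u t) (φ t)) := map_mul _ _ _
  rw [Fe, e2]
  ring

/-- TASK CONSTR -/
theorem sol_of_ext (T : ℝ) (hT : 0 < T) (u0 : Sm) (hu0 : ∀ p, 0 < (ww u0).1 p) (u φ : ℝ → Sm)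
    (hu : ∀ n, HD (Icc 0 T) n u (fun t => φ t - 1))
    (hφ : ∀ n, HD (Icc 0 T) n φ (fun t => Fe (u t) (φ t)))
    (h0 : u 0 = u0) (h1 : φ 0 = ff u0) (hpos : ∀ t ∈ Icc 0 T, ∀ p, 0 < (φ t).1 p) :
    Sol T u := by
  obtain ⟨q, hqdef⟩ : ∃ q : ℝ → Sm, q = fun t => bet (u t) * φ t * ww (u t) := ⟨_, rfl⟩
  obtain ⟨a, hadef⟩ : ∃ a : ℝ → Sm, a = fun t => bet (u t) * φ t * lap (φ t) := ⟨_, rfl⟩
  have hq : HD (Icc 0 T) 0 q (fun t => a t * (q t - 1)) := by
    rw [hqdef, hadef]
    exact CONSTR_q 0 (hu 2) (hφ 0)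
  have ha : ContinuousOn (fun t => (a t).1) (Icc 0 T) := by
    rw [hadef]
    exact (((CONSTR_betd 0 (hu 0)).mul (hφ 0)).mul (hφ 2).lapl).cont
  obtain ⟨C, hC⟩ := isCompact_Icc.exists_bound_of_continuousOn ha
  have hq0 : q 0 = 1 := by
    have e := ff_eq hu0
    rw [hqdef]
    change bet (u 0) * φ 0 * ww (u 0) = 1
    rw [h0, h1, ← e]; ring
  have hab : ∀ t ∈ Icc 0 T, ∀ p, |(a t).1 p| ≤ C := by
    intro t ht p
    have h1 := (a t).1.norm_coe_le_norm p
    rw [Real.norm_eq_abs] at h1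
    exact h1.trans (hC t ht)
  have hq1 : ∀ t ∈ Icc 0 T, ∀ p, (q t).1 p = 1 := by
    intro t ht p
    have hd : ∀ s ∈ Icc 0 T, HasDerivWithinAt
        (fun s => Real.exp (-(2 * C) * s) * ((q s).1 p - 1) ^ 2)
        (Real.exp (-(2 * C) * s) * (-(2 * C)) * ((q s).1 p - 1) ^ 2 +
          Real.exp (-(2 * C) * s) * (2 * ((q s).1 p - 1) * ((a s).1 p * ((q s).1 p - 1))))
        (Icc 0 T) s := by
      intro s hs
      have e1 : HasDerivWithinAt (fun s : ℝ => Real.exp (-(2 * C) * s))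
          (Real.exp (-(2 * C) * s) * (-(2 * C))) (Icc 0 T) s := by
        have := (((hasDerivAt_id s).const_mul (-(2 * C))).exp).hasDerivWithinAt (s := Icc 0 T)
        simpa using this
      have e2 : HasDerivWithinAt (fun s => ((q s).1 p - 1) ^ 2)
          (2 * ((q s).1 p - 1) * ((a s).1 p * ((q s).1 p - 1))) (Icc 0 T) s := by
        have e3 := ((hq.pt p s hs).sub_const 1).pow 2
        refine HasDerivWithinAt.congr_deriv e3 ?_
        simp only [sm_mul, sm_sub, sm_one]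
        norm_num
      exact e1.mul e2
    have hanti := decr hd (by
      intro s hs
      have b1 := hab s hs p
      have b2 := Real.exp_pos (-(2 * C) * s)
      have b3 : (a s).1 p ≤ C := (le_abs_self _).trans b1
      have b4 : Real.exp (-(2 * C) * s) * (-(2 * C)) * ((q s).1 p - 1) ^ 2 +
          Real.exp (-(2 * C) * s) * (2 * ((q s).1 p - 1) * ((a s).1 p * ((q s).1 p - 1)))
          = - (2 * Real.exp (-(2 * C) * s) * (C - (a s).1 p) * ((q s).1 p - 1) ^ 2) := by ring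
      rw [b4]
      have b5 : 0 ≤ C - (a s).1 p := by linarith
      have : 0 ≤ 2 * Real.exp (-(2 * C) * s) * (C - (a s).1 p) * ((q s).1 p - 1) ^ 2 := by
        positivity
      linarith)
    have h2 := hanti (left_mem_Icc.mpr hT.le) ht ht.1
    have h3 : (q 0).1 p = 1 := by rw [hq0]; rfl
    simp only [h3, sub_self] at h2
    have h4 : Real.exp (-(2 * C) * t) * ((q t).1 p - 1) ^ 2 ≤ 0 := by
      simpa using h2
    have h5 := Real.exp_pos (-(2 * C) * t)
    have h6 : ((q t).1 p - 1) ^ 2 ≤ 0 := by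
      by_contra h7
      push Not at h7
      have := mul_pos h5 h7
      linarith
    have h7 : (q t).1 p - 1 = 0 := by
      have := le_antisymm h6 (sq_nonneg _)
      exact pow_eq_zero_iff (two_ne_zero) |>.mp this
    linarith
  have hw : ∀ t ∈ Icc 0 T, ∀ p, 0 < (ww (u t)).1 p := by
    intro t ht p
    have h2 := hq1 t ht p
    rw [hqdef] at h2
    simp only [sm_mul] at h2
    have h3 : 0 < (bet (u t)).1 p * (φ t).1 p := mul_pos (bet_pos _ p) (hpos t ht p)
    by_contra h4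
    push Not at h4
    have := mul_nonpos_of_nonneg_of_nonpos h3.le h4
    linarith
  refine ⟨hw, fun n => (hu n).congr (fun _ _ => rfl) (fun t ht => ?_)⟩
  have : ff (u t) = φ t := by
    apply sm_ext; intro p
    rw [ff_apply (hw t ht)]
    have h2 := hq1 t ht p
    rw [hqdef] at h2
    simp only [sm_mul] at h2
    have h3 := bet_pos (u t) p
    have h4 := hw t ht p
    have h5 : (φ t).1 p * ((bet (u t)).1 p * (ww (u t)).1 p) = 1 := by linarith
    exact (eq_inv_of_mul_eq_one_left h5).symm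
  rw [this]

end

end Pool.Agent.H797
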