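import Pool.Agent.H797.High2

set_option autoImplicit false
open Set MeasureTheory
open scoped ContDiff ENNReal

namespace Pool.Agent.H797

noncomputable section

/-- two by two trace inequality for a matrix with a common left and right null vector -/
theorem trace_ineq (x0 x1 x2 q00 q01 q02 q10 q11 q12 q20 q21 q22 : ℝ)
    (s : x0 ^ 2 + x1 ^ 2 + x2 ^ 2 = 1)
    (e0 : q00 * x0 + q01 * x1 + q02 * x2 = 0)
    (e1 : q10 * x0 + q11 * x1 + q12 * x2 = 0)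
    (e2 : q20 * x0 + q21 * x1 + q22 * x2 = 0) :
    (q00 + q11 + q22) ^ 2 ≤ 2 * (q00 ^ 2 + q01 ^ 2 + q02 ^ 2 + q10 ^ 2 + q11 ^ 2 + q12 ^ 2
      + q20 ^ 2 + q21 ^ 2 + q22 ^ 2) := by
  obtain ⟨t, ht⟩ : ∃ t, t = q00 + q11 + q22 := ⟨_, rfl⟩
  have key : (q00 - t / 2 * (1 - x0 ^ 2)) ^ 2 + (q11 - t / 2 * (1 - x1 ^ 2)) ^ 2
      + (q22 - t / 2 * (1 - x2 ^ 2)) ^ 2 + (q01 + t / 2 * (x0 * x1)) ^ 2
      + (q10 + t / 2 * (x0 * x1)) ^ 2 + (q02 + t / 2 * (x0 * x2)) ^ 2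
      + (q20 + t / 2 * (x0 * x2)) ^ 2 + (q12 + t / 2 * (x1 * x2)) ^ 2
      + (q21 + t / 2 * (x1 * x2)) ^ 2
      = (q00 ^ 2 + q01 ^ 2 + q02 ^ 2 + q10 ^ 2 + q11 ^ 2 + q12 ^ 2
      + q20 ^ 2 + q21 ^ 2 + q22 ^ 2) - t ^ 2 / 2 := by
    linear_combination t * (x0 * e0 + x1 * e1 + x2 * e2)
      + (t ^ 2 / 4 * (x0 ^ 2 + x1 ^ 2 + x2 ^ 2 - 1)) * s + t * ht
  rw [← ht]
  have h : 0 ≤ (q00 - t / 2 * (1 - x0 ^ 2)) ^ 2 + (q11 - t / 2 * (1 - x1 ^ 2)) ^ 2
      + (q22 - t / 2 * (1 - x2 ^ 2)) ^ 2 + (q01 + t / 2 * (x0 * x1)) ^ 2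
      + (q10 + t / 2 * (x0 * x1)) ^ 2 + (q02 + t / 2 * (x0 * x2)) ^ 2
      + (q20 + t / 2 * (x0 * x2)) ^ 2 + (q12 + t / 2 * (x1 * x2)) ^ 2
      + (q21 + t / 2 * (x1 * x2)) ^ 2 := by positivity
  linarith

theorem X_L' (i : Fin 3) (g : Sm) : X 0 * L i (L 0 g) + X 1 * L i (L 1 g) + X 2 * L i (L 2 g)
    = -(L i (X 0) * L 0 g + L i (X 1) * L 1 g + L i (X 2) * L 2 g) := by
  have h := congrArg (L i) (X_L g)
  simp only [map_add, L_mul, map_zero] at h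
  linear_combination h

/-- pointwise inequality for the second derivatives -/
theorem hess_ineq (h : Sm) (p : S2) : 0 ≤ (2 * ∑ i, ∑ j, L i (L j h) * L i (L j h)
    - 2 * ∑ i, L i h * L i h - lap h * lap h : Sm).1 p := by
  have a0 := congrArg (fun k : Sm => k.1 p) (X_L (L 0 h))
  have a1 := congrArg (fun k : Sm => k.1 p) (X_L (L 1 h))
  have a2 := congrArg (fun k : Sm => k.1 p) (X_L (L 2 h))
  have b0 := congrArg (fun k : Sm => k.1 p) (X_L' 0 h)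
  have b1 := congrArg (fun k : Sm => k.1 p) (X_L' 1 h)
  have b2 := congrArg (fun k : Sm => k.1 p) (X_L' 2 h)
  have c := congrArg (fun k : Sm => k.1 p) (X_L h)
  have s := S2_sq p
  rw [lap_eq3]
  simp only [sm_add, sm_mul, sm_neg, sm_zero, X_apply, L00, L01, L02, L10, L11, L12, L20, L21,
    L22, Fin.sum_univ_three, sm_sub, sm_two] at a0 a1 a2 b0 b1 b2 c ⊢
  generalize (L 0 (L 0 h)).1 p = P00 at *
  generalize (L 0 (L 1 h)).1 p = P01 at *
  generalize (L 0 (L 2 h)).1 p = P02 at *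
  generalize (L 1 (L 0 h)).1 p = P10 at *
  generalize (L 1 (L 1 h)).1 p = P11 at *
  generalize (L 1 (L 2 h)).1 p = P12 at *
  generalize (L 2 (L 0 h)).1 p = P20 at *
  generalize (L 2 (L 1 h)).1 p = P21 at *
  generalize (L 2 (L 2 h)).1 p = P22 at *
  generalize (L 0 h).1 p = g0 at *
  generalize (L 1 h).1 p = g1 at *
  generalize (L 2 h).1 p = g2 at *
  generalize (p : E3) 0 = x0 at *
  generalize (p : E3) 1 = x1 at *
  generalize (p : E3) 2 = x2 at *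
  -- r = P x
  obtain ⟨r0, hr0⟩ : ∃ r, r = x0 * P00 + x1 * P01 + x2 * P02 := ⟨_, rfl⟩
  obtain ⟨r1, hr1⟩ : ∃ r, r = x0 * P10 + x1 * P11 + x2 * P12 := ⟨_, rfl⟩
  obtain ⟨r2, hr2⟩ : ∃ r, r = x0 * P20 + x1 * P21 + x2 * P22 := ⟨_, rfl⟩
  have hrx : r0 * x0 + r1 * x1 + r2 * x2 = 0 := by
    rw [hr0, hr1, hr2]; linear_combination x0 * a0 + x1 * a1 + x2 * a2
  have hrr : r0 ^ 2 + r1 ^ 2 + r2 ^ 2 = g0 ^ 2 + g1 ^ 2 + g2 ^ 2 := by
    have e0 : r0 = x2 * g1 - x1 * g2 := by rw [hr0]; linarith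
    have e1 : r1 = x0 * g2 - x2 * g0 := by rw [hr1]; linarith
    have e2 : r2 = x1 * g0 - x0 * g1 := by rw [hr2]; linarith
    rw [e0, e1, e2]
    linear_combination (g0 ^ 2 + g1 ^ 2 + g2 ^ 2) * s - (x0 * g0 + x1 * g1 + x2 * g2) * c
  have key := trace_ineq x0 x1 x2 (P00 - r0 * x0) (P01 - r0 * x1) (P02 - r0 * x2)
    (P10 - r1 * x0) (P11 - r1 * x1) (P12 - r1 * x2) (P20 - r2 * x0) (P21 - r2 * x1) (P22 - r2 * x2)
    s (by linear_combination (-1 : ℝ) * hr0 - r0 * s) (by linear_combination (-1 : ℝ) * hr1 - r1 * s)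
    (by linear_combination (-1 : ℝ) * hr2 - r2 * s)
  have e1 : (P00 - r0 * x0) + (P11 - r1 * x1) + (P22 - r2 * x2) = P00 + P11 + P22 := by
    linear_combination (-1 : ℝ) * hrx
  rw [e1] at key
  have e2 : (P00 - r0 * x0) ^ 2 + (P01 - r0 * x1) ^ 2 + (P02 - r0 * x2) ^ 2 +
    (P10 - r1 * x0) ^ 2 + (P11 - r1 * x1) ^ 2 + (P12 - r1 * x2) ^ 2 + (P20 - r2 * x0) ^ 2
    + (P21 - r2 * x1) ^ 2 + (P22 - r2 * x2) ^ 2 = P00 ^ 2 + P01 ^ 2 + P02 ^ 2 + P10 ^ 2 + P11 ^ 2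
    + P12 ^ 2 + P20 ^ 2 + P21 ^ 2 + P22 ^ 2 - (r0 ^ 2 + r1 ^ 2 + r2 ^ 2) := by
    linear_combination (r0 ^ 2 + r1 ^ 2 + r2 ^ 2) * s + 2 * r0 * hr0 + 2 * r1 * hr1 + 2 * r2 * hr2
  rw [e2, hrr] at key
  linarith

theorem lap_X (j : Fin 3) : lap (X j) = - (2 * X j) := by
  rw [lap_eq3]
  fin_cases j <;> simp <;> ring

/-- classification of conformal metrics of constant curvature -/
theorem liouville (u : Sm) (κ : ℝ) (hu : ww u = cst κ * expS (cst 2 * u)) :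
    ∃ (α : ℝ) (b : Fin 3 → ℝ), expS (-u) = cst α + (cst (b 0) * X 0 + cst (b 1) * X 1
      + cst (b 2) * X 2) := by
  obtain ⟨h, hh⟩ : ∃ h, h = expS (-u) := ⟨_, rfl⟩
  have hpos : ∀ p, 0 < h.1 p := by intro p; rw [hh]; exact Real.exp_pos _
  -- the equation
  have hE : h * h + h * lap h - ∑ i, L i h * L i h = cst κ := by
    have e1 : lap h = h * (- lap u + ∑ i, L i u * L i u) := by
      rw [hh, lap_expS, map_neg]
      congr 2
      apply Finset.sum_congr rfl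
      intro i _
      rw [map_neg]; ring
    have e2 : ∑ i, L i h * L i h = h * h * ∑ i, L i u * L i u := by
      rw [Finset.mul_sum]
      apply Finset.sum_congr rfl
      intro i _
      rw [hh, L_expS, map_neg]; ring
    rw [e1, e2]
    have e3 : h * h * expS (cst 2 * u) = 1 := by
      apply sm_ext; intro p
      rw [hh]
      simp only [sm_mul, expS_apply, sm_neg, cst_apply, sm_one]
      rw [← Real.exp_add, ← Real.exp_add]
      ring_nf
      simp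
    have e4 : h * h + h * (h * (-lap u + ∑ i, L i u * L i u)) - h * h * ∑ i, L i u * L i u
        = h * h * ww u := by rw [ww]; ring
    rw [e4, hu]
    linear_combination (cst κ) * e3
  obtain ⟨q, hq⟩ : ∃ q, q = lap h + 2 * h := ⟨_, rfl⟩
  have hlapq : h * lap q = 2 * ∑ i, ∑ j, L i (L j h) * L i (L j h)
    - 2 * ∑ i, L i h * L i h - lap h * lap h := by
    have h1 := congrArg lap hE
    have h2 : lap (∑ i, L i h * L i h) = 2 * ∑ i, L i h * L i (lap h)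
        + 2 * ∑ i, ∑ j, L j (L i h) * L j (L i h) := by
      rw [map_sum, Finset.mul_sum, Finset.mul_sum, ← Finset.sum_add_distrib]
      apply Finset.sum_congr rfl
      intro i _
      rw [lap_mul, lap_L]; ring
    have h3 : ∑ i, ∑ j, L j (L i h) * L j (L i h) = ∑ i, ∑ j, L i (L j h) * L i (L j h) :=
      Finset.sum_comm
    rw [map_sub, map_add, lap_mul h h, lap_mul h (lap h), h2, h3, lap_cst] at h1
    have h4 : lap q = lap (lap h) + 2 * lap h := by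
      have : (2 : Sm) * h = cst 2 * h := by apply sm_ext; intro p; simp
      rw [hq, map_add, this, lap_cst_mul]
      apply sm_ext; intro p; simp
    rw [h4]
    linear_combination h1
  have hq0 : lap q = 0 := by
    have h1 : ∀ p, 0 ≤ (lap q).1 p := by
      intro p
      have h2 := hess_ineq h p
      rw [← hlapq, sm_mul] at h2
      exact nonneg_of_mul_nonneg_right h2 (hpos p)
    exact J_zero h1 (J_lap_zero q)
  obtain ⟨r, hr⟩ := const_of_lap q hq0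
  obtain ⟨g, hg⟩ : ∃ g, g = h - cst (r / 2) := ⟨_, rfl⟩
  have hlg : lap g = -(2 * g) := by
    have h1 : cst r = 2 * cst (r / 2) := by apply sm_ext; intro p; simp; ring
    rw [hg, map_sub, lap_cst]
    linear_combination hr - hq + h1
  have hLg : ∀ i, lap (L i g) = -(2 * L i g) := by
    intro i
    rw [lap_L, hlg, map_neg]
    have : (2 : Sm) * g = cst 2 * g := by apply sm_ext; intro p; simp
    rw [this, L_cst_mul]
    apply sm_ext; intro p; simp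
  have hX := X_L g
  have hX0 := X_L' 0 g
  have hX1 := X_L' 1 g
  have hX2 := X_L' 2 g
  have hl3 := lap_eq3 g
  rw [hlg] at hl3
  simp only [L00, L01, L02, L10, L11, L12, L20, L21, L22] at hX0 hX1 hX2
  obtain ⟨b0, hb0⟩ : ∃ b, b = g * X 0 - (X 1 * L 2 g - X 2 * L 1 g) := ⟨_, rfl⟩
  obtain ⟨b1, hb1⟩ : ∃ b, b = g * X 1 - (X 2 * L 0 g - X 0 * L 2 g) := ⟨_, rfl⟩
  obtain ⟨b2, hb2⟩ : ∃ b, b = g * X 2 - (X 0 * L 1 g - X 1 * L 0 g) := ⟨_, rfl⟩
  have hlb0 : lap b0 = 0 := by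
    rw [hb0, map_sub, map_sub, lap_mul, lap_mul, lap_mul, lap_X, lap_X, lap_X, hLg, hLg, hlg]
    simp only [Fin.sum_univ_three, L00, L01, L02, L10, L11, L12, L20, L21, L22]
    linear_combination 2 * hX0 + 2 * X 0 * hl3
  have hlb1 : lap b1 = 0 := by
    rw [hb1, map_sub, map_sub, lap_mul, lap_mul, lap_mul, lap_X, lap_X, lap_X, hLg, hLg, hlg]
    simp only [Fin.sum_univ_three, L00, L01, L02, L10, L11, L12, L20, L21, L22]
    linear_combination 2 * hX1 + 2 * X 1 * hl3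
  have hlb2 : lap b2 = 0 := by
    rw [hb2, map_sub, map_sub, lap_mul, lap_mul, lap_mul, lap_X, lap_X, lap_X, hLg, hLg, hlg]
    simp only [Fin.sum_univ_three, L00, L01, L02, L10, L11, L12, L20, L21, L22]
    linear_combination 2 * hX2 + 2 * X 2 * hl3
  obtain ⟨β0, hβ0⟩ := const_of_lap b0 hlb0
  obtain ⟨β1, hβ1⟩ := const_of_lap b1 hlb1
  obtain ⟨β2, hβ2⟩ := const_of_lap b2 hlb2
  refine ⟨r / 2, ![β0, β1, β2], ?_⟩
  have hXs := X_sq
  simp only [Matrix.cons_val_zero, Matrix.cons_val_one, Matrix.cons_val]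
  rw [← hh, ← hβ0, ← hβ1, ← hβ2, hb0, hb1, hb2]
  have : h = g + cst (r / 2) := by rw [hg]; ring
  rw [this]
  linear_combination (-g) * hXs

end

end Pool.Agent.H797
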