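import Pool.Agent.H797.High2
import Pool.Agent.H797.Liouv
import Pool.Agent.H797.Compact

set_option autoImplicit false
open Set MeasureTheory Filter Topology
open scoped ContDiff

namespace Pool.Agent.H797

noncomputable section

/-- global solutions -/
def GSol (u : ℝ → Sm) : Prop := ∀ T, 0 ≤ T → Sol T u

theorem HD.shift {T s : ℝ} {n : ℕ} {c c' : ℝ → Sm} (h : HD (Icc 0 (T + s)) n c c') (hs : 0 ≤ s) :
    HD (Icc 0 T) n (fun t => c (t + s)) (fun t => c' (t + s)) := by
  have key : ∀ c c' : ℝ → Sm, (∀ t ∈ Icc 0 (T + s),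
      HasDerivWithinAt (fun s => (c s).1) (c' t).1 (Icc 0 (T + s)) t) →
      ∀ t ∈ Icc 0 T, HasDerivWithinAt (fun r => (c (r + s)).1) (c' (t + s)).1 (Icc 0 T) t := by
    intro c c' H t ht
    have h1 := H (t + s) ⟨by linarith [ht.1], by linarith [ht.2]⟩
    have h2 : HasDerivWithinAt (fun r : ℝ => r + s) 1 (Icc 0 T) t :=
      (hasDerivWithinAt_id t _).add_const s
    have h4 : MapsTo (fun r : ℝ => r + s) (Icc 0 T) (Icc 0 (T + s)) :=
      fun r hr => ⟨by linarith [hr.1], by linarith [hr.2]⟩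
    have h3 := h1.scomp t h2 h4
    rw [one_smul] at h3
    exact h3
  induction n generalizing c c' with
  | zero => exact key c c' h
  | succ n ih => exact ⟨key c c' h.1, fun i => ih (h.2 i)⟩

theorem Sol.shift {T s : ℝ} {u : ℝ → Sm} (h : Sol (T + s) u) (hs : 0 ≤ s) :
    Sol T (fun t => u (t + s)) :=
  ⟨fun t ht p => h.pos (t + s) ⟨by linarith [ht.1], by linarith [ht.2]⟩ p,
    fun n => (h.flow n).shift hs⟩

theorem GSol.shift {u : ℝ → Sm} (h : GSol u) {s : ℝ} (hs : 0 ≤ s) : GSol (fun t => u (t + s)) :=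
  fun T hT => (h (T + s) (by linarith)).shift hs

theorem J_abs_le (g : Sm) (s : ℝ) (h : ∀ q, |g.1 q| ≤ s) : |J g| ≤ s * mass := by
  rw [abs_le]
  constructor
  · have : J (cst (-s)) ≤ J g := J_mono (fun q => by rw [cst_apply]; exact (abs_le.mp (h q)).1)
    rw [J_cst] at this; linarith
  · have : J g ≤ J (cst s) := J_mono (fun q => by rw [cst_apply]; exact (abs_le.mp (h q)).2)
    rw [J_cst] at this; linarith

/-- a bounded function with almost nondecreasing nonnegative derivative has vanishing derivative -/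
theorem tend_zero_of (A A' : ℝ → ℝ) (K C : ℝ) (hK : 0 < K)
    (hd : ∀ T, 0 ≤ T → ∀ t ∈ Icc 0 T, HasDerivWithinAt A (A' t) (Icc 0 T) t)
    (h0 : ∀ t, 0 ≤ t → 0 ≤ A' t) (hL : ∀ s t, 0 ≤ s → s ≤ t → A' s - A' t ≤ K * (t - s))
    (hC : ∀ t, 0 ≤ t → A t ≤ C) : Tendsto A' atTop (𝓝 0) := by
  have hmono : ∀ s t, 0 ≤ s → s ≤ t → A s ≤ A t := by
    intro s t hs hst
    have h1 := decr (h := fun t => - A t) (h' := fun t => - A' t) (T := t)
      (fun r hr => (hd t (hs.trans hst) r hr).neg) (fun r hr => by have := h0 r hr.1; linarith)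
      ⟨hs, hst⟩ ⟨hs.trans hst, le_rfl⟩ hst
    simp only at h1
    linarith
  rw [Metric.tendsto_atTop]
  intro ε hε
  obtain ⟨δ, hδ⟩ : ∃ δ, δ = ε / (4 * K) := ⟨_, rfl⟩
  have hδ0 : 0 < δ := by rw [hδ]; positivity
  have hne : (A '' Ici 0).Nonempty := ⟨A 0, 0, self_mem_Ici, rfl⟩
  have hbd : BddAbove (A '' Ici 0) := ⟨C, by rintro _ ⟨t, ht, rfl⟩; exact hC t ht⟩
  obtain ⟨_, ⟨t0, ht0, rfl⟩, ht1⟩ := exists_lt_of_lt_csSup hne
    (show sSup (A '' Ici 0) - ε / 4 * δ < sSup (A '' Ici 0) by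
      have : 0 < ε / 4 * δ := by positivity
      linarith)
  refine ⟨t0, fun t ht => ?_⟩
  have ht0' : 0 ≤ t := le_trans ht0 ht
  rw [Real.dist_eq, sub_zero, abs_of_nonneg (h0 t ht0')]
  have hsub : Icc t (t + δ) ⊆ Icc 0 (t + δ) := Icc_subset_Icc ht0' le_rfl
  obtain ⟨c, hc, hc2⟩ := exists_hasDerivAt_eq_slope A A' (a := t) (b := t + δ) (by linarith)
    (fun x hx => (hd (t + δ) (by linarith) x (hsub hx)).continuousWithinAt.mono hsub)
    (fun x hx => (hd (t + δ) (by linarith) x (hsub (Ioo_subset_Icc_self hx))).hasDerivAt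
      (Icc_mem_nhds (by linarith [hx.1]) hx.2))
  have h1 : A (t + δ) ≤ sSup (A '' Ici 0) := le_csSup hbd ⟨t + δ, by
    change 0 ≤ t + δ
    linarith, rfl⟩
  have h2 := hmono t0 t ht0 ht
  have h3 := hL t c ht0' hc.1.le
  have h4 : A' c ≤ ε / 4 := by
    rw [hc2, div_le_iff₀ (by linarith)]
    have : t + δ - t = δ := by ring
    rw [this]
    linarith
  have h5 : K * (c - t) ≤ K * δ := by
    have := hc.2
    gcongr
    linarith
  have h6 : K * δ = ε / 4 := by rw [hδ]; field_simp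
  linarith

theorem P_eq {u : Sm} (hw : ∀ p, 0 < (ww u).1 p) :
    J ((ff u - 1) * (ff u - 1) * ww u) = mass * (fbar u - 1) := by
  have h1 : (ff u - 1) * (ff u - 1) * ww u
      = cst (mass / ar u) * (ff u * expS (cst 2 * u)) - cst 2 * (ff u * ww u) + ww u := by
    have e := fw_eq hw
    have e2 : cst 2 = (2 : Sm) := rfl
    rw [e2] at e ⊢
    linear_combination (ff u) * e
  have ha := ar_pos u
  rw [h1, map_add, map_sub, J_cst_mul, J_cst_mul, J_fw hw, J_w, fbar]
  field_simp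
  ring

theorem GSol.pb {u : ℝ → Sm} (h : GSol u) : ∃ M m : ℝ, 0 < M ∧ 0 < m ∧
    ∀ t, 0 ≤ t → PB M m (u t) := by
  obtain ⟨M, m, hM, hm, H⟩ := c0_bounds (u 0)
  exact ⟨M, m, hM, hm, fun t ht => H t u ht (h t ht) rfl t ⟨ht, le_rfl⟩⟩

theorem GSol.N {u : ℝ → Sm} (h : GSol u) (k : ℕ) : ∃ C : ℝ, 0 ≤ C ∧
    ∀ t, 0 ≤ t → H797.N k (ff (u t)) ≤ C ∧ H797.N k (u t) ≤ C := by
  obtain ⟨C, hC, H⟩ := high_all (u 0) k
  exact ⟨C, hC, fun t ht => H t u ht (h t ht) rfl t ⟨ht, le_rfl⟩⟩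

theorem ar_bounds {u : Sm} {M : ℝ} (h : ∀ p, |u.1 p| ≤ M) :
    Real.exp (-(2 * M)) * mass ≤ ar u ∧ ar u ≤ Real.exp (2 * M) * mass := by
  constructor
  · rw [← J_cst]
    apply J_mono; intro q
    rw [cst_apply, expS_apply, sm_mul, cst_apply]
    apply Real.exp_le_exp.mpr
    have := (abs_le.mp (h q)).1
    linarith
  · rw [← J_cst]
    apply J_mono; intro q
    rw [cst_apply, expS_apply, sm_mul, cst_apply]
    apply Real.exp_le_exp.mpr
    have := (abs_le.mp (h q)).2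
    linarith

theorem speed_form (u : Sm) : 2 * ar u * (fbar u - 1) = 2 * J ((ff u - 1) * expS (cst 2 * u)) := by
  have ha := ar_pos u
  have e : (ff u - 1) * expS (cst 2 * u) = ff u * expS (cst 2 * u) - expS (cst 2 * u) := by ring
  rw [e, map_sub, fbar]
  change _ = 2 * (J (ff u * expS (cst 2 * u)) - ar u)
  field_simp

theorem GSol.speed_lip {u : ℝ → Sm} (h : GSol u) : ∃ K > 0, ∀ s t, 0 ≤ s → s ≤ t →
    (2 * ar (u s) * (fbar (u s) - 1)) - (2 * ar (u t) * (fbar (u t) - 1)) ≤ K * (t - s) := by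
  obtain ⟨M, m, hM, hm, hP⟩ := h.pb
  obtain ⟨C4, hC4, h4⟩ := h.N 4
  obtain ⟨C, hC0, hC⟩ := norm_le_N
  obtain ⟨Λ, hΛ⟩ : ∃ x, x = √(C * (3 * C4)) := ⟨_, rfl⟩
  have hΛ0 : 0 ≤ Λ := by rw [hΛ]; positivity
  obtain ⟨K, hK⟩ : ∃ K, K = 2 * (((M * (M * M) * Λ + 2 * (M * M) + 2 * M * M) * Real.exp (2 * M)
    + (M + 1) * (Real.exp (2 * M) * (2 * (M + 1)))) * mass) := ⟨_, rfl⟩
  have hmass := mass_pos
  refine ⟨K, by rw [hK]; positivity, fun s t hs hst => ?_⟩
  have ht : 0 ≤ t := hs.trans hst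
  have hd : ∀ r ∈ Icc 0 t, HasDerivWithinAt (fun r => - (2 * ar (u r) * (fbar (u r) - 1)))
      (-(2 * J (FF (u r) * expS (cst 2 * u r)
        + (ff (u r) - 1) * (expS (cst 2 * u r) * (cst 2 * (ff (u r) - 1)))))) (Icc 0 t) r := by
    intro r hr
    have h1 : HD (Icc 0 t) 0 (fun r => (ff (u r) - 1) * expS (cst 2 * u r))
        (fun r => (FF (u r) - 0) * expS (cst 2 * u r)
          + (ff (u r) - 1) * (expS (cst 2 * u r) * (cst 2 * (ff (u r) - 1)))) :=
      (((h t ht).ffd' 0).sub (HD.const 0 1)).mul (hd_lin ((h t ht).flow 0) 2).expo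
    have h2 := ((h1.Jd r hr).const_mul 2).neg
    refine HasDerivWithinAt.congr_deriv (h2.congr_of_eventuallyEq ?_ ?_) ?_
    · filter_upwards with r'
      simp only [Pi.neg_apply]
      rw [speed_form]
    · simp only [Pi.neg_apply]
      rw [speed_form]
    · rw [sub_zero]
  have hbd : ∀ r ∈ Icc 0 t, -(2 * J (FF (u r) * expS (cst 2 * u r)
        + (ff (u r) - 1) * (expS (cst 2 * u r) * (cst 2 * (ff (u r) - 1))))) ≤ K := by
    intro r hr
    have hPr := hP r hr.1
    have e1 := J_abs_le (FF (u r) * expS (cst 2 * u r)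
        + (ff (u r) - 1) * (expS (cst 2 * u r) * (cst 2 * (ff (u r) - 1)))) (K / 2 / mass) (by
      intro q
      have eK : K / 2 / mass = (M * (M * M) * Λ + 2 * (M * M) + 2 * M * M) * Real.exp (2 * M)
        + (M + 1) * (Real.exp (2 * M) * (2 * (M + 1))) := by
        rw [hK]; field_simp
      rw [eK]
      have a1 : |(bet (u r)).1 q| ≤ M := by
        rw [abs_of_pos (bet_pos _ _)]; exact hPr.b2 q
      have a2 : |(ff (u r)).1 q| ≤ M := by
        rw [abs_of_pos (ff_pos (hPr.pos hm) q)]; exact hPr.f2 q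
      have a3 : |(lap (ff (u r))).1 q| ≤ Λ := by
        rw [hΛ]
        refine ((lap (ff (u r))).1.norm_coe_le_norm q).trans ((hC _).trans ?_)
        apply Real.sqrt_le_sqrt
        have := N_lap_le 2 (ff (u r))
        have := (h4 r hr.1).1
        gcongr
        linarith
      have a4 := hPr.fbar hm
      have a5 : |Real.exp (2 * (u r).1 q)| ≤ Real.exp (2 * M) := by
        rw [abs_of_pos (Real.exp_pos _)]
        apply Real.exp_le_exp.mpr
        have := (abs_le.mp (hPr.u q)).2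
        linarith
      have a6 : |(ff (u r)).1 q - 1| ≤ M + 1 := by
        refine (abs_sub _ _).trans ?_
        rw [abs_one]; linarith
      simp only [FF, sm_add, sm_sub, sm_mul, sm_one, cst_apply, expS_apply]
      refine (abs_add_le _ _).trans (add_le_add ?_ ?_)
      · rw [abs_mul]
        refine mul_le_mul ?_ a5 (abs_nonneg _) (by positivity)
        refine (abs_sub _ _).trans (add_le_add ((abs_add_le _ _).trans (add_le_add ?_ ?_)) ?_)
        · rw [abs_mul, abs_mul, abs_mul]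
          gcongr
        · rw [abs_mul, abs_mul, abs_two]
          gcongr
        · rw [abs_mul, abs_mul, abs_two]
          gcongr
      · rw [abs_mul, abs_mul, abs_mul, abs_two]
        gcongr)
    have e2 : K / 2 / mass * mass = K / 2 := by field_simp
    rw [e2] at e1
    have := (abs_le.mp e1).1
    linarith
  have := growth hd hbd ⟨hs, hst⟩ ⟨ht, le_rfl⟩ hst
  linarith

theorem GSol.speed_zero {u : ℝ → Sm} (h : GSol u) :
    Tendsto (fun t => 2 * ar (u t) * (fbar (u t) - 1)) atTop (𝓝 0) := by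
  obtain ⟨K, hK, hL⟩ := h.speed_lip
  obtain ⟨M, m, hM, hm, hP⟩ := h.pb
  apply tend_zero_of (fun t => ar (u t)) _ K (Real.exp (2 * M) * mass) hK
    (fun T hT t ht => (h T hT).area t ht) _ hL (fun t ht => (ar_bounds (hP t ht).u).2)
  intro t ht
  have h1 := P_eq ((hP t ht).pos hm)
  have h2 : 0 ≤ J ((ff (u t) - 1) * (ff (u t) - 1) * ww (u t)) := by
    apply J_nonneg; intro q
    rw [sm_mul, sm_mul]
    have := (hP t ht).pos hm q
    have := mul_self_nonneg ((ff (u t) - 1).1 q)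
    positivity
  rw [h1] at h2
  have h3 : 0 ≤ fbar (u t) - 1 := nonneg_of_mul_nonneg_right h2 mass_pos
  have := ar_pos (u t)
  positivity

theorem GSol.speed_N0 {u : ℝ → Sm} (h : GSol u) :
    Tendsto (fun t => H797.N 0 (ff (u t) - 1)) atTop (𝓝 0) := by
  obtain ⟨M, m, hM, hm, hP⟩ := h.pb
  have hmass := mass_pos
  have h1 := h.speed_zero.const_mul (1 / (2 * m * Real.exp (-(2 * M))))
  rw [mul_zero] at h1
  refine squeeze_zero' (Eventually.of_forall fun t => N_nonneg _ _) ?_ h1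
  filter_upwards [eventually_ge_atTop 0] with t ht
  have hPt := hP t ht
  have e1 := P_eq (hPt.pos hm)
  have e2 : J (cst m * ((ff (u t) - 1) * (ff (u t) - 1))) ≤ J ((ff (u t) - 1) * (ff (u t) - 1) * ww (u t)) := by
    apply J_mono; intro q
    rw [sm_mul, sm_mul _ (ww (u t)), cst_apply, mul_comm m]
    have := hPt.w1 q
    have := mul_self_nonneg ((ff (u t) - 1).1 q)
    apply mul_le_mul_of_nonneg_left (hPt.w1 q)
    rw [sm_mul]; exact this
  rw [J_cst_mul, e1] at e2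
  have e3 := (ar_bounds hPt.u).1
  have e4 : 0 ≤ fbar (u t) - 1 := by
    have : 0 ≤ J ((ff (u t) - 1) * (ff (u t) - 1)) := J_sq_nonneg _
    have : 0 ≤ mass * (fbar (u t) - 1) := le_trans (by positivity) e2
    exact nonneg_of_mul_nonneg_right this mass_pos
  have he := Real.exp_pos (-(2 * M))
  rw [N_zero, div_mul_eq_mul_div, le_div_iff₀ (by positivity)]
  calc J ((ff (u t) - 1) * (ff (u t) - 1)) * (2 * m * Real.exp (-(2 * M)))
      = 2 * Real.exp (-(2 * M)) * (m * J ((ff (u t) - 1) * (ff (u t) - 1))) := by ring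
    _ ≤ 2 * Real.exp (-(2 * M)) * (mass * (fbar (u t) - 1)) := by gcongr
    _ = 2 * (Real.exp (-(2 * M)) * mass) * (fbar (u t) - 1) := by ring
    _ ≤ 2 * ar (u t) * (fbar (u t) - 1) := by gcongr
    _ = 1 * (2 * ar (u t) * (fbar (u t) - 1)) := by ring

/-- the speed tends to one in all norms -/
theorem GSol.speed_N {u : ℝ → Sm} (h : GSol u) (k : ℕ) :
    Tendsto (fun t => H797.N k (ff (u t) - 1)) atTop (𝓝 0) := by
  rw [Metric.tendsto_nhds]
  intro ε hε
  obtain ⟨C, hC0, hC⟩ := h.N (2 * k)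
  obtain ⟨δ, hδ, hδ2⟩ := interp k (ε / 2) (2 * C + 2 * mass) (by positivity)
  have h0 := (h.speed_N0).eventually_le_const hδ
  filter_upwards [h0, eventually_ge_atTop 0] with t ht1 ht2
  have e1 : H797.N (2 * k) (ff (u t) - 1) ≤ 2 * C + 2 * mass := by
    refine (N_sub_le _ _ _).trans ?_
    have a1 := (hC t ht2).1
    have a2 : H797.N (2 * k) 1 = mass := by
      have := N_cst (2 * k) 1
      simpa using this
    rw [a2]
    linarith
  have e2 := hδ2 _ ht1 e1
  rw [Real.dist_eq, sub_zero, abs_of_nonneg (N_nonneg _ _)]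
  linarith

end

end Pool.Agent.H797
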