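import Pool.Agent.H797.Conv

set_option autoImplicit false
open Set MeasureTheory Filter Topology
open scoped ContDiff

namespace Pool.Agent.H797

noncomputable section

/-- limit points at infinity -/
def LP (u : ℝ → Sm) (v : Sm) : Prop := ∃ t : ℕ → ℝ, Tendsto t atTop atTop ∧ (∀ n, 0 ≤ t n) ∧
  ∀ k, Tendsto (fun n => N k (u (t n) - v)) atTop (𝓝 0)

theorem norm_tend {g : ℕ → Sm} {v : Sm} (h : Tendsto (fun n => N 2 (g n - v)) atTop (𝓝 0)) :
    Tendsto (fun n => (g n).1) atTop (𝓝 v.1) := by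
  obtain ⟨C, hC0, hC⟩ := norm_le_N
  rw [tendsto_iff_norm_sub_tendsto_zero]
  have h1 : Tendsto (fun n => √(C * N 2 (g n - v))) atTop (𝓝 0) := by
    have h2 := (h.const_mul C).sqrt
    rw [mul_zero, Real.sqrt_zero] at h2
    exact h2
  exact squeeze_zero (fun n => norm_nonneg _) (fun n => hC (g n - v)) h1

theorem pt_tend {g : ℕ → Sm} {v : Sm} (h : Tendsto (fun n => N 2 (g n - v)) atTop (𝓝 0)) (p : S2) :
    Tendsto (fun n => (g n).1 p) atTop (𝓝 (v.1 p)) :=
  ((continuous_eval_const p).tendsto v.1).comp (norm_tend h)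

theorem ar_cont {g : ℕ → Sm} {v : Sm} (h : Tendsto (fun n => (g n).1) atTop (𝓝 v.1)) :
    Tendsto (fun n => ar (g n)) atTop (𝓝 (ar v)) := by
  have hF : Continuous (fun x : ℝ => Real.exp (2 * x)) := by fun_prop
  let F : C(ℝ, ℝ) := ⟨fun x => Real.exp (2 * x), hF⟩
  have e : ∀ w : Sm, ar w = I (F.comp w.1) := fun w => rfl
  simp only [e]
  exact (I.continuous.tendsto _).comp (((ContinuousMap.continuous_postcomp F).tendsto v.1).comp h)

theorem GSol.exists_LP {u : ℝ → Sm} (h : GSol u) {t : ℕ → ℝ} (ht : Tendsto t atTop atTop)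
    (ht0 : ∀ n, 0 ≤ t n) : ∃ φ : ℕ → ℕ, StrictMono φ ∧ ∃ v : Sm, LP u v ∧
    ∀ k, Tendsto (fun n => H797.N k (u (t (φ n)) - v)) atTop (𝓝 0) := by
  obtain ⟨φ, hφ, v, _, hv⟩ := compact_Sm (fun n => u (t n)) (fun k => by
    obtain ⟨C, _, hC⟩ := h.N k
    exact ⟨C, fun n => (hC (t n) (ht0 n)).2⟩)
  exact ⟨φ, hφ, v, ⟨fun n => t (φ n), ht.comp hφ.tendsto_atTop, fun n => ht0 _, hv⟩, hv⟩

/-- limit points have constant curvature -/
theorem LP.round {u : ℝ → Sm} (h : GSol u) {v : Sm} (hv : LP u v) :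
    ww v = cst (mass / ar v) * expS (cst 2 * v) := by
  obtain ⟨t, ht, ht0, hN⟩ := hv
  obtain ⟨M, m, hM, hm, hP⟩ := h.pb
  apply sm_ext; intro p
  have h1 := pt_tend (hN 2) p
  have h2 : Tendsto (fun n => (lap (u (t n))).1 p) atTop (𝓝 ((lap v).1 p)) := by
    apply pt_tend
    have h3 := (hN 4).const_mul 3
    rw [mul_zero] at h3
    refine squeeze_zero (fun n => N_nonneg _ _) (fun n => ?_) h3
    rw [← map_sub]
    exact N_lap_le 2 _
  have h4 : Tendsto (fun n => (ff (u (t n))).1 p) atTop (𝓝 ((1 : Sm).1 p)) :=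
    pt_tend ((h.speed_N 2).comp ht) p
  have h5 := ar_cont (norm_tend (hN 2))
  have h6 : Tendsto (fun n => ar (u (t n)) / mass * Real.exp (-2 * (u (t n)).1 p)
      * (1 - (lap (u (t n))).1 p) * (ff (u (t n))).1 p) atTop
      (𝓝 (ar v / mass * Real.exp (-2 * v.1 p) * (1 - (lap v).1 p) * (1 : Sm).1 p)) :=
    (((h5.div_const mass).mul ((Real.continuous_exp.tendsto _).comp (h1.const_mul (-2)))).mul
      (h2.const_sub 1)).mul h4
  have h7 : ∀ n, ar (u (t n)) / mass * Real.exp (-2 * (u (t n)).1 p)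
      * (1 - (lap (u (t n))).1 p) * (ff (u (t n))).1 p = 1 := by
    intro n
    have := congrArg (fun k : Sm => k.1 p) (ff_eq ((hP (t n) (ht0 n)).pos hm))
    simpa [ww, bet_apply] using this
  simp only [h7] at h6
  have h8 := tendsto_nhds_unique h6 tendsto_const_nhds
  rw [sm_mul, cst_apply, expS_apply, sm_mul, cst_apply, ww, sm_sub, sm_one]
  rw [sm_one, mul_one] at h8
  have ha := ar_pos v
  have hm' := mass_pos
  have he : Real.exp (-2 * v.1 p) * Real.exp (2 * v.1 p) = 1 := by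
    rw [← Real.exp_add]; simp
  calc 1 - (lap v).1 p = (mass / ar v * Real.exp (2 * v.1 p))
        * (ar v / mass * Real.exp (-2 * v.1 p) * (1 - (lap v).1 p)) := by
        have : (mass / ar v * Real.exp (2 * v.1 p))
          * (ar v / mass * Real.exp (-2 * v.1 p) * (1 - (lap v).1 p))
          = (mass / ar v * (ar v / mass)) * (Real.exp (-2 * v.1 p) * Real.exp (2 * v.1 p))
            * (1 - (lap v).1 p) := by ring
        rw [this, he]
        field_simp
    _ = mass / ar v * Real.exp (2 * v.1 p) := by rw [h8, mul_one]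

theorem GSol.ar_mono {u : ℝ → Sm} (h : GSol u) {s t : ℝ} (hs : 0 ≤ s) (hst : s ≤ t) :
    ar (u s) ≤ ar (u t) := by
  obtain ⟨M, m, hM, hm, hP⟩ := h.pb
  have hd := (h t (hs.trans hst)).area
  have h1 := decr (h := fun t => - ar (u t)) (fun r hr => (hd r hr).neg) (fun r hr => by
    have h1 := P_eq ((hP r hr.1).pos hm)
    have h2 : 0 ≤ J ((ff (u r) - 1) * (ff (u r) - 1) * ww (u r)) := by
      apply J_nonneg; intro q
      rw [sm_mul, sm_mul]
      have := (hP r hr.1).pos hm q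
      have := mul_self_nonneg ((ff (u r) - 1).1 q)
      positivity
    rw [h1] at h2
    have h3 : 0 ≤ fbar (u r) - 1 := nonneg_of_mul_nonneg_right h2 mass_pos
    have := ar_pos (u r)
    have : 0 ≤ 2 * ar (u r) * (fbar (u r) - 1) := by positivity
    linarith) ⟨hs, hst⟩ ⟨hs.trans hst, le_rfl⟩ hst
  simp only at h1
  linarith

theorem LP.ar_le {u : ℝ → Sm} (h : GSol u) {v w : Sm} (hv : LP u v) (hw : LP u w) :
    ar v ≤ ar w := by
  obtain ⟨t, ht, ht0, hN⟩ := hv
  obtain ⟨s, hs, hs0, hM⟩ := hw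
  have h1 := ar_cont (norm_tend (hN 2))
  have h2 := ar_cont (norm_tend (hM 2))
  refine le_of_tendsto' h1 (fun n => ?_)
  apply ge_of_tendsto h2
  filter_upwards [hs.eventually_ge_atTop (t n)] with m hm
  exact h.ar_mono (ht0 n) hm

/-- affine functions -/
def aff (α : ℝ) (b : E3) : Sm := cst α + (cst (b 0) * X 0 + cst (b 1) * X 1 + cst (b 2) * X 2)

theorem aff_apply (α : ℝ) (b : E3) (p : S2) : (aff α b).1 p = α + inner ℝ b (p : E3) := by
  rw [inner3]
  simp only [aff, sm_add, sm_mul, cst_apply, X_apply]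

theorem round_eq {u : Sm} {κ : ℝ} (hu : ww u = cst κ * expS (cst 2 * u)) {h : Sm}
    (hh : h = expS (-u)) : h * h + h * lap h - ∑ i, L i h * L i h = cst κ := by
  have e1 : lap h = h * (- lap u + ∑ i, L i u * L i u) := by
    rw [hh, lap_expS, map_neg]
    congr 2
    apply Finset.sum_congr rfl
    intro i _
    rw [map_neg]; ring
  have e2 : ∑ i, L i h * L i h = h * h * ∑ i, L i u * L i u := by
    rw [Finset.mul_sum]
    apply Finset.sum_congr rfl
    intro i _
    rw [hh, L_expS, map_neg]; ring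
  have e3 : h * h * expS (cst 2 * u) = 1 := by
    apply sm_ext; intro p
    rw [hh]
    simp only [sm_mul, expS_apply, sm_neg, cst_apply, sm_one]
    rw [← Real.exp_add, ← Real.exp_add]
    simp only [Real.exp_eq_one_iff]
    ring
  rw [e1, e2]
  have e4 : lap u = 1 - cst κ * expS (cst 2 * u) := by rw [← hu, ww]; ring
  rw [e4]
  linear_combination (cst κ) * e3

theorem aff_kappa {u : Sm} {κ α : ℝ} {b : E3} (hu : ww u = cst κ * expS (cst 2 * u))
    (hh : expS (-u) = aff α b) : α ^ 2 - ‖b‖ ^ 2 = κ := by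
  have h1 := round_eq hu hh.symm
  have h2 := congrArg (fun k : Sm => k.1 pole) h1
  rw [norm_sq3]
  have hs := S2_sq pole
  simp only [lap_eq3, Fin.sum_univ_three, aff, map_add, L_cst, L_cst_mul, L00, L01, L02, L10, L11,
    L12, L20, L21, L22, sm_add, sm_sub, sm_mul, sm_neg, cst_apply, X_apply, mul_zero, sm_zero,
    map_neg, map_zero, mul_neg, neg_neg] at h2
  generalize (pole : E3) 0 = x0 at *
  generalize (pole : E3) 1 = x1 at *
  generalize (pole : E3) 2 = x2 at *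
  linear_combination h2 + (b 0 ^ 2 + b 1 ^ 2 + b 2 ^ 2) * hs

theorem aff_pos {u : Sm} {α : ℝ} {b : E3} (hh : expS (-u) = aff α b) : 0 < α := by
  have h1 : ∀ p, 0 < (aff α b).1 p := fun p => by rw [← hh]; exact Real.exp_pos _
  have h2 := h1 pole
  have h3 := h1 ⟨-pole, by simp⟩
  rw [aff_apply] at h2 h3
  simp only [inner_neg_right] at h3
  linarith

namespace RD

variable (R : RD)

theorem round_refl {u : Sm} {α : ℝ} {b : E3} (hh : expS (-u) = aff α b) (p : S2) :
    Real.exp (-(R.zD u).1 p) = 1 - 2 * (R.s p - R.c) * (α * R.c + inner ℝ b R.n)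
      / ((1 - R.c ^ 2) * Real.exp (-u.1 p)) := by
  have hq := R.q_pos (S2_ne p)
  have ha := R.a_pos
  have e1 : Real.exp (-u.1 (R.rS p)) = α + inner ℝ b ((R.rS p : S2) : E3) := by
    have := congrArg (fun k : Sm => k.1 (R.rS p)) hh
    rw [aff_apply] at this
    exact this
  have e2 : Real.exp (-u.1 p) = α + inner ℝ b (p : E3) := by
    have := congrArg (fun k : Sm => k.1 p) hh
    rw [aff_apply] at this
    exact this
  have e3 : Real.exp (-(R.zD u).1 p) = Real.exp (-u.1 (R.rS p)) * (Real.exp (-u.1 p))⁻¹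
      * (R.q p / (1 - R.c ^ 2)) := by
    rw [zD_apply, ← Real.exp_neg]
    have : R.q p / (1 - R.c ^ 2) = Real.exp (Real.log (R.q p) - Real.log (1 - R.c ^ 2)) := by
      rw [Real.exp_sub, Real.exp_log hq, Real.exp_log ha]
    rw [this, ← Real.exp_add, ← Real.exp_add]
    congr 1; ring
  have e4 : R.q p * Real.exp (-u.1 (R.rS p)) = (1 - R.c ^ 2) * Real.exp (-u.1 p)
      - 2 * (R.s p - R.c) * (α * R.c + inner ℝ b R.n) := by
    rw [e1, e2, rS_coe, inner_smul_right, im_sphere, inner_sub_right, inner_smul_right,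
      inner_smul_right, mul_add, mul_inv_cancel_left₀ hq.ne', q_sphere]
    ring
  have he := Real.exp_pos (-u.1 p)
  rw [e3]
  have e5 : Real.exp (-u.1 (R.rS p)) * (Real.exp (-u.1 p))⁻¹ * (R.q p / (1 - R.c ^ 2))
      = (R.q p * Real.exp (-u.1 (R.rS p))) / ((1 - R.c ^ 2) * Real.exp (-u.1 p)) := by
    field_simp
  rw [e5, e4]
  field_simp

theorem round_pos {u : Sm} {α : ℝ} {b : E3} (hh : expS (-u) = aff α b)
    (hpos : 0 < α * R.c + inner ℝ b R.n) : ∃ μ > 0, ∀ p : S2, R.c ≤ R.s p →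
      μ * (R.s p - R.c) ≤ (R.zD u).1 p := by
  have ha := R.a_pos
  have hH : 0 < ‖(expS (-u)).1‖ := by
    have h1 := (expS (-u)).1.norm_coe_le_norm pole
    have h2 : 0 < ‖(expS (-u)).1 pole‖ := by
      rw [expS_apply, norm_pos_iff]
      exact (Real.exp_pos _).ne'
    linarith
  refine ⟨2 * (α * R.c + inner ℝ b R.n) / ((1 - R.c ^ 2) * ‖(expS (-u)).1‖), by positivity,
    fun p hp => ?_⟩
  have h1 := R.round_refl hh p
  have h2 := Real.add_one_le_exp (-(R.zD u).1 p)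
  have he := Real.exp_pos (-u.1 p)
  have h3 : Real.exp (-u.1 p) ≤ ‖(expS (-u)).1‖ := by
    have h4 := (expS (-u)).1.norm_coe_le_norm p
    rw [expS_apply, sm_neg, Real.norm_eq_abs, abs_of_pos he] at h4
    exact h4
  have h5 : 0 ≤ R.s p - R.c := by linarith
  have h6 : 2 * (α * R.c + inner ℝ b R.n) / ((1 - R.c ^ 2) * ‖(expS (-u)).1‖) * (R.s p - R.c)
      ≤ 2 * (R.s p - R.c) * (α * R.c + inner ℝ b R.n) / ((1 - R.c ^ 2) * Real.exp (-u.1 p)) := by
    rw [div_mul_eq_mul_div]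
    have e : 2 * (α * R.c + inner ℝ b R.n) * (R.s p - R.c)
      = 2 * (R.s p - R.c) * (α * R.c + inner ℝ b R.n) := by ring
    rw [e]
    gcongr
  linarith

theorem round_neg {u : Sm} {α : ℝ} {b : E3} (hh : expS (-u) = aff α b)
    (hneg : α * R.c + inner ℝ b R.n < 0) (p : S2) (hp : R.c < R.s p) : (R.zD u).1 p < 0 := by
  have ha := R.a_pos
  have h1 := R.round_refl hh p
  have he := Real.exp_pos (-u.1 p)
  have h2 : 2 * (R.s p - R.c) * (α * R.c + inner ℝ b R.n)
      / ((1 - R.c ^ 2) * Real.exp (-u.1 p)) < 0 := by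
    apply div_neg_of_neg_of_pos _ (by positivity)
    apply mul_neg_of_pos_of_neg _ hneg
    linarith
  have h3 : 1 < Real.exp (-(R.zD u).1 p) := by linarith
  have h4 := Real.one_lt_exp_iff.mp h3
  linarith

theorem q_lower (p : S2) : (1 - |R.c|) ^ 2 ≤ R.q p := by
  rw [R.q_sphere]
  have h1 := R.s_abs p
  rw [S2_norm] at h1
  have h2 : R.c * R.s p ≤ |R.c| * 1 :=
    (le_abs_self _).trans (by rw [abs_mul]; gcongr)
  have h3 : |R.c| ^ 2 = R.c ^ 2 := sq_abs _
  nlinarith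

/-- perturbation of the reflected difference -/
theorem zD_close {u v : Sm} {η : ℝ} (hL : ∀ i p, |(L i (u - v)).1 p| ≤ η)
    (h0 : ∀ p, |(u - v).1 p| ≤ η) (p : S2) (hp : R.c ≤ R.s p) :
    (R.zD v).1 p - 16 * η / (1 - |R.c|) * (R.s p - R.c) ≤ (R.zD u).1 p := by
  have h1 := lip_of_L (u - v) η η hL h0 (R.rS p) p
  rw [R.rS_dist p hp] at h1
  have hη : 0 ≤ η := (abs_nonneg _).trans (h0 pole)
  have hc : 0 < 1 - |R.c| := by
    have := abs_lt.mpr ⟨R.h1, R.h2⟩
    linarith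
  have hsq : 1 - |R.c| ≤ √(R.q p) := Real.le_sqrt_of_sq_le (R.q_lower p)
  have h5 : 0 ≤ R.s p - R.c := by linarith
  have h2 : (6 * η + 2 * η) * (2 * (R.s p - R.c) / √(R.q p))
      ≤ 16 * η / (1 - |R.c|) * (R.s p - R.c) := by
    calc (6 * η + 2 * η) * (2 * (R.s p - R.c) / √(R.q p))
        = 16 * η * (R.s p - R.c) / √(R.q p) := by ring
      _ ≤ 16 * η * (R.s p - R.c) / (1 - |R.c|) := by gcongr
      _ = _ := by ring
  have h3 := (abs_le.mp (h1.trans h2)).1
  rw [zD_apply, zD_apply]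
  rw [sm_sub, sm_sub] at h3
  linarith

end RD

theorem L_tend {g : ℕ → Sm} {v : Sm} (h : Tendsto (fun n => N 3 (g n - v)) atTop (𝓝 0)) (i : Fin 3) :
    Tendsto (fun n => N 2 (L i (g n) - L i v)) atTop (𝓝 0) := by
  refine squeeze_zero (fun n => N_nonneg _ _) (fun n => ?_) h
  rw [← map_sub]
  exact N_L_le 2 i _

/-- key comparison step -/
theorem LP.refl {u : ℝ → Sm} (h : GSol u) {v w : Sm} (hv : LP u v) (hw : LP u w) (R : RD)
    {α : ℝ} {b : E3} (hh : expS (-v) = aff α b) (hpos : 0 < α * R.c + inner ℝ b R.n) :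
    ∀ p : S2, R.c ≤ R.s p → 0 ≤ (R.zD w).1 p := by
  obtain ⟨μ, hμ, hμ2⟩ := R.round_pos hh hpos
  obtain ⟨t, ht, ht0, hN⟩ := hv
  obtain ⟨s, hs, hs0, hM⟩ := hw
  have hc : 0 < 1 - |R.c| := by
    have := abs_lt.mpr ⟨R.h1, R.h2⟩
    linarith
  obtain ⟨η, hη⟩ : ∃ η, η = μ * (1 - |R.c|) / 16 := ⟨_, rfl⟩
  have hη0 : 0 < η := by rw [hη]; positivity
  have hev0 := (tendsto_iff_norm_sub_tendsto_zero.mp (norm_tend (hN 2))).eventually_le_const hη0
  have hevL : ∀ᶠ n in atTop, ∀ i, ‖(L i (u (t n))).1 - (L i v).1‖ ≤ η := by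
    rw [Filter.eventually_all]
    intro i
    exact (tendsto_iff_norm_sub_tendsto_zero.mp (norm_tend (L_tend (hN 3) i))).eventually_le_const hη0
  obtain ⟨n, hn0, hnL⟩ := (hev0.and hevL).exists
  have h1 : ∀ p : S2, R.c ≤ R.s p → 0 ≤ (R.zD (u (t n))).1 p := by
    intro p hp
    have e1 := R.zD_close (u := u (t n)) (v := v) (η := η) (fun i p => by
      rw [map_sub]
      exact ((L i (u (t n)) - L i v).1.norm_coe_le_norm p).trans (hnL i))
      (fun p => ((u (t n) - v).1.norm_coe_le_norm p).trans hn0) p hp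
    have e2 := hμ2 p hp
    have e3 : 16 * η / (1 - |R.c|) = μ := by rw [hη]; field_simp
    rw [e3] at e1
    linarith
  intro p hp
  have h2 : Tendsto (fun m => (R.zD (u (s m))).1 p) atTop (𝓝 ((R.zD w).1 p)) := by
    simp only [RD.zD_apply]
    exact ((pt_tend (hM 2) (R.rS p)).add_const _).sub (pt_tend (hM 2) p)
  apply ge_of_tendsto h2
  filter_upwards [hs.eventually_ge_atTop (t n)] with m hm
  have hsol : Sol (s m - t n) (fun r => u (r + t n)) := (h.shift (ht0 n)) (s m - t n) (by linarith)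
  have h3 := R.pres (by linarith) hsol (by simpa using h1) (s m - t n) ⟨by linarith, le_rfl⟩ p hp
  simpa using h3

/-- uniqueness of limit points -/
theorem LP.unique {u : ℝ → Sm} (h : GSol u) {v w : Sm} (hv : LP u v) (hw : LP u w) : v = w := by
  have har : ar v = ar w := le_antisymm (hv.ar_le h hw) (hw.ar_le h hv)
  have rv := hv.round h
  have rw' := hw.round h
  rw [← har] at rw'
  obtain ⟨κ, hκ⟩ : ∃ κ, κ = mass / ar v := ⟨_, rfl⟩
  have hκ0 : 0 < κ := by rw [hκ]; exact div_pos mass_pos (ar_pos v)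
  rw [← hκ] at rv rw'
  obtain ⟨α, b', hb⟩ := liouville v κ rv
  obtain ⟨β, c', hc⟩ := liouville w κ rw'
  obtain ⟨b, hb'⟩ : ∃ b : E3, b = !₂[b' 0, b' 1, b' 2] := ⟨_, rfl⟩
  obtain ⟨c, hc'⟩ : ∃ c : E3, c = !₂[c' 0, c' 1, c' 2] := ⟨_, rfl⟩
  have hb2 : expS (-v) = aff α b := by rw [hb, aff, hb']; simp
  have hc2 : expS (-w) = aff β c := by rw [hc, aff, hc']; simp
  have hα := aff_pos hb2
  have hβ := aff_pos hc2
  have kα := aff_kappa rv hb2
  have kβ := aff_kappa rw' hc2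
  by_cases hne : α⁻¹ • b = β⁻¹ • c
  · have hc3 : c = (β * α⁻¹) • b := by
      have := congrArg (fun x : E3 => β • x) hne
      simp only [smul_smul] at this
      rw [mul_inv_cancel₀ hβ.ne', one_smul] at this
      exact this.symm
    have h1 : β = α := by
      have h2 : ‖c‖ ^ 2 = (β * α⁻¹) ^ 2 * ‖b‖ ^ 2 := by
        rw [hc3, norm_smul, mul_pow, Real.norm_eq_abs, sq_abs]
      have h3 : (β * α⁻¹) ^ 2 * κ = κ := by
        rw [h2] at kβ
        have e1 : (β * α⁻¹) ^ 2 * α ^ 2 = β ^ 2 := by field_simp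
        calc (β * α⁻¹) ^ 2 * κ = (β * α⁻¹) ^ 2 * (α ^ 2 - ‖b‖ ^ 2) := by rw [kα]
          _ = (β * α⁻¹) ^ 2 * α ^ 2 - (β * α⁻¹) ^ 2 * ‖b‖ ^ 2 := by ring
          _ = κ := by rw [e1]; exact kβ
      have h4 : (β * α⁻¹) ^ 2 = 1 := mul_right_cancel₀ hκ0.ne' (by rw [h3, one_mul])
      have h5 : β * α⁻¹ = 1 := by
        have : 0 < β * α⁻¹ := by positivity
        nlinarith
      field_simp at h5
      exact h5
    have h6 : c = b := by
      rw [hc3, h1, mul_inv_cancel₀ hα.ne', one_smul]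
    have h7 : expS (-v) = expS (-w) := by rw [hb2, hc2, h1, h6]
    apply sm_ext; intro p
    have h8 := congrArg (fun k : Sm => k.1 p) h7
    have h9 := Real.exp_injective h8
    rw [sm_neg, sm_neg] at h9
    linarith
  · exfalso
    obtain ⟨d, hd⟩ : ∃ d : E3, d = α⁻¹ • b - β⁻¹ • c := ⟨_, rfl⟩
    have hd0 : d ≠ 0 := by rw [hd]; exact sub_ne_zero.mpr hne
    have hdn : 0 < ‖d‖ := norm_pos_iff.mpr hd0
    obtain ⟨n, hn⟩ : ∃ n : E3, n = ‖d‖⁻¹ • d := ⟨_, rfl⟩
    have hn1 : ‖n‖ = 1 := by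
      rw [hn, norm_smul, norm_inv, norm_norm, inv_mul_cancel₀ hdn.ne']
    have hlt : ∀ (γ : ℝ) (a : E3), 0 < γ → γ ^ 2 - ‖a‖ ^ 2 = κ → |inner ℝ a n| < γ := by
      intro γ a hγ hk
      have h1 := abs_real_inner_le_norm a n
      rw [hn1, mul_one] at h1
      refine h1.trans_lt ?_
      nlinarith [norm_nonneg a]
    have hlb := abs_lt.mp (hlt α b hα kα)
    have hlc := abs_lt.mp (hlt β c hβ kβ)
    have hdiff : α⁻¹ * inner ℝ b n - β⁻¹ * inner ℝ c n = ‖d‖ := by
      have e1 : inner ℝ d n = ‖d‖ := by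
        rw [hn, inner_smul_right, real_inner_self_eq_norm_sq]
        field_simp
      rw [← e1, hd, inner_sub_left, inner_smul_left, inner_smul_left]
      simp
    obtain ⟨x, hx⟩ : ∃ x, x = α⁻¹ * inner ℝ b n := ⟨_, rfl⟩
    obtain ⟨y, hy⟩ : ∃ y, y = β⁻¹ * inner ℝ c n := ⟨_, rfl⟩
    have hbx : inner ℝ b n = α * x := by rw [hx]; field_simp
    have hcy : inner ℝ c n = β * y := by rw [hy]; field_simp
    rw [← hx, ← hy] at hdiff
    rw [hbx] at hlb
    rw [hcy] at hlc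
    have hx1 : -1 < x ∧ x < 1 := ⟨by nlinarith [hlb.1], by nlinarith [hlb.2]⟩
    have hy1 : -1 < y ∧ y < 1 := ⟨by nlinarith [hlc.1], by nlinarith [hlc.2]⟩
    let R : RD := ⟨n, hn1, -((x + y) / 2), by linarith [hx1.2, hy1.2], by linarith [hx1.1, hy1.1]⟩
    have hRc : R.c = -((x + y) / 2) := rfl
    have hRn : R.n = n := rfl
    have hpos : 0 < α * R.c + inner ℝ b R.n := by
      rw [hRc, hRn, hbx]
      have : α * -((x + y) / 2) + α * x = α * ((x - y) / 2) := by ring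
      rw [this, hdiff]
      positivity
    have hneg : β * R.c + inner ℝ c R.n < 0 := by
      rw [hRc, hRn, hcy]
      have : β * -((x + y) / 2) + β * y = -(β * ((x - y) / 2)) := by ring
      rw [this, hdiff]
      have : 0 < β * (‖d‖ / 2) := by positivity
      linarith
    have hsn : R.s (⟨n, by simp [hn1]⟩ : S2) = 1 := by
      change inner ℝ n n = 1
      rw [real_inner_self_eq_norm_sq, hn1]; norm_num
    have h1 := LP.refl h hv hw R hb2 hpos ⟨n, by simp [hn1]⟩ (by rw [hsn]; exact R.h2.le)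
    have h2 := R.round_neg hc2 hneg ⟨n, by simp [hn1]⟩ (by rw [hsn]; exact R.h2)
    linarith

/-- convergence of global solutions -/
theorem conv_main {u : ℝ → Sm} (h : GSol u) : ∃ v : Sm, ∃ κ : ℝ, 0 < κ ∧
    ww v = cst κ * expS (cst 2 * v) ∧ ∀ k, Tendsto (fun t => N k (u t - v)) atTop (𝓝 0) := by
  obtain ⟨_, _, v, hv, _⟩ := h.exists_LP (t := fun n => (n : ℝ)) tendsto_natCast_atTop_atTop
    (fun n => Nat.cast_nonneg n)
  refine ⟨v, mass / ar v, div_pos mass_pos (ar_pos v), hv.round h, fun k => ?_⟩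
  by_contra hcon
  rw [Metric.tendsto_atTop] at hcon
  push Not at hcon
  obtain ⟨ε, hε, hcon⟩ := hcon
  choose t ht htε using fun n : ℕ => hcon n
  have ht0 : ∀ n, 0 ≤ t n := fun n => (Nat.cast_nonneg n).trans (ht n)
  have htt : Tendsto t atTop atTop := tendsto_atTop_mono ht tendsto_natCast_atTop_atTop
  obtain ⟨φ, hφ, w, hw, hw2⟩ := h.exists_LP htt ht0
  have := LP.unique h hv hw
  rw [← this] at hw2
  have h1 := (Metric.tendsto_atTop.mp (hw2 k)) ε hε
  obtain ⟨n, hn⟩ := h1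
  exact absurd (hn n le_rfl) (not_lt.mpr (htε (φ n)))

end

end Pool.Agent.H797
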