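import Pool.Agent.H797.Norms

set_option autoImplicit false
open Set MeasureTheory
open scoped ContDiff ENNReal

namespace Pool.Agent.H797

noncomputable section

theorem sum3_le {f : Fin 3 → ℝ} {c : ℝ} (h : ∀ i, f i ≤ c) : ∑ i, f i ≤ 3 * c := by
  refine (Finset.sum_le_sum (fun i _ => h i)).trans (le_of_eq ?_)
  simp

theorem abs_sum3_le {f : Fin 3 → ℝ} {c : ℝ} (h : ∀ i, |f i| ≤ c) : |∑ i, f i| ≤ 3 * c :=
  (Finset.abs_sum_le_sum_abs _ _).trans (sum3_le h)

/-- commutator estimate -/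
theorem comm_est (k : ℕ) : ∃ C : ℝ, 0 ≤ C ∧ ∀ (a g h : Sm),
    |B (k + 1) (a * g) h - Aw (k + 1) a g h|
      ≤ C * √(N (max (k + 1) 3) a) * √(N k g) * √(N (k + 1) h) := by
  induction k with
  | zero =>
    obtain ⟨C, hC0, hC⟩ := prod0
    refine ⟨3 * √C, by positivity, fun a g h => ?_⟩
    have e : B (0 + 1) (a * g) h - Aw (0 + 1) a g h = ∑ i, B 0 (L i a * g) (L i h) := by
      rw [B_succ, Aw_succ]
      have : ∀ i, B 0 (L i (a * g)) (L i h) = B 0 (L i a * g) (L i h) + Aw 0 a (L i g) (L i h) := by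
        intro i
        rw [L_mul, B_add_left]
        rfl
      simp only [this, Finset.sum_add_distrib]
      ring
    rw [e]
    have h1 : ∀ i, |B 0 (L i a * g) (L i h)| ≤ √C * √(N (max (0 + 1) 3) a) * √(N 0 g)
        * √(N (0 + 1) h) := by
      intro i
      refine (B_CS_abs 0 _ _).trans ?_
      rw [← Real.sqrt_mul hC0, ← Real.sqrt_mul (mul_nonneg hC0 (N_nonneg (max (0 + 1) 3) a))]
      gcongr
      · refine (hC _ _).trans ?_
        have := N_nonneg 0 g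
        have h2 : N 2 (L i a) ≤ N (max (0 + 1) 3) a := N_L_le 2 i a
        gcongr
      · exact N_L_le 0 i h
    refine (abs_sum3_le h1).trans (le_of_eq ?_)
    ring
  | succ k ih =>
    obtain ⟨C, hC0, hC⟩ := prodk (k + 1)
    obtain ⟨D, hD0, hD⟩ := ih
    refine ⟨3 * (√C + D), by positivity, fun a g h => ?_⟩
    have e : B (k + 1 + 1) (a * g) h - Aw (k + 1 + 1) a g h
        = ∑ i, (B (k + 1) (L i a * g) (L i h)
          + (B (k + 1) (a * L i g) (L i h) - Aw (k + 1) a (L i g) (L i h))) := by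
      rw [B_succ (k + 1), Aw_succ (k + 1)]
      have : ∀ i, B (k + 1) (L i (a * g)) (L i h)
          = B (k + 1) (L i a * g) (L i h) + B (k + 1) (a * L i g) (L i h) := by
        intro i
        rw [L_mul, B_add_left]
      simp only [this, Finset.sum_add_distrib, Finset.sum_sub_distrib]
      ring
    rw [e]
    set Q := √(N (max (k + 1 + 1) 3) a) * √(N (k + 1) g) * √(N (k + 1 + 1) h) with hQ
    have h1 : ∀ i, |B (k + 1) (L i a * g) (L i h)
          + (B (k + 1) (a * L i g) (L i h) - Aw (k + 1) a (L i g) (L i h))| ≤ (√C + D) * Q := by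
      intro i
      refine (abs_add_le _ _).trans ?_
      rw [add_mul]
      apply add_le_add
      · refine (B_CS_abs (k + 1) _ _).trans ?_
        rw [hQ, ← mul_assoc, ← mul_assoc, ← Real.sqrt_mul hC0,
          ← Real.sqrt_mul (mul_nonneg hC0 (N_nonneg (max (k + 1 + 1) 3) a))]
        gcongr
        · refine (hC _ _).trans ?_
          have := N_nonneg (k + 1) g
          have h2 : N (max (k + 1) 2) (L i a) ≤ N (max (k + 1 + 1) 3) a :=
            (N_L_le _ i a).trans (N_mono (by omega) a)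
          gcongr
        · exact N_L_le (k + 1) i h
      · refine (hD _ _ _).trans ?_
        rw [hQ, ← mul_assoc, ← mul_assoc]
        gcongr
        · exact N_mono (by omega) a
        · exact N_L_le k i g
        · exact N_L_le (k + 1) i h
    refine (abs_sum3_le h1).trans (le_of_eq ?_)
    rw [hQ]; ring

/-- integration by parts with a weight -/
theorem ibp_est (k : ℕ) (a : Sm) (m Λ : ℝ) (hm : 0 < m) (ha : ∀ p, m ≤ a.1 p)
    (hΛ : ∀ i p, ((L i a).1 p) ^ 2 ≤ Λ) (φ : Sm) :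
    Aw k a (lap φ) φ ≤ -(m / 2) * (N (k + 1) φ - N 0 φ) + 3 * Λ / (2 * m) * N k φ := by
  have leaf : ∀ ψ : Sm, J (a * lap ψ * ψ)
      ≤ -(m / 2) * (N 1 ψ - N 0 ψ) + 3 * Λ / (2 * m) * N 0 ψ := by
    intro ψ
    have e1 : J (a * lap ψ * ψ) = - ∑ i, J (L i ψ * L i (a * ψ)) := by
      rw [show a * lap ψ * ψ = lap ψ * (a * ψ) by ring, J_lap]
    have e2 : ∀ i, -J (L i ψ * L i (a * ψ))
        ≤ -(m / 2) * J (L i ψ * L i ψ) + Λ / (2 * m) * J (ψ * ψ) := by
      intro i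
      have h1 : J (-(L i ψ * L i (a * ψ)))
          ≤ J (cst (-(m / 2)) * (L i ψ * L i ψ) + cst (Λ / (2 * m)) * (ψ * ψ)) := by
        apply J_mono
        intro p
        rw [L_mul]
        simp only [sm_neg, sm_mul, sm_add, cst_apply]
        set x := (L i ψ).1 p
        set y := ψ.1 p
        set l := (L i a).1 p with hl
        have h2 := ha p
        have h3 := hΛ i p
        rw [← hl] at h3
        have h4 : -(x * (l * y + a.1 p * x)) ≤ -(m * x ^ 2) + |l| * |x| * |y| := by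
          have h5 : -(x * (l * y)) ≤ |l| * |x| * |y| := by
            rw [← abs_mul, ← abs_mul]
            calc -(x * (l * y)) ≤ |-(x * (l * y))| := le_abs_self _
              _ = _ := by rw [abs_neg]; congr 1; ring
          nlinarith [mul_le_mul_of_nonneg_right h2 (sq_nonneg x)]
        have h6 : |l| * |x| * |y| ≤ m / 2 * x ^ 2 + Λ / (2 * m) * y ^ 2 := by
          have h7 : |l| * |x| * |y| ≤ m / 2 * |x| ^ 2 + |l| ^ 2 / (2 * m) * |y| ^ 2 := by
            have h8 : 0 ≤ (m * |x| - |l| * |y|) ^ 2 / (2 * m) := by positivity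
            have h9 : (m * |x| - |l| * |y|) ^ 2 / (2 * m)
                = m / 2 * |x| ^ 2 + |l| ^ 2 / (2 * m) * |y| ^ 2 - |l| * |x| * |y| := by
              field_simp
              ring
            linarith
          have h10 : |l| ^ 2 / (2 * m) * |y| ^ 2 ≤ Λ / (2 * m) * |y| ^ 2 := by
            rw [sq_abs l]
            gcongr
          rw [sq_abs] at h7 h10
          rw [sq_abs] at h7 h10
          first
            | linarith
            | (simp only [sq_abs] at h7 h10 ⊢; linarith)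
        nlinarith
      rw [map_neg, map_add, J_cst_mul, J_cst_mul] at h1
      exact h1
    rw [e1, ← Finset.sum_neg_distrib]
    refine (Finset.sum_le_sum (fun i _ => e2 i)).trans (le_of_eq ?_)
    rw [Finset.sum_add_distrib, ← Finset.mul_sum, N_succ]
    simp only [N_zero, Finset.sum_const, Finset.card_univ, Fintype.card_fin, nsmul_eq_mul]
    push_cast
    ring
  induction k generalizing φ with
  | zero => exact leaf φ
  | succ k ih =>
    rw [Aw_succ]
    have h1 := leaf φ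
    have h2 : ∑ i, Aw k a (L i (lap φ)) (L i φ)
        ≤ ∑ i, (-(m / 2) * (N (k + 1) (L i φ) - N 0 (L i φ)) + 3 * Λ / (2 * m) * N k (L i φ)) := by
      apply Finset.sum_le_sum
      intro i _
      rw [← lap_L]
      exact ih (L i φ)
    rw [Finset.sum_add_distrib, ← Finset.mul_sum, ← Finset.mul_sum, Finset.sum_sub_distrib] at h2
    have h3 : N (k + 1 + 1) φ = J (φ * φ) + ∑ i, N (k + 1) (L i φ) := rfl
    have h4 : N (k + 1) φ = J (φ * φ) + ∑ i, N k (L i φ) := rfl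
    have h5 : N 1 φ = J (φ * φ) + ∑ i, N 0 (L i φ) := rfl
    have h6 : N 0 φ = J (φ * φ) := rfl
    rw [h3, h4]
    rw [h5, h6] at h1
    rw [h6]
    linarith

theorem add_young {x y : ℝ} (hx : 0 ≤ x) (hy : 0 ≤ y) (ε : ℝ) (hε : 0 < ε) :
    √x * √y ≤ ε * x + 1 / (4 * ε) * y := by
  have h1 := Real.sq_sqrt hx
  have h2 := Real.sq_sqrt hy
  have h3 : 0 ≤ (2 * ε * √x - √y) ^ 2 / (4 * ε) := by positivity
  have h4 : (2 * ε * √x - √y) ^ 2 / (4 * ε) = ε * √x ^ 2 + 1 / (4 * ε) * √y ^ 2 - √x * √y := by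
    field_simp
    ring
  rw [h1, h2] at h4
  linarith

/-- the main energy estimate at level `k + 3` -/
theorem main_est (k : ℕ) (M m : ℝ) (hM : 0 ≤ M) (hm : 0 < m) :
    ∃ C : ℝ, 0 ≤ C ∧ ∀ (β φ : Sm) (μ : ℝ), N (k + 3) β ≤ M → N (k + 2) φ ≤ M → |μ| ≤ M →
      (∀ p, m ≤ (β * (φ * φ)).1 p) →
      B (k + 3) (β * (φ * φ) * lap φ + cst 2 * (φ * φ) - cst (2 * μ) * φ) φ
        ≤ -(m / 4) * N (k + 4) φ + C * (1 + N (k + 3) φ) ^ 2 := by
  obtain ⟨Ct, hCt0, hCt⟩ := tame k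
  obtain ⟨Ca, hCa0, hCa⟩ := alg (k + 1)
  obtain ⟨Cc, hCc0, hCc⟩ := comm_est (k + 2)
  obtain ⟨Cs, hCs0, hCs⟩ := sup_sq
  obtain ⟨K1, hK1⟩ : ∃ x, x = 2 * Ct * M := ⟨_, rfl⟩
  obtain ⟨K2, hK2⟩ : ∃ x, x = Ca * M * K1 := ⟨_, rfl⟩
  have hK10 : 0 ≤ K1 := by rw [hK1]; positivity
  have hK20 : 0 ≤ K2 := by rw [hK2]; positivity
  obtain ⟨K3, hK3⟩ : ∃ x, x = Cc ^ 2 * K2 * 3 := ⟨_, rfl⟩
  have hK30 : 0 ≤ K3 := by rw [hK3]; positivity
  obtain ⟨CC, hCC⟩ : ∃ x, x = (m / 2) + 3 * (Cs * K2) / (2 * m) + K3 / m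
    + (8 * K1 + 4 * (4 * M ^ 2) + 1) := ⟨_, rfl⟩
  refine ⟨CC, by rw [hCC]; positivity, fun β φ μ hβ hφ hμ ha => ?_⟩
  obtain ⟨a, haa⟩ : ∃ x, x = β * (φ * φ) := ⟨_, rfl⟩
  obtain ⟨y, hy⟩ : ∃ x, x = N (k + 3) φ := ⟨_, rfl⟩
  rw [← haa] at ha ⊢
  rw [← hy]
  have hy0 : 0 ≤ y := by rw [hy]; exact N_nonneg _ _
  have hz0 : 0 ≤ N (k + 4) φ := N_nonneg _ _
  have hsq : N (k + 3) (φ * φ) ≤ K1 * y := by
    refine (hCt φ φ).trans ?_
    have e : Ct * (N (k + 3) φ * N (k + 2) φ + N (k + 2) φ * N (k + 3) φ)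
        = 2 * Ct * N (k + 2) φ * y := by rw [hy]; ring
    rw [e, hK1]
    gcongr
  have haN : N (k + 3) a ≤ K2 * y := by
    rw [haa]
    refine (hCa β (φ * φ)).trans ?_
    rw [hK2, mul_assoc (Ca * M)]
    have := N_nonneg (k + 1 + 2) (φ * φ)
    have e1 : N (k + 1 + 2) β ≤ M := hβ
    have e2 : N (k + 1 + 2) (φ * φ) ≤ K1 * y := hsq
    calc Ca * N (k + 1 + 2) β * N (k + 1 + 2) (φ * φ) ≤ Ca * M * N (k + 1 + 2) (φ * φ) := by gcongr
      _ ≤ Ca * M * (K1 * y) := by gcongr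
  -- decomposition
  have hdec : B (k + 3) (a * lap φ + cst 2 * (φ * φ) - cst (2 * μ) * φ) φ
      = Aw (k + 3) a (lap φ) φ + (B (k + 3) (a * lap φ) φ - Aw (k + 3) a (lap φ) φ)
        + B (k + 3) (cst 2 * (φ * φ) - cst (2 * μ) * φ) φ := by
    rw [add_sub_assoc, B_add_left]; ring
  rw [hdec]
  -- principal part
  have hL : ∀ i p, ((L i a).1 p) ^ 2 ≤ Cs * (K2 * y) := by
    intro i p
    refine (hCs _ _).trans ?_
    have e1 : N 2 (L i a) ≤ N (k + 3) a := (N_L_le 2 i a).trans (N_mono (by omega) a)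
    have := e1.trans haN
    gcongr
  have h1 := ibp_est (k + 3) a m (Cs * (K2 * y)) hm ha hL φ
  have h1' : 3 * (Cs * (K2 * y)) / (2 * m) * N (k + 3) φ
      ≤ 3 * (Cs * K2) / (2 * m) * (1 + y) ^ 2 := by
    have e : 3 * (Cs * (K2 * y)) / (2 * m) * N (k + 3) φ = 3 * (Cs * K2) / (2 * m) * y ^ 2 := by
      rw [← hy]; ring
    rw [e]
    gcongr
    linarith
  have h1'' : N 0 φ ≤ (1 + y) ^ 2 := by
    have e1 : N 0 φ ≤ y := by rw [hy]; exact N_mono (by omega) φ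
    nlinarith
  -- commutator
  have h2 : B (k + 3) (a * lap φ) φ - Aw (k + 3) a (lap φ) φ
      ≤ m / 4 * N (k + 4) φ + K3 / m * (1 + y) ^ 2 := by
    refine (le_abs_self _).trans ((hCc a (lap φ) φ).trans ?_)
    have e1 : N (max (k + 2 + 1) 3) a ≤ K2 * y := by
      have : max (k + 2 + 1) 3 = k + 3 := by omega
      rw [this]; exact haN
    have e2 : N (k + 2) (lap φ) ≤ 3 * N (k + 4) φ := N_lap_le (k + 2) φ
    have e3 : N (k + 2 + 1) φ = y := hy.symm
    rw [e3]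
    have e4 : Cc * √(N (max (k + 2 + 1) 3) a) * √(N (k + 2) (lap φ)) * √y
        ≤ √(N (k + 4) φ) * √(K3 * y ^ 2) := by
      have f1 : √(N (max (k + 2 + 1) 3) a) ≤ √(K2 * y) := Real.sqrt_le_sqrt e1
      have f2 : √(N (k + 2) (lap φ)) ≤ √(3 * N (k + 4) φ) := Real.sqrt_le_sqrt e2
      calc Cc * √(N (max (k + 2 + 1) 3) a) * √(N (k + 2) (lap φ)) * √y
          ≤ Cc * √(K2 * y) * √(3 * N (k + 4) φ) * √y := by gcongr
        _ = √(N (k + 4) φ) * √(K3 * y ^ 2) := by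
          have g1 : √(K3 * y ^ 2) = Cc * √K2 * √3 * y := by
            have : K3 * y ^ 2 = (Cc * √K2 * √3 * y) ^ 2 := by
              rw [mul_pow, mul_pow, mul_pow, Real.sq_sqrt hK20, Real.sq_sqrt (by norm_num), hK3]
            rw [this]
            exact Real.sqrt_sq (by positivity)
          rw [g1, Real.sqrt_mul hK20, Real.sqrt_mul (by norm_num)]
          have g2 : √y * √y = y := Real.mul_self_sqrt hy0
          calc Cc * (√K2 * √y) * (√3 * √(N (k + 4) φ)) * √y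
              = √(N (k + 4) φ) * (Cc * √K2 * √3 * (√y * √y)) := by ring
            _ = _ := by rw [g2]
    refine e4.trans ((add_young hz0 (by positivity) (m / 4) (by positivity)).trans ?_)
    have e5 : 1 / (4 * (m / 4)) * (K3 * y ^ 2) = K3 / m * y ^ 2 := by
      field_simp
    rw [e5]
    gcongr
    linarith
  -- zero order part
  have h3 : B (k + 3) (cst 2 * (φ * φ) - cst (2 * μ) * φ) φ
      ≤ (8 * K1 + 4 * (4 * M ^ 2) + 1) * (1 + y) ^ 2 := by
    have e1 : N (k + 3) (cst 2 * (φ * φ) - cst (2 * μ) * φ) ≤ (8 * K1 + 2 * (4 * M ^ 2)) * y := by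
      refine (N_sub_le _ _ _).trans ?_
      rw [N_cst_mul, N_cst_mul, ← hy]
      have : μ ^ 2 ≤ M ^ 2 := by rw [← sq_abs]; exact pow_le_pow_left₀ (abs_nonneg _) hμ 2
      have g1 : (2 * μ) ^ 2 * y ≤ 4 * M ^ 2 * y := by
        have : (2 * μ) ^ 2 ≤ 4 * M ^ 2 := by nlinarith
        gcongr
      linarith
    have e2 : √(N (k + 3) (cst 2 * (φ * φ) - cst (2 * μ) * φ)) * √(N (k + 3) φ)
        ≤ 1 * N (k + 3) (cst 2 * (φ * φ) - cst (2 * μ) * φ) + 1 / (4 * 1) * N (k + 3) φ :=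
      add_young (N_nonneg _ _) (N_nonneg _ _) 1 one_pos
    have e3 := (le_abs_self _).trans (B_CS_abs (k + 3) (cst 2 * (φ * φ) - cst (2 * μ) * φ) φ)
    have e4 : y ≤ (1 + y) ^ 2 := by nlinarith
    have e5 : (8 * K1 + 2 * (4 * M ^ 2)) * y ≤ (8 * K1 + 2 * (4 * M ^ 2)) * (1 + y) ^ 2 := by
      gcongr
    rw [← hy] at e2 e3
    have e6 : 0 ≤ M ^ 2 * (1 + y) ^ 2 := by positivity
    obtain ⟨Y, hY⟩ : ∃ x, x = (1 + y) ^ 2 := ⟨_, rfl⟩
    rw [← hY] at e4 e5 e6 ⊢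
    have e7 : 0 ≤ y / 4 := by positivity
    linarith
  have h4 : m / 2 * N 0 φ ≤ m / 2 * (1 + y) ^ 2 := by gcongr
  have h5 : N (k + 3 + 1) φ = N (k + 4) φ := rfl
  rw [h5, ← hy] at h1
  rw [← hy] at h1'
  obtain ⟨Y, hY⟩ : ∃ x, x = (1 + y) ^ 2 := ⟨_, rfl⟩
  rw [← hY] at h1' h2 h3 h4 ⊢
  have h6 : CC * Y = m / 2 * Y + 3 * (Cs * K2) / (2 * m) * Y + K3 / m * Y
    + (8 * K1 + 4 * (4 * M ^ 2) + 1) * Y := by rw [hCC]; ring
  rw [h6]
  linarith

end

end Pool.Agent.H797
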