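import Pool.Agent.H797.Gal1

set_option autoImplicit false
open Set MeasureTheory Filter Topology
open scoped ContDiff

namespace Pool.Agent.H797

noncomputable section

section FECONT

variable {ι : Type*} {l : Filter ι}

theorem FECONT_of_N {g : ι → Sm} {v : Sm} (h : Tendsto (fun n => N 2 (g n - v)) l (𝓝 0)) :
    Tendsto (fun n => (g n).1) l (𝓝 v.1) := by
  obtain ⟨C, hC0, hC⟩ := norm_le_N
  rw [tendsto_iff_norm_sub_tendsto_zero]
  have h1 : Tendsto (fun n => √(C * N 2 (g n - v))) l (𝓝 0) := by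
    have := (h.const_mul C).sqrt
    simpa using this
  exact squeeze_zero (fun n => norm_nonneg _) (fun n => hC (g n - v)) h1

theorem FECONT_cst_mul (r : ℝ) (g : Sm) : (cst r * g).1 = r • g.1 :=
  congrArg Subtype.val (cst_mul_eq r g)

theorem FECONT_exp {u : ι → Sm} {v : Sm} (hu : Tendsto (fun n => (u n).1) l (𝓝 v.1)) (r : ℝ) :
    Tendsto (fun n => (expS (cst r * u n)).1) l (𝓝 (expS (cst r * v)).1) := by
  have e : ∀ g : Sm, (expS (cst r * g)).1 = (⟨Real.exp, Real.continuous_exp⟩ : C(ℝ, ℝ)).comp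
      (r • g.1) := by
    intro g
    rw [← FECONT_cst_mul]
    rfl
  simp only [e]
  exact ((ContinuousMap.continuous_postcomp _).tendsto _).comp (hu.const_smul r)

theorem FECONT_J {g : ι → Sm} {v : Sm} (h : Tendsto (fun n => (g n).1) l (𝓝 v.1)) :
    Tendsto (fun n => J (g n)) l (𝓝 (J v)) :=
  (I.continuous.tendsto _).comp h

theorem FECONT_mul {g h : ι → Sm} {v w : Sm} (hg : Tendsto (fun n => (g n).1) l (𝓝 v.1))
    (hh : Tendsto (fun n => (h n).1) l (𝓝 w.1)) :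
    Tendsto (fun n => (g n * h n).1) l (𝓝 (v * w).1) :=
  Filter.Tendsto.mul hg hh

theorem FECONT_ar {u : ι → Sm} {v : Sm} (hu : Tendsto (fun n => (u n).1) l (𝓝 v.1)) :
    Tendsto (fun n => ar (u n)) l (𝓝 (ar v)) :=
  FECONT_J (FECONT_exp hu 2)

theorem FECONT_bet {u : ι → Sm} {v : Sm} (hu : Tendsto (fun n => (u n).1) l (𝓝 v.1)) :
    Tendsto (fun n => (bet (u n)).1) l (𝓝 (bet v).1) := by
  simp only [bet, FECONT_cst_mul]
  exact ((FECONT_ar hu).div_const mass).smul (FECONT_exp hu (-2))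

theorem FECONT_mu {u φ : ι → Sm} {v ψ : Sm} (hu : Tendsto (fun n => (u n).1) l (𝓝 v.1))
    (hφ : Tendsto (fun n => (φ n).1) l (𝓝 ψ.1)) :
    Tendsto (fun n => mu (u n) (φ n)) l (𝓝 (mu v ψ)) :=
  (FECONT_J (FECONT_mul hφ (FECONT_exp hu 2))).div (FECONT_ar hu) (ar_pos v).ne'

theorem FECONT_Fe {u φ : ι → Sm} {v ψ : Sm} (hu : Tendsto (fun n => (u n).1) l (𝓝 v.1))
    (hφ : Tendsto (fun n => (φ n).1) l (𝓝 ψ.1))
    (hl : Tendsto (fun n => (lap (φ n)).1) l (𝓝 (lap ψ).1)) :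
    Tendsto (fun n => (Fe (u n) (φ n)).1) l (𝓝 (Fe v ψ).1) := by
  have e : ∀ u φ : Sm, (Fe u φ).1 = (bet u * (φ * φ) * lap φ).1 + (2 : ℝ) • (φ * φ).1
      - (2 * mu u φ) • φ.1 := by
    intro u φ
    rw [← FECONT_cst_mul, ← FECONT_cst_mul]
    rfl
  simp only [e]
  have h1 := FECONT_mul (FECONT_mul (FECONT_bet hu) (FECONT_mul hφ hφ)) hl
  have h2 := (FECONT_mul hφ hφ).const_smul (2 : ℝ)
  have h3 := ((FECONT_mu hu hφ).const_mul 2).smul hφ
  exact (h1.add h2).sub h3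

end FECONT

theorem Fe_tend (u φ : ℕ → Sm) (v ψ : Sm)
    (hu : ∀ k, Tendsto (fun n => N k (u n - v)) atTop (𝓝 0))
    (hφ : ∀ k, Tendsto (fun n => N k (φ n - ψ)) atTop (𝓝 0)) :
    Tendsto (fun n => (Fe (u n) (φ n)).1) atTop (𝓝 (Fe v ψ).1) := by
  refine FECONT_Fe (FECONT_of_N (hu 2)) (FECONT_of_N (hφ 2)) (FECONT_of_N ?_)
  have h1 : Tendsto (fun n => 3 * N 4 (φ n - ψ)) atTop (𝓝 0) := by
    have := (hφ 4).const_mul 3
    simpa using this
  refine squeeze_zero (fun n => N_nonneg _ _) (fun n => ?_) h1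
  rw [← map_sub]
  exact N_lap_le 2 _

theorem FECONT_curve_N (T : ℝ) (φ : ℝ → Sm)
    (hφb : ∀ k, ∃ C, ∀ t ∈ Icc 0 T, N k (φ t) ≤ C)
    (hφc : ContinuousOn (fun t => (φ t).1) (Icc 0 T)) (k : ℕ) {t0 : ℝ} (ht0 : t0 ∈ Icc 0 T) :
    Tendsto (fun t => N k (φ t - φ t0)) (𝓝[Icc 0 T] t0) (𝓝 0) := by
  rw [Metric.tendsto_nhds]
  intro ε hε
  obtain ⟨C, hC⟩ := hφb (2 * k)
  obtain ⟨δ, hδ, hδ2⟩ := interp k (ε / 2) (2 * C + 2 * C) (by positivity)
  have h1 : Tendsto (fun t => ‖(φ t).1 - (φ t0).1‖ ^ 2 * mass) (𝓝[Icc 0 T] t0) (𝓝 0) := by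
    have h2 := (tendsto_iff_norm_sub_tendsto_zero.mp (hφc t0 ht0))
    have h3 := (h2.pow 2).mul_const mass
    simpa using h3
  filter_upwards [h1.eventually_le_const hδ, self_mem_nhdsWithin] with t ht htT
  rw [Real.dist_eq, sub_zero, abs_of_nonneg (N_nonneg _ _)]
  refine lt_of_le_of_lt (hδ2 _ ((N0_le_norm _).trans ht) ?_) (half_lt_self hε)
  refine (N_sub_le _ _ _).trans ?_
  have := hC t htT
  have := hC t0 ht0
  gcongr

theorem Fe_curve (T : ℝ) (u φ : ℝ → Sm)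
    (hub : ∀ k, ∃ C, ∀ t ∈ Icc 0 T, N k (u t) ≤ C) (hφb : ∀ k, ∃ C, ∀ t ∈ Icc 0 T, N k (φ t) ≤ C)
    (huc : ContinuousOn (fun t => (u t).1) (Icc 0 T))
    (hφc : ContinuousOn (fun t => (φ t).1) (Icc 0 T)) :
    (∀ k, ∃ C, ∀ t ∈ Icc 0 T, N k (Fe (u t) (φ t)) ≤ C) ∧
      ContinuousOn (fun t => (Fe (u t) (φ t)).1) (Icc 0 T) := by
  constructor
  · intro k
    obtain ⟨C1, hC1⟩ := hub (k + 2)
    obtain ⟨C2, hC2⟩ := hφb (k + 4)
    obtain ⟨C, hC0, hC⟩ := N_Fe k (max (max C1 C2) 0) (le_max_right _ _)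
    refine ⟨C, fun t ht => (N_mono (by omega) _).trans (hC _ _ ?_ ?_)⟩
    · exact (hC1 t ht).trans ((le_max_left _ _).trans (le_max_left _ _))
    · exact (hC2 t ht).trans ((le_max_right _ _).trans (le_max_left _ _))
  · intro t0 ht0
    refine FECONT_Fe (huc t0 ht0) (hφc t0 ht0) (FECONT_of_N ?_)
    have h1 : Tendsto (fun t => 3 * N 4 (φ t - φ t0)) (𝓝[Icc 0 T] t0) (𝓝 0) := by
      have := (FECONT_curve_N T φ hφb hφc 4 ht0).const_mul 3
      simpa using this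
    refine squeeze_zero (fun n => N_nonneg _ _) (fun n => ?_) h1
    rw [← map_sub]
    exact N_lap_le 2 _

end

end Pool.Agent.H797
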