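import Pool.Agent.H797.Compact

set_option autoImplicit false
open Set MeasureTheory Filter Topology
open scoped ContDiff

namespace Pool.Agent.H797

noncomputable section

/-- coefficient functions of the differential -/
def iterQ (i : Fin 3) (z : E3) : E3 →L[ℝ] ℝ := (‖z‖ ^ 2)⁻¹ • innerSL ℝ (A i z)

theorem iterQ_smooth (i : Fin 3) : ContDiffOn ℝ ∞ (iterQ i) U0 := by
  unfold iterQ
  refine ContDiffOn.smul (f := fun z : E3 => (‖z‖ ^ 2)⁻¹)
    (g := fun z => innerSL ℝ (A i z)) ?_ ?_
  · intro x hx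
    have h1 : ContDiffAt ℝ ∞ (fun x : E3 => ‖x‖ ^ 2) x := (contDiffAt_id.norm_sq ℝ)
    exact (h1.inv (by have := norm_pos_iff.mpr hx; positivity)).contDiffWithinAt
  · exact ((innerSL ℝ).contDiff.comp (A i).contDiff).contDiffOn

theorem iterQ_bound (i : Fin 3) (l : ℕ) : ∃ M : ℝ, 0 ≤ M ∧ ∀ p : S2,
    ‖iteratedFDerivWithin ℝ l (iterQ i) U0 (p : E3)‖ ≤ M := by
  have h1 : ContinuousOn (iteratedFDerivWithin ℝ l (iterQ i) U0) U0 :=
    (iterQ_smooth i).continuousOn_iteratedFDerivWithin (by exact_mod_cast le_top)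
      isOpen_U0.uniqueDiffOn
  have h2 : Continuous fun p : S2 => ‖iteratedFDerivWithin ℝ l (iterQ i) U0 (p : E3)‖ :=
    (h1.comp_continuous continuous_subtype_val S2_ne).norm
  obtain ⟨M, hM⟩ := (isCompact_range h2).bddAbove
  exact ⟨max M 0, le_max_right _ _, fun p => (hM (mem_range_self p)).trans (le_max_left _ _)⟩

theorem iter_within (g : Sm) (j : ℕ) (p : S2) :
    iteratedFDerivWithin ℝ j (ex g.1) U0 (p : E3) = iteratedFDeriv ℝ j (ex g.1) (p : E3) :=
  iteratedFDerivWithin_of_isOpen j isOpen_U0 (S2_ne p)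

/-- TASK ITER. -/
theorem iter_bound (k : ℕ) : ∃ C : ℝ, 0 ≤ C ∧ ∀ (g : Sm) (p : S2),
    ‖iteratedFDeriv ℝ k (ex g.1) (p : E3)‖ ≤ C * √(N (k + 2) g) := by
  induction k using Nat.strong_induction_on with
  | _ k ih =>
    rcases k with _ | k
    · obtain ⟨C, hC0, hC⟩ := sup_sq
      refine ⟨√C, Real.sqrt_nonneg _, fun g p => ?_⟩
      rw [norm_iteratedFDeriv_zero, ex_coe, Real.norm_eq_abs, ← Real.sqrt_mul hC0]
      exact Real.abs_le_sqrt (hC g p)
    · choose! C hC0 hC using ih
      choose M hM0 hM using iterQ_bound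
      refine ⟨∑ i : Fin 3, ∑ j ∈ Finset.range (k + 1), (k.choose j : ℝ) * C j * M i (k - j),
        Finset.sum_nonneg fun i _ => Finset.sum_nonneg fun j hj => ?_, fun g p => ?_⟩
      · have := hC0 j (Finset.mem_range.1 hj)
        have := hM0 i (k - j)
        positivity
      · rw [← norm_iteratedFDeriv_fderiv]
        have e1 : iteratedFDeriv ℝ k (fderiv ℝ (ex g.1)) (p : E3) =
            iteratedFDerivWithin ℝ k (fun z => ∑ i, ex (L i g).1 z • iterQ i z) U0 (p : E3) := by
          rw [← iteratedFDerivWithin_of_isOpen k isOpen_U0 (S2_ne p)]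
          refine iteratedFDerivWithin_congr (fun z hz => ?_) (S2_ne p) k
          rw [fderiv_dform g hz, dform]
          refine Finset.sum_congr rfl fun i _ => ?_
          rw [iterQ, smul_smul, mul_comm]
        have hk : (k : WithTop ℕ∞) ≤ ∞ := by exact_mod_cast le_top
        have hs : ∀ i, ContDiffOn ℝ k (fun z => ex (L i g).1 z • iterQ i z) U0 := fun i =>
          ((sm_ex (L i g)).of_le hk).smul ((iterQ_smooth i).of_le hk)
        have e2 : iteratedFDerivWithin ℝ k (fun z => ∑ i, ex (L i g).1 z • iterQ i z) U0 (p : E3) =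
            ∑ i, iteratedFDerivWithin ℝ k (fun z => ex (L i g).1 z • iterQ i z) U0 (p : E3) :=
          iteratedFDerivWithin_sum_apply (u := Finset.univ) isOpen_U0.uniqueDiffOn (S2_ne p)
            (fun i _ => (hs i) _ (S2_ne p))
        rw [e1, e2, Finset.sum_mul]
        refine (norm_sum_le _ _).trans (Finset.sum_le_sum fun i _ => ?_)
        refine (norm_iteratedFDerivWithin_smul_le (sm_ex (L i g)) (iterQ_smooth i)
          isOpen_U0.uniqueDiffOn (S2_ne p) hk).trans ?_
        rw [Finset.sum_mul]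
        refine Finset.sum_le_sum fun j hj => ?_
        have hj' := Finset.mem_range.1 hj
        rw [iter_within]
        have h1 : ‖iteratedFDeriv ℝ j (ex (L i g).1) (p : E3)‖ ≤ C j * √(N (k + 1 + 2) g) := by
          refine (hC j hj' (L i g) p).trans ?_
          have h2 : N (j + 2) (L i g) ≤ N (k + 1 + 2) g :=
            (N_L_le (j + 2) i g).trans (N_mono (by omega) g)
          have := hC0 j hj'
          gcongr
        have := hM i (k - j) p
        have := hM0 i (k - j)
        have := hC0 j hj'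
        calc (k.choose j : ℝ) * ‖iteratedFDeriv ℝ j (ex (L i g).1) (p : E3)‖ *
              ‖iteratedFDerivWithin ℝ (k - j) (iterQ i) U0 (p : E3)‖
            ≤ (k.choose j : ℝ) * (C j * √(N (k + 1 + 2) g)) * M i (k - j) := by gcongr
          _ = (k.choose j : ℝ) * C j * M i (k - j) * √(N (k + 1 + 2) g) := by ring

end

end Pool.Agent.H797
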