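import Pool.Agent.H797.Compact

set_option autoImplicit false
open Set MeasureTheory Filter Topology
open scoped ContDiff

namespace Pool.Agent.H797

noncomputable section

def js_W : Set (ℝ × E3) := Ioi (0 : ℝ) ×ˢ U0

theorem js_isOpen : IsOpen js_W := isOpen_Ioi.prod isOpen_U0

/-- the curve `c` is given by the jointly smooth function `G` -/
structure js_P (c : ℝ → Sm) (G : ℝ × E3 → ℝ) : Prop where
  sm : ContDiffOn ℝ ∞ G js_W
  eq : ∀ t, 0 < t → ∀ x : E3, x ≠ 0 → ex (c t).1 x = G (t, x)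

theorem js_diffAt {G : ℝ × E3 → ℝ} (h : ContDiffOn ℝ ∞ G js_W) {z : ℝ × E3} (hz : z ∈ js_W) :
    HasFDerivAt G (fderiv ℝ G z) z :=
  ((h.contDiffAt (js_isOpen.mem_nhds hz)).differentiableAt (by simp)).hasFDerivAt

theorem js_smooth_fd {G : ℝ × E3 → ℝ} (h : ContDiffOn ℝ ∞ G js_W) :
    ContDiffOn ℝ ∞ (fderiv ℝ G) js_W :=
  h.fderiv_of_isOpen js_isOpen (by simp)

theorem js_smooth_t {G : ℝ × E3 → ℝ} (h : ContDiffOn ℝ ∞ G js_W) :
    ContDiffOn ℝ ∞ (fun z => fderiv ℝ G z ((1 : ℝ), (0 : E3))) js_W :=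
  (js_smooth_fd h).clm_apply contDiffOn_const

theorem js_smooth_A {G : ℝ × E3 → ℝ} (h : ContDiffOn ℝ ∞ G js_W) (i : Fin 3) :
    ContDiffOn ℝ ∞ (fun z => fderiv ℝ G z ((0 : ℝ), A i z.2)) js_W := by
  refine (js_smooth_fd h).clm_apply ?_
  exact (contDiff_const.prodMk ((A i).contDiff.comp contDiff_snd)).contDiffOn

theorem js_fd_x {c : ℝ → Sm} {G : ℝ × E3 → ℝ} (h : js_P c G) {t : ℝ} {x : E3} (ht : 0 < t)
    (hx : x ≠ 0) (v : E3) : fderiv ℝ (ex (c t).1) x v = fderiv ℝ G (t, x) ((0 : ℝ), v) := by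
  have h1 : HasFDerivAt G (fderiv ℝ G (t, x)) (t, x) := js_diffAt h.sm ⟨ht, hx⟩
  have h2 := HasFDerivAt.comp x h1 (hasFDerivAt_prodMk_right (𝕜 := ℝ) t x)
  have h3 : ex (c t).1 =ᶠ[nhds x] (G ∘ fun y => (t, y)) := by
    filter_upwards [isOpen_U0.mem_nhds hx] with y hy
    exact h.eq t ht y hy
  rw [(h2.congr_of_eventuallyEq h3).fderiv]
  simp

theorem js_L {c : ℝ → Sm} {G : ℝ × E3 → ℝ} (h : js_P c G) (i : Fin 3) :
    js_P (fun t => L i (c t)) (fun z => fderiv ℝ G z ((0 : ℝ), A i z.2)) where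
  sm := js_smooth_A h.sm i
  eq t ht x hx := by rw [ex_L i (c t) hx, js_fd_x h ht hx]

theorem js_symm {G : ℝ × E3 → ℝ} (h : ContDiffOn ℝ ∞ G js_W) (i : Fin 3) {z : ℝ × E3}
    (hz : z ∈ js_W) :
    fderiv ℝ (fun z => fderiv ℝ G z ((1 : ℝ), (0 : E3))) z ((0 : ℝ), A i z.2) =
      fderiv ℝ (fun z => fderiv ℝ G z ((0 : ℝ), A i z.2)) z ((1 : ℝ), (0 : E3)) := by
  have h1 : ContDiffAt ℝ ∞ G z := h.contDiffAt (js_isOpen.mem_nhds hz)
  have hs := h1.isSymmSndFDerivAt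
    (by simp only [minSmoothness_of_isRCLikeNormedField]; exact ENat.LEInfty.out)
  have h2 : HasFDerivAt (fderiv ℝ G) (fderiv ℝ (fderiv ℝ G) z) z :=
    (((js_smooth_fd h).contDiffAt (js_isOpen.mem_nhds hz)).differentiableAt (by simp)).hasFDerivAt
  have h3 := h2.clm_apply (hasFDerivAt_const ((1 : ℝ), (0 : E3)) z)
  have h4 : HasFDerivAt (fun z : ℝ × E3 => ((0 : ℝ), A i z.2))
      ((0 : (ℝ × E3) →L[ℝ] ℝ).prod ((A i).comp (ContinuousLinearMap.snd ℝ ℝ E3))) z :=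
    (hasFDerivAt_const (0 : ℝ) z).prodMk
      ((A i).hasFDerivAt.comp z (ContinuousLinearMap.snd ℝ ℝ E3).hasFDerivAt)
  have h5 := h2.clm_apply h4
  rw [h3.fderiv, h5.fderiv]
  have e0 : (((0 : ℝ), (0 : E3)) : ℝ × E3) = 0 := rfl
  simp only [add_apply, ContinuousLinearMap.comp_apply, ContinuousLinearMap.flip_apply,
    ContinuousLinearMap.prod_apply, ContinuousLinearMap.coe_snd', zero_apply, map_zero, e0,
    zero_add]
  exact hs _ _

theorem js_cont {c : ℝ → Sm} {G : ℝ × E3 → ℝ} (h : js_P c G) :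
    ContinuousOn (fun s => (c s).1) (Ioi 0) := by
  rw [continuousOn_iff_continuous_domRestrict]
  apply ContinuousMap.continuous_of_continuous_uncurry
  have h1 : Continuous (fun z : Ioi (0 : ℝ) × S2 => G (z.1, z.2)) := by
    refine h.sm.continuousOn.comp_continuous (f := fun z : Ioi (0 : ℝ) × S2 => ((z.1 : ℝ), (z.2 : E3)))
      (by fun_prop) ?_
    intro z
    exact ⟨z.1.2, S2_ne z.2⟩
  refine h1.congr ?_
  intro z
  have := h.eq z.1 z.1.2 z.2 (S2_ne z.2)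
  rw [ex_coe] at this
  exact this.symm

theorem js_base {c c' : ℝ → Sm} {G : ℝ × E3 → ℝ} (h : js_P c G)
    (h' : js_P c' (fun z => fderiv ℝ G z ((1 : ℝ), (0 : E3)))) :
    ∀ t ∈ Ioi (0 : ℝ), HasDerivWithinAt (fun s => (c s).1) (c' t).1 (Ioi 0) t := by
  intro t ht
  apply HasDerivAt.hasDerivWithinAt
  have hc : ContinuousAt (fun s => (c' s).1) t := (js_cont h').continuousAt (isOpen_Ioi.mem_nhds ht)
  -- pointwise derivative
  have hp : ∀ s, 0 < s → ∀ p : S2, HasDerivAt (fun s => (c s).1 p) ((c' s).1 p) s := by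
    intro s hs p
    have h1 : HasFDerivAt G (fderiv ℝ G (s, p)) (s, (p : E3)) := js_diffAt h.sm ⟨hs, S2_ne p⟩
    have h2 : HasDerivAt (fun s : ℝ => (s, (p : E3))) ((1 : ℝ), (0 : E3)) s :=
      (hasDerivAt_id s).prodMk (hasDerivAt_const s (p : E3))
    have h3 := h1.comp_hasDerivAt s h2
    have h4 := h'.eq s hs p (S2_ne p)
    rw [ex_coe] at h4
    rw [h4]
    refine h3.congr_of_eventuallyEq ?_
    filter_upwards [isOpen_Ioi.mem_nhds hs] with r hr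
    have h5 := h.eq r hr p (S2_ne p)
    rw [ex_coe] at h5
    exact h5
  rw [hasDerivAt_iff_isLittleO]
  rw [Asymptotics.isLittleO_iff]
  intro ε hε
  have h1 : ∀ᶠ s in 𝓝 t, ‖(c' s).1 - (c' t).1‖ < ε := by
    have := Metric.continuousAt_iff'.1 hc ε hε
    simpa [dist_eq_norm] using this
  have h2 : ∀ᶠ s in 𝓝 t, 0 < s := isOpen_Ioi.mem_nhds ht
  obtain ⟨δ, hδ, hb⟩ := Metric.eventually_nhds_iff_ball.1 (h1.and h2)
  filter_upwards [Metric.ball_mem_nhds t hδ] with s hs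
  rw [ContinuousMap.norm_le _ (by positivity)]
  intro p
  have h3 := (convex_ball t δ).norm_image_sub_le_of_norm_hasDerivWithin_le
    (f := fun s => (c s).1 p - s * (c' t).1 p) (f' := fun s => (c' s).1 p - 1 * (c' t).1 p)
    (C := ε) (x := t) (y := s)
    (fun r hr => ((hp r (hb r hr).2 p).sub ((hasDerivAt_id r).mul_const _)).hasDerivWithinAt)
    (fun r hr => by
      rw [one_mul]
      have h4 : ‖((c' r).1 - (c' t).1) p‖ ≤ ‖(c' r).1 - (c' t).1‖ := ContinuousMap.norm_coe_le_norm _ p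
      exact h4.trans (hb r hr).1.le)
    (Metric.mem_ball_self hδ) hs
  refine le_trans (le_of_eq ?_) h3
  congr 1
  simp
  ring

theorem js_HD (n : ℕ) : ∀ {c c' : ℝ → Sm} {G : ℝ × E3 → ℝ}, js_P c G →
    js_P c' (fun z => fderiv ℝ G z ((1 : ℝ), (0 : E3))) → HD (Ioi 0) n c c' := by
  induction n with
  | zero => intro c c' G h h'; exact js_base h h'
  | succ n ih =>
    intro c c' G h h'
    refine ⟨js_base h h', fun i => ih (js_L h i) ?_⟩
    have h1 := js_L h' i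
    refine ⟨js_smooth_t (js_smooth_A h.sm i), fun t ht x hx => ?_⟩
    rw [h1.eq t ht x hx]
    exact js_symm h.sm i ⟨ht, hx⟩

theorem js_main (U : ℝ → E3 → ℝ)
    (hU : ContDiffOn ℝ ((⊤ : ℕ∞) : WithTop ℕ∞) (fun z : ℝ × E3 => U z.1 (‖z.2‖⁻¹ • z.2))
      (Ici (0 : ℝ) ×ˢ {x : E3 | x ≠ 0})) :
    ∃ c c' : ℝ → Sm, (∀ t, 0 ≤ t → ∀ x : E3, x ≠ 0 → ex (c t).1 x = U t (‖x‖⁻¹ • x)) ∧
      ∀ n, HD (Ioi 0) n c c' := by
  classical
  obtain ⟨G, hG⟩ : ∃ G : ℝ × E3 → ℝ, G = fun z : ℝ × E3 => U z.1 (‖z.2‖⁻¹ • z.2) := ⟨_, rfl⟩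
  rw [← hG] at hU
  have hhom : ∀ (t r : ℝ) (x : E3), 0 < r → G (t, r • x) = G (t, x) := by
    intro t r x hr
    rw [hG]
    simp only
    congr 1
    rw [norm_smul, Real.norm_of_nonneg hr.le, smul_smul, mul_inv, mul_assoc, mul_comm (‖x‖⁻¹) r,
      ← mul_assoc, inv_mul_cancel₀ hr.ne', one_mul]
  have hW : ContDiffOn ℝ ∞ G js_W := hU.mono (prod_mono Ioi_subset_Ici_self (subset_refl _))
  have h1 : ∀ t : ℝ, 0 ≤ t → ContDiffOn ℝ ∞ (fun x => G (t, x)) U0 := by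
    intro t ht
    exact hU.comp (contDiff_prodMk_right t).contDiffOn (fun x hx => ⟨ht, hx⟩)
  have h2 : ∀ t : ℝ, 0 < t → ContDiffOn ℝ ∞
      (fun x => (fun z => fderiv ℝ G z ((1 : ℝ), (0 : E3))) (t, x)) U0 := by
    intro t ht
    exact (js_smooth_t hW).comp (contDiff_prodMk_right t).contDiffOn (fun x hx => ⟨ht, hx⟩)
  obtain ⟨c, hc⟩ : ∃ c : ℝ → Sm, ∀ t, 0 ≤ t → ∀ x : E3, x ≠ 0 → ex (c t).1 x = G (t, x) := by
    refine ⟨fun t => if h : 0 ≤ t then mkS _ (h1 t h) else 0, fun t ht x hx => ?_⟩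
    simp only [dif_pos ht]
    rw [ex_mkS _ _ x hx, hhom t _ x (inv_pos.2 (norm_pos_iff.2 hx))]
  obtain ⟨c', hc'⟩ : ∃ c' : ℝ → Sm, ∀ t, 0 < t → ∀ x : E3, x ≠ 0 →
      ex (c' t).1 x = fderiv ℝ G (t, x) ((1 : ℝ), (0 : E3)) := by
    refine ⟨fun t => if h : 0 < t then mkS _ (h2 t h) else 0, fun t ht x hx => ?_⟩
    simp only [dif_pos ht]
    rw [ex_mkS _ _ x hx]
    have hr : 0 < ‖x‖⁻¹ := inv_pos.2 (norm_pos_iff.2 hx)
    -- both are the derivative of the same function of time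
    have key : ∀ y : E3, y ≠ 0 → HasDerivAt (fun s => G (s, y))
        (fderiv ℝ G (t, y) ((1 : ℝ), (0 : E3))) t := by
      intro y hy
      have a1 : HasFDerivAt G (fderiv ℝ G (t, y)) (t, y) := js_diffAt hW ⟨ht, hy⟩
      have a2 : HasDerivAt (fun s : ℝ => (s, y)) ((1 : ℝ), (0 : E3)) t :=
        (hasDerivAt_id t).prodMk (hasDerivAt_const t y)
      exact a1.comp_hasDerivAt t a2
    have k1 := key (‖x‖⁻¹ • x) (nrm_ne x hx)
    have k2 := key x hx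
    have e : (fun s => G (s, ‖x‖⁻¹ • x)) = fun s => G (s, x) := by
      funext s
      exact hhom s _ x hr
    rw [e] at k1
    exact k1.unique k2
  refine ⟨c, c', ?_, fun n => ?_⟩
  · intro t ht x hx
    rw [hc t ht x hx, hG]
  · exact js_HD n ⟨hW, fun t ht x hx => hc t (le_of_lt ht) x hx⟩ ⟨js_smooth_t hW, hc'⟩

end

end Pool.Agent.H797
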