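import Pool.Agent.H797.SpecG
import Pool.Agent.H797.JS
import Pool.Agent.H797.Iter

set_option autoImplicit false
open Set MeasureTheory Filter Topology
open scoped ContDiff

namespace Pool.Agent.H797

noncomputable section

theorem FINALE_norm (p : S2) : ‖(p : E3)‖⁻¹ • (p : E3) = p := by
  rw [S2_norm]; simp

theorem FINALE_ex (g : Sm) {x : E3} (hx : x ≠ 0) : ex g.1 (‖x‖⁻¹ • x) = ex g.1 x :=
  ex_smul g.1 _ (inv_pos.mpr (norm_pos_iff.mpr hx)) x

/-- the curvature expression in terms of `ww` -/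
theorem FINALE_ww (F : E3 → ℝ) (g : Sm) (h : ∀ x : E3, x ≠ 0 → ex g.1 x = F (‖x‖⁻¹ • x))
    (p : S2) : (1 - ∑ i : Fin 3,
        iteratedFDeriv ℝ 2 (fun x : EuclideanSpace ℝ (Fin 3) => F (‖x‖⁻¹ • x)) (p : E3)
          ![EuclideanSpace.single i (1:ℝ), EuclideanSpace.single i (1:ℝ)]) = (ww g).1 p := by
  have h1 : (fun x : E3 => F (‖x‖⁻¹ • x)) =ᶠ[𝓝 (p : E3)] ex g.1 := by
    filter_upwards [isOpen_U0.mem_nhds (S2_ne p)] with x hx
    exact (h x hx).symm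
  have h2 : ∀ i : Fin 3, iteratedFDeriv ℝ 2 (fun x : E3 => F (‖x‖⁻¹ • x)) (p : E3)
      ![EuclideanSpace.single i (1:ℝ), EuclideanSpace.single i (1:ℝ)] =
      D2 g p (ee i) (ee i) := by
    intro i
    rw [(Filter.EventuallyEq.iteratedFDeriv ℝ h1 2).eq_of_nhds, iteratedFDeriv_two_apply]
    rfl
  rw [ww, sm_sub, sm_one, ← trace_D2]
  congr 1
  exact Finset.sum_congr rfl fun i _ => h2 i

theorem FINALE_val (F : E3 → ℝ) (g : Sm) (h : ∀ x : E3, x ≠ 0 → ex g.1 x = F (‖x‖⁻¹ • x))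
    (p : S2) : F p = g.1 p := by
  have := h p (S2_ne p)
  rw [ex_coe, FINALE_norm] at this
  exact this.symm

/-- the right side of the flow equation -/
theorem FINALE_rhs (F : E3 → ℝ) (g : Sm) (h : ∀ x : E3, x ≠ 0 → ex g.1 x = F (‖x‖⁻¹ • x))
    (hw : ∀ p, 0 < (ww g).1 p) (p : S2) :
    (-1 + ((∫ q, (1 - ∑ i : Fin 3,
                iteratedFDeriv ℝ 2 (fun x : EuclideanSpace ℝ (Fin 3) => F (‖x‖⁻¹ • x)) q.1
                  ![EuclideanSpace.single i (1:ℝ), EuclideanSpace.single i (1:ℝ)])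
                ∂(volume : Measure (EuclideanSpace ℝ (Fin 3))).toSphere) /
              (∫ q, Real.exp (2 * F q.1)
                ∂(volume : Measure (EuclideanSpace ℝ (Fin 3))).toSphere)) /
            (Real.exp (-2 * F p) * (1 - ∑ i : Fin 3,
              iteratedFDeriv ℝ 2 (fun x : EuclideanSpace ℝ (Fin 3) => F (‖x‖⁻¹ • x)) p
                ![EuclideanSpace.single i (1:ℝ), EuclideanSpace.single i (1:ℝ)]))) =
      (ff g - 1).1 p := by
  have e1 : (∫ q, (1 - ∑ i : Fin 3,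
                iteratedFDeriv ℝ 2 (fun x : EuclideanSpace ℝ (Fin 3) => F (‖x‖⁻¹ • x)) q.1
                  ![EuclideanSpace.single i (1:ℝ), EuclideanSpace.single i (1:ℝ)])
                ∂(volume : Measure (EuclideanSpace ℝ (Fin 3))).toSphere) = mass := by
    rw [← J_w g, J_eq, I_eq]
    exact integral_congr_ae (Eventually.of_forall fun q => FINALE_ww F g h q)
  have e2 : (∫ q, Real.exp (2 * F q.1)
                ∂(volume : Measure (EuclideanSpace ℝ (Fin 3))).toSphere) = ar g := by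
    rw [ar, J_eq, I_eq]
    refine integral_congr_ae (Eventually.of_forall fun q => ?_)
    change Real.exp (2 * F q.1) = Real.exp (2 * g.1 q)
    rw [FINALE_val F g h q]
  rw [e1, e2, FINALE_ww F g h p, FINALE_val F g h p, sm_sub, sm_one, ff_apply hw, bet_apply]
  have h1 := ar_pos g
  have h2 := mass_pos
  have h3 := hw p
  have h4 := Real.exp_pos (-2 * g.1 p)
  field_simp
  ring

theorem FINALE_shift {S : Set ℝ} {T : ℝ} {n : ℕ} {c c' : ℝ → Sm} (h : HD S n c c')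
    (hS : MapsTo (fun r : ℝ => r + 1) (Icc 0 T) S) :
    HD (Icc 0 T) n (fun t => c (t + 1)) (fun t => c' (t + 1)) := by
  have key : ∀ c c' : ℝ → Sm, (∀ t ∈ S,
      HasDerivWithinAt (fun s => (c s).1) (c' t).1 S t) →
      ∀ t ∈ Icc 0 T, HasDerivWithinAt (fun r => (c (r + 1)).1) (c' (t + 1)).1 (Icc 0 T) t := by
    intro c c' H t ht
    have h1 := H (t + 1) (hS ht)
    have h2 : HasDerivWithinAt (fun r : ℝ => r + 1) 1 (Icc 0 T) t :=
      (hasDerivWithinAt_id t _).add_const 1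
    have h3 := h1.scomp t h2 hS
    rw [one_smul] at h3
    exact h3
  induction n generalizing c c' with
  | zero => exact key c c' h
  | succ n ih => exact ⟨key c c' h.1, fun i => ih (h.2 i)⟩

/-- TASK FINALE -/
theorem final_main
    (hjoint : ∀ u : ℝ → Sm, (∀ T, 0 ≤ T → Sol T u) →
      ContDiffOn ℝ ∞ (fun z : ℝ × E3 => ex (u z.1).1 z.2) (Ici (0 : ℝ) ×ˢ U0))
    (hex : ∀ u0 : Sm, (∀ p, 0 < (ww u0).1 p) →
      ∃ u : ℝ → Sm, (∀ T, 0 ≤ T → Sol T u) ∧ u 0 = u0)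
    (hconv : ∀ u : ℝ → Sm, (∀ T, 0 ≤ T → Sol T u) → ∃ v : Sm, ∃ κ : ℝ, 0 < κ ∧
      ww v = cst κ * expS (cst 2 * v) ∧ ∀ k, Tendsto (fun t => N k (u t - v)) atTop (𝓝 0)) :
  ∀ u₀ : EuclideanSpace ℝ (Fin 3) → ℝ,
    ContDiffOn ℝ ((⊤ : ℕ∞) : WithTop ℕ∞)
      (fun x : EuclideanSpace ℝ (Fin 3) => u₀ (‖x‖⁻¹ • x)) {x | x ≠ 0} →
    (∀ p ∈ Metric.sphere (0 : EuclideanSpace ℝ (Fin 3)) 1,
      0 < Real.exp (-2 * u₀ p) * (1 - ∑ i : Fin 3,
        iteratedFDeriv ℝ 2 (fun x : EuclideanSpace ℝ (Fin 3) => u₀ (‖x‖⁻¹ • x)) p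
          ![EuclideanSpace.single i (1:ℝ), EuclideanSpace.single i (1:ℝ)])) →
    (∃ U : ℝ → EuclideanSpace ℝ (Fin 3) → ℝ,
      ContDiffOn ℝ ((⊤ : ℕ∞) : WithTop ℕ∞)
        (fun z : ℝ × EuclideanSpace ℝ (Fin 3) => U z.1 (‖z.2‖⁻¹ • z.2))
        (Set.Ici (0:ℝ) ×ˢ {x : EuclideanSpace ℝ (Fin 3) | x ≠ 0}) ∧
      (∀ p ∈ Metric.sphere (0 : EuclideanSpace ℝ (Fin 3)) 1, U 0 p = u₀ p) ∧
      (∀ t : ℝ, 0 ≤ t → ∀ p ∈ Metric.sphere (0 : EuclideanSpace ℝ (Fin 3)) 1,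
        0 < Real.exp (-2 * U t p) * (1 - ∑ i : Fin 3,
          iteratedFDeriv ℝ 2 (fun x : EuclideanSpace ℝ (Fin 3) => U t (‖x‖⁻¹ • x)) p
            ![EuclideanSpace.single i (1:ℝ), EuclideanSpace.single i (1:ℝ)])) ∧
      (∀ t : ℝ, 0 < t → ∀ p ∈ Metric.sphere (0 : EuclideanSpace ℝ (Fin 3)) 1,
        HasDerivAt (fun s : ℝ => U s p)
          (-1 + ((∫ q, (1 - ∑ i : Fin 3,
                iteratedFDeriv ℝ 2 (fun x : EuclideanSpace ℝ (Fin 3) => U t (‖x‖⁻¹ • x)) q.1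
                  ![EuclideanSpace.single i (1:ℝ), EuclideanSpace.single i (1:ℝ)])
                ∂(volume : Measure (EuclideanSpace ℝ (Fin 3))).toSphere) /
              (∫ q, Real.exp (2 * U t q.1)
                ∂(volume : Measure (EuclideanSpace ℝ (Fin 3))).toSphere)) /
            (Real.exp (-2 * U t p) * (1 - ∑ i : Fin 3,
              iteratedFDeriv ℝ 2 (fun x : EuclideanSpace ℝ (Fin 3) => U t (‖x‖⁻¹ • x)) p
                ![EuclideanSpace.single i (1:ℝ), EuclideanSpace.single i (1:ℝ)])))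
          t)) ∧
    (∀ U : ℝ → EuclideanSpace ℝ (Fin 3) → ℝ,
      (ContDiffOn ℝ ((⊤ : ℕ∞) : WithTop ℕ∞)
        (fun z : ℝ × EuclideanSpace ℝ (Fin 3) => U z.1 (‖z.2‖⁻¹ • z.2))
        (Set.Ici (0:ℝ) ×ˢ {x : EuclideanSpace ℝ (Fin 3) | x ≠ 0}) ∧
      (∀ p ∈ Metric.sphere (0 : EuclideanSpace ℝ (Fin 3)) 1, U 0 p = u₀ p) ∧
      (∀ t : ℝ, 0 ≤ t → ∀ p ∈ Metric.sphere (0 : EuclideanSpace ℝ (Fin 3)) 1,
        0 < Real.exp (-2 * U t p) * (1 - ∑ i : Fin 3,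
          iteratedFDeriv ℝ 2 (fun x : EuclideanSpace ℝ (Fin 3) => U t (‖x‖⁻¹ • x)) p
            ![EuclideanSpace.single i (1:ℝ), EuclideanSpace.single i (1:ℝ)])) ∧
      (∀ t : ℝ, 0 < t → ∀ p ∈ Metric.sphere (0 : EuclideanSpace ℝ (Fin 3)) 1,
        HasDerivAt (fun s : ℝ => U s p)
          (-1 + ((∫ q, (1 - ∑ i : Fin 3,
                iteratedFDeriv ℝ 2 (fun x : EuclideanSpace ℝ (Fin 3) => U t (‖x‖⁻¹ • x)) q.1
                  ![EuclideanSpace.single i (1:ℝ), EuclideanSpace.single i (1:ℝ)])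
                ∂(volume : Measure (EuclideanSpace ℝ (Fin 3))).toSphere) /
              (∫ q, Real.exp (2 * U t q.1)
                ∂(volume : Measure (EuclideanSpace ℝ (Fin 3))).toSphere)) /
            (Real.exp (-2 * U t p) * (1 - ∑ i : Fin 3,
              iteratedFDeriv ℝ 2 (fun x : EuclideanSpace ℝ (Fin 3) => U t (‖x‖⁻¹ • x)) p
                ![EuclideanSpace.single i (1:ℝ), EuclideanSpace.single i (1:ℝ)])))
          t)) →
      ∃ w : EuclideanSpace ℝ (Fin 3) → ℝ,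
        ContDiffOn ℝ ((⊤ : ℕ∞) : WithTop ℕ∞)
          (fun x : EuclideanSpace ℝ (Fin 3) => w (‖x‖⁻¹ • x)) {x | x ≠ 0} ∧
        (∃ c : ℝ, 0 < c ∧ ∀ p ∈ Metric.sphere (0 : EuclideanSpace ℝ (Fin 3)) 1,
          Real.exp (-2 * w p) * (1 - ∑ i : Fin 3,
            iteratedFDeriv ℝ 2 (fun x : EuclideanSpace ℝ (Fin 3) => w (‖x‖⁻¹ • x)) p
              ![EuclideanSpace.single i (1:ℝ), EuclideanSpace.single i (1:ℝ)]) = c) ∧
        ∀ k : ℕ, ∀ ε : ℝ, 0 < ε → ∃ T : ℝ, ∀ t : ℝ, T ≤ t →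
          ∀ p ∈ Metric.sphere (0 : EuclideanSpace ℝ (Fin 3)) 1,
            ‖iteratedFDeriv ℝ k
                (fun x : EuclideanSpace ℝ (Fin 3) => U t (‖x‖⁻¹ • x) - w (‖x‖⁻¹ • x)) p‖ < ε) := by
  intro u₀ hsm hpos
  refine ⟨?_, ?_⟩
  · -- existence
    let g0 : Sm := mkS (fun x : E3 => u₀ (‖x‖⁻¹ • x)) hsm
    have hg0 : ∀ x : E3, x ≠ 0 → ex g0.1 x = u₀ (‖x‖⁻¹ • x) := by
      intro x hx
      rw [ex_mkS _ _ x hx]
      have h1 : ‖‖x‖⁻¹ • x‖ = 1 := by simpa using nrm_mem x hx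
      rw [h1]; simp
    have hw0 : ∀ p, 0 < (ww g0).1 p := by
      intro p
      have := hpos p p.2
      rw [FINALE_ww u₀ g0 hg0 p] at this
      exact (mul_pos_iff_of_pos_left (Real.exp_pos _)).1 this
    obtain ⟨u, hu, hu0⟩ := hex g0 hw0
    have hF : ∀ t : ℝ, ∀ x : E3, x ≠ 0 → ex (u t).1 x = ex (u t).1 (‖x‖⁻¹ • x) :=
      fun t x hx => (FINALE_ex (u t) hx).symm
    refine ⟨fun t x => ex (u t).1 x, ?_, ?_, ?_, ?_⟩
    · refine (hjoint u hu).congr ?_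
      rintro ⟨t, x⟩ ⟨-, hx⟩
      exact FINALE_ex (u t) hx
    · intro p hp
      change ex (u 0).1 p = u₀ p
      rw [hu0]
      have h1 := FINALE_val u₀ g0 hg0 ⟨p, hp⟩
      have h2 := ex_coe g0.1 ⟨p, hp⟩
      exact h2.trans h1.symm
    · intro t ht p hp
      rw [FINALE_ww (fun x => ex (u t).1 x) (u t) (hF t) ⟨p, hp⟩]
      exact mul_pos (Real.exp_pos _) ((hu t ht).pos t ⟨ht, le_refl t⟩ _)
    · intro t ht p hp
      have hS := hu (t + 1) (by linarith)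
      have hmem : t ∈ Icc 0 (t + 1) := ⟨ht.le, by linarith⟩
      have h1 := (hS.flow 0).pt ⟨p, hp⟩ t hmem
      have h2 := h1.hasDerivAt (Icc_mem_nhds ht (by linarith))
      have h3 := FINALE_rhs (fun x => ex (u t).1 x) (u t) (hF t) (hS.pos t hmem) ⟨p, hp⟩
      have h4 : (fun s : ℝ => ex (u s).1 p) = fun s => (u s).1 ⟨p, hp⟩ := by
        funext s
        exact ex_coe (u s).1 ⟨p, hp⟩
      refine HasDerivAt.congr_deriv (f := fun s : ℝ => ex (u s).1 p) ?_ h3.symm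
      rw [h4]
      exact h2
  · -- convergence
    rintro U ⟨hU1, hU2, hU3, hU4⟩
    obtain ⟨c, c', hc, hHD⟩ := js_main U hU1
    have hw : ∀ t, 0 ≤ t → ∀ p, 0 < (ww (c t)).1 p := by
      intro t ht p
      have := hU3 t ht p p.2
      rw [FINALE_ww (U t) (c t) (hc t ht) p] at this
      exact (mul_pos_iff_of_pos_left (Real.exp_pos _)).1 this
    have hc' : ∀ t, 0 < t → c' t = ff (c t) - 1 := by
      intro t ht
      apply sm_ext
      intro p
      have h1 := ((hHD 0).pt p t ht).hasDerivAt (isOpen_Ioi.mem_nhds ht)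
      have h2 := hU4 t ht p p.2
      rw [FINALE_rhs (U t) (c t) (hc t ht.le) (hw t ht.le) p] at h2
      have h3 : (fun s => (c s).1 p) =ᶠ[𝓝 t] fun s => U s p := by
        filter_upwards [isOpen_Ioi.mem_nhds ht] with s hs
        exact (FINALE_val (U s) (c s) (hc s (le_of_lt hs)) p).symm
      exact h1.unique (h2.congr_of_eventuallyEq h3)
    have hsol : ∀ T, 0 ≤ T → Sol T (fun t => c (t + 1)) := by
      intro T hT
      refine ⟨fun t ht p => hw (t + 1) (by linarith [ht.1]) p, fun n => ?_⟩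
      have h1 := FINALE_shift (T := T) (hHD n) (fun r hr => by
        change (0 : ℝ) < r + 1
        linarith [hr.1])
      refine h1.congr (fun _ _ => rfl) (fun t ht => ?_)
      exact (hc' (t + 1) (by linarith [ht.1])).symm
    obtain ⟨v, κ, hκ, hv, hlim⟩ := hconv (fun t => c (t + 1)) hsol
    have hFv : ∀ x : E3, x ≠ 0 → ex v.1 x = ex v.1 (‖x‖⁻¹ • x) :=
      fun x hx => (FINALE_ex v hx).symm
    refine ⟨fun x => ex v.1 x, ?_, ⟨κ, hκ, ?_⟩, ?_⟩
    · exact (sm_ex v).congr fun x hx => FINALE_ex v hx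
    · intro p hp
      rw [FINALE_ww (fun x => ex v.1 x) v hFv ⟨p, hp⟩, hv]
      have h1 : ex v.1 p = v.1 ⟨p, hp⟩ := ex_coe v.1 ⟨p, hp⟩
      change Real.exp (-2 * ex v.1 p) * (κ * Real.exp (2 * v.1 ⟨p, hp⟩)) = κ
      rw [h1, mul_left_comm, ← Real.exp_add]
      simp
    · intro k ε hε
      obtain ⟨C, hC, hCb⟩ := iter_bound k
      have hl := hlim (k + 2)
      have hev : ∀ᶠ t in atTop, N (k + 2) (c (t + 1) - v) < (ε / (C + 1)) ^ 2 :=
        hl.eventually (gt_mem_nhds (by positivity))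
      obtain ⟨T, hT⟩ := eventually_atTop.1 hev
      refine ⟨max (T + 1) 0, fun t ht p hp => ?_⟩
      have ht0 : 0 ≤ t := (le_max_right _ _).trans ht
      have ht1 : T ≤ t - 1 := by linarith [(le_max_left (T + 1) 0).trans ht]
      have h1 := hT (t - 1) ht1
      rw [sub_add_cancel] at h1
      have h2 : (fun x : E3 => U t (‖x‖⁻¹ • x) - ex v.1 (‖x‖⁻¹ • x)) =ᶠ[𝓝 p]
          ex (c t - v).1 := by
        filter_upwards [isOpen_U0.mem_nhds (S2_ne ⟨p, hp⟩)] with x hx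
        rw [← hc t ht0 x hx, FINALE_ex v hx]
        rfl
      change ‖iteratedFDeriv ℝ k (fun x : E3 => U t (‖x‖⁻¹ • x) - ex v.1 (‖x‖⁻¹ • x)) p‖ < ε
      rw [(Filter.EventuallyEq.iteratedFDeriv ℝ h2 k).eq_of_nhds]
      have h3 := hCb (c t - v) ⟨p, hp⟩
      have h4 : √(N (k + 2) (c t - v)) < ε / (C + 1) := by
        rw [Real.sqrt_lt' (by positivity)]
        exact h1
      have h5 : 0 ≤ √(N (k + 2) (c t - v)) := Real.sqrt_nonneg _
      calc _ ≤ C * √(N (k + 2) (c t - v)) := h3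
        _ ≤ (C + 1) * √(N (k + 2) (c t - v)) := by nlinarith
        _ < (C + 1) * (ε / (C + 1)) := by gcongr
        _ = ε := by field_simp

end

end Pool.Agent.H797
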