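import Pool.Agent.H797.Time

set_option autoImplicit false
open Set MeasureTheory
open scoped ContDiff ENNReal

namespace Pool.Agent.H797

noncomputable section

/-- area -/
def ar (u : Sm) : ℝ := J (expS (cst 2 * u))
/-- reciprocal of the average curvature times the conformal factor -/
def bet (u : Sm) : Sm := cst (ar u / mass) * expS (cst (-2) * u)
def ww (u : Sm) : Sm := 1 - lap u
def ff (u : Sm) : Sm := invS (bet u * ww u)
def fbar (u : Sm) : ℝ := J (ff u * expS (cst 2 * u)) / ar u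

theorem ar_pos (u : Sm) : 0 < ar u :=
  I_pos_of (fun p => (Real.exp_pos _).le) pole (Real.exp_pos _)

theorem bet_apply (u : Sm) (p : S2) : (bet u).1 p = ar u / mass * Real.exp (-2 * u.1 p) := rfl

theorem bet_pos (u : Sm) (p : S2) : 0 < (bet u).1 p := by
  rw [bet_apply]
  have := ar_pos u
  have := mass_pos
  positivity

theorem bw_ne {u : Sm} (hw : ∀ p, 0 < (ww u).1 p) (p : S2) : (bet u * ww u).1 p ≠ 0 := by
  rw [sm_mul]
  exact (mul_pos (bet_pos u p) (hw p)).ne'

theorem ff_eq {u : Sm} (hw : ∀ p, 0 < (ww u).1 p) : bet u * ww u * ff u = 1 :=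
  mul_invS _ (bw_ne hw)

theorem ff_apply {u : Sm} (hw : ∀ p, 0 < (ww u).1 p) (p : S2) :
    (ff u).1 p = ((bet u).1 p * (ww u).1 p)⁻¹ := by
  rw [ff, invS_apply _ (bw_ne hw), sm_mul]

theorem ff_pos {u : Sm} (hw : ∀ p, 0 < (ww u).1 p) (p : S2) : 0 < (ff u).1 p := by
  rw [ff_apply hw]
  have := bet_pos u p
  have := hw p
  positivity

theorem J_fw {u : Sm} (hw : ∀ p, 0 < (ww u).1 p) : J (ff u * ww u) = mass := by
  have h1 : ff u * ww u = cst (mass / ar u) * expS (cst 2 * u) := by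
    apply sm_ext; intro p
    rw [sm_mul, ff_apply hw, bet_apply, sm_mul, cst_apply, expS_apply, sm_mul, cst_apply]
    have h1 := ar_pos u
    have h2 := mass_pos
    have h3 := hw p
    have h4 : Real.exp (2 * u.1 p) = (Real.exp (-2 * u.1 p))⁻¹ := by
      rw [← Real.exp_neg]; congr 1; ring
    have h5 := Real.exp_pos (-2 * u.1 p)
    rw [h4]
    field_simp
  rw [h1, J_cst_mul]
  change mass / ar u * ar u = mass
  rw [div_mul_cancel₀ _ (ar_pos u).ne']

theorem J_w (u : Sm) : J (ww u) = mass := by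
  rw [ww, map_sub, J_lap_zero, J_one]; ring

/-- a solution of the flow on `[0,T]` -/
structure Sol (T : ℝ) (u : ℝ → Sm) : Prop where
  pos : ∀ t ∈ Icc 0 T, ∀ p, 0 < (ww (u t)).1 p
  flow : ∀ n, HD (Icc 0 T) n u (fun t => ff (u t) - 1)

theorem hd_lin {S : Set ℝ} {n : ℕ} {c c' : ℝ → Sm} (h : HD S n c c') (r : ℝ) :
    HD S n (fun t => cst r * c t) (fun t => cst r * c' t) := h.cmul (cst r)

namespace Sol

variable {T : ℝ} {u : ℝ → Sm}

theorem area (h : Sol T u) : ∀ t ∈ Icc 0 T,
    HasDerivWithinAt (fun t => ar (u t)) (2 * ar (u t) * (fbar (u t) - 1)) (Icc 0 T) t := by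
  intro t ht
  have h1 := ((hd_lin (h.flow 0) 2).expo).Jd t ht
  refine HasDerivWithinAt.congr_deriv h1 ?_
  have h2 : expS (cst 2 * u t) * (cst 2 * (ff (u t) - 1))
      = cst 2 * (ff (u t) * expS (cst 2 * u t)) - cst 2 * expS (cst 2 * u t) := by ring
  rw [h2, map_sub, J_cst_mul, J_cst_mul, fbar]
  have := ar_pos (u t)
  change 2 * J (ff (u t) * expS (cst 2 * u t)) - 2 * ar (u t) = _
  field_simp

theorem betd (h : Sol T u) (n : ℕ) : HD (Icc 0 T) n (fun t => bet (u t))
    (fun t => -(cst 2 * (bet (u t) * (ff (u t) - cst (fbar (u t)))))) := by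
  have h1 := HD.scal n (T := Icc 0 T) (y := fun t => ar (u t) / mass)
    (y' := fun t => 2 * ar (u t) * (fbar (u t) - 1) / mass)
    (fun t ht => (h.area t ht).div_const mass)
  have h2 := (hd_lin (h.flow n) (-2)).expo
  refine (h1.mul h2).congr (fun _ _ => rfl) (fun t _ => ?_)
  apply sm_ext; intro p
  simp only [sm_neg, sm_mul, sm_add, sm_sub, cst_apply, sm_one, bet_apply, expS_apply]
  have := mass_pos
  field_simp
  ring

theorem wwd (h : Sol T u) (n : ℕ) : HD (Icc 0 T) n (fun t => ww (u t))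
    (fun t => - lap (ff (u t))) := by
  have h1 := (HD.const n (T := Icc 0 T) 1).sub (h.flow (n + 2)).lapl
  refine h1.congr (fun _ _ => rfl) (fun t _ => ?_)
  rw [map_sub]
  have : lap (1 : Sm) = 0 := by
    have := lap_cst 1
    simpa using this
  rw [this]; ring

theorem ffd (h : Sol T u) (n : ℕ) : HD (Icc 0 T) n (fun t => ff (u t))
    (fun t => bet (u t) * (ff (u t) * ff (u t)) * lap (ff (u t)) + cst 2 * (ff (u t) * ff (u t))
      - cst (2 * fbar (u t)) * ff (u t)) := by
  have h1 := ((h.betd n).mul (h.wwd n)).invo (fun t ht p => bw_ne (h.pos t ht) p)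
  refine h1.congr (fun _ _ => rfl) (fun t ht => ?_)
  have e := ff_eq (h.pos t ht)
  change _ = -(ff (u t) * ff (u t) * _)
  have e2 : cst (2 * fbar (u t)) = cst 2 * cst (fbar (u t)) := map_mul _ _ _
  rw [e2]
  linear_combination (-(cst 2 * ff (u t) * (ff (u t) - cst (fbar (u t))))) * e

end Sol

end

end Pool.Agent.H797
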