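import Pool.Agent.H797.SpecG

set_option autoImplicit false
open Set MeasureTheory Filter Topology
open scoped ContDiff

namespace Pool.Agent.H797

noncomputable section

/-! ### projections -/

theorem B_perp {P : Submodule ℝ Sm} (hL : ∀ i, ∀ g ∈ P, L i g ∈ P) (k : ℕ) : ∀ r : Sm,
    (∀ h ∈ P, J (r * h) = 0) → ∀ h ∈ P, B k r h = 0 := by
  induction k with
  | zero => exact fun r hr h hh => hr h hh
  | succ k ih =>
    intro r hr h hh
    rw [B_succ, hr h hh, zero_add]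
    apply Finset.sum_eq_zero
    intro i _
    apply ih (L i r) _ (L i h) (hL i h hh)
    intro g hg
    rw [J_ibp, hr _ (hL i g hg), neg_zero]

theorem B_sub_left (k : ℕ) (g g' h : Sm) : B k (g - g') h = B k g h - B k g' h := by
  rw [B_comm, B_sub, B_comm k h g, B_comm k h g']

namespace Gal

variable {P : Submodule ℝ Sm} {T : ℝ} {u0 : Sm} {χ : ℝ → ℝ} {V φ G : ℝ → Sm}

theorem Bproj (hL : ∀ i, ∀ g ∈ P, L i g ∈ P) (h : Gal P T u0 χ V φ G) (k : ℕ) {t : ℝ}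
    (ht : t ∈ Icc 0 T) {g : Sm} (hg : g ∈ P) : B k (G t) g = B k (Fe (u0 + V t) (φ t)) g := by
  have h1 := B_perp hL k (G t - Fe (u0 + V t) (φ t)) (fun g hg => by
    rw [sub_mul, map_sub, h.proj t ht g hg, sub_self]) g hg
  rw [B_sub_left] at h1
  linarith

theorem NG (hL : ∀ i, ∀ g ∈ P, L i g ∈ P) (h : Gal P T u0 χ V φ G) (k : ℕ) {t : ℝ}
    (ht : t ∈ Icc 0 T) : N k (G t) ≤ N k (Fe (u0 + V t) (φ t)) := by
  have h1 := h.Bproj hL k ht (h.memG t ht)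
  rw [B_self] at h1
  have h2 := B_CS k (Fe (u0 + V t) (φ t)) (G t)
  rw [← h1] at h2
  have h3 := N_nonneg k (G t)
  rcases eq_or_lt_of_le h3 with h4 | h4
  · rw [← h4]; exact N_nonneg _ _
  · have : N k (G t) * N k (G t) ≤ N k (Fe (u0 + V t) (φ t)) * N k (G t) := by nlinarith
    exact le_of_mul_le_mul_right this h4

theorem Nφ' (hL : ∀ i, ∀ g ∈ P, L i g ∈ P) (h : Gal P T u0 χ V φ G) (k : ℕ) : ∀ t ∈ Icc 0 T,
    HasDerivWithinAt (fun t => N k (φ t)) (χ t * (2 * B k (Fe (u0 + V t) (φ t)) (φ t)))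
      (Icc 0 T) t := by
  intro t ht
  refine HasDerivWithinAt.congr_deriv ((h.dφ k).Nd k t ht) ?_
  rw [B_cst_left, h.Bproj hL k ht (h.memφ t ht)]
  ring

theorem NV' (h : Gal P T u0 χ V φ G) (k : ℕ) : ∀ t ∈ Icc 0 T,
    HasDerivWithinAt (fun t => N k (V t)) (χ t * (2 * B k (φ t - 1) (V t))) (Icc 0 T) t := by
  intro t ht
  refine HasDerivWithinAt.congr_deriv ((h.dV k).Nd k t ht) ?_
  rw [B_cst_left]
  ring

end Gal

theorem two_B_le (k : ℕ) (g h : Sm) : 2 * B k g h ≤ N k g + N k h := by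
  have h1 := N_nonneg k (g - h)
  have h2 : N k (g - h) = N k g - 2 * B k g h + N k h := by
    have := N_add k g (-h)
    rw [B_neg, N_neg, ← sub_eq_add_neg] at this
    linarith
  linarith

theorem N_one (k : ℕ) : N k (1 : Sm) = mass := by
  have := N_cst k 1
  simpa using this

/-! ### bounds of the nonlinear terms -/

theorem g_sup (K : ℝ) : ∃ C : ℝ, 0 ≤ C ∧ ∀ u : Sm, N 2 u ≤ K → ∀ p, |u.1 p| ≤ C := by
  obtain ⟨C, hC0, hC⟩ := norm_le_N
  refine ⟨√(C * K), Real.sqrt_nonneg _, fun u hu p => ?_⟩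
  refine (u.1.norm_coe_le_norm p).trans ((hC u).trans (Real.sqrt_le_sqrt ?_))
  gcongr

theorem g_ar {u : Sm} {M : ℝ} (h : ∀ p, |u.1 p| ≤ M) :
    Real.exp (-(2 * M)) * mass ≤ ar u ∧ ar u ≤ Real.exp (2 * M) * mass := by
  constructor
  · rw [← J_cst]
    apply J_mono; intro q
    rw [cst_apply, expS_apply, sm_mul, cst_apply]
    apply Real.exp_le_exp.mpr
    have := (abs_le.mp (h q)).1
    linarith
  · rw [← J_cst]
    apply J_mono; intro q
    rw [cst_apply, expS_apply, sm_mul, cst_apply]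
    apply Real.exp_le_exp.mpr
    have := (abs_le.mp (h q)).2
    linarith

theorem g_bet (k : ℕ) (K : ℝ) (hK : 0 ≤ K) : ∃ C : ℝ, 0 ≤ C ∧ ∀ u : Sm,
    N (k + 2) u ≤ K → N (k + 2) (bet u) ≤ C := by
  obtain ⟨M, hM0, hM⟩ := g_sup K
  obtain ⟨D, hD0, hD⟩ := exp_bd k (4 * K) (by positivity)
  refine ⟨(Real.exp (2 * M)) ^ 2 * D, by positivity, fun u hN => ?_⟩
  rw [bet, N_cst_mul]
  have hm := mass_pos
  have h1 : 0 ≤ ar u / mass := div_nonneg (ar_pos u).le hm.le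
  have h2 : ar u / mass ≤ Real.exp (2 * M) := by
    rw [div_le_iff₀ hm]
    exact (g_ar (hM u ((N_mono (by omega) u).trans hN))).2
  have h3 : N (k + 2) (expS (cst (-2) * u)) ≤ D := by
    apply hD
    rw [N_cst_mul]
    linarith
  have := N_nonneg (k + 2) (expS (cst (-2) * u))
  gcongr

theorem g_bet_low {u : Sm} {M : ℝ} (h : ∀ p, |u.1 p| ≤ M) (p : S2) :
    Real.exp (-(4 * M)) ≤ (bet u).1 p := by
  have hm := mass_pos
  have h1 : Real.exp (-(2 * M)) ≤ ar u / mass := by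
    rw [le_div_iff₀ hm]; exact (g_ar h).1
  have h3 : Real.exp (-(2 * M)) ≤ Real.exp (-2 * u.1 p) := by
    apply Real.exp_le_exp.mpr
    have := (abs_le.mp (h p)).2
    linarith
  rw [bet_apply]
  have har : 0 ≤ ar u / mass := div_nonneg (ar_pos u).le hm.le
  calc Real.exp (-(4 * M)) = Real.exp (-(2 * M)) * Real.exp (-(2 * M)) := by
        rw [← Real.exp_add]; congr 1; ring
    _ ≤ _ := by
        have := Real.exp_pos (-(2 * M))
        gcongr

theorem mu_le {u φ : Sm} {K : ℝ} (h : ∀ p, |φ.1 p| ≤ K) : |mu u φ| ≤ K := by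
  have ha := ar_pos u
  rw [mu, abs_div, abs_of_pos ha, div_le_iff₀ ha, abs_le]
  have e : ∀ r : ℝ, r * ar u = J (cst r * expS (cst 2 * u)) := by
    intro r; rw [J_cst_mul]; rfl
  constructor
  · have : -(K * ar u) = (-K) * ar u := by ring
    rw [this, e]
    apply J_mono; intro q
    rw [sm_mul, sm_mul, cst_apply, expS_apply]
    have := (abs_le.mp (h q)).1
    gcongr
  · rw [e]
    apply J_mono; intro q
    rw [sm_mul, sm_mul, cst_apply, expS_apply]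
    have := (abs_le.mp (h q)).2
    gcongr

theorem N_Fe (k : ℕ) (K : ℝ) (hK : 0 ≤ K) : ∃ C : ℝ, 0 ≤ C ∧ ∀ u φ : Sm,
    N (k + 2) u ≤ K → N (k + 4) φ ≤ K → N (k + 2) (Fe u φ) ≤ C := by
  obtain ⟨Cb, hCb0, hCb⟩ := g_bet k K hK
  obtain ⟨Ca, hCa0, hCa⟩ := alg k
  obtain ⟨Cs, hCs0, hCs⟩ := g_sup K
  refine ⟨3 * ((Ca * (Ca * Cb * (Ca * K * K)) * (3 * K)) + 2 ^ 2 * (Ca * K * K)
    + (2 * Cs) ^ 2 * K), by positivity, fun u φ hu hφ => ?_⟩
  have hφ2 : N (k + 2) φ ≤ K := (N_mono (by omega) φ).trans hφ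
  have h1 : N (k + 2) (φ * φ) ≤ Ca * K * K := by
    refine (hCa _ _).trans ?_
    have := N_nonneg (k + 2) φ
    gcongr
  have h2 : N (k + 2) (bet u * (φ * φ)) ≤ Ca * Cb * (Ca * K * K) := by
    refine (hCa _ _).trans ?_
    have := N_nonneg (k + 2) (φ * φ)
    have := N_nonneg (k + 2) (bet u)
    have := hCb u hu
    gcongr
  have h3 : N (k + 2) (lap φ) ≤ 3 * K := (N_lap_le (k + 2) φ).trans (by gcongr)
  have h4 : N (k + 2) (bet u * (φ * φ) * lap φ) ≤ Ca * (Ca * Cb * (Ca * K * K)) * (3 * K) := by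
    refine (hCa _ _).trans ?_
    have := N_nonneg (k + 2) (bet u * (φ * φ))
    have := N_nonneg (k + 2) (lap φ)
    gcongr
  have h5 : N (k + 2) (cst 2 * (φ * φ)) ≤ 2 ^ 2 * (Ca * K * K) := by
    rw [N_cst_mul]; gcongr
  have h6 : N (k + 2) (-(cst (2 * mu u φ) * φ)) ≤ (2 * Cs) ^ 2 * K := by
    rw [N_neg, N_cst_mul]
    have h7 := mu_le (u := u) (hCs φ ((N_mono (by omega) φ).trans hφ))
    have h8 : (2 * mu u φ) ^ 2 ≤ (2 * Cs) ^ 2 := by
      rw [← sq_abs, abs_mul, abs_two]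
      gcongr
    have := N_nonneg (k + 2) φ
    gcongr
  rw [Fe, sub_eq_add_neg]
  refine (N_add3_le _ _ _ _).trans ?_
  gcongr

/-! ### continuation lemma -/

theorem boot {y : ℝ → ℝ} {T : ℝ} (hy : ContinuousOn y (Icc 0 T)) (h0 : y 0 ≤ 0)
    (h : ∀ t ∈ Icc 0 T, (∀ s ∈ Icc 0 t, y s ≤ 0) → y t < 0) : ∀ t ∈ Icc 0 T, y t ≤ 0 := by
  by_contra hcon
  push Not at hcon
  obtain ⟨t1, ht1, hy1⟩ := hcon
  obtain ⟨S, hS⟩ : ∃ S : Set ℝ, S = {t | t ∈ Icc 0 T ∧ 0 < y t} := ⟨_, rfl⟩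
  have hne : S.Nonempty := ⟨t1, by rw [hS]; exact ⟨ht1, hy1⟩⟩
  have hbd : BddBelow S := ⟨0, by rw [hS]; rintro t ⟨ht, _⟩; exact ht.1⟩
  obtain ⟨t0, ht0⟩ : ∃ t0, t0 = sInf S := ⟨_, rfl⟩
  have h1 : t0 ≤ t1 := by rw [ht0]; exact csInf_le hbd (by rw [hS]; exact ⟨ht1, hy1⟩)
  have h2 : 0 ≤ t0 := by
    rw [ht0]; apply le_csInf hne
    rw [hS]; rintro t ⟨ht, _⟩; exact ht.1
  have ht0T : t0 ∈ Icc 0 T := ⟨h2, h1.trans ht1.2⟩
  have hlt : ∀ s ∈ Icc 0 T, s < t0 → y s ≤ 0 := by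
    intro s hs hst
    by_contra hcon
    push Not at hcon
    have : t0 ≤ s := by rw [ht0]; exact csInf_le hbd (by rw [hS]; exact ⟨hs, hcon⟩)
    linarith
  have hle : y t0 ≤ 0 := by
    by_contra hcon
    push Not at hcon
    have h3 : 0 < t0 := by
      rcases eq_or_lt_of_le h2 with h | h
      · rw [← h] at hcon; linarith
      · exact h
    have h4 : ∀ᶠ s in 𝓝[Icc 0 T] t0, 0 < y s := (hy t0 ht0T).eventually_const_lt hcon
    obtain ⟨ε, hε, h5⟩ := Metric.mem_nhdsWithin_iff.mp h4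
    obtain ⟨s, hs⟩ : ∃ s, s = max 0 (t0 - ε / 2) := ⟨_, rfl⟩
    have hs1 : s < t0 := by rw [hs]; exact max_lt h3 (by linarith)
    have hs2 : s ∈ Icc 0 T := ⟨by rw [hs]; exact le_max_left _ _, by linarith [ht0T.2]⟩
    have hs3 : s ∈ Metric.ball t0 ε := by
      rw [Metric.mem_ball, Real.dist_eq, abs_sub_comm, abs_of_pos (by linarith)]
      have : t0 - ε / 2 ≤ s := by rw [hs]; exact le_max_right _ _
      linarith
    have := h5 ⟨hs3, hs2⟩
    have h6 := hlt s hs2 hs1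
    exact absurd this (not_lt.mpr h6)
  have hlt0 : y t0 < 0 := by
    apply h t0 ht0T
    intro s hs
    rcases eq_or_lt_of_le hs.2 with h | h
    · rw [h]; exact hle
    · exact hlt s ⟨hs.1, hs.2.trans ht0T.2⟩ h
  have h4 : ∀ᶠ s in 𝓝[Icc 0 T] t0, y s < 0 := (hy t0 ht0T).eventually_lt_const hlt0
  obtain ⟨ε, hε, h5⟩ := Metric.mem_nhdsWithin_iff.mp h4
  obtain ⟨s, hsS, hs2⟩ := exists_lt_of_csInf_lt hne (show sInf S < t0 + ε by rw [← ht0]; linarith)
  have hs3 : t0 ≤ s := by rw [ht0]; exact csInf_le hbd hsS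
  rw [hS] at hsS
  have hs4 : s ∈ Metric.ball t0 ε := by
    rw [Metric.mem_ball, Real.dist_eq, abs_of_nonneg (by linarith)]
    linarith
  have := h5 ⟨hs4, hsS.1⟩
  have h6 : y s < 0 := this
  linarith [hsS.2]

/-! ### the base estimate -/

/-- one sided bounds at a time -/
theorem base_rate (M : ℝ) (hM : 0 < M) : ∃ K : ℝ, 0 < K ∧ ∀ (u φ : Sm), N 4 u ≤ M → N 4 φ ≤ M →
    (∀ p, 1 ≤ M * φ.1 p) → 2 * B 4 (Fe u φ) φ ≤ K ∧ N 2 (Fe u φ) ≤ K ∧ (∀ g : Sm,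
      N 2 g ≤ N 2 (Fe u φ) → ‖g.1‖ ≤ K) := by
  obtain ⟨Cb, hCb0, hCb⟩ := g_bet 2 M hM.le
  obtain ⟨Cs, hCs0, hCs⟩ := g_sup M
  obtain ⟨Cf, hCf0, hCf⟩ := N_Fe 0 M hM.le
  obtain ⟨Cn, hCn0, hCn⟩ := norm_le_N
  obtain ⟨m, hm⟩ : ∃ m, m = Real.exp (-(4 * Cs)) * ((1 / M) * (1 / M)) := ⟨_, rfl⟩
  have hm0 : 0 < m := by rw [hm]; positivity
  obtain ⟨C, hC0, hC⟩ := main_est 1 (M + Cb + Cs) m (by positivity) hm0
  refine ⟨2 * (C * (1 + M) ^ 2) + Cf + √(Cn * Cf) + 1, by positivity,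
    fun u φ hu hφ hlow => ?_⟩
  have hu2 : N 2 u ≤ M := (N_mono (by norm_num) u).trans hu
  have hφ2 : N 2 φ ≤ M := (N_mono (by norm_num) φ).trans hφ
  have hφ3 : N 3 φ ≤ M := (N_mono (by norm_num) φ).trans hφ
  have hF := hCf u φ hu2 hφ
  have hs := Real.sqrt_nonneg (Cn * Cf)
  have h1 := hC (bet u) φ (mu u φ) ((hCb u hu).trans (by linarith)) (hφ3.trans (by linarith))
    ((mu_le (hCs φ hφ2)).trans (by linarith)) (fun p => by
      rw [hm, sm_mul, sm_mul]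
      have a1 := g_bet_low (hCs u hu2) p
      have a2 : 1 / M ≤ φ.1 p := by
        rw [div_le_iff₀ hM, mul_comm]; exact hlow p
      have a3 : 0 < 1 / M := by positivity
      have a4 : 0 ≤ φ.1 p := by linarith
      have a5 : 0 ≤ (bet u).1 p := (bet_pos u p).le
      gcongr)
  have h5 := N_nonneg 5 φ
  have h4 := N_nonneg 4 φ
  have h6 : C * (1 + N 4 φ) ^ 2 ≤ C * (1 + M) ^ 2 := by gcongr
  have h7 : 0 ≤ m / 4 * N 5 φ := by positivity
  have h8 : B 4 (Fe u φ) φ ≤ C * (1 + M) ^ 2 := by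
    have : B 4 (Fe u φ) φ ≤ -(m / 4) * N 5 φ + C * (1 + N 4 φ) ^ 2 := h1
    linarith
  refine ⟨by linarith, ?_, fun g hg => ?_⟩
  · have : 0 ≤ C * (1 + M) ^ 2 := by positivity
    linarith
  · have a1 : ‖g.1‖ ≤ √(Cn * Cf) := (hCn g).trans (Real.sqrt_le_sqrt (by
      have := hg.trans hF
      gcongr))
    have : 0 ≤ C * (1 + M) ^ 2 := by positivity
    linarith

theorem gal_base (M : ℝ) (hM : 1 ≤ M) : ∃ T1 : ℝ, 0 < T1 ∧ T1 ≤ 1 ∧ ∃ M' : ℝ, 1 ≤ M' ∧
    ∀ (P : Submodule ℝ Sm) (T : ℝ) (u0 : Sm) (χ : ℝ → ℝ) (V φ G : ℝ → Sm),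
    (∀ i, ∀ g ∈ P, L i g ∈ P) → T ≤ T1 → Gal P T u0 χ V φ G → N 4 u0 ≤ M → N 4 (φ 0) ≤ M →
    (∀ p, 1 ≤ M * (φ 0).1 p) → ∀ t ∈ Icc 0 T, N 4 (u0 + V t) ≤ M' ∧ N 4 (φ t) ≤ M' ∧
      (∀ p, 1 ≤ M' * (φ t).1 p) ∧ N 4 (V t) ≤ M' := by
  have hm := mass_pos
  obtain ⟨M', hM'⟩ : ∃ x, x = 2 * M + 2 + mass := ⟨_, rfl⟩
  have hM'1 : 1 ≤ M' := by rw [hM']; linarith
  obtain ⟨K, hK0, hK⟩ := base_rate M' (by linarith)
  obtain ⟨K2, hK2⟩ : ∃ x, x = 2 * M' + 2 * mass + 1 := ⟨_, rfl⟩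
  obtain ⟨T1, hT1⟩ : ∃ x, x = 1 / (2 * M * (K + K2 + 1)) := ⟨_, rfl⟩
  have hK20 : 0 < K2 := by rw [hK2]; linarith
  have hT10 : 0 < T1 := by rw [hT1]; positivity
  have hT1e : T1 * (2 * M * (K + K2 + 1)) = 1 := by rw [hT1]; field_simp
  have hT11 : T1 ≤ 1 := by
    rw [hT1, div_le_one (by positivity)]
    nlinarith
  refine ⟨T1, hT10, hT11, M', hM'1, fun P T u0 χ V φ G hL hT h hu0 hφ0 hlow => ?_⟩
  -- consequences of the working bounds at a time
  have hstep : ∀ t ∈ Icc 0 T, N 4 (φ t) ≤ M + 1 → N 4 (V t) ≤ 1 →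
      ‖(φ t - φ 0).1‖ ≤ 1 / (2 * M) → N 4 (u0 + V t) ≤ M' ∧ N 4 (φ t) ≤ M' ∧
      (∀ p, 1 ≤ M' * (φ t).1 p) ∧ N 4 (V t) ≤ M' := by
    intro t ht h1 h2 h3
    refine ⟨(N_add_le _ _ _).trans (by linarith), by linarith, fun p => ?_, by linarith⟩
    have a1 := ((φ t - φ 0).1.norm_coe_le_norm p).trans h3
    rw [Real.norm_eq_abs, sm_sub] at a1
    have a2 := (abs_le.mp a1).1
    have a3 : 1 / M ≤ (φ 0).1 p := by
      rw [div_le_iff₀ (by linarith), mul_comm]; exact hlow p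
    have a4 : 1 / (2 * M) ≤ (φ t).1 p := by
      have : 1 / M = 1 / (2 * M) + 1 / (2 * M) := by field_simp; norm_num
      linarith
    calc 1 = (2 * M) * (1 / (2 * M)) := by field_simp
      _ ≤ M' * (φ t).1 p := by
        have : 0 ≤ 1 / (2 * M) := by positivity
        gcongr
        rw [hM']; linarith
  have hcont : ContinuousOn (fun t => max (N 4 (φ t) - (M + 1)) (max (N 4 (V t) - 1)
      (‖(φ t - φ 0).1‖ - 1 / (2 * M)))) (Icc 0 T) := by
    have c1 : ContinuousOn (fun t => N 4 (φ t)) (Icc 0 T) :=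
      fun t ht => ((h.dφ 4).Nd 4 t ht).continuousWithinAt
    have c2 : ContinuousOn (fun t => N 4 (V t)) (Icc 0 T) :=
      fun t ht => ((h.dV 4).Nd 4 t ht).continuousWithinAt
    have c3 : ContinuousOn (fun t => ‖(φ t - φ 0).1‖) (Icc 0 T) := by
      have : ContinuousOn (fun t => ‖(φ t).1 - (φ 0).1‖) (Icc 0 T) :=
        ((h.dφ 0).cont.sub continuousOn_const).norm
      exact this
    exact (c1.sub continuousOn_const).sup ((c2.sub continuousOn_const).sup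
      (c3.sub continuousOn_const))
  have hkey := boot hcont (by
    simp only [h.V0, sub_self]
    have e1 : N 4 (0 : Sm) = 0 := by
      have := N_cst 4 0
      simpa using this
    rw [e1]
    have : (0 : Sm).1 = 0 := rfl
    rw [this, norm_zero]
    refine max_le (by linarith) (max_le (by norm_num) ?_)
    have : 0 < 1 / (2 * M) := by positivity
    linarith) (by
    intro t ht hs
    have hsub : Icc 0 t ⊆ Icc 0 T := Icc_subset_Icc le_rfl ht.2
    have hbds : ∀ s ∈ Icc 0 t, N 4 (u0 + V s) ≤ M' ∧ N 4 (φ s) ≤ M' ∧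
      (∀ p, 1 ≤ M' * (φ s).1 p) ∧ N 4 (V s) ≤ M' := by
      intro s hs'
      have a := hs s hs'
      rw [max_le_iff, max_le_iff] at a
      exact hstep s (hsub hs') (by linarith [a.1]) (by linarith [a.2.1]) (by linarith [a.2.2])
    have ht0 : (0 : ℝ) ∈ Icc 0 t := ⟨le_rfl, ht.1⟩
    have htt : t ∈ Icc 0 t := ⟨ht.1, le_rfl⟩
    have htT1 : t ≤ T1 := ht.2.trans hT
    -- first bound
    have b1 := growth (h := fun t => N 4 (φ t)) (K := K)
      (fun s hs' => (h.Nφ' hL 4 s (hsub hs')).mono hsub) (fun s hs' => by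
        have a1 := hbds s hs'
        have a2 := (hK (u0 + V s) (φ s) a1.1 a1.2.1 a1.2.2.1).1
        have a3 := h.chi s (hsub hs')
        calc χ s * (2 * B 4 (Fe (u0 + V s) (φ s)) (φ s)) ≤ χ s * K := by
              gcongr; exact a3.1
          _ ≤ 1 * K := by gcongr; exact a3.2
          _ = K := one_mul K) ht0 htt ht.1
    have b2 := growth (h := fun t => N 4 (V t)) (K := K2)
      (fun s hs' => (h.NV' 4 s (hsub hs')).mono hsub) (fun s hs' => by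
        have a1 := hbds s hs'
        have a2 := two_B_le 4 (φ s - 1) (V s)
        have a4 := N_sub_le 4 (φ s) 1
        rw [N_one] at a4
        have a5 := hs s hs'
        rw [max_le_iff, max_le_iff] at a5
        have a3 := h.chi s (hsub hs')
        have a6 : 2 * B 4 (φ s - 1) (V s) ≤ K2 := by
          rw [hK2]; linarith [a1.2.1, a5.2.1]
        calc χ s * (2 * B 4 (φ s - 1) (V s)) ≤ χ s * K2 := by
              gcongr; exact a3.1
          _ ≤ 1 * K2 := by gcongr; exact a3.2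
          _ = K2 := one_mul K2) ht0 htt ht.1
    have b3 : ‖(φ t).1 - (φ 0).1‖ ≤ K * (t - 0) := by
      refine norm_image_sub_le_of_norm_deriv_le_segment' (f := fun s => (φ s).1)
        (fun s hs' => ((h.dφ 0).base s (hsub hs')).mono hsub) (fun s hs' => ?_) t htt
      have hs2 : s ∈ Icc 0 t := Ico_subset_Icc_self hs'
      have a1 := hbds s hs2
      have a2 := (hK (u0 + V s) (φ s) a1.1 a1.2.1 a1.2.2.1).2.2 (G s) (h.NG hL 2 (hsub hs2))
      have a3 := h.chi s (hsub hs2)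
      have e : (cst (χ s) * G s).1 = χ s • (G s).1 := by rw [cst_mul_eq]; rfl
      rw [e, norm_smul, Real.norm_of_nonneg a3.1]
      calc χ s * ‖(G s).1‖ ≤ 1 * K := by gcongr; exact a3.2
        _ = K := one_mul K
    simp only [h.V0] at b1 b2
    have e1 : N 4 (0 : Sm) = 0 := by
      have := N_cst 4 0
      simpa using this
    rw [e1] at b2
    have ht00 : 0 ≤ t := ht.1
    have hKt : K * t < 1 / (2 * M) := by
      rw [lt_div_iff₀ (by linarith)]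
      have : K * t * (2 * M) ≤ K * T1 * (2 * M) := by gcongr
      have : 0 < T1 * (2 * M * (K2 + 1)) := by positivity
      nlinarith
    have hK2t : K2 * t < 1 := by
      have h1 : K2 * t ≤ K2 * T1 := by gcongr
      have h2 : K2 * T1 * 1 ≤ K2 * T1 * (2 * M) := by gcongr; linarith
      have : 0 < T1 * (2 * M * (K + 1)) := by positivity
      nlinarith
    have hMM : 1 / (2 * M) ≤ 1 / 2 := by gcongr; linarith
    rw [sub_zero] at b1 b2 b3
    rw [max_lt_iff, max_lt_iff]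
    refine ⟨by linarith, by linarith, ?_⟩
    have e2 : (φ t - φ 0).1 = (φ t).1 - (φ 0).1 := rfl
    rw [e2]
    linarith)
  intro t ht
  have a := hkey t ht
  rw [max_le_iff, max_le_iff] at a
  exact hstep t ht (by linarith [a.1]) (by linarith [a.2.1]) (by linarith [a.2.2])

end

end Pool.Agent.H797
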