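import Pool.Agent.H797.High2

set_option autoImplicit false
open Set MeasureTheory Filter Topology
open scoped ContDiff

namespace Pool.Agent.H797

noncomputable section

theorem GLUE_hd {a b : ℝ} (ha : 0 ≤ a) (hb : 0 ≤ b) {n : ℕ} {c c' d d' : ℝ → Sm}
    (h1 : HD (Icc 0 a) n c c') (h2 : HD (Icc 0 b) n d d') (e : d 0 = c a) (e' : d' 0 = c' a) :
    HD (Icc 0 (a + b)) n (fun t => if t ≤ a then c t else d (t - a))
      (fun t => if t ≤ a then c' t else d' (t - a)) := by
  have base : ∀ {c c' d d' : ℝ → Sm}, HD (Icc 0 a) 0 c c' → HD (Icc 0 b) 0 d d' → d 0 = c a →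
      d' 0 = c' a → HD (Icc 0 (a + b)) 0 (fun t => if t ≤ a then c t else d (t - a))
      (fun t => if t ≤ a then c' t else d' (t - a)) := by
    intro c c' d d' h1 h2 e e' t ht
    obtain ⟨F, hF⟩ : ∃ F : ℝ → Sm, F = fun t => if t ≤ a then c t else d (t - a) := ⟨_, rfl⟩
    have k1 : ∀ t ∈ Icc 0 a, HasDerivWithinAt (fun s => (F s).1) (c' t).1 (Icc 0 a) t := by
      intro t ht
      refine (h1 t ht).congr (fun s hs => ?_) ?_
      · rw [hF]; simp only [if_pos hs.2]
      · rw [hF]; simp only [if_pos ht.2]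
    have k2 : ∀ t ∈ Icc a (a + b),
        HasDerivWithinAt (fun s => (F s).1) (d' (t - a)).1 (Icc a (a + b)) t := by
      intro t ht
      have hF2 : ∀ s ∈ Icc a (a + b), F s = d (s - a) := by
        intro s hs
        rw [hF]
        by_cases h : s ≤ a
        · have : s = a := le_antisymm h hs.1
          subst this
          simp [e]
        · simp only [if_neg h]
      have h3 := h2 (t - a) ⟨by linarith [ht.1], by linarith [ht.2]⟩
      have h4 : HasDerivWithinAt (fun s : ℝ => s - a) 1 (Icc a (a + b)) t :=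
        (hasDerivWithinAt_id t _).sub_const a
      have hm : MapsTo (fun s : ℝ => s - a) (Icc a (a + b)) (Icc 0 b) :=
        fun s hs => ⟨by linarith [hs.1], by linarith [hs.2]⟩
      have h5 := h3.scomp t h4 hm
      rw [one_smul] at h5
      refine h5.congr (fun s hs => ?_) ?_
      · rw [hF2 s hs]; rfl
      · rw [hF2 t ht]; rfl
    change HasDerivWithinAt (fun s => ((if s ≤ a then c s else d (s - a) : Sm)).1) _ _ _
    have eF : (fun s => ((if s ≤ a then c s else d (s - a) : Sm)).1) = fun s => (F s).1 := by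
      rw [hF]
    rw [eF]
    rcases lt_trichotomy t a with h | h | h
    · simp only [if_pos h.le]
      refine (k1 t ⟨ht.1, h.le⟩).mono_of_mem_nhdsWithin ?_
      rw [mem_nhdsWithin]
      exact ⟨Iio a, isOpen_Iio, h, fun s hs => ⟨hs.2.1, le_of_lt hs.1⟩⟩
    · subst h
      simp only [if_pos le_rfl]
      have h6 := k1 t ⟨ha, le_rfl⟩
      have h7 := k2 t ⟨le_rfl, by linarith⟩
      rw [sub_self, e'] at h7
      have h8 := h6.union h7
      rwa [Icc_union_Icc_eq_Icc ha (by linarith)] at h8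
    · simp only [if_neg (not_le.mpr h)]
      refine (k2 t ⟨h.le, ht.2⟩).mono_of_mem_nhdsWithin ?_
      rw [mem_nhdsWithin]
      exact ⟨Ioi a, isOpen_Ioi, h, fun s hs => ⟨le_of_lt hs.1, hs.2.2⟩⟩
  induction n generalizing c c' d d' with
  | zero => exact base h1 h2 e e'
  | succ n ih =>
    refine ⟨base h1.base h2.base e e', fun i => ?_⟩
    refine (ih (h1.2 i) (h2.2 i) (by rw [e]) (by rw [e'])).congr (fun t _ => ?_) (fun t _ => ?_)
    · exact apply_ite (L i) _ _ _
    · exact apply_ite (L i) _ _ _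

theorem GLUE_sol {a b : ℝ} (ha : 0 ≤ a) (hb : 0 ≤ b) {u v : ℝ → Sm} (hu : Sol a u)
    (hv : Sol b v) (e : v 0 = u a) : Sol (a + b) (fun t => if t ≤ a then u t else v (t - a)) := by
  refine ⟨fun t ht p => ?_, fun n => ?_⟩
  · by_cases h : t ≤ a
    · simp only [if_pos h]
      exact hu.pos t ⟨ht.1, h⟩ p
    · simp only [if_neg h]
      exact hv.pos (t - a) ⟨by linarith, by linarith [ht.2]⟩ p
  · refine (GLUE_hd ha hb (hu.flow n) (hv.flow n) e (by rw [e])).congr (fun _ _ => rfl)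
      (fun t _ => ?_)
    by_cases h : t ≤ a
    · simp only [if_pos h]
    · simp only [if_neg h]

theorem GLUE_congr {a : ℝ} {u v : ℝ → Sm} (hv : Sol a v) (e : ∀ t ∈ Icc 0 a, u t = v t) :
    Sol a u := by
  refine ⟨fun t ht p => ?_, fun n => ?_⟩
  · rw [e t ht]; exact hv.pos t ht p
  · exact (hv.flow n).congr e (fun t ht => by rw [e t ht])

theorem GLUE_mono {a b : ℝ} {u : ℝ → Sm} (hab : a ≤ b) (h : Sol b u) : Sol a u :=
  ⟨fun t ht p => h.pos t ⟨ht.1, ht.2.trans hab⟩ p,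
    fun n => (h.flow n).mono (Icc_subset_Icc_right hab)⟩

theorem GLUE_zero {n : ℕ} (c c' : ℝ → Sm) : HD (Icc (0 : ℝ) 0) n c c' := by
  have b : ∀ c c' : ℝ → Sm, ∀ t ∈ Icc (0 : ℝ) 0,
      HasDerivWithinAt (fun s => (c s).1) (c' t).1 (Icc (0 : ℝ) 0) t := by
    intro c c' t ht
    have h0 : t = 0 := le_antisymm ht.2 ht.1
    subst h0
    rw [Icc_self]
    have h1 := (hasDerivWithinAt_const (0 : ℝ) {(0 : ℝ)} (c 0).1)
    refine HasDerivWithinAt.congr_deriv (f' := 0 + (c' 0).1) ?_ (zero_add _)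
    rw [hasDerivWithinAt_iff_tendsto_slope]
    simp
  induction n generalizing c c' with
  | zero => exact b c c'
  | succ n ih => exact ⟨b c c', fun i => ih _ _⟩

/-- TASK GLUE. -/
theorem global_of_short
    (hs : ∀ M : ℝ, 0 < M → ∃ T : ℝ, 0 < T ∧ ∀ u0 : Sm, (∀ p, 0 < (ww u0).1 p) → N 4 u0 ≤ M →
      N 4 (ff u0) ≤ M → (∀ p, 1 ≤ M * (ff u0).1 p) → ∃ u : ℝ → Sm, Sol T u ∧ u 0 = u0)
    (u0 : Sm) (hu0 : ∀ p, 0 < (ww u0).1 p) :
    ∃ u : ℝ → Sm, (∀ T, 0 ≤ T → Sol T u) ∧ u 0 = u0 := by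
  obtain ⟨C, hC0, hC⟩ := high_all u0 4
  obtain ⟨M0, m, hM0, hm, hPB⟩ := c0_bounds u0
  obtain ⟨M, hM⟩ : ∃ x, x = C + m⁻¹ := ⟨_, rfl⟩
  have hmi : 0 < m⁻¹ := inv_pos.mpr hm
  have hMpos : 0 < M := by rw [hM]; positivity
  obtain ⟨T1, hT1, hS⟩ := hs M hMpos
  -- the conditions at the end of a solution
  have hend : ∀ (T : ℝ) (u : ℝ → Sm), 0 ≤ T → Sol T u → u 0 = u0 →
      ∃ v : ℝ → Sm, Sol T1 v ∧ v 0 = u T := by
    intro T u hT h h0
    have hTm : T ∈ Icc 0 T := ⟨hT, le_rfl⟩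
    obtain ⟨e1, e2⟩ := hC T u hT h h0 T hTm
    have e3 := hPB T u hT h h0 T hTm
    refine hS (u T) (h.pos T hTm) (e2.trans (by rw [hM]; linarith))
      (e1.trans (by rw [hM]; linarith)) (fun p => ?_)
    have e4 := e3.f1 p
    calc (1 : ℝ) = m⁻¹ * m := (inv_mul_cancel₀ hm.ne').symm
      _ ≤ M * (ff (u T)).1 p := by
        apply mul_le_mul _ e4 hm.le hMpos.le
        rw [hM]; linarith
  -- short time solution from a state
  have hch : ∀ w : Sm, ∃ v : ℝ → Sm, v 0 = w ∧ ((∃ v : ℝ → Sm, Sol T1 v ∧ v 0 = w) → Sol T1 v) := by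
    intro w
    by_cases h : ∃ v : ℝ → Sm, Sol T1 v ∧ v 0 = w
    · obtain ⟨v, hv, hv0⟩ := h
      exact ⟨v, hv0, fun _ => hv⟩
    · exact ⟨fun _ => w, rfl, fun h' => absurd h' h⟩
  choose S hS0 hS1 using hch
  obtain ⟨x, hx⟩ : ∃ x : ℕ → Sm, x = fun n => Nat.rec u0 (fun _ w => S w T1) n := ⟨_, rfl⟩
  have hx0 : x 0 = u0 := by rw [hx]; rfl
  have hxs : ∀ n, x (n + 1) = S (x n) T1 := by intro n; rw [hx]
  obtain ⟨u, hu⟩ : ∃ u : ℝ → Sm, u = fun t => S (x ⌊t / T1⌋₊) (t - ⌊t / T1⌋₊ * T1) := ⟨_, rfl⟩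
  have hun : ∀ n : ℕ, u (n * T1) = x n := by
    intro n
    rw [hu]
    have : (n * T1 / T1 : ℝ) = n := by field_simp
    simp only [this, Nat.floor_natCast, sub_self]
    exact hS0 _
  have hu00 : u 0 = u0 := by
    have := hun 0
    rw [Nat.cast_zero, zero_mul] at this
    rw [this, hx0]
  have key : ∀ n : ℕ, Sol (n * T1) u := by
    intro n
    induction n with
    | zero =>
      rw [Nat.cast_zero, zero_mul]
      refine ⟨fun t ht p => ?_, fun n => GLUE_zero _ _⟩
      have h0 : t = 0 := le_antisymm ht.2 ht.1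
      rw [h0, hu00]
      exact hu0 p
    | succ n ih =>
      have hn : (0 : ℝ) ≤ n * T1 := by positivity
      have h1 := hend (n * T1) u hn ih hu00
      rw [hun n] at h1
      have h2 := hS1 (x n) h1
      have h3 := GLUE_sol hn hT1.le ih h2 (by rw [hS0, hun])
      have h4 : ((n + 1 : ℕ) : ℝ) * T1 = n * T1 + T1 := by push_cast; ring
      rw [h4]
      refine GLUE_congr h3 (fun t ht => ?_)
      by_cases h : t ≤ n * T1
      · simp only [if_pos h]
      · simp only [if_neg h]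
        push Not at h
        rcases eq_or_lt_of_le ht.2 with h5 | h5
        · have h6 : t = ((n + 1 : ℕ) : ℝ) * T1 := by rw [h5, h4]
          have h7 : t - n * T1 = T1 := by rw [h5]; ring
          rw [h7, h6, hun, hxs]
        · have h6 : ⌊t / T1⌋₊ = n := by
            rw [Nat.floor_eq_iff (div_nonneg ht.1 hT1.le)]
            constructor
            · rw [le_div_iff₀ hT1]; exact h.le
            · rw [div_lt_iff₀ hT1]; linarith
          rw [hu]
          simp only [h6]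
  refine ⟨u, fun T hT => ?_, hu00⟩
  obtain ⟨n, hn⟩ := exists_nat_ge (T / T1)
  have : T ≤ n * T1 := by rwa [div_le_iff₀ hT1] at hn
  exact GLUE_mono this (key n)

end

end Pool.Agent.H797
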