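import Pool.Agent.H797.Bounds

set_option autoImplicit false
open Set MeasureTheory
open scoped ContDiff ENNReal

namespace Pool.Agent.H797

noncomputable section

/-- dissipation lemma -/
theorem DL {T c K Y : ℝ} (hT : 0 ≤ T) (hc : 0 < c) (hK : 0 ≤ K) {y y' z : ℝ → ℝ}
    (hz : ContinuousOn z (Icc 0 T))
    (hy : ∀ t ∈ Icc 0 T, HasDerivWithinAt y (y' t) (Icc 0 T) t)
    (hy0 : ∀ t ∈ Icc 0 T, 0 ≤ y t) (hyY : ∀ t ∈ Icc 0 T, y t ≤ Y)
    (hin : ∀ t ∈ Icc 0 T, y' t ≤ -c * z t + K) : IB z ((Y + K) / c) T := by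
  obtain ⟨Q, hQ⟩ := prim hT hz
  refine ⟨Q, hQ, fun s hs t ht hst hst1 => ?_⟩
  have h1 := growth (h := fun t => y t + c * Q t) (h' := fun t => y' t + c * z t)
    (K := K) (fun t ht => (hy t ht).add ((hQ t ht).const_mul c)) (fun t ht => by
      have a1 := hin t ht
      linarith) hs ht hst
  have h2 := hyY s hs
  have h3 := hy0 t ht
  have h4 : K * (t - s) ≤ K * 1 := by gcongr; linarith
  rw [le_div_iff₀ hc]
  linarith

theorem fbar_le {u : Sm} {M : ℝ} (h : ∀ p, (ff u).1 p ≤ M) : fbar u ≤ M := by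
  rw [fbar, div_le_iff₀ (ar_pos u)]
  have h1 : J (ff u * expS (cst 2 * u)) ≤ J (cst M * expS (cst 2 * u)) := by
    apply J_mono; intro p
    rw [sm_mul, sm_mul, cst_apply, expS_apply]
    have := Real.exp_pos ((cst 2 * u).1 p)
    have := h p
    gcongr
  rw [J_cst_mul] at h1
  exact h1

theorem PB.pos {M m : ℝ} {u : Sm} (hm : 0 < m) (h : PB M m u) : ∀ p, 0 < (ww u).1 p :=
  fun p => hm.trans_le (h.w1 p)

theorem PB.Mpos {M m : ℝ} {u : Sm} (hm : 0 < m) (h : PB M m u) : 0 < M :=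
  hm.trans_le ((h.b1 pole).trans (h.b2 pole))

theorem PB.fbar {M m : ℝ} {u : Sm} (hm : 0 < m) (h : PB M m u) : |fbar u| ≤ M := by
  rw [abs_of_nonneg (fbar_nonneg (h.pos hm))]
  exact fbar_le h.f2

theorem PB.a {M m : ℝ} {u : Sm} (hm : 0 < m) (h : PB M m u) (p : S2) :
    m ^ 3 ≤ (bet u * (ff u * ff u)).1 p := by
  rw [sm_mul, sm_mul]
  have h1 := h.b1 p
  have h2 := h.f1 p
  calc m ^ 3 = m * (m * m) := by ring
    _ ≤ _ := by
      have : 0 ≤ (ff u).1 p := hm.le.trans h2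
      have : 0 ≤ (bet u).1 p := hm.le.trans h1
      gcongr

/-- right side of the speed equation -/
def FF (u : Sm) : Sm := bet u * (ff u * ff u) * lap (ff u) + cst 2 * (ff u * ff u)
      - cst (2 * fbar u) * ff u

theorem Sol.ffd' {T : ℝ} {u : ℝ → Sm} (h : Sol T u) (n : ℕ) :
    HD (Icc 0 T) n (fun t => ff (u t)) (fun t => FF (u t)) := h.ffd n

/-- Young's inequality for integrals -/
theorem J_young (g h : Sm) (c : ℝ) (hc : 0 < c) :
    |J (g * h)| ≤ c / 2 * J (g * g) + 1 / (2 * c) * J (h * h) := by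
  have h1 := J_CS_abs g h
  have h2 := add_young (J_sq_nonneg g) (J_sq_nonneg h) (c / 2) (by positivity)
  have h3 : 1 / (4 * (c / 2)) = 1 / (2 * c) := by congr 1; ring
  rw [h3] at h2
  exact h1.trans h2

section steps

variable {M m : ℝ}

theorem step0 (hm : 0 < m) : ∃ C : ℝ, 0 ≤ C ∧ ∀ (T : ℝ) (u : ℝ → Sm), 0 ≤ T → Sol T u →
    (∀ t ∈ Icc 0 T, PB M m (u t)) →
    IB (fun t => ∑ i, J (L i (ff (u t)) * L i (ff (u t)))) C T := by
  have hmass := mass_pos
  refine ⟨(|M| ^ 3 * mass + 4 * |M| ^ 4 * mass) / (2 * m), by positivity, fun T u hT h hP => ?_⟩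
  have hM : 0 < M := (hP 0 (left_mem_Icc.mpr hT)).Mpos hm
  rw [abs_of_pos hM]
  have hf := h.ffd' 1
  have hw := h.wwd 0
  have hy := (((h.ffd' 0).mul (h.ffd' 0)).mul hw).Jd
  have hcX : ContinuousOn (fun t => ∑ i, J (L i (ff (u t)) * L i (ff (u t)))) (Icc 0 T) := by
    apply continuousOn_finsetSum
    intro i _ t ht
    exact (((hf.L i).mul (hf.L i)).Jd t ht).continuousWithinAt
  apply DL hT (by positivity) (by positivity) hcX hy
  · intro t ht
    apply J_nonneg; intro p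
    rw [sm_mul, sm_mul]
    exact mul_nonneg (mul_self_nonneg _) ((hP t ht).pos hm p).le
  · intro t ht
    rw [← J_cst]
    apply J_mono; intro p
    rw [sm_mul, sm_mul, cst_apply]
    have h1 := (hP t ht).f1 p
    have h2 := (hP t ht).f2 p
    have h3 := (hP t ht).w2 p
    have h4 := (hP t ht).pos hm p
    have h5 : 0 ≤ (ff (u t)).1 p := hm.le.trans h1
    calc (ff (u t)).1 p * (ff (u t)).1 p * (ww (u t)).1 p ≤ M * M * M := by gcongr
      _ = M ^ 3 := by ring
  · intro t ht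
    have hPt := hP t ht
    have e := ff_eq (hPt.pos hm)
    have e1 : (FF (u t) * ff (u t) + ff (u t) * FF (u t)) * ww (u t)
        + ff (u t) * ff (u t) * -lap (ff (u t))
        = ff (u t) * ff (u t) * lap (ff (u t))
          + cst 4 * (ff (u t) * ff (u t) * ww (u t) * (ff (u t) - cst (fbar (u t)))) := by
      have e2 : cst (2 * fbar (u t)) = cst 2 * cst (fbar (u t)) := map_mul _ _ _
      have e3 : cst 4 = 2 * cst 2 := by apply sm_ext; intro p; simp; norm_num
      rw [FF, e2, e3]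
      linear_combination (2 * ff (u t) * ff (u t) * lap (ff (u t))) * e
    rw [e1, map_add, J_cst_mul]
    have e2 : J (ff (u t) * ff (u t) * lap (ff (u t)))
        ≤ -(2 * m) * ∑ i, J (L i (ff (u t)) * L i (ff (u t))) := by
      rw [mul_comm, J_lap, Finset.mul_sum, ← Finset.sum_neg_distrib]
      apply Finset.sum_le_sum
      intro i _
      rw [neg_mul, neg_le_neg_iff, ← J_cst_mul]
      apply J_mono; intro p
      rw [L_mul]
      simp only [sm_mul, sm_add, cst_apply]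
      have h1 := hPt.f1 p
      nlinarith [mul_self_nonneg ((L i (ff (u t))).1 p)]
    have e3 : J (ff (u t) * ff (u t) * ww (u t) * (ff (u t) - cst (fbar (u t)))) ≤ M ^ 4 * mass := by
      rw [← J_cst]
      apply J_mono; intro p
      simp only [sm_mul, sm_sub, cst_apply]
      have h1 := hPt.f1 p
      have h2 := hPt.f2 p
      have h3 := hPt.w2 p
      have h4 := hPt.pos hm p
      have h5 : 0 ≤ (ff (u t)).1 p := hm.le.trans h1
      have h6 := fbar_nonneg (hPt.pos hm)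
      calc (ff (u t)).1 p * (ff (u t)).1 p * (ww (u t)).1 p * ((ff (u t)).1 p - H797.fbar (u t))
          ≤ (ff (u t)).1 p * (ff (u t)).1 p * (ww (u t)).1 p * M := by
            gcongr; linarith
        _ ≤ M * M * M * M := by gcongr
        _ = M ^ 4 := by ring
    linarith

theorem step1 (hm : 0 < m) (X0 : ℝ) (hX0 : 0 ≤ X0) : ∃ C : ℝ, 0 ≤ C ∧ ∀ (T : ℝ) (u : ℝ → Sm),
    0 ≤ T → Sol T u → (∀ t ∈ Icc 0 T, PB M m (u t)) →
    ∑ i, J (L i (ff (u 0)) * L i (ff (u 0))) ≤ X0 →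
    (∀ t ∈ Icc 0 T, ∑ i, J (L i (ff (u t)) * L i (ff (u t))) ≤ C) ∧
    IB (fun t => J (lap (ff (u t)) * lap (ff (u t)))) C T := by
  have hmass := mass_pos
  obtain ⟨C0, hC0, h0⟩ := step0 (M := M) hm
  obtain ⟨C2, hC2, h2⟩ := UG (m ^ 3) (16 * M ^ 4 * mass / m ^ 3) C0 X0 (by positivity)
    (by positivity) hC0 hX0
  refine ⟨C2, hC2, fun T u hT h hP hX => ?_⟩
  have hM : 0 < M := (hP 0 (left_mem_Icc.mpr hT)).Mpos hm
  have hf := h.ffd' 2
  have hd : ∀ t ∈ Icc 0 T, HasDerivWithinAt (fun t => ∑ i, J (L i (ff (u t)) * L i (ff (u t))))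
      (-(2 * J (lap (ff (u t)) * FF (u t)))) (Icc 0 T) t := by
    intro t ht
    have h1 := HasDerivWithinAt.fun_sum (u := Finset.univ)
      (fun (i : Fin 3) _ => (((h.ffd' 1).L i).mul ((h.ffd' 1).L i)).Jd t ht)
    refine HasDerivWithinAt.congr_deriv h1 ?_
    have h2 := J_lap (ff (u t)) (FF (u t))
    rw [h2]
    have h3 : ∀ i, J (L i (FF (u t)) * L i (ff (u t)) + L i (ff (u t)) * L i (FF (u t)))
        = 2 * J (L i (ff (u t)) * L i (FF (u t))) := by
      intro i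
      rw [map_add, mul_comm (L i (FF (u t)))]; ring
    simp only [h3, ← Finset.mul_sum]
    ring
  refine h2 T _ _ _ hT ?_ hd ?_ ?_ ?_ (h0 T u hT h hP) hX
  · intro t ht
    exact ((hf.lapl.mul hf.lapl).Jd t ht).continuousWithinAt
  · intro t ht
    exact Finset.sum_nonneg (fun i _ => J_sq_nonneg _)
  · intro t ht
    exact J_sq_nonneg _
  · intro t ht
    have hPt := hP t ht
    have hX0 : 0 ≤ ∑ i, J (L i (ff (u t)) * L i (ff (u t))) :=
      Finset.sum_nonneg (fun i _ => J_sq_nonneg _)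
    have hb2 : J ((cst 2 * (ff (u t) * ff (u t)) - cst (2 * fbar (u t)) * ff (u t))
        * (cst 2 * (ff (u t) * ff (u t)) - cst (2 * fbar (u t)) * ff (u t))) ≤ 4 * M ^ 4 * mass := by
      apply N0_le_of_sup
      intro q
      simp only [sm_mul, sm_sub, cst_apply]
      have h1 := hPt.f1 q
      have h2 := hPt.f2 q
      have h3 : 0 ≤ (ff (u t)).1 q := hm.le.trans h1
      have h4 := fbar_nonneg (hPt.pos hm)
      have h5 := fbar_le hPt.f2
      have e : 2 * ((ff (u t)).1 q * (ff (u t)).1 q) - 2 * fbar (u t) * (ff (u t)).1 q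
          = 2 * (ff (u t)).1 q * ((ff (u t)).1 q - fbar (u t)) := by ring
      rw [e, mul_pow]
      have h6 : ((ff (u t)).1 q - fbar (u t)) ^ 2 ≤ M ^ 2 := by
        rw [← sq_abs ((ff (u t)).1 q - fbar (u t))]
        apply pow_le_pow_left₀ (abs_nonneg _)
        rw [abs_le]; constructor <;> linarith
      have h7 : (2 * (ff (u t)).1 q) ^ 2 ≤ (2 * M) ^ 2 := by gcongr
      calc _ ≤ (2 * M) ^ 2 * M ^ 2 := by gcongr
        _ = 4 * M ^ 4 := by ring
    set bb := cst 2 * (ff (u t) * ff (u t)) - cst (2 * fbar (u t)) * ff (u t) with hbb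
    have hF : FF (u t) = bet (u t) * (ff (u t) * ff (u t)) * lap (ff (u t)) + bb := by
      rw [FF, hbb]; ring
    have h1 : J (lap (ff (u t)) * FF (u t))
        = J (bet (u t) * (ff (u t) * ff (u t)) * (lap (ff (u t)) * lap (ff (u t))))
          + J (lap (ff (u t)) * bb) := by
      rw [hF, ← map_add]; congr 1; ring
    have h2 : m ^ 3 * J (lap (ff (u t)) * lap (ff (u t)))
        ≤ J (bet (u t) * (ff (u t) * ff (u t)) * (lap (ff (u t)) * lap (ff (u t)))) := by
      rw [← J_cst_mul]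
      apply J_mono; intro q
      rw [sm_mul, sm_mul _ (lap (ff (u t)) * lap (ff (u t))), cst_apply]
      exact mul_le_mul_of_nonneg_right (hPt.a hm q) (mul_self_nonneg _)
    have h3 := (abs_le.mp (J_young (lap (ff (u t))) bb (m ^ 3) (by positivity))).1
    rw [h1]
    have h4 : 1 / (2 * m ^ 3) * J (bb * bb) ≤ 1 / (2 * m ^ 3) * (4 * M ^ 4 * mass) := by gcongr
    have h5 : 1 / (2 * m ^ 3) * (4 * M ^ 4 * mass) = 1 / 8 * (16 * M ^ 4 * mass / m ^ 3) := by
      field_simp; norm_num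
    have h6 : 0 ≤ 16 * M ^ 4 * mass / m ^ 3 := by positivity
    have h7 : 16 * M ^ 4 * mass / m ^ 3 * 1 ≤ 16 * M ^ 4 * mass / m ^ 3 *
        (1 + ∑ i, J (L i (ff (u t)) * L i (ff (u t)))) ^ 2 := by
      gcongr
      nlinarith
    linarith

theorem step2 (hm : 0 < m) (X1 Y0 : ℝ) (hX1 : 0 ≤ X1) (hY0 : 0 ≤ Y0) : ∃ C : ℝ, 0 ≤ C ∧
    ∀ (T : ℝ) (u : ℝ → Sm), 0 ≤ T → Sol T u → (∀ t ∈ Icc 0 T, PB M m (u t)) →
    (∀ t ∈ Icc 0 T, ∑ i, J (L i (ff (u t)) * L i (ff (u t))) ≤ X1) →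
    IB (fun t => J (lap (ff (u t)) * lap (ff (u t)))) X1 T →
    J (lap (ff (u 0)) * lap (ff (u 0))) ≤ Y0 →
    (∀ t ∈ Icc 0 T, J (lap (ff (u t)) * lap (ff (u t))) ≤ C) ∧
    IB (fun t => ∑ i, J (L i (lap (ff (u t))) * L i (lap (ff (u t))))) C T := by
  have hmass := mass_pos
  obtain ⟨Cp, hCp0, hCp⟩ := J_prod_bd
  obtain ⟨K, hK⟩ : ∃ x, x = M ^ 2 * mass + X1 + 1 := ⟨_, rfl⟩
  have hK0 : 0 ≤ K := by rw [hK]; positivity
  obtain ⟨E, hE⟩ : ∃ x, x = 48 * M ^ 4 / m ^ 3 * (Cp * √(X1 * K)) := ⟨_, rfl⟩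
  have hE0 : 0 ≤ E := by rw [hE]; positivity
  obtain ⟨CC, hCC⟩ : ∃ x, x = m ^ 3 / 2 + E ^ 2 / (2 * m ^ 3) + 48 * M ^ 8 / m ^ 3
    + 96 * M ^ 2 * X1 / m ^ 3 := ⟨_, rfl⟩
  have hCC0 : 0 ≤ CC := by rw [hCC]; positivity
  obtain ⟨C2, hC2, h2⟩ := UG (m ^ 3 / 2) CC X1 Y0 (by positivity) hCC0 hX1 hY0
  refine ⟨C2, hC2, fun T u hT h hP hXb hIB hY => ?_⟩
  have hM : 0 < M := (hP 0 (left_mem_Icc.mpr hT)).Mpos hm
  have hf := h.ffd' 3
  have hd : ∀ t ∈ Icc 0 T, HasDerivWithinAt (fun t => J (lap (ff (u t)) * lap (ff (u t))))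
      (-(2 * ∑ i, J (L i (FF (u t)) * L i (lap (ff (u t)))))) (Icc 0 T) t := by
    intro t ht
    have h1 := (hf.lapl.mul hf.lapl).Jd t ht
    refine HasDerivWithinAt.congr_deriv h1 ?_
    rw [map_add, mul_comm (lap (ff (u t))) (lap (FF (u t))), J_lap (FF (u t))]
    ring
  refine h2 T _ _ _ hT ?_ hd ?_ ?_ ?_ hIB hY
  · apply continuousOn_finsetSum
    intro i _ t ht
    exact (((hf.lapl.L i).mul (hf.lapl.L i)).Jd t ht).continuousWithinAt
  · intro t ht
    exact J_sq_nonneg _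
  · intro t ht
    exact Finset.sum_nonneg (fun i _ => J_sq_nonneg _)
  · intro t ht
    have hPt := hP t ht
    obtain ⟨f, hfd⟩ : ∃ x, x = ff (u t) := ⟨_, rfl⟩
    obtain ⟨b, hbd⟩ : ∃ x, x = bet (u t) := ⟨_, rfl⟩
    obtain ⟨fb, hfbd⟩ : ∃ x, x = fbar (u t) := ⟨_, rfl⟩
    obtain ⟨v, hvd⟩ : ∃ x, x = u t := ⟨_, rfl⟩
    have hf1 : ∀ q, m ≤ f.1 q := by rw [hfd]; exact hPt.f1
    have hf2 : ∀ q, f.1 q ≤ M := by rw [hfd]; exact hPt.f2
    have hb1 : ∀ q, m ≤ b.1 q := by rw [hbd]; exact hPt.b1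
    have hb2 : ∀ q, b.1 q ≤ M := by rw [hbd]; exact hPt.b2
    have hfb0 : 0 ≤ fb := by rw [hfbd]; exact fbar_nonneg (hPt.pos hm)
    have hfb1 : fb ≤ M := by rw [hfbd]; exact fbar_le hPt.f2
    have hLu : ∀ i q, |(L i v).1 q| ≤ M := by rw [hvd]; exact hPt.L
    have hXt := hXb t ht
    have hLb : ∀ i, L i b = cst (-2) * b * L i v := by
      intro i
      rw [hbd, hvd, bet, L_cst_mul, L_expS, L_cst_mul]; ring
    have hFF : FF (u t) = b * (f * f) * lap f + (cst 2 * (f * f) - cst (2 * fb) * f) := by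
      rw [FF, ← hfd, ← hbd, ← hfbd]; ring
    rw [← hfd] at hXt
    rw [← hfd, hFF]
    set X := ∑ i, J (L i f * L i f) with hX
    set Y := J (lap f * lap f) with hYd
    set Z := ∑ i, J (L i (lap f) * L i (lap f)) with hZ
    have hY0' : 0 ≤ Y := J_sq_nonneg _
    have hZ0 : 0 ≤ Z := Finset.sum_nonneg (fun i _ => J_sq_nonneg _)
    have hXi : ∀ i, J (L i f * L i f) ≤ X1 := fun i =>
      (Finset.single_le_sum (f := fun i => J (L i f * L i f)) (fun i _ => J_sq_nonneg _)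
        (Finset.mem_univ i)).trans hXt
    have hN2 : N 2 f ≤ K * (1 + Y) := by
      rw [N_two, ← hX, ← hYd]
      have h1 : J (f * f) ≤ M ^ 2 * mass := N0_le_of_sup f _ (fun q =>
        pow_le_pow_left₀ (hm.le.trans (hf1 q)) (hf2 q) 2)
      have h2 : 0 ≤ (M ^ 2 * mass + X1) * Y := by positivity
      rw [hK]; nlinarith
    -- the cubic term
    have hcub : ∀ i, J (L i f * lap f * (L i f * lap f)) ≤ Cp * √(X1 * K) * ((1 + Y) * √(Y + Z)) := by
      intro i
      refine (hCp (L i f) (lap f)).trans ?_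
      have e1 : N 0 (L i f) * N 1 (L i f) ≤ X1 * K * (1 + Y) := by
        rw [mul_assoc]
        exact mul_le_mul (hXi i) ((N_L_le 1 i f).trans hN2) (N_nonneg _ _) hX1
      have e2 : N 0 (lap f) * N 1 (lap f) = Y * (Y + Z) := rfl
      rw [e2, mul_assoc Cp, mul_assoc Cp]
      apply mul_le_mul_of_nonneg_left _ hCp0
      calc √(N 0 (L i f) * N 1 (L i f)) * √(Y * (Y + Z))
          ≤ √(X1 * K * (1 + Y)) * √(Y * (Y + Z)) := by gcongr
        _ = √(X1 * K) * (√(1 + Y) * √Y * √(Y + Z)) := by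
            rw [Real.sqrt_mul (by positivity), Real.sqrt_mul hY0']; ring
        _ ≤ √(X1 * K) * (√(1 + Y) * √(1 + Y) * √(Y + Z)) := by
            gcongr; linarith
        _ = √(X1 * K) * ((1 + Y) * √(Y + Z)) := by
            rw [Real.mul_self_sqrt (by positivity)]
    have hG : ∀ i, J ((L i (b * (f * f)) * lap f + L i (cst 2 * (f * f) - cst (2 * fb) * f))
        * (L i (b * (f * f)) * lap f + L i (cst 2 * (f * f) - cst (2 * fb) * f)))
        ≤ 16 * M ^ 8 * Y + 16 * M ^ 4 * (Cp * √(X1 * K) * ((1 + Y) * √(Y + Z)))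
          + 32 * M ^ 2 * X1 := by
      intro i
      have a1 := N_add_le 0 (L i (b * (f * f)) * lap f) (L i (cst 2 * (f * f) - cst (2 * fb) * f))
      have a2 := N_add_le 0 (cst (-2) * b * L i v * (f * f) * lap f)
        (cst 2 * b * f * (L i f * lap f))
      have a3 : L i (b * (f * f)) * lap f = cst (-2) * b * L i v * (f * f) * lap f
          + cst 2 * b * f * (L i f * lap f) := by
        rw [L_mul, L_mul, hLb]
        have : cst 2 = 2 := by apply sm_ext; intro p; simp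
        rw [this]; ring
      rw [← a3] at a2
      simp only [N_zero] at a1 a2
      have a4 : J (cst (-2) * b * L i v * (f * f) * lap f * (cst (-2) * b * L i v * (f * f) * lap f))
          ≤ 4 * M ^ 8 * Y := by
        apply J_sup_mul
        intro q
        simp only [sm_mul, cst_apply]
        have c1 := hf1 q
        have c2 := hf2 q
        have c3 := hb1 q
        have c4 := hb2 q
        have c5 := hLu i q
        have c6 : 0 ≤ f.1 q := hm.le.trans c1
        have c7 : 0 ≤ b.1 q := hm.le.trans c3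
        have c8 : |(-2 * b.1 q * (L i v).1 q * (f.1 q * f.1 q))| ≤ 2 * M * M * (M * M) := by
          rw [abs_mul, abs_mul, abs_mul, abs_mul, abs_of_nonneg c6, abs_of_nonneg c7]
          norm_num
          gcongr
        calc _ = |(-2 * b.1 q * (L i v).1 q * (f.1 q * f.1 q))| ^ 2 := (sq_abs _).symm
          _ ≤ (2 * M * M * (M * M)) ^ 2 := by gcongr
          _ = _ := by ring
      have a5 : J (cst 2 * b * f * (L i f * lap f) * (cst 2 * b * f * (L i f * lap f)))
          ≤ 4 * M ^ 4 * J (L i f * lap f * (L i f * lap f)) := by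
        apply J_sup_mul
        intro q
        simp only [sm_mul, cst_apply]
        have c1 := hf1 q
        have c2 := hf2 q
        have c3 := hb1 q
        have c4 := hb2 q
        have c6 : 0 ≤ f.1 q := hm.le.trans c1
        have c7 : 0 ≤ b.1 q := hm.le.trans c3
        calc (2 * b.1 q * f.1 q) ^ 2 ≤ (2 * M * M) ^ 2 := by gcongr
          _ = _ := by ring
      have a6 : J (L i (cst 2 * (f * f) - cst (2 * fb) * f) * L i (cst 2 * (f * f) - cst (2 * fb) * f))
          ≤ 16 * M ^ 2 * X1 := by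
        have e1 : L i (cst 2 * (f * f) - cst (2 * fb) * f) = (cst 4 * f - cst (2 * fb)) * L i f := by
          rw [map_sub, L_cst_mul, L_cst_mul, L_mul]
          have : cst 4 = cst 2 * 2 := by apply sm_ext; intro p; simp; norm_num
          rw [this]; ring
        rw [e1]
        refine (J_sup_mul (cst 4 * f - cst (2 * fb)) (L i f) (16 * M ^ 2) ?_).trans ?_
        · intro q
          simp only [sm_sub, sm_mul, cst_apply]
          have c1 := hf1 q
          have c2 := hf2 q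
          have c3 : |4 * f.1 q - 2 * fb| ≤ 4 * M := by
            rw [abs_le]; constructor <;> linarith
          calc _ = |4 * f.1 q - 2 * fb| ^ 2 := (sq_abs _).symm
            _ ≤ (4 * M) ^ 2 := by gcongr
            _ = _ := by ring
        · have := hXi i
          gcongr
      have a7 := hcub i
      have a8 : 4 * M ^ 4 * J (L i f * lap f * (L i f * lap f))
          ≤ 4 * M ^ 4 * (Cp * √(X1 * K) * ((1 + Y) * √(Y + Z))) := by gcongr
      linarith
    have hsum : -(2 * ∑ i, J (L i (b * (f * f) * lap f + (cst 2 * (f * f) - cst (2 * fb) * f))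
          * L i (lap f)))
        ≤ -(m ^ 3) * Z + 1 / m ^ 3 * ∑ i,
          J ((L i (b * (f * f)) * lap f + L i (cst 2 * (f * f) - cst (2 * fb) * f))
        * (L i (b * (f * f)) * lap f + L i (cst 2 * (f * f) - cst (2 * fb) * f))) := by
      rw [hZ, Finset.mul_sum, Finset.mul_sum, Finset.mul_sum, ← Finset.sum_neg_distrib,
        ← Finset.sum_add_distrib]
      apply Finset.sum_le_sum
      intro i _
      have e1 : L i (b * (f * f) * lap f + (cst 2 * (f * f) - cst (2 * fb) * f)) * L i (lap f)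
          = b * (f * f) * (L i (lap f) * L i (lap f))
          + L i (lap f) * (L i (b * (f * f)) * lap f + L i (cst 2 * (f * f) - cst (2 * fb) * f)) := by
        rw [map_add, L_mul i (b * (f * f)) (lap f)]; ring
      rw [e1, map_add]
      have e2 : m ^ 3 * J (L i (lap f) * L i (lap f))
          ≤ J (b * (f * f) * (L i (lap f) * L i (lap f))) := by
        rw [← J_cst_mul]
        apply J_mono; intro q
        rw [sm_mul, sm_mul _ (L i (lap f) * L i (lap f)), cst_apply]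
        have := hPt.a hm q
        rw [← hbd, ← hfd] at this
        exact mul_le_mul_of_nonneg_right this (mul_self_nonneg _)
      have e3 := (abs_le.mp (J_young (L i (lap f)) (L i (b * (f * f)) * lap f
        + L i (cst 2 * (f * f) - cst (2 * fb) * f)) (m ^ 3) (by positivity))).1
      have e4 : 1 / (2 * m ^ 3) = 1 / 2 * (1 / m ^ 3) := by field_simp
      rw [e4] at e3
      linarith
    refine hsum.trans ?_
    have hs := sum3_le hG
    obtain ⟨W, hW⟩ : ∃ x, x = (1 + Y) * √(Y + Z) := ⟨_, rfl⟩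
    rw [← hW] at hs
    have hyoung : E * W ≤ m ^ 3 / 2 * (Y + Z) + E ^ 2 / (2 * m ^ 3) * (1 + Y) ^ 2 := by
      rw [hW]
      have c1 : 0 ≤ (m ^ 3 * √(Y + Z) - E * (1 + Y)) ^ 2 / (2 * m ^ 3) := by positivity
      have c2 : (m ^ 3 * √(Y + Z) - E * (1 + Y)) ^ 2 / (2 * m ^ 3)
          = m ^ 3 / 2 * √(Y + Z) ^ 2 + E ^ 2 / (2 * m ^ 3) * (1 + Y) ^ 2
            - E * ((1 + Y) * √(Y + Z)) := by
        field_simp
        ring
      rw [Real.sq_sqrt (by positivity)] at c2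
      linarith
    have hfin : 1 / m ^ 3 * ∑ i,
          J ((L i (b * (f * f)) * lap f + L i (cst 2 * (f * f) - cst (2 * fb) * f))
        * (L i (b * (f * f)) * lap f + L i (cst 2 * (f * f) - cst (2 * fb) * f)))
        ≤ 48 * M ^ 8 / m ^ 3 * Y + E * W + 96 * M ^ 2 * X1 / m ^ 3 := by
      calc _ ≤ 1 / m ^ 3 * (3 * (16 * M ^ 8 * Y + 16 * M ^ 4 * (Cp * √(X1 * K) * W)
            + 32 * M ^ 2 * X1)) := by gcongr
        _ = _ := by rw [hE]; ring
    have h1 : Y ≤ (1 + Y) ^ 2 := by nlinarith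
    have h2 : (1 : ℝ) ≤ (1 + Y) ^ 2 := by nlinarith
    obtain ⟨V, hV⟩ : ∃ x, x = (1 + Y) ^ 2 := ⟨_, rfl⟩
    rw [← hV] at h1 h2 hyoung ⊢
    have h3 : 48 * M ^ 8 / m ^ 3 * Y ≤ 48 * M ^ 8 / m ^ 3 * V := by gcongr
    have h4 : 96 * M ^ 2 * X1 / m ^ 3 * 1 ≤ 96 * M ^ 2 * X1 / m ^ 3 * V := by gcongr
    have h5 : m ^ 3 / 2 * Y ≤ m ^ 3 / 2 * V := by gcongr
    have h6 : CC * V = m ^ 3 / 2 * V + E ^ 2 / (2 * m ^ 3) * V + 48 * M ^ 8 / m ^ 3 * V
      + 96 * M ^ 2 * X1 / m ^ 3 * V := by rw [hCC]; ring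
    rw [h6]
    linarith

end steps

end

end Pool.Agent.H797
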