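import Pool.Agent.H797.High

set_option autoImplicit false
open Set MeasureTheory
open scoped ContDiff ENNReal

namespace Pool.Agent.H797

noncomputable section

theorem bet_N (k : ℕ) (M C : ℝ) (hC : 0 ≤ C) : ∃ C' : ℝ, 0 ≤ C' ∧ ∀ u : Sm,
    (∀ p, |u.1 p| ≤ M) → N (k + 2) u ≤ C → N (k + 2) (bet u) ≤ C' := by
  obtain ⟨D, hD0, hD⟩ := exp_bd k (4 * C) (by positivity)
  refine ⟨(Real.exp (2 * M)) ^ 2 * D, by positivity, fun u hu hN => ?_⟩
  rw [bet, N_cst_mul]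
  have hm := mass_pos
  have h1 : 0 ≤ ar u / mass := div_nonneg (ar_pos u).le hm.le
  have h2 : ar u / mass ≤ Real.exp (2 * M) := by
    rw [div_le_iff₀ hm, ← J_cst]
    apply J_mono; intro q
    rw [cst_apply, expS_apply, sm_mul, cst_apply]
    apply Real.exp_le_exp.mpr
    have := (abs_le.mp (hu q)).2
    linarith
  have h3 : N (k + 2) (expS (cst (-2) * u)) ≤ D := by
    apply hD
    rw [N_cst_mul]
    linarith
  have := N_nonneg (k + 2) (expS (cst (-2) * u))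
  gcongr

theorem ww_eq {u : Sm} (hw : ∀ p, 0 < (ww u).1 p) : ww u = invS (bet u * ff u) := by
  have hne : ∀ p, (bet u * ff u).1 p ≠ 0 := by
    intro p
    rw [sm_mul]
    exact (mul_pos (bet_pos u p) (ff_pos hw p)).ne'
  have h1 := ff_eq hw
  have h2 := mul_invS _ hne
  calc ww u = ww u * (bet u * ff u * invS (bet u * ff u)) := by rw [h2, mul_one]
    _ = (bet u * ww u * ff u) * invS (bet u * ff u) := by ring
    _ = _ := by rw [h1, one_mul]

theorem ww_N (k : ℕ) (M m C : ℝ) (hm : 0 < m) (hC : 0 ≤ C) : ∃ C' : ℝ, 0 ≤ C' ∧ ∀ u : Sm,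
    PB M m u → N (k + 2) (ff u) ≤ C → N (k + 2) (bet u) ≤ C → N (k + 2) (ww u) ≤ C' := by
  obtain ⟨Ca, hCa0, hCa⟩ := alg k
  obtain ⟨D, hD0, hD⟩ := inv_bd k (Ca * C * C) (m * m) (by positivity) (by positivity)
  refine ⟨D, hD0, fun u hP hf hb => ?_⟩
  rw [ww_eq (hP.pos hm)]
  apply hD
  · intro p
    rw [sm_mul]
    have h1 := hP.b1 p
    have h2 := hP.f1 p
    have : 0 ≤ (bet u).1 p := hm.le.trans h1
    gcongr
  · refine (hCa _ _).trans ?_
    have := N_nonneg (k + 2) (ff u)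
    have := N_nonneg (k + 2) (bet u)
    gcongr

theorem u_N (k : ℕ) (u : Sm) : N (k + 4) u ≤ 2 * (N (k + 2) u + (2 * mass + 2 * N (k + 2) (ww u))) := by
  have h1 := ell (k + 2) u
  have h2 : lap u = 1 - ww u := by rw [ww]; ring
  have h3 : N (k + 2) (lap u) ≤ 2 * mass + 2 * N (k + 2) (ww u) := by
    rw [h2]
    refine (N_sub_le _ _ _).trans ?_
    have : N (k + 2) 1 = mass := by
      have := N_cst (k + 2) 1
      simpa using this
    rw [this]
  linarith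

theorem N_three (f : Sm) : N 3 f = J (f * f) + ∑ i, J (L i f * L i f) + J (lap f * lap f)
    + ∑ i, J (L i (lap f) * L i (lap f)) := by
  have h : N 3 f = J (f * f) + ∑ i, N 2 (L i f) := rfl
  rw [h]
  simp only [N_two, Finset.sum_add_distrib, lap_L]
  rw [hess]
  ring

theorem cont_N {T : ℝ} {u : ℝ → Sm} (h : Sol T u) (k : ℕ) :
    ContinuousOn (fun t => N k (ff (u t))) (Icc 0 T) :=
  fun t ht => ((h.ffd' k).Nd k t ht).continuousWithinAt

theorem high_base (u0 : Sm) : ∃ C : ℝ, 0 ≤ C ∧ ∀ (T : ℝ) (u : ℝ → Sm), 0 ≤ T → Sol T u →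
    u 0 = u0 → (∀ t ∈ Icc 0 T, N 2 (ff (u t)) ≤ C ∧ N 4 (u t) ≤ C ∧ N 4 (bet (u t)) ≤ C) ∧
    IB (fun t => N 3 (ff (u t))) C T := by
  obtain ⟨M, m, hM, hm, hPB⟩ := c0_bounds u0
  have hmass := mass_pos
  obtain ⟨C1, hC1, h1⟩ := step1 (M := M) hm (∑ i, J (L i (ff u0) * L i (ff u0)))
    (Finset.sum_nonneg (fun i _ => J_sq_nonneg _))
  obtain ⟨C2, hC2, h2⟩ := step2 (M := M) hm C1 (J (lap (ff u0) * lap (ff u0))) hC1 (J_sq_nonneg _)
  -- second order bounds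
  obtain ⟨A, hA⟩ : ∃ x, x = M ^ 2 * mass + C1 + C2 := ⟨_, rfl⟩
  have hA0 : 0 ≤ A := by rw [hA]; positivity
  obtain ⟨Bu, hBu⟩ : ∃ x, x = M ^ 2 * mass + 3 * (M ^ 2 * mass) + (1 + M) ^ 2 * mass := ⟨_, rfl⟩
  have hBu0 : 0 ≤ Bu := by rw [hBu]; positivity
  obtain ⟨Bb, hBb0, hBb⟩ := bet_N 0 M Bu hBu0
  obtain ⟨Bw, hBw0, hBw⟩ := ww_N 0 M m (A + Bb) hm (by positivity)
  obtain ⟨Cu, hCu⟩ : ∃ x, x = 2 * (Bu + (2 * mass + 2 * Bw)) := ⟨_, rfl⟩
  have hCu0 : 0 ≤ Cu := by rw [hCu]; positivity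
  obtain ⟨Cb, hCb0, hCb⟩ := bet_N 2 M Cu hCu0
  refine ⟨A + Cu + Cb + (C2 + A), by positivity, fun T u hT h h0 => ?_⟩
  have hP := hPB T u hT h h0
  obtain ⟨hX, hIY⟩ := h1 T u hT h hP (by rw [h0])
  obtain ⟨hY, hIZ⟩ := h2 T u hT h hP hX hIY (by rw [h0])
  have hff2 : ∀ t ∈ Icc 0 T, J (ff (u t) * ff (u t)) ≤ M ^ 2 * mass := fun t ht =>
    N0_le_of_sup _ _ (fun q => pow_le_pow_left₀ (hm.le.trans ((hP t ht).f1 q)) ((hP t ht).f2 q) 2)
  refine ⟨fun t ht => ?_, ?_⟩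
  · have hPt := hP t ht
    have e1 : N 2 (ff (u t)) ≤ A := by
      rw [N_two, hA]
      have := hff2 t ht
      have := hX t ht
      have := hY t ht
      linarith
    have e2 : N 2 (u t) ≤ Bu := by
      rw [N_two, hBu]
      have a1 : J (u t * u t) ≤ M ^ 2 * mass := N0_le_of_sup _ _ (fun q => by
        rw [← sq_abs]; exact pow_le_pow_left₀ (abs_nonneg _) (hPt.u q) 2)
      have a2 : ∑ i, J (L i (u t) * L i (u t)) ≤ 3 * (M ^ 2 * mass) := sum3_le (fun i =>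
        N0_le_of_sup _ _ (fun q => by
          rw [← sq_abs]; exact pow_le_pow_left₀ (abs_nonneg _) (hPt.L i q) 2))
      have a3 : J (lap (u t) * lap (u t)) ≤ (1 + M) ^ 2 * mass := N0_le_of_sup _ _ (fun q => by
        have h1 : (lap (u t)).1 q = 1 - (ww (u t)).1 q := by rw [ww, sm_sub, sm_one]; ring
        rw [h1, ← sq_abs]
        apply pow_le_pow_left₀ (abs_nonneg _)
        have := hPt.w2 q
        have := hPt.pos hm q
        rw [abs_le]; constructor <;> linarith)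
      linarith
    have e3 := hBb (u t) hPt.u e2
    have e4 := hBw (u t) hPt (e1.trans (by linarith)) (e3.trans (by linarith))
    have e5 : N 4 (u t) ≤ Cu := by
      rw [hCu]
      refine (u_N 0 (u t)).trans ?_
      gcongr
    have e6 := hCb (u t) hPt.u e5
    exact ⟨by linarith, by linarith, by linarith⟩
  · have key : IB (fun t => N 3 (ff (u t))) (C2 + A) T := by
      apply hIZ.le hT (cont_N h 3) _ hA0
      intro t ht
      rw [N_three, hA]
      have := hff2 t ht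
      have := hX t ht
      have := hY t ht
      linarith
    obtain ⟨P, hP1, hP2⟩ := key
    exact ⟨P, hP1, fun s hs t ht a b => (hP2 s hs t ht a b).trans (by linarith)⟩

theorem high (u0 : Sm) (k : ℕ) : ∃ C : ℝ, 0 ≤ C ∧ ∀ (T : ℝ) (u : ℝ → Sm), 0 ≤ T → Sol T u →
    u 0 = u0 → (∀ t ∈ Icc 0 T, N (k + 2) (ff (u t)) ≤ C ∧ N (k + 4) (u t) ≤ C ∧
      N (k + 4) (bet (u t)) ≤ C) ∧ IB (fun t => N (k + 3) (ff (u t))) C T := by
  induction k with
  | zero => exact high_base u0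
  | succ k ih =>
    obtain ⟨C, hC0, hC⟩ := ih
    obtain ⟨M, m, hM, hm, hPB⟩ := c0_bounds u0
    have hmass := mass_pos
    obtain ⟨D, hD0, hD⟩ := main_est k (C + M) (m ^ 3) (by positivity) (by positivity)
    obtain ⟨C2, hC20, hC2⟩ := UG (m ^ 3 / 2) (2 * D) C (N (k + 3) (ff u0)) (by positivity)
      (by positivity) hC0 (N_nonneg _ _)
    obtain ⟨Bw, hBw0, hBw⟩ := ww_N (k + 1) M m (C2 + C) hm (by positivity)
    obtain ⟨Cu, hCu⟩ : ∃ x, x = 2 * (C + (2 * mass + 2 * Bw)) := ⟨_, rfl⟩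
    have hCu0 : 0 ≤ Cu := by rw [hCu]; positivity
    obtain ⟨Cb, hCb0, hCb⟩ := bet_N (k + 3) M Cu hCu0
    refine ⟨C2 + Cu + Cb, by positivity, fun T u hT h h0 => ?_⟩
    have hP := hPB T u hT h h0
    obtain ⟨hb, hIB⟩ := hC T u hT h h0
    have hNk : ∀ t ∈ Icc 0 T, N (k + 3) (bet (u t)) ≤ C + M := fun t ht =>
      ((N_mono (by omega) _).trans (hb t ht).2.2).trans (by linarith)
    obtain ⟨hy, hz⟩ := hC2 T (fun t => N (k + 3) (ff (u t))) (fun t => N (k + 4) (ff (u t)))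
      (fun t => 2 * B (k + 3) (FF (u t)) (ff (u t))) hT (cont_N h (k + 4))
      (fun t ht => (h.ffd' (k + 3)).Nd (k + 3) t ht) (fun t _ => N_nonneg _ _)
      (fun t _ => N_nonneg _ _) (fun t ht => by
        have hPt := hP t ht
        have := hD (bet (u t)) (ff (u t)) (fbar (u t)) (hNk t ht)
          ((hb t ht).1.trans (by linarith)) ((hPt.fbar hm).trans (by linarith)) (hPt.a hm)
        have e : FF (u t) = bet (u t) * (ff (u t) * ff (u t)) * lap (ff (u t))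
          + cst 2 * (ff (u t) * ff (u t)) - cst (2 * fbar (u t)) * ff (u t) := rfl
        rw [e]
        linarith) hIB (by rw [h0])
    refine ⟨fun t ht => ?_, ?_⟩
    · have hPt := hP t ht
      have e1 : N (k + 1 + 2) (ff (u t)) ≤ C2 := hy t ht
      have e2 : N (k + 1 + 2) (bet (u t)) ≤ C :=
        (N_mono (by omega) _).trans (hb t ht).2.2
      have e3 := hBw (u t) hPt (e1.trans (by linarith)) (e2.trans (by linarith))
      have e4 : N (k + 1 + 4) (u t) ≤ Cu := by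
        rw [hCu]
        refine (u_N (k + 1) (u t)).trans ?_
        have : N (k + 1 + 2) (u t) ≤ C := (N_mono (by omega) _).trans (hb t ht).2.1
        gcongr
      have e5 : N (k + 3 + 2) (bet (u t)) ≤ Cb := hCb (u t) hPt.u e4
      exact ⟨by linarith, by linarith, by
        have : N (k + 1 + 4) (bet (u t)) ≤ Cb := e5
        linarith⟩
    · obtain ⟨P, hP1, hP2⟩ := hz
      exact ⟨P, hP1, fun s hs t ht a b => (hP2 s hs t ht a b).trans (by linarith)⟩

/-- uniform bounds of all orders -/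
theorem high_all (u0 : Sm) (k : ℕ) : ∃ C : ℝ, 0 ≤ C ∧ ∀ (T : ℝ) (u : ℝ → Sm), 0 ≤ T → Sol T u →
    u 0 = u0 → ∀ t ∈ Icc 0 T, N k (ff (u t)) ≤ C ∧ N k (u t) ≤ C := by
  obtain ⟨C, hC0, hC⟩ := high u0 k
  refine ⟨C, hC0, fun T u hT h h0 t ht => ?_⟩
  have := (hC T u hT h h0).1 t ht
  exact ⟨(N_mono (by omega) _).trans this.1, (N_mono (by omega) _).trans this.2.1⟩

end

end Pool.Agent.H797
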