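import Pool.Agent.H797.Gal1

set_option autoImplicit false
open Set MeasureTheory Filter Topology
open scoped ContDiff

namespace Pool.Agent.H797

noncomputable section

theorem higher_DL {T c K Y : ℝ} (hT : 0 ≤ T) (hc : 0 < c) (hK : 0 ≤ K) {y y' z : ℝ → ℝ}
    (hz : ContinuousOn z (Icc 0 T))
    (hy : ∀ t ∈ Icc 0 T, HasDerivWithinAt y (y' t) (Icc 0 T) t)
    (hy0 : ∀ t ∈ Icc 0 T, 0 ≤ y t) (hyY : ∀ t ∈ Icc 0 T, y t ≤ Y)
    (hin : ∀ t ∈ Icc 0 T, y' t ≤ -c * z t + K) : IB z ((Y + K) / c) T := by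
  obtain ⟨Q, hQ⟩ := prim hT hz
  refine ⟨Q, hQ, fun s hs t ht hst hst1 => ?_⟩
  have h1 := growth (h := fun t => y t + c * Q t) (h' := fun t => y' t + c * z t)
    (K := K) (fun t ht => (hy t ht).add ((hQ t ht).const_mul c)) (fun t ht => by
      have a1 := hin t ht
      linarith) hs ht hst
  have h2 := hyY s hs
  have h3 := hy0 t ht
  have h4 : K * (t - s) ≤ K * 1 := by gcongr; linarith
  rw [le_div_iff₀ hc]
  linarith

theorem higher_cont {P : Submodule ℝ Sm} {T : ℝ} {u0 : Sm} {χ : ℝ → ℝ} {V φ G : ℝ → Sm}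
    (h : Gal P T u0 χ V φ G) (k : ℕ) : ContinuousOn (fun t => N k (φ t)) (Icc 0 T) :=
  fun t ht => ((h.dφ k).Nd k t ht).continuousWithinAt

theorem higher_IB {y : ℝ → ℝ} {C D T : ℝ} (h : IB y C T) (hCD : C ≤ D) : IB y D T := by
  obtain ⟨P, hP1, hP2⟩ := h
  exact ⟨P, hP1, fun s hs t ht a b => (hP2 s hs t ht a b).trans hCD⟩

/-- the energy inequality at level `k + 4` -/
theorem higher_rate (k : ℕ) (M A : ℝ) (hM : 1 ≤ M) (hA : 0 ≤ A) : ∃ m C : ℝ, 0 < m ∧ 0 ≤ C ∧
    ∀ u φ : Sm, N 4 u ≤ M → N 4 φ ≤ M → (∀ p, 1 ≤ M * φ.1 p) → N (k + 4) (bet u) ≤ A →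
    N (k + 3) φ ≤ A → 2 * B (k + 4) (Fe u φ) φ ≤ -m * N (k + 5) φ + C * (1 + N (k + 4) φ) ^ 2 := by
  have hM0 : 0 < M := by linarith
  obtain ⟨Cs, hCs0, hCs⟩ := g_sup M
  obtain ⟨m, hm⟩ : ∃ m, m = Real.exp (-(4 * Cs)) * ((1 / M) * (1 / M)) := ⟨_, rfl⟩
  have hm0 : 0 < m := by rw [hm]; positivity
  obtain ⟨C, hC0, hC⟩ := main_est (k + 1) (A + Cs) m (by positivity) hm0
  refine ⟨m / 2, 2 * C, by positivity, by positivity, fun u φ hu hφ hlow hb hφk => ?_⟩
  have hu2 : N 2 u ≤ M := (N_mono (by norm_num) u).trans hu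
  have hφ2 : N 2 φ ≤ M := (N_mono (by norm_num) φ).trans hφ
  have h1 := hC (bet u) φ (mu u φ) (hb.trans (by linarith)) (hφk.trans (by linarith))
    ((mu_le (hCs φ hφ2)).trans (by linarith)) (fun p => by
      rw [hm, sm_mul, sm_mul]
      have a1 := g_bet_low (hCs u hu2) p
      have a2 : 1 / M ≤ φ.1 p := by
        rw [div_le_iff₀ hM0, mul_comm]; exact hlow p
      have a3 : 0 < 1 / M := by positivity
      have a4 : 0 ≤ φ.1 p := by linarith
      have a5 : 0 ≤ (bet u).1 p := (bet_pos u p).le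
      gcongr)
  have h2 : B (k + 4) (Fe u φ) φ ≤ -(m / 4) * N (k + 5) φ + C * (1 + N (k + 4) φ) ^ 2 := h1
  linarith

theorem gal_high (k : ℕ) (M D : ℝ) (hM : 1 ≤ M) (hD : 0 ≤ D) : ∃ C : ℝ, 0 ≤ C ∧
    ∀ (P : Submodule ℝ Sm) (T : ℝ) (u0 : Sm) (χ : ℝ → ℝ) (V φ G : ℝ → Sm),
    (∀ i, ∀ g ∈ P, L i g ∈ P) → 0 ≤ T → T ≤ 1 → Gal P T u0 χ V φ G → (∀ t ∈ Icc 0 T, χ t = 1) →
    (∀ t ∈ Icc 0 T, N 4 (u0 + V t) ≤ M ∧ N 4 (φ t) ≤ M ∧ (∀ p, 1 ≤ M * (φ t).1 p) ∧
      N 4 (V t) ≤ M) →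
    N (k + 4) u0 ≤ D → N (k + 4) (φ 0) ≤ D →
    (∀ t ∈ Icc 0 T, N (k + 4) (φ t) ≤ C ∧ N (k + 4) (V t) ≤ C) ∧
      IB (fun t => N (k + 5) (φ t)) C T := by
  have hM0 : 0 < M := by linarith
  have hmass := mass_pos
  induction k with
  | zero =>
    obtain ⟨Cb, hCb0, hCb⟩ := g_bet 2 M hM0.le
    obtain ⟨m, K, hm, hK, hr⟩ := higher_rate 0 M (M + Cb) hM (by positivity)
    refine ⟨M + (M + K * (1 + M) ^ 2) / m, by positivity,
      fun P T u0 χ V φ G hL hT hT1 h hχ hb hu0 hφ0 => ⟨fun t ht => ?_, ?_⟩⟩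
    · have := hb t ht
      have h2 : 0 ≤ (M + K * (1 + M) ^ 2) / m := by positivity
      exact ⟨(this.2.1 : N (0 + 4) (φ t) ≤ M).trans (by linarith),
        (this.2.2.2 : N (0 + 4) (V t) ≤ M).trans (by linarith)⟩
    · apply higher_IB (C := (M + K * (1 + M) ^ 2) / m) _ (by linarith)
      apply higher_DL hT hm (by positivity) (higher_cont h 5) (y := fun t => N 4 (φ t))
        (h.Nφ' hL 4) (fun t _ => N_nonneg _ _) (fun t ht => (hb t ht).2.1)
      intro t ht
      have hbt := hb t ht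
      rw [hχ t ht, one_mul]
      refine (hr (u0 + V t) (φ t) hbt.1 hbt.2.1 hbt.2.2.1 ((hCb _ hbt.1).trans (by linarith))
        ((N_mono (by norm_num) _).trans (hbt.2.1.trans (by linarith)))).trans ?_
      have h4 := N_nonneg 4 (φ t)
      have h5 : N 4 (φ t) ≤ M := hbt.2.1
      have : K * (1 + N (0 + 4) (φ t)) ^ 2 ≤ K * (1 + M) ^ 2 := by
        have h6 : N (0 + 4) (φ t) = N 4 (φ t) := rfl
        rw [h6]
        gcongr
      linarith
  | succ k ih =>
    obtain ⟨C0, hC00, hC0⟩ := ih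
    obtain ⟨CV, hCV⟩ : ∃ x, x = Real.exp 1 * (2 * C0 + 2 * mass) := ⟨_, rfl⟩
    have hCV0 : 0 ≤ CV := by rw [hCV]; positivity
    obtain ⟨Cb, hCb0, hCb⟩ := g_bet (k + 3) (2 * D + 2 * CV) (by positivity)
    obtain ⟨m, K, hm, hK, hr⟩ := higher_rate (k + 1) M (C0 + Cb) hM (by positivity)
    obtain ⟨C2, hC20, hC2⟩ := UG m K C0 D hm hK hC00 hD
    refine ⟨CV + C2, by positivity, fun P T u0 χ V φ G hL hT hT1 h hχ hb hu0 hφ0 => ?_⟩
    have hu0' : N (k + 4) u0 ≤ D := (N_mono (by omega) _).trans hu0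
    have hφ0' : N (k + 4) (φ 0) ≤ D := (N_mono (by omega) _).trans hφ0
    obtain ⟨hbk, hIB⟩ := hC0 P T u0 χ V φ G hL hT hT1 h hχ hb hu0' hφ0'
    have h0mem : (0 : ℝ) ∈ Icc 0 T := ⟨le_rfl, hT⟩
    -- bound of V
    have hV : ∀ t ∈ Icc 0 T, N (k + 5) (V t) ≤ CV := by
      obtain ⟨Q, hQ, hQ2⟩ := hIB
      have hanti : AntitoneOn (fun t => Real.exp (-t) * N (k + 5) (V t) - 2 * Q t - 2 * mass * t)
          (Icc 0 T) := by
        apply decr (h' := fun t => (-Real.exp (-t) * N (k + 5) (V t) +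
          Real.exp (-t) * (χ t * (2 * B (k + 5) (φ t - 1) (V t)))) - 2 * N (k + 5) (φ t) -
            2 * mass)
        · intro t ht
          have e1 : HasDerivWithinAt (fun t : ℝ => Real.exp (-t)) (-Real.exp (-t)) (Icc 0 T) t := by
            have := ((hasDerivAt_id t).neg.exp).hasDerivWithinAt (s := Icc 0 T)
            simpa using this
          have e2 := e1.mul (h.NV' (k + 5) t ht)
          have e3 := (hQ t ht).const_mul (2 : ℝ)
          have e4 := (hasDerivWithinAt_id t (Icc 0 T)).const_mul (2 * mass)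
          have e5 := (e2.sub e3).sub e4
          refine HasDerivWithinAt.congr_deriv e5 ?_
          ring
        · intro t ht
          rw [hχ t ht, one_mul]
          have a1 := two_B_le (k + 5) (φ t - 1) (V t)
          have a2 := N_sub_le (k + 5) (φ t) 1
          rw [N_one] at a2
          have a3 : 0 < Real.exp (-t) := Real.exp_pos _
          have a4 : Real.exp (-t) ≤ 1 := Real.exp_le_one_iff.mpr (by linarith [ht.1])
          have a5 := N_nonneg (k + 5) (φ t)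
          have a6 : Real.exp (-t) * (2 * B (k + 5) (φ t - 1) (V t)) ≤
              Real.exp (-t) * (2 * N (k + 5) (φ t) + 2 * mass + N (k + 5) (V t)) := by
            gcongr
            linarith
          have a7 : Real.exp (-t) * (2 * N (k + 5) (φ t) + 2 * mass) ≤
              1 * (2 * N (k + 5) (φ t) + 2 * mass) := by gcongr
          nlinarith
      intro t ht
      have b1 := hanti h0mem ht ht.1
      simp only at b1
      have e1 : N (k + 5) (0 : Sm) = 0 := by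
        have := N_cst (k + 5) 0
        simpa using this
      rw [h.V0, e1] at b1
      have b2 := hQ2 0 h0mem t ht ht.1 (by linarith [ht.2])
      have b3 : Real.exp (-t) * N (k + 5) (V t) ≤ 2 * C0 + 2 * mass := by
        have : mass * t ≤ mass * 1 := by
          gcongr
          linarith [ht.2]
        simp only [mul_zero, sub_zero] at b1
        linarith
      have b4 : N (k + 5) (V t) = Real.exp t * (Real.exp (-t) * N (k + 5) (V t)) := by
        rw [← mul_assoc, ← Real.exp_add, add_neg_cancel, Real.exp_zero, one_mul]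
      rw [b4, hCV]
      have b5 : Real.exp t ≤ Real.exp 1 := Real.exp_le_exp.mpr (ht.2.trans hT1)
      have b6 := Real.exp_pos t
      calc Real.exp t * (Real.exp (-t) * N (k + 5) (V t)) ≤ Real.exp t * (2 * C0 + 2 * mass) := by
            gcongr
        _ ≤ _ := by gcongr
    have hbet : ∀ t ∈ Icc 0 T, N (k + 1 + 4) (bet (u0 + V t)) ≤ C0 + Cb := by
      intro t ht
      have a1 : N (k + 3 + 2) (u0 + V t) ≤ 2 * D + 2 * CV := by
        refine (N_add_le _ _ _).trans ?_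
        have := hV t ht
        have e1 : N (k + 3 + 2) u0 ≤ D := hu0
        have e2 : N (k + 3 + 2) (V t) ≤ CV := this
        linarith
      exact (hCb _ a1).trans (by linarith)
    obtain ⟨hy, hz⟩ := hC2 T (fun t => N (k + 5) (φ t)) (fun t => N (k + 6) (φ t))
      (fun t => χ t * (2 * B (k + 5) (Fe (u0 + V t) (φ t)) (φ t))) hT (higher_cont h (k + 6))
      (h.Nφ' hL (k + 5)) (fun t _ => N_nonneg _ _) (fun t _ => N_nonneg _ _) (fun t ht => by
        have hbt := hb t ht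
        rw [hχ t ht, one_mul]
        exact hr (u0 + V t) (φ t) hbt.1 hbt.2.1 hbt.2.2.1 (hbet t ht)
          ((hbk t ht).1.trans (by linarith))) hIB hφ0
    refine ⟨fun t ht => ⟨?_, ?_⟩, higher_IB hz (by linarith)⟩
    · exact (hy t ht).trans (by linarith)
    · exact (hV t ht).trans (by linarith)

end

end Pool.Agent.H797
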