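import Pool.Agent.H797.Ring

set_option autoImplicit false
open Set MeasureTheory
open scoped ContDiff

namespace Pool.Agent.H797

noncomputable section

/-- surface measure -/
abbrev sig : Measure S2 := (volume : Measure E3).toSphere

theorem integrable_C (g : C(S2, ℝ)) : Integrable (fun p => g p) sig :=
  g.continuous.integrable_of_hasCompactSupport (HasCompactSupport.of_compactSpace _)

/-- integration as a continuous linear functional -/
def I : C(S2, ℝ) →L[ℝ] ℝ :=
  LinearMap.mkContinuous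
    { toFun := fun g => ∫ p, g p ∂sig
      map_add' := fun g h => integral_add (integrable_C g) (integrable_C h)
      map_smul' := fun r g => integral_const_mul r _ } (sig.real univ) (by
    intro g
    have := norm_integral_le_of_norm_le_const (μ := sig) (f := fun p => g p) (C := ‖g‖)
      (Filter.Eventually.of_forall (fun p => g.norm_coe_le_norm p))
    simpa [mul_comm] using this)

theorem I_eq (g : C(S2, ℝ)) : I g = ∫ p, g p ∂sig := rfl

theorem I_mono {g h : C(S2, ℝ)} (H : ∀ p, g p ≤ h p) : I g ≤ I h :=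
  integral_mono (integrable_C g) (integrable_C h) H

theorem I_nonneg {g : C(S2, ℝ)} (H : ∀ p, 0 ≤ g p) : 0 ≤ I g := by
  have := I_mono (g := 0) (h := g) H
  simpa using this

theorem I_pos_of {g : C(S2, ℝ)} (H : ∀ p, 0 ≤ g p) (p : S2) (hp : 0 < g p) : 0 < I g := by
  rw [I_eq]
  exact g.continuous.integral_pos_of_hasCompactSupport_nonneg_nonzero
    (HasCompactSupport.of_compactSpace _) H hp.ne'

/-- total mass -/
def mass : ℝ := I 1

theorem mass_pos : 0 < mass := I_pos_of (fun _ => zero_le_one) pole one_pos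

theorem I_const (r : ℝ) : I (algebraMap ℝ C(S2, ℝ) r) = r * mass := by
  rw [Algebra.algebraMap_eq_smul_one, map_smul, smul_eq_mul]; rfl

theorem I_zero_iff {g : C(S2, ℝ)} (H : ∀ p, 0 ≤ g p) (h0 : I g = 0) : g = 0 := by
  ext p
  by_contra hp
  have : 0 < g p := lt_of_le_of_ne (H p) (Ne.symm hp)
  have := I_pos_of H p this
  linarith

/-- integral on the ring of smooth functions -/
def J : Sm →ₗ[ℝ] ℝ := I.toLinearMap.comp Sm.val.toLinearMap

theorem J_eq (g : Sm) : J g = I g.1 := rfl

theorem J_mono {g h : Sm} (H : ∀ p, g.1 p ≤ h.1 p) : J g ≤ J h := I_mono H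

theorem J_nonneg {g : Sm} (H : ∀ p, 0 ≤ g.1 p) : 0 ≤ J g := I_nonneg H

theorem J_sq_nonneg (g : Sm) : 0 ≤ J (g * g) := J_nonneg (fun _ => mul_self_nonneg _)

theorem J_zero {g : Sm} (H : ∀ p, 0 ≤ g.1 p) (h0 : J g = 0) : g = 0 :=
  Subtype.ext (I_zero_iff H h0)

theorem J_cst (r : ℝ) : J (cst r) = r * mass := I_const r

theorem J_one : J 1 = mass := rfl

theorem J_cst_mul (r : ℝ) (g : Sm) : J (cst r * g) = r * J g := by
  rw [cst_mul_eq, map_smul, smul_eq_mul]

theorem J_CS (g h : Sm) : J (g * h) ^ 2 ≤ J (g * g) * J (h * h) := by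
  have key : ∀ t : ℝ, 0 ≤ J (h * h) * (t * t) + (2 * J (g * h)) * t + J (g * g) := by
    intro t
    have h1 := J_sq_nonneg (g + cst t * h)
    have h2 : (g + cst t * h) * (g + cst t * h) =
        g * g + cst (2 * t) * (g * h) + cst (t * t) * (h * h) := by
      apply sm_ext; intro p; simp; ring
    rw [h2, map_add, map_add, J_cst_mul, J_cst_mul] at h1
    linarith
  have := discrim_le_zero key
  rw [discrim] at this
  nlinarith

theorem J_CS_abs (g h : Sm) : |J (g * h)| ≤ √(J (g * g)) * √(J (h * h)) := by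
  rw [← Real.sqrt_mul (J_sq_nonneg g)]
  exact Real.abs_le_sqrt (J_CS g h)

theorem J_CS_le (g h : Sm) : J (g * h) ≤ √(J (g * g)) * √(J (h * h)) :=
  (le_abs_self _).trans (J_CS_abs g h)

/-! ### polar coordinates -/

theorem I_ball (g : C(S2, ℝ)) : I g = 3 * ∫ x in Metric.ball (0 : E3) 1, ex g x := by
  have h1 : ∫ x in Metric.ball (0 : E3) 1, ex g x
      = ∫ x, (Metric.ball (0 : E3) 1).indicator (ex g) x := by
    rw [integral_indicator Metric.isOpen_ball.measurableSet]
  have h2 : ∫ x, (Metric.ball (0 : E3) 1).indicator (ex g) x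
      = ∫ x : ({(0 : E3)}ᶜ : Set E3), (Metric.ball (0 : E3) 1).indicator (ex g) x.1
          ∂((volume : Measure E3).comap (↑)) := by
    rw [integral_subtype_comap (measurableSet_singleton _).compl
      (fun x => (Metric.ball (0 : E3) 1).indicator (ex g) x), restrict_compl_singleton]
  have h3 := (volume : Measure E3).measurePreserving_homeomorphUnitSphereProd.integral_comp
    (Homeomorph.measurableEmbedding _)
    (fun z : S2 × Ioi (0 : ℝ) => g z.1 * (Iio (⟨1, by simp⟩ : Ioi (0 : ℝ))).indicator (fun _ => (1 : ℝ)) z.2)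
  have h4 : ∀ x : ({(0 : E3)}ᶜ : Set E3), (Metric.ball (0 : E3) 1).indicator (ex g) x.1
      = (fun z : S2 × Ioi (0 : ℝ) => g z.1 * (Iio (⟨1, by simp⟩ : Ioi (0 : ℝ))).indicator
          (fun _ => (1 : ℝ)) z.2) (homeomorphUnitSphereProd E3 x) := by
    intro x
    have hx : x.1 ≠ 0 := x.2
    have e1 : (homeomorphUnitSphereProd E3 x).1 = proj x.1 := by
      apply Subtype.ext
      rw [proj_val _ hx]
      simp
    have e2 : ((homeomorphUnitSphereProd E3 x).2 : ℝ) = ‖x.1‖ := by
      simp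
    by_cases hb : ‖x.1‖ < 1
    · have m1 : x.1 ∈ Metric.ball (0 : E3) 1 := by simpa using hb
      have m2 : (homeomorphUnitSphereProd E3 x).2 ∈ Iio (⟨1, by simp⟩ : Ioi (0 : ℝ)) := by
        rw [mem_Iio, ← Subtype.coe_lt_coe, e2]; exact hb
      simp only [indicator_of_mem m1, indicator_of_mem m2, e1, mul_one]; rfl
    · have m1 : x.1 ∉ Metric.ball (0 : E3) 1 := by simpa using hb
      have m2 : (homeomorphUnitSphereProd E3 x).2 ∉ Iio (⟨1, by simp⟩ : Ioi (0 : ℝ)) := by
        rw [mem_Iio, ← Subtype.coe_lt_coe, e2]; exact hb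
      simp only [indicator_of_notMem m1, indicator_of_notMem m2, mul_zero]
  rw [h1, h2]
  simp_rw [h4]
  rw [h3, integral_prod_mul, integral_indicator measurableSet_Iio]
  have h5 : ∫ _x in Iio (⟨1, by simp⟩ : Ioi (0 : ℝ)), (1 : ℝ) ∂(Measure.volumeIoiPow
      (Module.finrank ℝ E3 - 1)) = 1 / 3 := by
    rw [integral_const, measureReal_def, Measure.restrict_apply_univ,
      Measure.volumeIoiPow_apply_Iio]
    simp
    norm_num
  rw [h5, I_eq]
  ring

/-! ### rotations -/

theorem A_cube (i : Fin 3) (x : E3) : A i (A i (A i x)) = - A i x := by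
  fin_cases i <;> apply ext3 <;> simp

/-- rotation by the angle `s` about the axis `i` -/
def Rc (i : Fin 3) (s : ℝ) : E3 →L[ℝ] E3 :=
  ContinuousLinearMap.id ℝ E3 + Real.sin s • A i + (1 - Real.cos s) • ((A i).comp (A i))

theorem Rc_apply (i : Fin 3) (s : ℝ) (x : E3) :
    Rc i s x = x + Real.sin s • A i x + (1 - Real.cos s) • A i (A i x) := rfl

theorem Rc_norm (i : Fin 3) (s : ℝ) (x : E3) : ‖Rc i s x‖ = ‖x‖ := by
  have h : ‖Rc i s x‖ ^ 2 = ‖x‖ ^ 2 := by
    rw [norm_sq3, norm_sq3, Rc_apply]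
    fin_cases i
    · simp
      linear_combination (x 1 ^ 2 + x 2 ^ 2) * Real.sin_sq_add_cos_sq s
    · simp
      linear_combination (x 0 ^ 2 + x 2 ^ 2) * Real.sin_sq_add_cos_sq s
    · simp
      linear_combination (x 0 ^ 2 + x 1 ^ 2) * Real.sin_sq_add_cos_sq s
  exact (sq_eq_sq₀ (norm_nonneg _) (norm_nonneg _)).mp h

def Rli (i : Fin 3) (s : ℝ) : E3 →ₗᵢ[ℝ] E3 where
  toLinearMap := (Rc i s).toLinearMap
  norm_map' := Rc_norm i s

def Re (i : Fin 3) (s : ℝ) : E3 ≃ₗᵢ[ℝ] E3 := (Rli i s).toLinearIsometryEquiv rfl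

theorem Re_apply (i : Fin 3) (s : ℝ) (x : E3) : Re i s x = Rc i s x := rfl

/-- action of an isometry on the sphere -/
def onS (R : E3 ≃ₗᵢ[ℝ] E3) : C(S2, S2) :=
  ⟨fun p => ⟨R p, by simp⟩, by fun_prop⟩

theorem ex_onS (R : E3 ≃ₗᵢ[ℝ] E3) (g : C(S2, ℝ)) {x : E3} (hx : x ≠ 0) :
    ex (g.comp (onS R)) x = ex g (R x) := by
  have hR : R x ≠ 0 := by simpa using hx
  simp only [ex, ContinuousMap.comp_apply]
  congr 1
  apply Subtype.ext
  rw [proj_val _ hR]
  simp [onS, proj_val x hx]

theorem I_inv (R : E3 ≃ₗᵢ[ℝ] E3) (g : C(S2, ℝ)) : I (g.comp (onS R)) = I g := by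
  rw [I_ball, I_ball]
  congr 1
  have h1 := (R.measurePreserving).setIntegral_preimage_emb
    R.toHomeomorph.measurableEmbedding (ex g) (Metric.ball 0 1)
  have h2 : R ⁻¹' (Metric.ball 0 1) = Metric.ball 0 1 := by
    ext x; simp
  rw [h2] at h1
  rw [← h1]
  apply setIntegral_congr_ae Metric.isOpen_ball.measurableSet
  have h3 : ∀ᵐ x : E3, x ≠ 0 := by
    rw [ae_iff]
    simp
  filter_upwards [h3] with x hx _
  exact ex_onS R g hx

theorem hasDerivAt_Rc (i : Fin 3) (x : E3) (s : ℝ) :
    HasDerivAt (fun s => Rc i s x) (A i (Rc i s x)) s := by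
  have h1 : HasDerivAt (fun s => Rc i s x)
      (Real.cos s • A i x + (Real.sin s) • A i (A i x)) s := by
    have e1 := (Real.hasDerivAt_sin s).smul_const (A i x)
    have e2 := (((Real.hasDerivAt_cos s).const_sub 1)).smul_const (A i (A i x))
    have e3 := (e1.const_add x).add e2
    refine HasDerivAt.congr_deriv e3 ?_
    simp
  refine h1.congr_deriv ?_
  rw [Rc_apply, map_add, map_add, map_smul, map_smul, A_cube]
  module

theorem hasDerivAt_ex_rot (i : Fin 3) (g : Sm) {x : E3} (hx : x ≠ 0) (s : ℝ) :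
    HasDerivAt (fun s => ex g.1 (Rc i s x)) (ex (L i g).1 (Rc i s x)) s := by
  have hR : Rc i s x ≠ 0 := by
    rw [← norm_ne_zero_iff, Rc_norm, norm_ne_zero_iff]; exact hx
  rw [ex_L i g hR]
  exact (diffAt_ex g hR).hasFDerivAt.comp_hasDerivAt s (hasDerivAt_Rc i x s)

theorem J_L (i : Fin 3) (g : Sm) : J (L i g) = 0 := by
  have hF : ∀ s, ∫ p, ex g.1 (Rc i s p) ∂sig = I g.1 := by
    intro s
    rw [← I_inv (Re i s) g.1, I_eq]
    apply integral_congr_ae
    filter_upwards with p
    rw [← ex_coe (g.1.comp (onS (Re i s))) p, ex_onS _ _ (S2_ne p)]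
    rfl
  have hc : ∀ (h : C(S2, ℝ)) (s : ℝ), Continuous (fun p : S2 => ex h (Rc i s p)) := by
    intro h s
    apply (continuousOn_ex h).comp_continuous
    · fun_prop
    · intro p hp
      have := Rc_norm i s p
      rw [hp, S2_norm] at this
      simp at this
  have h1 := hasDerivAt_integral_of_dominated_loc_of_deriv_le (μ := sig)
    (F := fun s (p : S2) => ex g.1 (Rc i s p)) (F' := fun s (p : S2) => ex (L i g).1 (Rc i s p))
    (x₀ := 0) (s := univ) (bound := fun _ => ‖(L i g).1‖) Filter.univ_mem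
    (Filter.Eventually.of_forall (fun s => (hc g.1 s).aestronglyMeasurable))
    ((hc g.1 0).integrable_of_hasCompactSupport (HasCompactSupport.of_compactSpace _))
    ((hc (L i g).1 0).aestronglyMeasurable)
    (Filter.Eventually.of_forall (fun p s _ => (L i g).1.norm_coe_le_norm _))
    (integrable_const _)
    (Filter.Eventually.of_forall (fun p s _ => hasDerivAt_ex_rot i g (S2_ne p) s))
  have h2 := h1.2
  simp only [hF] at h2
  have h3 := h2.unique (hasDerivAt_const (0 : ℝ) (I g.1))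
  rw [J_eq, I_eq, ← h3]
  apply integral_congr_ae
  filter_upwards with p
  rw [Rc_apply]
  simp [ex_coe]

theorem J_ibp (i : Fin 3) (g h : Sm) : J (L i g * h) = - J (g * L i h) := by
  have := J_L i (g * h)
  rw [L_mul, map_add] at this
  linarith

theorem J_lap (g h : Sm) : J (lap g * h) = - ∑ i, J (L i g * L i h) := by
  rw [lap_eq, Finset.sum_mul, map_sum, ← Finset.sum_neg_distrib]
  apply Finset.sum_congr rfl
  intro i _
  exact J_ibp i (L i g) h

theorem J_lap_zero (g : Sm) : J (lap g) = 0 := by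
  rw [lap_eq, map_sum]
  apply Finset.sum_eq_zero
  intro i _
  exact J_L i _

theorem J_lap_symm (g h : Sm) : J (lap g * h) = J (g * lap h) := by
  rw [J_lap, mul_comm g, J_lap]
  congr 1
  apply Finset.sum_congr rfl
  intro i _
  rw [mul_comm]

/-- harmonic functions are constant -/
theorem const_of_lap (g : Sm) (h : lap g = 0) : ∃ r, g = cst r := by
  apply const_of_L
  have h1 : ∑ i, J (L i g * L i g) = 0 := by
    have := J_lap g g
    rw [h, zero_mul, map_zero] at this
    linarith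
  intro i
  have h2 := (Finset.sum_eq_zero_iff_of_nonneg (fun i _ => J_sq_nonneg (L i g))).mp h1 i
    (Finset.mem_univ i)
  have h3 := J_zero (fun p => mul_self_nonneg _) h2
  apply sm_ext; intro p
  have h4 := congrArg (fun k : Sm => k.1 p) h3
  simpa using h4

end

end Pool.Agent.H797
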