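import Pool.Agent.H797.Compact

set_option autoImplicit false
open Set MeasureTheory Filter Topology
open scoped ContDiff

namespace Pool.Agent.H797

noncomputable section

/-- from compact intervals to the half line -/
theorem joint_hd_ici {n : ℕ} {c c' : ℝ → Sm} (h : ∀ T : ℝ, 0 ≤ T → HD (Icc 0 T) n c c') :
    HD (Ici 0) n c c' := by
  have hb : ∀ (c c' : ℝ → Sm), (∀ T : ℝ, 0 ≤ T → HD (Icc 0 T) 0 c c') →
      ∀ t ∈ Ici (0 : ℝ), HasDerivWithinAt (fun s => (c s).1) (c' t).1 (Ici 0) t := by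
    intro c c' h t ht
    have ht' : (0 : ℝ) ≤ t := ht
    have h1 := h (t + 1) (by linarith) t ⟨ht', by linarith⟩
    apply h1.mono_of_mem_nhdsWithin
    have h2 : Iio (t + 1) ∈ 𝓝 t := Iio_mem_nhds (by linarith)
    have h3 : Ici (0 : ℝ) ∩ Iio (t + 1) ∈ 𝓝[Ici 0] t :=
      inter_mem self_mem_nhdsWithin (mem_nhdsWithin_of_mem_nhds h2)
    exact mem_of_superset h3 (fun s hs => ⟨hs.1, (le_of_lt hs.2)⟩)
  induction n generalizing c c' with
  | zero => exact hb c c' h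
  | succ n ih =>
    exact ⟨hb c c' (fun T hT => (h T hT).of_le (Nat.zero_le _)), fun i => ih (fun T hT => (h T hT).2 i)⟩

/-- `m + 1` times differentiable curves on the half line -/
def JTD : ℕ → (ℝ → Sm) → Prop
  | 0, c => ∃ c' : ℝ → Sm, ∀ n, HD (Ici 0) n c c'
  | (m + 1), c => ∃ c' : ℝ → Sm, (∀ n, HD (Ici 0) n c c') ∧ JTD m c'

theorem JTD.pred {m : ℕ} {c : ℝ → Sm} (h : JTD (m + 1) c) : JTD m c := by
  induction m generalizing c with
  | zero =>
    obtain ⟨c', h1, _⟩ := h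
    exact ⟨c', h1⟩
  | succ m ih =>
    obtain ⟨c', h1, h2⟩ := h
    exact ⟨c', h1, ih h2⟩

theorem JTD.congr {m : ℕ} {c d : ℝ → Sm} (h : JTD m c) (hd : ∀ t ∈ Ici (0 : ℝ), d t = c t) :
    JTD m d := by
  cases m with
  | zero =>
    obtain ⟨c', h1⟩ := h
    exact ⟨c', fun n => (h1 n).congr hd (fun _ _ => rfl)⟩
  | succ m =>
    obtain ⟨c', h1, h2⟩ := h
    exact ⟨c', fun n => (h1 n).congr hd (fun _ _ => rfl), h2⟩

theorem JTD.add {m : ℕ} {c d : ℝ → Sm} (h : JTD m c) (h2 : JTD m d) :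
    JTD m (fun t => c t + d t) := by
  induction m generalizing c d with
  | zero =>
    obtain ⟨c', a1⟩ := h
    obtain ⟨d', b1⟩ := h2
    exact ⟨_, fun n => (a1 n).add (b1 n)⟩
  | succ m ih =>
    obtain ⟨c', a1, a2⟩ := h
    obtain ⟨d', b1, b2⟩ := h2
    exact ⟨_, fun n => (a1 n).add (b1 n), ih a2 b2⟩

theorem JTD.neg {m : ℕ} {c : ℝ → Sm} (h : JTD m c) : JTD m (fun t => -c t) := by
  induction m generalizing c with
  | zero =>
    obtain ⟨c', a1⟩ := h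
    exact ⟨_, fun n => (a1 n).neg⟩
  | succ m ih =>
    obtain ⟨c', a1, a2⟩ := h
    exact ⟨_, fun n => (a1 n).neg, ih a2⟩

theorem JTD.const (m : ℕ) (g : Sm) : JTD m (fun _ => g) := by
  induction m generalizing g with
  | zero => exact ⟨_, fun n => HD.const n g⟩
  | succ m ih => exact ⟨_, fun n => HD.const n g, ih 0⟩

theorem JTD.mul {m : ℕ} {c d : ℝ → Sm} (h : JTD m c) (h2 : JTD m d) :
    JTD m (fun t => c t * d t) := by
  induction m generalizing c d with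
  | zero =>
    obtain ⟨c', a1⟩ := h
    obtain ⟨d', b1⟩ := h2
    exact ⟨_, fun n => (a1 n).mul (b1 n)⟩
  | succ m ih =>
    have hc := h.pred
    have hd := h2.pred
    obtain ⟨c', a1, a2⟩ := h
    obtain ⟨d', b1, b2⟩ := h2
    exact ⟨_, fun n => (a1 n).mul (b1 n), (ih a2 hd).add (ih hc b2)⟩

theorem JTD.sub {m : ℕ} {c d : ℝ → Sm} (h : JTD m c) (h2 : JTD m d) :
    JTD m (fun t => c t - d t) :=
  (h.add h2.neg).congr (fun _ _ => sub_eq_add_neg _ _)

theorem JTD.L {m : ℕ} {c : ℝ → Sm} (h : JTD m c) (i : Fin 3) :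
    JTD m (fun t => H797.L i (c t)) := by
  induction m generalizing c with
  | zero =>
    obtain ⟨c', a1⟩ := h
    exact ⟨_, fun n => (a1 (n + 1)).L i⟩
  | succ m ih =>
    obtain ⟨c', a1, a2⟩ := h
    exact ⟨_, fun n => (a1 (n + 1)).L i, ih a2⟩

theorem JTD.lapl {m : ℕ} {c : ℝ → Sm} (h : JTD m c) : JTD m (fun t => lap (c t)) :=
  ((((h.L 0).L 0).add ((h.L 1).L 1)).add ((h.L 2).L 2)).congr (fun _ _ => lap_eq3 _)

theorem JTD.expo {m : ℕ} {c : ℝ → Sm} (h : JTD m c) : JTD m (fun t => expS (c t)) := by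
  induction m generalizing c with
  | zero =>
    obtain ⟨c', a1⟩ := h
    exact ⟨_, fun n => (a1 n).expo⟩
  | succ m ih =>
    have hc := h.pred
    obtain ⟨c', a1, a2⟩ := h
    exact ⟨_, fun n => (a1 n).expo, (ih hc).mul a2⟩

theorem JTD.invo {m : ℕ} {c : ℝ → Sm} (h : JTD m c)
    (hne : ∀ t ∈ Ici (0 : ℝ), ∀ p, (c t).1 p ≠ 0) : JTD m (fun t => invS (c t)) := by
  induction m generalizing c with
  | zero =>
    obtain ⟨c', a1⟩ := h
    exact ⟨_, fun n => (a1 n).invo hne⟩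
  | succ m ih =>
    have hc := h.pred
    obtain ⟨c', a1, a2⟩ := h
    exact ⟨_, fun n => (a1 n).invo hne, (((ih hc hne).mul (ih hc hne)).mul a2).neg⟩

theorem JTD.Jc {m : ℕ} {c : ℝ → Sm} (h : JTD m c) : JTD m (fun t => cst (J (c t))) := by
  induction m generalizing c with
  | zero =>
    obtain ⟨c', a1⟩ := h
    exact ⟨_, fun n => HD.scal n (y := fun t => J (c t)) (y' := fun t => J (c' t)) (a1 0).Jd⟩
  | succ m ih =>
    obtain ⟨c', a1, a2⟩ := h
    exact ⟨_, fun n => HD.scal n (y := fun t => J (c t)) (y' := fun t => J (c' t)) (a1 0).Jd,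
      ih a2⟩

theorem JTD.ff {m : ℕ} {u : ℝ → Sm} (h : JTD m u)
    (hpos : ∀ t ∈ Ici (0 : ℝ), ∀ p, 0 < (ww (u t)).1 p) : JTD m (fun t => H797.ff (u t)) := by
  have h1 : JTD m (fun t => cst (ar (u t))) := (((JTD.const m (cst 2)).mul h).expo).Jc
  have h2 : JTD m (fun t => cst (ar (u t) / mass)) :=
    ((JTD.const m (cst mass⁻¹)).mul h1).congr (fun t _ => by
      rw [← map_mul, div_eq_mul_inv, mul_comm])
  have h3 : JTD m (fun t => bet (u t)) := h2.mul (((JTD.const m (cst (-2))).mul h).expo)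
  have h4 : JTD m (fun t => ww (u t)) := (JTD.const m 1).sub h.lapl
  exact (h3.mul h4).invo (fun t ht p => bw_ne (hpos t ht) p)

theorem joint_sol_td {u : ℝ → Sm} (h : ∀ T, 0 ≤ T → Sol T u) (m : ℕ) : JTD m u := by
  have hpos : ∀ t ∈ Ici (0 : ℝ), ∀ p, 0 < (ww (u t)).1 p :=
    fun t ht p => (h t ht).pos t ⟨ht, le_rfl⟩ p
  have hfl : ∀ n, HD (Ici 0) n u (fun t => ff (u t) - 1) :=
    fun n => joint_hd_ici (fun T hT => (h T hT).flow n)
  induction m with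
  | zero => exact ⟨_, hfl⟩
  | succ m ih => exact ⟨_, hfl, (ih.ff hpos).sub (JTD.const m 1)⟩

/-- the derivative of the joint function -/
def jointD (c c' : ℝ → Sm) (z : ℝ × E3) : ℝ × E3 →L[ℝ] ℝ :=
  (fderiv ℝ (ex (c z.1).1) z.2).comp (ContinuousLinearMap.snd ℝ ℝ E3) +
    (ex (c' z.1).1 z.2) • ContinuousLinearMap.fst ℝ ℝ E3

theorem joint_hasFDeriv {c c' : ℝ → Sm} (h : HD (Ici 0) 0 c c') {z : ℝ × E3}
    (hz : z ∈ Ici (0 : ℝ) ×ˢ U0) :
    HasFDerivWithinAt (fun z : ℝ × E3 => ex (c z.1).1 z.2) (jointD c c' z)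
      (Ici (0 : ℝ) ×ˢ U0) z := by
  obtain ⟨t, x⟩ := z
  obtain ⟨ht, hx⟩ := hz
  simp only at ht hx
  have e1 : HasFDerivWithinAt (fun z : ℝ × E3 => ex (c t).1 z.2)
      ((fderiv ℝ (ex (c t).1) x).comp (ContinuousLinearMap.snd ℝ ℝ E3))
      (Ici (0 : ℝ) ×ˢ U0) (t, x) :=
    (HasFDerivAt.comp (t, x) (g := ex (c t).1) (f := fun z : ℝ × E3 => z.2)
      (diffAt_ex (c t) hx).hasFDerivAt hasFDerivAt_snd).hasFDerivWithinAt
  have e2 : HasFDerivWithinAt (fun z : ℝ × E3 => (z.1 - t) * ex (c' t).1 z.2)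
      ((ex (c' t).1 x) • ContinuousLinearMap.fst ℝ ℝ E3)
      (Ici (0 : ℝ) ×ˢ U0) (t, x) := by
    have a1 : HasFDerivAt (fun z : ℝ × E3 => z.1 - t) (ContinuousLinearMap.fst ℝ ℝ E3) (t, x) :=
      hasFDerivAt_fst.sub_const t
    have a2 : HasFDerivAt (fun z : ℝ × E3 => ex (c' t).1 z.2)
      ((fderiv ℝ (ex (c' t).1) x).comp (ContinuousLinearMap.snd ℝ ℝ E3)) (t, x) :=
      HasFDerivAt.comp (t, x) (g := ex (c' t).1) (f := fun z : ℝ × E3 => z.2)
        (diffAt_ex (c' t) hx).hasFDerivAt hasFDerivAt_snd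
    have a3 := (a1.mul a2).hasFDerivWithinAt (s := Ici (0 : ℝ) ×ˢ U0)
    refine a3.congr_fderiv ?_
    ext v <;> simp
  have e3 : HasFDerivWithinAt
      (fun z : ℝ × E3 => ((c z.1).1 - (c t).1 - (z.1 - t) • (c' t).1) (proj z.2))
      (0 : ℝ × E3 →L[ℝ] ℝ) (Ici (0 : ℝ) ×ˢ U0) (t, x) := by
    have b1 := hasDerivWithinAt_iff_isLittleO.mp (h.base t ht)
    have b2 : Tendsto (fun z : ℝ × E3 => z.1) (𝓝[Ici (0 : ℝ) ×ˢ U0] (t, x)) (𝓝[Ici 0] t) := by
      apply tendsto_nhdsWithin_of_tendsto_nhds_of_eventually_within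
      · exact (continuous_fst.tendsto (t, x)).mono_left nhdsWithin_le_nhds
      · filter_upwards [self_mem_nhdsWithin] with z hz
        exact hz.1
    have b3 := b1.comp_tendsto b2
    rw [hasFDerivWithinAt_iff_isLittleO]
    have b4 : (fun z : ℝ × E3 => z.1 - t) =O[𝓝[Ici (0 : ℝ) ×ˢ U0] (t, x)]
        (fun z : ℝ × E3 => z - (t, x)) := by
      apply Asymptotics.IsBigO.of_bound 1
      filter_upwards with z
      rw [one_mul]
      exact norm_fst_le (z - (t, x))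
    have b5 := b3.trans_isBigO b4
    refine Asymptotics.IsBigO.trans_isLittleO ?_ b5
    apply Asymptotics.IsBigO.of_bound 1
    filter_upwards with z
    rw [one_mul]
    have b6 : ((c (t, x).1).1 - (c t).1 - ((t, x).1 - t) • (c' t).1) (proj (t, x).2) = 0 := by
      simp
    rw [b6]
    simp only [sub_zero, zero_apply, Function.comp_apply]
    exact ContinuousMap.norm_coe_le_norm _ _
  have e4 := (e1.add e2).add e3
  rw [add_zero] at e4
  refine e4.congr_of_eventuallyEq ?_ ?_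
  · filter_upwards with z
    simp only [ex, Pi.add_apply, ContinuousMap.sub_apply, ContinuousMap.smul_apply, smul_eq_mul]
    ring
  · simp only [ex, Pi.add_apply, ContinuousMap.sub_apply, ContinuousMap.smul_apply, smul_eq_mul]
    ring

theorem joint_contDiff (n : ℕ) : ∀ c : ℝ → Sm, JTD n c →
    ContDiffOn ℝ n (fun z : ℝ × E3 => ex (c z.1).1 z.2) (Ici (0 : ℝ) ×ˢ U0) := by
  induction n with
  | zero =>
    intro c hc
    obtain ⟨c', h1⟩ := hc
    rw [Nat.cast_zero, contDiffOn_zero]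
    have h2 := cont_joint (h1 0).cont
    have h3 : ContinuousOn (fun z : ℝ × E3 => (z.1, proj z.2)) (Ici (0 : ℝ) ×ˢ U0) :=
      continuousOn_fst.prodMk (continuousOn_proj.comp continuousOn_snd (fun z hz => hz.2))
    exact h2.comp h3 (fun z hz => ⟨hz.1, mem_univ _⟩)
  | succ n ih =>
    intro c hc
    have hc0 := hc.pred
    obtain ⟨c', h1, h2⟩ := hc
    have hu : UniqueDiffOn ℝ (Ici (0 : ℝ) ×ˢ U0) := (uniqueDiffOn_Ici 0).prod isOpen_U0.uniqueDiffOn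
    have e : ((n + 1 : ℕ) : WithTop ℕ∞) = (n : WithTop ℕ∞) + 1 := by push_cast; rfl
    rw [e, contDiffOn_succ_iff_hasFDerivWithinAt_of_uniqueDiffOn hu]
    refine ⟨fun h => absurd h (by simp), jointD c c', ?_, fun z hz => joint_hasFDeriv (h1 0) hz⟩
    have k1 : ∀ i, ContDiffOn ℝ n (fun z : ℝ × E3 => ex (L i (c z.1)).1 z.2)
      (Ici (0 : ℝ) ×ˢ U0) := fun i => ih _ (hc0.L i)
    have k2 : ContDiffOn ℝ n (fun z : ℝ × E3 => ex (c' z.1).1 z.2) (Ici (0 : ℝ) ×ˢ U0) := ih _ h2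
    have k3 : ContDiffOn ℝ n (fun z : ℝ × E3 => (‖z.2‖ ^ 2)⁻¹) (Ici (0 : ℝ) ×ˢ U0) := by
      intro z hz
      have a1 : ContDiffAt ℝ n (fun z : ℝ × E3 => ‖z.2‖ ^ 2) z := contDiffAt_snd.norm_sq ℝ
      exact (a1.inv (by have := norm_pos_iff.mpr hz.2; positivity)).contDiffWithinAt
    have k4 : ∀ i, ContDiffOn ℝ n (fun z : ℝ × E3 => innerSL ℝ (A i z.2)) (Ici (0 : ℝ) ×ˢ U0) :=
      fun i => ((innerSL ℝ).contDiff.comp ((A i).contDiff.comp contDiff_snd)).contDiffOn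
    have k5 : ContDiffOn ℝ n (fun z : ℝ × E3 => ∑ i : Fin 3,
        (((‖z.2‖ ^ 2)⁻¹ * ex (L i (c z.1)).1 z.2) • innerSL ℝ (A i z.2)).comp
          (ContinuousLinearMap.snd ℝ ℝ E3)) (Ici (0 : ℝ) ×ˢ U0) := by
      apply ContDiffOn.sum
      intro i _
      exact ((k3.mul (k1 i)).smul (k4 i)).clm_comp contDiffOn_const
    have k6 : ContDiffOn ℝ n (fun z : ℝ × E3 => (ex (c' z.1).1 z.2) •
        ContinuousLinearMap.fst ℝ ℝ E3) (Ici (0 : ℝ) ×ˢ U0) := k2.smul contDiffOn_const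
    refine (k5.add k6).congr (fun z hz => ?_)
    rw [jointD, fderiv_dform _ hz.2, dform]
    congr 1

/-- TASK JOINT. -/
theorem gsol_joint (u : ℝ → Sm) (h : ∀ T, 0 ≤ T → Sol T u) :
    ContDiffOn ℝ ∞ (fun z : ℝ × E3 => ex (u z.1).1 z.2) (Ici (0 : ℝ) ×ˢ U0) :=
  contDiffOn_infty.mpr (fun n => joint_contDiff n u (joint_sol_td h n))

end

end Pool.Agent.H797
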