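import Pool.Agent.H797.Compact

set_option autoImplicit false
open Set MeasureTheory Filter Topology
open scoped ContDiff

namespace Pool.Agent.H797

noncomputable section

/-- TASK LIMIT. -/
theorem curve_limit (T : ℝ) (hT : 0 < T) (c : ℕ → ℝ → Sm)
    (hb : ∀ k, ∃ C, ∀ n, ∀ t ∈ Icc 0 T, N k (c n t) ≤ C)
    (hl : ∃ K, ∀ n, ∀ s ∈ Icc 0 T, ∀ t ∈ Icc 0 T, ‖(c n t).1 - (c n s).1‖ ≤ K * |t - s|) :
    ∃ ψ : ℕ → ℕ, StrictMono ψ ∧ ∃ d : ℝ → Sm,
      (∀ t ∈ Icc 0 T, ∀ k, Tendsto (fun n => N k (c (ψ n) t - d t)) atTop (𝓝 0)) ∧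
      (∀ k, ∃ C, ∀ t ∈ Icc 0 T, N k (d t) ≤ C) ∧
      (∃ K, ∀ s ∈ Icc 0 T, ∀ t ∈ Icc 0 T, ‖(d t).1 - (d s).1‖ ≤ K * |t - s|) := by
  obtain ⟨K, hK⟩ := hl
  have h0T : (0 : ℝ) ∈ Icc 0 T := ⟨le_refl _, hT.le⟩
  obtain ⟨C, hC0, hC⟩ := norm_le_N
  obtain ⟨C3, hC3⟩ := hb 3
  have hC30 : 0 ≤ C3 := (N_nonneg _ _).trans (hC3 0 0 h0T)
  have h1 : ∀ n, ∀ t ∈ Icc 0 T, ‖(c n t).1‖ ≤ √(C * C3) := fun n t ht =>
    (hC (c n t)).trans (Real.sqrt_le_sqrt (by
      have := (N_mono (k := 2) (l := 3) (by norm_num) (c n t)).trans (hC3 n t ht)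
      gcongr))
  have h2 : ∀ n, ∀ t ∈ Icc 0 T, ∀ i, ‖(L i (c n t)).1‖ ≤ √(C * C3) := fun n t ht i =>
    (hC (L i (c n t))).trans (Real.sqrt_le_sqrt (by
      have := (N_L_le 2 i (c n t)).trans (hC3 n t ht)
      gcongr))
  -- Lipschitz on the product
  set Λ : ℝ := |K| + 8 * √(C * C3) with hΛ
  have hΛ0 : 0 ≤ Λ := by positivity
  have key : ∀ n, ∀ x y : (Icc (0 : ℝ) T) × S2,
      |(c n x.1).1 x.2 - (c n y.1).1 y.2| ≤ Λ * dist x y := by
    intro n x y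
    have a1 : |(c n x.1).1 x.2 - (c n y.1).1 x.2| ≤ |K| * dist x y := by
      have b1 : |((c n x.1).1 - (c n y.1).1) x.2| ≤ ‖(c n x.1).1 - (c n y.1).1‖ :=
        ((c n x.1).1 - (c n y.1).1).norm_coe_le_norm x.2
      have b2 := hK n y.1 y.1.2 x.1 x.1.2
      have b3 : |(x.1 : ℝ) - y.1| ≤ dist x y := by
        have : dist x.1 y.1 ≤ dist x y := by
          rw [Prod.dist_eq]; exact le_max_left _ _
        rw [Subtype.dist_eq, Real.dist_eq] at this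
        exact this
      calc |(c n x.1).1 x.2 - (c n y.1).1 x.2| ≤ ‖(c n x.1).1 - (c n y.1).1‖ := b1
        _ ≤ K * |(x.1 : ℝ) - y.1| := b2
        _ ≤ |K| * |(x.1 : ℝ) - y.1| := by
            gcongr; exact le_abs_self K
        _ ≤ |K| * dist x y := by gcongr
    have a2 : |(c n y.1).1 x.2 - (c n y.1).1 y.2| ≤ 8 * √(C * C3) * dist x y := by
      have b1 := lip_of_L (c n y.1) (√(C * C3)) (√(C * C3))
        (fun i p => ((L i (c n y.1)).1.norm_coe_le_norm p).trans (h2 n y.1 y.1.2 i))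
        (fun p => ((c n y.1).1.norm_coe_le_norm p).trans (h1 n y.1 y.1.2)) x.2 y.2
      have b2 : dist x.2 y.2 ≤ dist x y := by
        rw [Prod.dist_eq]; exact le_max_right _ _
      have e : dist x.2 y.2 = ‖(x.2 : E3) - y.2‖ := by rw [Subtype.dist_eq, dist_eq_norm]
      rw [← e] at b1
      refine b1.trans ?_
      calc _ = 8 * √(C * C3) * dist x.2 y.2 := by ring
        _ ≤ 8 * √(C * C3) * dist x y := by gcongr
    have a3 := abs_sub_le ((c n x.1).1 x.2) ((c n y.1).1 x.2) ((c n y.1).1 y.2)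
    rw [hΛ, add_mul]
    linarith
  have hlip : ∀ n, LipschitzWith (Real.toNNReal Λ)
      (fun x : (Icc (0 : ℝ) T) × S2 => (c n x.1).1 x.2) := by
    intro n
    apply LipschitzWith.of_dist_le_mul
    intro x y
    rw [Real.coe_toNNReal _ hΛ0, Real.dist_eq]
    exact key n x y
  obtain ⟨ψ, hψ, v, hv⟩ := arz
    (fun n => (⟨fun x : (Icc (0 : ℝ) T) × S2 => (c n x.1).1 x.2, (hlip n).continuous⟩ :
      C((Icc (0 : ℝ) T) × S2, ℝ))) (Real.toNNReal Λ) (√(C * C3))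
    (fun n x => ((c n x.1).1.norm_coe_le_norm x.2).trans (h1 n x.1 x.1.2)) hlip
  have hCN : ∀ t ∈ Icc 0 T, CN (fun n => c (ψ n) t) := by
    intro t ht
    apply CN.of_unif
    · intro k
      obtain ⟨D, hD⟩ := hb k
      exact ⟨D, fun n => hD (ψ n) t ht⟩
    · have hcs := hv.cauchySeq
      rw [Metric.cauchySeq_iff] at hcs ⊢
      intro ε hε
      obtain ⟨n0, hn0⟩ := hcs (ε / 2) (by positivity)
      refine ⟨n0, fun m hm n hn => ?_⟩
      have h3 := (hn0 m hm n hn).le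
      have h4 : dist ((c (ψ m) t).1) ((c (ψ n) t).1) ≤ ε / 2 := by
        rw [ContinuousMap.dist_le (by positivity)] at h3 ⊢
        intro p
        exact h3 (⟨t, ht⟩, p)
      linarith
  have hex : ∀ t, ∃ w : Sm, t ∈ Icc 0 T → (Tendsto (fun n => (c (ψ n) t).1) atTop (𝓝 w.1) ∧
      ∀ k, Tendsto (fun n => N k (c (ψ n) t - w)) atTop (𝓝 0)) := by
    intro t
    by_cases ht : t ∈ Icc 0 T
    · obtain ⟨w, hw, hw2⟩ := (hCN t ht).lim
      exact ⟨w, fun _ => ⟨hw, hw2⟩⟩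
    · exact ⟨0, fun h => absurd h ht⟩
  choose d hd using hex
  refine ⟨ψ, hψ, d, fun t ht => (hd t ht).2, ?_, |K|, ?_⟩
  · intro k
    obtain ⟨D, hD⟩ := hb k
    refine ⟨2 * 1 + 2 * D, fun t ht => ?_⟩
    have h3 := ((hd t ht).2 k).eventually_le_const (show (0 : ℝ) < 1 by norm_num)
    obtain ⟨n, hn⟩ := h3.exists
    have h4 : d t = c (ψ n) t - (c (ψ n) t - d t) := by abel
    rw [h4]
    refine (N_sub_le _ _ _).trans ?_
    have := hD (ψ n) t ht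
    linarith
  · intro s hs t ht
    have h3 : Tendsto (fun n => ‖(c (ψ n) t).1 - (c (ψ n) s).1‖) atTop
        (𝓝 ‖(d t).1 - (d s).1‖) := ((hd t ht).1.sub (hd s hs).1).norm
    refine le_of_tendsto h3 (Eventually.of_forall fun n => ?_)
    refine (hK (ψ n) s hs t ht).trans ?_
    gcongr
    exact le_abs_self K

end

end Pool.Agent.H797
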