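import Pool.Agent.H797.Flow

set_option autoImplicit false
open Set MeasureTheory
open scoped ContDiff ENNReal

namespace Pool.Agent.H797

noncomputable section

theorem A_norm_le (i : Fin 3) (x : E3) : ‖A i x‖ ≤ ‖x‖ := by
  have h : ‖A i x‖ ^ 2 ≤ ‖x‖ ^ 2 := by
    rw [norm_sq3, norm_sq3]
    fin_cases i
    · simp; nlinarith [sq_nonneg (x 0)]
    · simp; nlinarith [sq_nonneg (x 1)]
    · simp; nlinarith [sq_nonneg (x 2)]
  exact (sq_le_sq₀ (norm_nonneg _) (norm_nonneg _)).mp h

theorem fderiv_bd (g : Sm) (Λ : ℝ) (hΛ : ∀ i p, |(L i g).1 p| ≤ Λ) {z : E3} (hz : z ≠ 0) :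
    ‖fderiv ℝ (ex g.1) z‖ ≤ 3 * Λ / ‖z‖ := by
  have hn : 0 < ‖z‖ := norm_pos_iff.mpr hz
  have hΛ0 : 0 ≤ Λ := (abs_nonneg _).trans (hΛ 0 pole)
  apply ContinuousLinearMap.opNorm_le_bound _ (by positivity)
  intro h
  rw [fderiv_formula g hz, Real.norm_eq_abs, abs_mul, abs_of_pos (by positivity)]
  have h1 : ∀ i, |inner ℝ (A i z) h * ex (L i g).1 z| ≤ ‖z‖ * ‖h‖ * Λ := by
    intro i
    rw [abs_mul]
    have e1 : |inner ℝ (A i z) h| ≤ ‖z‖ * ‖h‖ :=
      (abs_real_inner_le_norm _ _).trans (by gcongr; exact A_norm_le i z)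
    have e2 : |ex (L i g).1 z| ≤ Λ := hΛ i (proj z)
    gcongr
  have h2 := abs_sum3_le h1
  calc (‖z‖ ^ 2)⁻¹ * |∑ i, inner ℝ (A i z) h * ex (L i g).1 z|
      ≤ (‖z‖ ^ 2)⁻¹ * (3 * (‖z‖ * ‖h‖ * Λ)) := by gcongr
    _ = 3 * Λ / ‖z‖ * ‖h‖ := by field_simp

/-- Lipschitz bound from a gradient bound -/
theorem lip_of_L (g : Sm) (Λ K : ℝ) (hΛ : ∀ i p, |(L i g).1 p| ≤ Λ) (hK : ∀ p, |g.1 p| ≤ K)
    (x y : S2) : |g.1 x - g.1 y| ≤ (6 * Λ + 2 * K) * ‖(x : E3) - y‖ := by
  have hΛ0 : 0 ≤ Λ := (abs_nonneg _).trans (hΛ 0 pole)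
  have hK0 : 0 ≤ K := (abs_nonneg _).trans (hK pole)
  by_cases hxy : ‖(x : E3) - y‖ ≤ 1
  · have hseg : ∀ z ∈ segment ℝ (x : E3) (y : E3), 1 / 2 ≤ ‖z‖ := by
      intro z hz
      have hd : ‖z - x‖ ≤ 1 / 2 ∨ ‖z - y‖ ≤ 1 / 2 := by
        obtain ⟨a, b, ha, hb, hab, rfl⟩ := hz
        have e1 : a • (x : E3) + b • (y : E3) - x = b • ((y : E3) - x) := by
          have : a = 1 - b := by linarith
          rw [this]; module
        have e2 : a • (x : E3) + b • (y : E3) - y = a • ((x : E3) - y) := by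
          have : b = 1 - a := by linarith
          rw [this]; module
        have hxy' : ‖(y : E3) - x‖ ≤ 1 := by rw [norm_sub_rev]; exact hxy
        rcases le_total b (1 / 2) with h | h
        · left
          rw [e1, norm_smul, Real.norm_of_nonneg hb]
          calc b * ‖(y : E3) - x‖ ≤ 1 / 2 * 1 := by gcongr
            _ = 1 / 2 := by norm_num
        · right
          rw [e2, norm_smul, Real.norm_of_nonneg ha]
          calc a * ‖(x : E3) - y‖ ≤ 1 / 2 * 1 := by
                apply mul_le_mul (by linarith) hxy (norm_nonneg _) (by norm_num)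
            _ = 1 / 2 := by norm_num
      rcases hd with h | h
      · have := norm_sub_norm_le (x : E3) (x - z)
        rw [sub_sub_cancel, S2_norm, norm_sub_rev] at this
        linarith
      · have := norm_sub_norm_le (y : E3) (y - z)
        rw [sub_sub_cancel, S2_norm, norm_sub_rev] at this
        linarith
    have h1 := Convex.norm_image_sub_le_of_norm_fderiv_le (𝕜 := ℝ) (f := ex g.1) (C := 6 * Λ)
      (s := segment ℝ (x : E3) (y : E3)) (x := (y : E3)) (y := (x : E3)) (by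
        intro z hz
        apply diffAt_ex
        intro h0
        have := hseg z hz
        rw [h0] at this
        norm_num at this) (by
        intro z hz
        have hz2 := hseg z hz
        have hz0 : z ≠ 0 := by
          intro h0
          rw [h0] at hz2
          norm_num at hz2
        refine (fderiv_bd g Λ hΛ hz0).trans ?_
        rw [div_le_iff₀ (by linarith)]
        nlinarith) (convex_segment _ _) (right_mem_segment ℝ _ _) (left_mem_segment ℝ _ _)
    rw [ex_coe, ex_coe, Real.norm_eq_abs] at h1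
    refine h1.trans ?_
    gcongr
    linarith
  · push Not at hxy
    have h1 : |g.1 x - g.1 y| ≤ 2 * K := by
      have := abs_sub (g.1 x) (g.1 y)
      have := hK x
      have := hK y
      linarith
    calc |g.1 x - g.1 y| ≤ 2 * K * 1 := by linarith
      _ ≤ (6 * Λ + 2 * K) * ‖(x : E3) - y‖ := by
          apply mul_le_mul _ hxy.le (by norm_num) (by positivity)
          linarith

/-- gradient bound from a Lipschitz bound -/
theorem L_of_lip (g : Sm) (G : ℝ) (hG : ∀ x y : S2, |g.1 x - g.1 y| ≤ G * ‖(x : E3) - y‖)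
    (i : Fin 3) (p : S2) : |(L i g).1 p| ≤ 2 * G := by
  have hG0 : 0 ≤ G := by
    have h1 := hG pole ⟨-pole, by simp⟩
    have h2 : 0 < ‖(pole : E3) - ((⟨-pole, by simp⟩ : S2) : E3)‖ := by
      have e : (pole : E3) - ((⟨-pole, by simp⟩ : S2) : E3) = (2 : ℝ) • (pole : E3) := by
        simp only [sub_neg_eq_add]; module
      rw [e, norm_smul, S2_norm]; norm_num
    by_contra hneg
    push Not at hneg
    have := (abs_nonneg _).trans h1
    nlinarith
  have h1 := hasDerivAt_ex_rot i g (S2_ne p) 0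
  have h2 : Rc i 0 (p : E3) = p := by rw [Rc_apply]; simp
  rw [h2, ex_coe] at h1
  have h3 := h1.hasFDerivAt.le_of_lip' (C := 2 * G) (by positivity) (by
    filter_upwards with s
    rw [h2, ex_coe, Real.norm_eq_abs]
    have e1 : ex g.1 (Rc i s p) = g.1 (onS (Re i s) p) := by
      rw [← ex_coe]; rfl
    rw [e1]
    refine (hG _ _).trans ?_
    have e2 : ((onS (Re i s) p : S2) : E3) - p
        = Real.sin s • A i p + (1 - Real.cos s) • A i (A i (p : E3)) := by
      change Rc i s p - p = _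
      rw [Rc_apply]; module
    rw [e2]
    have e3 : ‖Real.sin s • A i (p : E3) + (1 - Real.cos s) • A i (A i (p : E3))‖ ≤ 2 * |s| := by
      refine (norm_add_le _ _).trans ?_
      rw [norm_smul, norm_smul]
      have a1 : ‖A i (p : E3)‖ ≤ 1 := by have := A_norm_le i (p : E3); rwa [S2_norm] at this
      have a2 : ‖A i (A i (p : E3))‖ ≤ 1 := (A_norm_le i _).trans a1
      have a3 : ‖Real.sin s‖ ≤ |s| := Real.abs_sin_le_abs
      have a4 : ‖1 - Real.cos s‖ ≤ |s| := by
        rw [Real.norm_eq_abs, abs_of_nonneg (by linarith [Real.cos_le_one s])]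
        by_cases hs : |s| ≤ 2
        · have := Real.one_sub_sq_div_two_le_cos (x := s)
          have h5 : s ^ 2 = |s| ^ 2 := (sq_abs s).symm
          nlinarith [abs_nonneg s]
        · push Not at hs
          linarith [Real.neg_one_le_cos s]
      calc _ ≤ |s| * 1 + |s| * 1 := by gcongr
        _ = 2 * |s| := by ring
    calc G * ‖Real.sin s • A i (p : E3) + (1 - Real.cos s) • A i (A i (p : E3))‖ ≤ G * (2 * |s|) := by
          gcongr
      _ = 2 * G * ‖s - 0‖ := by rw [sub_zero, Real.norm_eq_abs]; ring)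
  simpa using h3

theorem exists_lip (g : Sm) : ∃ G : ℝ, 0 ≤ G ∧ ∀ x y : S2, |g.1 x - g.1 y| ≤ G * ‖(x : E3) - y‖ := by
  obtain ⟨Λ, hΛ⟩ : ∃ Λ, ∀ i p, |(L i g).1 p| ≤ Λ := by
    refine ⟨∑ i, ‖(L i g).1‖, fun i p => ?_⟩
    refine ((L i g).1.norm_coe_le_norm p).trans ?_
    exact Finset.single_le_sum (f := fun i => ‖(L i g).1‖) (fun i _ => norm_nonneg _) (Finset.mem_univ i)
  refine ⟨6 * Λ + 2 * ‖g.1‖, ?_, fun x y => lip_of_L g Λ ‖g.1‖ hΛ (fun p => g.1.norm_coe_le_norm p) x y⟩
  have := (abs_nonneg _).trans (hΛ 0 pole)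
  positivity

end

end Pool.Agent.H797
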