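import Pool.Agent.H797.Sobolev

set_option autoImplicit false
open Set MeasureTheory
open scoped ContDiff ENNReal

namespace Pool.Agent.H797

noncomputable section

/-- squared Sobolev norms -/
def N : ℕ → Sm → ℝ
  | 0, g => J (g * g)
  | (k + 1), g => J (g * g) + ∑ i, N k (L i g)

/-- the associated bilinear forms -/
def B : ℕ → Sm → Sm → ℝ
  | 0, g, h => J (g * h)
  | (k + 1), g, h => J (g * h) + ∑ i, B k (L i g) (L i h)

/-- weighted bilinear forms -/
def Aw : ℕ → Sm → Sm → Sm → ℝ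
  | 0, a, g, h => J (a * g * h)
  | (k + 1), a, g, h => J (a * g * h) + ∑ i, Aw k a (L i g) (L i h)

theorem N_zero (g : Sm) : N 0 g = J (g * g) := rfl
theorem N_succ (k : ℕ) (g : Sm) : N (k + 1) g = J (g * g) + ∑ i, N k (L i g) := rfl
theorem B_zero (g h : Sm) : B 0 g h = J (g * h) := rfl
theorem B_succ (k : ℕ) (g h : Sm) : B (k + 1) g h = J (g * h) + ∑ i, B k (L i g) (L i h) := rfl
theorem Aw_zero (a g h : Sm) : Aw 0 a g h = J (a * g * h) := rfl
theorem Aw_succ (k : ℕ) (a g h : Sm) :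
    Aw (k + 1) a g h = J (a * g * h) + ∑ i, Aw k a (L i g) (L i h) := rfl

theorem N_nonneg (k : ℕ) (g : Sm) : 0 ≤ N k g := by
  induction k generalizing g with
  | zero => exact J_sq_nonneg g
  | succ k ih => exact add_nonneg (J_sq_nonneg g) (Finset.sum_nonneg (fun i _ => ih _))

theorem B_self (k : ℕ) (g : Sm) : B k g g = N k g := by
  induction k generalizing g with
  | zero => rfl
  | succ k ih => rw [B_succ, N_succ]; simp only [ih]

theorem B_comm (k : ℕ) (g h : Sm) : B k g h = B k h g := by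
  induction k generalizing g h with
  | zero => rw [B_zero, B_zero, mul_comm]
  | succ k ih =>
    rw [B_succ, B_succ, mul_comm g h]
    congr 1
    exact Finset.sum_congr rfl (fun i _ => ih _ _)

theorem B_add (k : ℕ) (g h h' : Sm) : B k g (h + h') = B k g h + B k g h' := by
  induction k generalizing g h h' with
  | zero => rw [B_zero, B_zero, B_zero, mul_add, map_add]
  | succ k ih =>
    rw [B_succ, B_succ, B_succ, mul_add, map_add]
    simp only [map_add, ih, Finset.sum_add_distrib]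
    ring

theorem B_cst (k : ℕ) (g h : Sm) (r : ℝ) : B k g (cst r * h) = r * B k g h := by
  induction k generalizing g h with
  | zero =>
    rw [B_zero, B_zero, show g * (cst r * h) = cst r * (g * h) by ring, J_cst_mul]
  | succ k ih =>
    rw [B_succ, B_succ, show g * (cst r * h) = cst r * (g * h) by ring, J_cst_mul]
    simp only [L_cst_mul, ih, ← Finset.mul_sum]
    ring

theorem B_add_left (k : ℕ) (g g' h : Sm) : B k (g + g') h = B k g h + B k g' h := by
  rw [B_comm, B_add, B_comm k h g, B_comm k h g']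

theorem B_cst_left (k : ℕ) (g h : Sm) (r : ℝ) : B k (cst r * g) h = r * B k g h := by
  rw [B_comm, B_cst, B_comm]

theorem B_neg (k : ℕ) (g h : Sm) : B k g (-h) = - B k g h := by
  have := B_cst k g h (-1)
  rw [show cst (-1) * h = -h by apply sm_ext; intro p; simp] at this
  rw [this]; ring

theorem B_sub (k : ℕ) (g h h' : Sm) : B k g (h - h') = B k g h - B k g h' := by
  rw [sub_eq_add_neg, B_add, B_neg]; ring

theorem N_add (k : ℕ) (g h : Sm) : N k (g + h) = N k g + 2 * B k g h + N k h := by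
  rw [← B_self, B_add, B_add_left, B_add_left, B_self, B_self, B_comm k h g]; ring

theorem N_cst_mul (k : ℕ) (g : Sm) (r : ℝ) : N k (cst r * g) = r ^ 2 * N k g := by
  rw [← B_self, B_cst, B_cst_left, B_self]; ring

theorem N_neg (k : ℕ) (g : Sm) : N k (-g) = N k g := by
  rw [← B_self, B_neg, B_comm, B_neg, B_self]; ring

theorem B_CS (k : ℕ) (g h : Sm) : B k g h ^ 2 ≤ N k g * N k h := by
  have key : ∀ t : ℝ, 0 ≤ N k h * (t * t) + (2 * B k g h) * t + N k g := by
    intro t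
    have h1 := N_nonneg k (g + cst t * h)
    rw [N_add, B_cst, N_cst_mul] at h1
    linarith
  have := discrim_le_zero key
  rw [discrim] at this
  nlinarith

theorem B_CS_abs (k : ℕ) (g h : Sm) : |B k g h| ≤ √(N k g) * √(N k h) := by
  rw [← Real.sqrt_mul (N_nonneg k g)]
  exact Real.abs_le_sqrt (B_CS k g h)

theorem N_add_le (k : ℕ) (g h : Sm) : N k (g + h) ≤ 2 * N k g + 2 * N k h := by
  have h1 := N_nonneg k (g + cst (-1) * h)
  rw [N_add, B_cst, N_cst_mul] at h1
  rw [N_add]; linarith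

theorem N_sub_le (k : ℕ) (g h : Sm) : N k (g - h) ≤ 2 * N k g + 2 * N k h := by
  have := N_add_le k g (-h)
  rwa [N_neg, ← sub_eq_add_neg] at this

theorem N_add3_le (k : ℕ) (a b c : Sm) : N k (a + b + c) ≤ 3 * (N k a + N k b + N k c) := by
  have h1 := N_nonneg k (a + cst (-1) * b)
  have h2 := N_nonneg k (b + cst (-1) * c)
  have h3 := N_nonneg k (a + cst (-1) * c)
  rw [N_add, B_cst, N_cst_mul] at h1 h2 h3
  rw [N_add, N_add, B_add_left]
  linarith

theorem N_mono_succ (k : ℕ) (g : Sm) : N k g ≤ N (k + 1) g := by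
  induction k generalizing g with
  | zero =>
    rw [N_succ, N_zero]
    have : 0 ≤ ∑ i, N 0 (L i g) := Finset.sum_nonneg (fun i _ => N_nonneg 0 _)
    linarith
  | succ k ih =>
    rw [N_succ, N_succ]
    gcongr with i
    exact ih _

theorem N_mono {k l : ℕ} (h : k ≤ l) (g : Sm) : N k g ≤ N l g := by
  induction l, h using Nat.le_induction with
  | base => exact le_rfl
  | succ l _ ih => exact ih.trans (N_mono_succ l g)

theorem N_L_le (k : ℕ) (i : Fin 3) (g : Sm) : N k (L i g) ≤ N (k + 1) g := by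
  rw [N_succ]
  have h1 : N k (L i g) ≤ ∑ i, N k (L i g) :=
    Finset.single_le_sum (f := fun i => N k (L i g)) (fun i _ => N_nonneg k _) (Finset.mem_univ i)
  have := J_sq_nonneg g
  linarith

theorem sum_N_L_le (k : ℕ) (g : Sm) : ∑ i, N k (L i g) ≤ N (k + 1) g := by
  rw [N_succ]
  have := J_sq_nonneg g
  linarith

theorem N_cst (k : ℕ) (r : ℝ) : N k (cst r) = r ^ 2 * mass := by
  induction k with
  | zero =>
    rw [N_zero, show cst r * cst r = cst (r ^ 2) by apply sm_ext; intro p; simp; ring, J_cst]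
  | succ k ih =>
    rw [N_succ, show cst r * cst r = cst (r ^ 2) by apply sm_ext; intro p; simp; ring, J_cst]
    simp only [L_cst]
    have h0 : N k 0 = 0 := by
      have := N_cst_mul k 0 0
      simpa using this
    simp [h0]

theorem N_lap_le (k : ℕ) (g : Sm) : N k (lap g) ≤ 3 * N (k + 2) g := by
  rw [lap_eq3]
  refine (N_add3_le k _ _ _).trans ?_
  have h1 := sum_N_L_le (k + 1) g
  rw [Fin.sum_univ_three] at h1
  have e0 := N_L_le k 0 (L 0 g)
  have e1 := N_L_le k 1 (L 1 g)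
  have e2 := N_L_le k 2 (L 2 g)
  have h2 : N (k + 1 + 1) g = N (k + 2) g := rfl
  linarith

theorem hess (g : Sm) : ∑ j, ∑ i, J (L i (L j g) * L i (L j g)) = J (lap g * lap g) := by
  have h1 : ∀ j, ∑ i, J (L i (L j g) * L i (L j g)) = J (lap g * L j (L j g)) := by
    intro j
    have e1 := J_lap (L j g) (L j g)
    rw [lap_L, J_ibp] at e1
    linarith
  simp only [h1]
  rw [← map_sum, ← Finset.mul_sum, ← lap_eq]

theorem N_two (g : Sm) : N 2 g = J (g * g) + ∑ i, J (L i g * L i g) + J (lap g * lap g) := by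
  rw [N_succ]
  simp only [N_succ, N_zero, Finset.sum_add_distrib]
  rw [hess]; ring

theorem grad_J (g : Sm) : ∑ i, J (L i g * L i g) = - J (lap g * g) := by
  rw [J_lap]; ring

theorem ell0 (g : Sm) : N 2 g ≤ 2 * (N 0 g + N 0 (lap g)) := by
  rw [N_two, grad_J, N_zero, N_zero]
  have h1 := J_sq_nonneg (lap g + g)
  have h2 : (lap g + g) * (lap g + g) = lap g * lap g + cst 2 * (lap g * g) + g * g := by
    apply sm_ext; intro p; simp; ring
  rw [h2, map_add, map_add, J_cst_mul] at h1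
  have h3 := J_sq_nonneg g
  have h4 := J_sq_nonneg (lap g)
  linarith

theorem ell (k : ℕ) (g : Sm) : N (k + 2) g ≤ 2 * (N k g + N k (lap g)) := by
  induction k generalizing g with
  | zero => exact ell0 g
  | succ k ih =>
    have e : N (k + 1 + 2) g = J (g * g) + ∑ i, N (k + 2) (L i g) := rfl
    rw [e, N_succ, N_succ]
    have h1 : ∑ i, N (k + 2) (L i g) ≤ ∑ i, 2 * (N k (L i g) + N k (L i (lap g))) := by
      apply Finset.sum_le_sum
      intro i _
      have := ih (L i g)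
      rwa [lap_L] at this
    rw [← Finset.mul_sum, Finset.sum_add_distrib] at h1
    have h2 := J_sq_nonneg g
    have h3 := J_sq_nonneg (lap g)
    linarith

/-! ### Sobolev inequalities -/

theorem I_CS (f g : C(S2, ℝ)) : I (f * g) ^ 2 ≤ I (f * f) * I (g * g) := by
  have key : ∀ t : ℝ, 0 ≤ I (g * g) * (t * t) + (2 * I (f * g)) * t + I (f * f) := by
    intro t
    have h1 : 0 ≤ I ((f + t • g) * (f + t • g)) := I_nonneg (fun p => mul_self_nonneg _)
    have h2 : (f + t • g) * (f + t • g) = f * f + (2 * t) • (f * g) + (t * t) • (g * g) := by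
      ext p; simp; ring
    rw [h2, map_add, map_add, map_smul, map_smul, smul_eq_mul, smul_eq_mul] at h1
    linarith
  have := discrim_le_zero key
  rw [discrim] at this
  nlinarith

theorem I_abs_sq (k : Sm) : I |k.1| ^ 2 ≤ mass * J (k * k) := by
  have h1 := I_CS 1 |k.1|
  rw [one_mul, one_mul] at h1
  have h2 : |k.1| * |k.1| = (k * k).1 := by
    ext p; simp [abs_mul_abs_self]
  rw [h2] at h1
  exact h1

theorem I_abs_mul_sq (a b : Sm) : I |(a * b).1| ^ 2 ≤ J (a * a) * J (b * b) := by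
  have h1 := I_CS |a.1| |b.1|
  have h2 : ∀ k : Sm, |k.1| * |k.1| = (k * k).1 := by
    intro k; ext p; simp [abs_mul_abs_self]
  have h3 : |a.1| * |b.1| = |(a * b).1| := by
    ext p; simp [abs_mul]
  rw [h2, h2, h3] at h1
  exact h1

theorem sup_sq : ∃ C : ℝ, 0 ≤ C ∧ ∀ (h : Sm) (p : S2), (h.1 p) ^ 2 ≤ C * N 2 h := by
  obtain ⟨C, hC0, hC⟩ := sup_bd
  refine ⟨C ^ 2 * (16 * (16 * mass)), by have := mass_pos; positivity, fun h p => ?_⟩
  have h1 := hC h p
  have hN : ∀ m m', J (opt m' (opt m h) * opt m' (opt m h)) ≤ N 2 h := by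
    intro m m'
    cases m with
    | none =>
      cases m' with
      | none => exact N_mono (Nat.zero_le 2) h
      | some j => exact (N_L_le 0 j h).trans (N_mono (by norm_num) h)
    | some i =>
      cases m' with
      | none => exact (N_L_le 0 i h).trans (N_mono (by norm_num) h)
      | some j => exact (N_L_le 0 j (L i h)).trans (N_L_le 1 i h)
  have hI : ∀ m m', 0 ≤ I |(opt m' (opt m h)).1| := fun m m' => I_nonneg (fun p => by simp)
  have h2 : ∀ m m', I |(opt m' (opt m h)).1| ≤ √(mass * N 2 h) := by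
    intro m m'
    apply Real.le_sqrt_of_sq_le
    refine (I_abs_sq _).trans ?_
    exact mul_le_mul_of_nonneg_left (hN m m') mass_pos.le
  have h3 : ∑ m, ∑ m', I |(opt m' (opt m h)).1| ≤ 16 * √(mass * N 2 h) := by
    calc _ ≤ ∑ _m : Option (Fin 3), ∑ _m' : Option (Fin 3), √(mass * N 2 h) :=
          Finset.sum_le_sum (fun m _ => Finset.sum_le_sum (fun m' _ => h2 m m'))
      _ = _ := by
          simp [Finset.sum_const, Finset.card_univ]
          ring
  have h4 : |h.1 p| ≤ C * (16 * √(mass * N 2 h)) := h1.trans (mul_le_mul_of_nonneg_left h3 hC0)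
  have h5 : (h.1 p) ^ 2 ≤ (C * (16 * √(mass * N 2 h))) ^ 2 := by
    rw [← sq_abs]; exact pow_le_pow_left₀ (abs_nonneg _) h4 2
  refine h5.trans (le_of_eq ?_)
  rw [mul_pow, mul_pow, Real.sq_sqrt (mul_nonneg mass_pos.le (N_nonneg 2 h))]
  ring

/-- Ladyzhenskaya inequality -/
theorem lady : ∃ C : ℝ, 0 ≤ C ∧ ∀ (g : Sm), J (g * g * (g * g)) ≤ C * (N 0 g * N 1 g) := by
  obtain ⟨C, hC0, hC⟩ := w11
  refine ⟨C * 49, by positivity, fun g => ?_⟩
  have h1 := hC (g * g)
  set s := √(N 0 g * N 1 g) with hs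
  have hpos : 0 ≤ N 0 g * N 1 g := mul_nonneg (N_nonneg _ _) (N_nonneg _ _)
  have h2 : I |(g * g).1| ≤ s := by
    apply Real.le_sqrt_of_sq_le
    refine (I_abs_mul_sq g g).trans ?_
    exact mul_le_mul_of_nonneg_left (N_mono (k := 0) (by norm_num) g) (J_sq_nonneg g)
  have h3 : ∀ i, I |(L i (g * g)).1| ≤ 2 * s := by
    intro i
    have e : |(L i (g * g)).1| = (2 : ℝ) • |(g * L i g).1| := by
      ext p
      rw [L_mul, ContinuousMap.abs_apply, ContinuousMap.smul_apply, ContinuousMap.abs_apply]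
      simp only [sm_add, sm_mul, smul_eq_mul]
      rw [show (L i g).1 p * g.1 p + g.1 p * (L i g).1 p = 2 * (g.1 p * (L i g).1 p) by ring,
        abs_mul]
      norm_num
    rw [e, map_smul, smul_eq_mul]
    apply mul_le_mul_of_nonneg_left _ (by norm_num)
    apply Real.le_sqrt_of_sq_le
    refine (I_abs_mul_sq g (L i g)).trans ?_
    exact mul_le_mul_of_nonneg_left (N_L_le 0 i g) (J_sq_nonneg g)
  have h4 : ∑ m, I |(opt m (g * g)).1| ≤ 7 * s := by
    rw [Fintype.sum_option, Fin.sum_univ_three]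
    have a0 := h3 0
    have a1 := h3 1
    have a2 := h3 2
    simp only [opt]
    linarith
  have h5 : 0 ≤ ∑ m, I |(opt m (g * g)).1| :=
    Finset.sum_nonneg (fun m _ => I_nonneg (fun p => by simp))
  calc J (g * g * (g * g)) ≤ C * (∑ m, I |(opt m (g * g)).1|) ^ 2 := h1
    _ ≤ C * (7 * s) ^ 2 := by gcongr
    _ = C * 49 * (N 0 g * N 1 g) := by rw [mul_pow, hs, Real.sq_sqrt hpos]; ring

theorem J_prod_bd : ∃ C : ℝ, 0 ≤ C ∧ ∀ (p g : Sm),
    J (p * g * (p * g)) ≤ C * √(N 0 p * N 1 p) * √(N 0 g * N 1 g) := by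
  obtain ⟨C, hC0, hC⟩ := lady
  refine ⟨C, hC0, fun p g => ?_⟩
  have h1 := J_CS_le (p * p) (g * g)
  rw [show p * g * (p * g) = p * p * (g * g) by ring]
  refine h1.trans ?_
  have e1 : √(J (p * p * (p * p))) ≤ √C * √(N 0 p * N 1 p) := by
    rw [← Real.sqrt_mul hC0]; exact Real.sqrt_le_sqrt (hC p)
  have e2 : √(J (g * g * (g * g))) ≤ √C * √(N 0 g * N 1 g) := by
    rw [← Real.sqrt_mul hC0]; exact Real.sqrt_le_sqrt (hC g)
  calc _ ≤ (√C * √(N 0 p * N 1 p)) * (√C * √(N 0 g * N 1 g)) :=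
        mul_le_mul e1 e2 (Real.sqrt_nonneg _) (by positivity)
    _ = (√C * √C) * √(N 0 p * N 1 p) * √(N 0 g * N 1 g) := by ring
    _ = _ := by rw [Real.mul_self_sqrt hC0]

theorem J_prod_bd' : ∃ C : ℝ, 0 ≤ C ∧ ∀ (p g : Sm),
    J (p * g * (p * g)) ≤ C * N 1 p * N 1 g := by
  obtain ⟨C, hC0, hC⟩ := J_prod_bd
  refine ⟨C, hC0, fun p g => (hC p g).trans ?_⟩
  have e : ∀ g : Sm, √(N 0 g * N 1 g) ≤ N 1 g := by
    intro g
    rw [Real.sqrt_le_left (N_nonneg 1 g), sq]
    exact mul_le_mul_of_nonneg_right (N_mono (by norm_num) g) (N_nonneg 1 g)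
  have := e p
  have := e g
  have := N_nonneg 1 p
  gcongr

theorem J_sup_mul (p g : Sm) (s : ℝ) (h : ∀ q, (p.1 q) ^ 2 ≤ s) :
    J (p * g * (p * g)) ≤ s * J (g * g) := by
  rw [← J_cst_mul]
  apply J_mono
  intro q
  simp only [sm_mul, cst_apply]
  have := h q
  nlinarith [mul_self_nonneg (g.1 q)]

/-! ### product estimates -/

theorem prod0 : ∃ C : ℝ, 0 ≤ C ∧ ∀ (p g : Sm), N 0 (p * g) ≤ C * N 2 p * N 0 g := by
  obtain ⟨C, hC0, hC⟩ := sup_sq
  exact ⟨C, hC0, fun p g => J_sup_mul p g _ (hC p)⟩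

theorem N1_mul_le (p q : Sm) (s : ℝ) (h : ∀ x, (p.1 x) ^ 2 ≤ s) :
    N 1 (p * q) ≤ 2 * s * N 1 q + 2 * ∑ j, J (L j p * q * (L j p * q)) := by
  rw [N_succ, N_succ]
  have hs : 0 ≤ s := (sq_nonneg _).trans (h pole)
  have h1 := J_sup_mul p q s h
  have h2 : ∀ i, N 0 (L i (p * q)) ≤ 2 * J (L i p * q * (L i p * q)) + 2 * (s * N 0 (L i q)) := by
    intro i
    rw [L_mul]
    have e1 := N_add_le 0 (L i p * q) (p * L i q)
    have e2 := J_sup_mul p (L i q) s h
    rw [N_zero, N_zero, N_zero] at *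
    linarith
  have h3 : ∑ i, N 0 (L i (p * q)) ≤ 2 * ∑ j, J (L j p * q * (L j p * q))
      + 2 * (s * ∑ i, N 0 (L i q)) := by
    rw [Finset.mul_sum, Finset.mul_sum, Finset.mul_sum, ← Finset.sum_add_distrib]
    exact Finset.sum_le_sum (fun i _ => h2 i)
  have h4 : 0 ≤ s * J (q * q) := mul_nonneg hs (J_sq_nonneg q)
  linarith

theorem prod1 : ∃ C : ℝ, 0 ≤ C ∧ ∀ (p g : Sm), N 1 (p * g) ≤ C * N 2 p * N 1 g := by
  obtain ⟨C, hC0, hC⟩ := sup_sq
  obtain ⟨D, hD0, hD⟩ := J_prod_bd'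
  refine ⟨2 * C + 6 * D, by positivity, fun p g => ?_⟩
  have h1 := N1_mul_le p g _ (hC p)
  have h2 : ∀ j, J (L j p * g * (L j p * g)) ≤ D * N 2 p * N 1 g := by
    intro j
    refine (hD _ _).trans ?_
    have := N_nonneg 1 g
    have := N_L_le 1 j p
    gcongr
  have h3 : ∑ j, J (L j p * g * (L j p * g)) ≤ 3 * (D * N 2 p * N 1 g) := by
    refine (Finset.sum_le_sum (fun j _ => h2 j)).trans (le_of_eq ?_)
    simp
  linarith

theorem prod2 : ∃ C : ℝ, 0 ≤ C ∧ ∀ (p g : Sm), N 2 (p * g) ≤ C * N 2 p * N 2 g := by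
  obtain ⟨C, hC0, hC⟩ := prod1
  obtain ⟨D, hD0, hD⟩ := prod0
  refine ⟨D + 12 * C, by positivity, fun p g => ?_⟩
  have e : N 2 (p * g) = J (p * g * (p * g)) + ∑ i, N 1 (L i (p * g)) := rfl
  have h0 : J (p * g * (p * g)) ≤ D * N 2 p * N 2 g := by
    refine (hD p g).trans ?_
    have := N_nonneg 2 p
    have := N_mono (k := 0) (l := 2) (by norm_num) g
    gcongr
  have h1 : ∀ i, N 1 (L i (p * g)) ≤ 4 * (C * N 2 p * N 2 g) := by
    intro i
    rw [L_mul, mul_comm (L i p) g]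
    refine (N_add_le 1 _ _).trans ?_
    have a1 := hC g (L i p)
    have a2 := hC p (L i g)
    have n1 := N_nonneg 2 p
    have n2 := N_nonneg 2 g
    have b1 := N_L_le 1 i p
    have b2 := N_L_le 1 i g
    have c1 : C * N 2 g * N 1 (L i p) ≤ C * N 2 g * N 2 p := by gcongr
    have c2 : C * N 2 p * N 1 (L i g) ≤ C * N 2 p * N 2 g := by gcongr
    nlinarith
  have h2 : ∑ i, N 1 (L i (p * g)) ≤ 3 * (4 * (C * N 2 p * N 2 g)) := by
    refine (Finset.sum_le_sum (fun j _ => h1 j)).trans (le_of_eq ?_)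
    simp
  rw [e]; linarith

theorem alg (k : ℕ) : ∃ C : ℝ, 0 ≤ C ∧ ∀ (p g : Sm),
    N (k + 2) (p * g) ≤ C * N (k + 2) p * N (k + 2) g := by
  induction k with
  | zero => exact prod2
  | succ k ih =>
    obtain ⟨C, hC0, hC⟩ := ih
    obtain ⟨D, hD0, hD⟩ := prod0
    refine ⟨D + 12 * C, by positivity, fun p g => ?_⟩
    have e : N (k + 1 + 2) (p * g) = J (p * g * (p * g)) + ∑ i, N (k + 2) (L i (p * g)) := rfl
    have n1 := N_nonneg (k + 1 + 2) p
    have n2 := N_nonneg (k + 1 + 2) g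
    have h0 : J (p * g * (p * g)) ≤ D * N (k + 1 + 2) p * N (k + 1 + 2) g := by
      refine (hD p g).trans ?_
      have a1 := N_mono (k := 2) (l := k + 1 + 2) (by omega) p
      have a2 := N_mono (k := 0) (l := k + 1 + 2) (by omega) g
      have a3 := N_nonneg 0 g
      gcongr
    have h1 : ∀ i, N (k + 2) (L i (p * g)) ≤ 4 * (C * N (k + 1 + 2) p * N (k + 1 + 2) g) := by
      intro i
      rw [L_mul]
      refine (N_add_le (k + 2) _ _).trans ?_
      have a1 := hC (L i p) g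
      have a2 := hC p (L i g)
      have b1 : N (k + 2) (L i p) ≤ N (k + 1 + 2) p := N_L_le (k + 2) i p
      have b2 : N (k + 2) (L i g) ≤ N (k + 1 + 2) g := N_L_le (k + 2) i g
      have b3 : N (k + 2) p ≤ N (k + 1 + 2) p := N_mono (by omega) p
      have b4 : N (k + 2) g ≤ N (k + 1 + 2) g := N_mono (by omega) g
      have m1 := N_nonneg (k + 2) g
      have m2 := N_nonneg (k + 2) (L i g)
      have c1 : C * N (k + 2) (L i p) * N (k + 2) g ≤ C * N (k + 1 + 2) p * N (k + 1 + 2) g := by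
        gcongr
      have c2 : C * N (k + 2) p * N (k + 2) (L i g) ≤ C * N (k + 1 + 2) p * N (k + 1 + 2) g := by
        gcongr
      linarith
    have h2 : ∑ i, N (k + 2) (L i (p * g)) ≤ 3 * (4 * (C * N (k + 1 + 2) p * N (k + 1 + 2) g)) := by
      refine (Finset.sum_le_sum (fun j _ => h1 j)).trans (le_of_eq ?_)
      simp
    rw [e]; linarith

/-- product estimate at every level -/
theorem prodk (k : ℕ) : ∃ C : ℝ, 0 ≤ C ∧ ∀ (p g : Sm),
    N k (p * g) ≤ C * N (max k 2) p * N k g := by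
  match k with
  | 0 => exact prod0
  | 1 => exact prod1
  | (k + 2) =>
    have : max (k + 2) 2 = k + 2 := by omega
    rw [this]
    exact alg k

/-- tame product estimate -/
theorem tame (k : ℕ) : ∃ C : ℝ, 0 ≤ C ∧ ∀ (p g : Sm),
    N (k + 3) (p * g) ≤ C * (N (k + 3) p * N (k + 2) g + N (k + 2) p * N (k + 3) g) := by
  obtain ⟨C, hC0, hC⟩ := alg k
  obtain ⟨D, hD0, hD⟩ := prod0
  refine ⟨D + 6 * C, by positivity, fun p g => ?_⟩
  have e : N (k + 3) (p * g) = J (p * g * (p * g)) + ∑ i, N (k + 2) (L i (p * g)) := rfl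
  have n1 := N_nonneg (k + 3) p
  have n2 := N_nonneg (k + 3) g
  have n3 := N_nonneg (k + 2) p
  have n4 := N_nonneg (k + 2) g
  have h0 : J (p * g * (p * g)) ≤ D * (N (k + 2) p * N (k + 3) g) := by
    refine (hD p g).trans ?_
    rw [mul_assoc]
    have a1 := N_mono (k := 2) (l := k + 2) (by omega) p
    have a2 := N_mono (k := 0) (l := k + 3) (by omega) g
    have a3 := N_nonneg 0 g
    gcongr
  have h1 : ∀ i, N (k + 2) (L i (p * g)) ≤
      2 * (C * (N (k + 3) p * N (k + 2) g)) + 2 * (C * (N (k + 2) p * N (k + 3) g)) := by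
    intro i
    rw [L_mul]
    refine (N_add_le (k + 2) _ _).trans ?_
    have a1 := hC (L i p) g
    have a2 := hC p (L i g)
    have b1 : N (k + 2) (L i p) ≤ N (k + 3) p := N_L_le (k + 2) i p
    have b2 : N (k + 2) (L i g) ≤ N (k + 3) g := N_L_le (k + 2) i g
    have c1 : C * N (k + 2) (L i p) * N (k + 2) g ≤ C * (N (k + 3) p * N (k + 2) g) := by
      rw [mul_assoc]; gcongr
    have c2 : C * N (k + 2) p * N (k + 2) (L i g) ≤ C * (N (k + 2) p * N (k + 3) g) := by
      rw [mul_assoc]; gcongr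
    linarith
  have h2 : ∑ i, N (k + 2) (L i (p * g)) ≤ 3 * (2 * (C * (N (k + 3) p * N (k + 2) g))
      + 2 * (C * (N (k + 2) p * N (k + 3) g))) := by
    refine (Finset.sum_le_sum (fun j _ => h1 j)).trans (le_of_eq ?_)
    simp; ring
  have h3 : 0 ≤ D * (N (k + 3) p * N (k + 2) g) := by positivity
  rw [e]; linarith

end

end Pool.Agent.H797
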