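import Pool.Agent.H797.SpecG

set_option autoImplicit false
set_option linter.unusedSectionVars false
open Set MeasureTheory Filter Topology
open scoped ContDiff

namespace Pool.Agent.H797

noncomputable section

section ODE

/-- coordinates of `P` -/
abbrev ode_E (P : Submodule ℝ Sm) : Type := Fin (Module.finrank ℝ P) → ℝ

variable (P : Submodule ℝ Sm) [Module.Finite ℝ P]

def ode_q : ode_E P ≃ₗ[ℝ] P :=
  haveI : Module.Free ℝ P := Module.Free.of_divisionRing ℝ P
  (Module.finBasis ℝ P).equivFun.symm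

/-- the parametrisation of `P` -/
def ode_e : ode_E P →ₗ[ℝ] Sm := P.subtype.comp (ode_q P).toLinearMap

theorem ode_mem (x : ode_E P) : ode_e P x ∈ P := (ode_q P x).2

theorem ode_e_q (x : ode_E P) : ode_e P x = (ode_q P x : Sm) := rfl

theorem ode_inj : Function.Injective (ode_e P) := by
  intro x y h
  exact (ode_q P).injective (Subtype.ext h)

theorem ode_surj {g : Sm} (hg : g ∈ P) : ∃ x, ode_e P x = g := by
  refine ⟨(ode_q P).symm ⟨g, hg⟩, ?_⟩
  rw [ode_e_q, LinearEquiv.apply_symm_apply]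

def ode_i : ode_E P →L[ℝ] C(S2, ℝ) :=
  LinearMap.toContinuousLinearMap (Sm.val.toLinearMap.comp (ode_e P))

@[simp] theorem ode_i_apply (g : ode_E P) : ode_i P g = (ode_e P g).1 := rfl

/-- the Laplacian as a continuous map into the Banach algebra -/
def ode_l : ode_E P →L[ℝ] C(S2, ℝ) :=
  LinearMap.toContinuousLinearMap (Sm.val.toLinearMap.comp (lap.comp (ode_e P)))

@[simp] theorem ode_l_apply (g : ode_E P) : ode_l P g = (lap (ode_e P g)).1 := rfl

/-- pairing with `P` -/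
def ode_pair : C(S2, ℝ) →L[ℝ] (ode_E P →L[ℝ] ℝ) :=
  ((ContinuousLinearMap.compL ℝ (ode_E P) C(S2, ℝ) ℝ I).comp
    ((ContinuousLinearMap.compL ℝ (ode_E P) C(S2, ℝ) C(S2, ℝ)).flip (ode_i P))).comp
      (ContinuousLinearMap.mul ℝ C(S2, ℝ))

theorem ode_pair_apply (g : C(S2, ℝ)) (h : ode_E P) : ode_pair P g h = I (g * (ode_e P h).1) := rfl

def ode_gram : ode_E P →ₗ[ℝ] (ode_E P →L[ℝ] ℝ) :=
  (ode_pair P).toLinearMap.comp (ode_i P).toLinearMap

theorem ode_gram_apply (g h : ode_E P) : ode_gram P g h = J (ode_e P g * ode_e P h) := rfl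

theorem ode_gram_inj : Function.Injective (ode_gram P) := by
  rw [← LinearMap.ker_eq_bot, LinearMap.ker_eq_bot']
  intro g hg
  have h1 : J (ode_e P g * ode_e P g) = 0 := by
    rw [← ode_gram_apply, hg]; rfl
  have h2 := J_zero (fun p => mul_self_nonneg _) h1
  apply ode_inj P
  rw [map_zero]
  apply sm_ext; intro p
  have h4 := congrArg (fun k : Sm => k.1 p) h2
  simpa using h4

theorem ode_rank : Module.finrank ℝ (ode_E P) = Module.finrank ℝ (ode_E P →L[ℝ] ℝ) := by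
  have h1 := LinearEquiv.finrank_eq (LinearMap.toContinuousLinearMap :
    (ode_E P →ₗ[ℝ] ℝ) ≃ₗ[ℝ] (ode_E P →L[ℝ] ℝ))
  have h2 : Module.finrank ℝ (Module.Dual ℝ (ode_E P)) = Module.finrank ℝ (ode_E P) :=
    Subspace.dual_finrank_eq
  rw [← h1]
  exact h2.symm

def ode_equiv : ode_E P ≃L[ℝ] (ode_E P →L[ℝ] ℝ) :=
  (LinearMap.linearEquivOfInjective (ode_gram P) (ode_gram_inj P) (ode_rank P)).toContinuousLinearEquiv

/-- the orthogonal projection -/
def ode_pi : C(S2, ℝ) →L[ℝ] ode_E P :=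
  ((ode_equiv P).symm : (ode_E P →L[ℝ] ℝ) →L[ℝ] ode_E P).comp (ode_pair P)

theorem ode_pi_spec (g : C(S2, ℝ)) (h : ode_E P) :
    J (ode_e P (ode_pi P g) * ode_e P h) = I (g * (ode_e P h).1) := by
  have h1 : ode_gram P (ode_pi P g) = ode_pair P g := by
    have := (ode_equiv P).apply_symm_apply (ode_pair P g)
    exact this
  rw [← ode_gram_apply, h1, ode_pair_apply]

/-! ### the right side -/

def ode_exp (u : C(S2, ℝ)) : C(S2, ℝ) := NormedSpace.exp u

theorem ode_exp_eq (g : Sm) : (expS g).1 = ode_exp g.1 := by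
  ext p
  rw [expS_apply, Real.exp_eq_exp_ℝ]
  exact (NormedSpace.map_exp (ContinuousMap.evalAlgHom ℝ ℝ p : C(S2, ℝ) →ₐ[ℝ] ℝ)
    (continuous_eval_const p) g.1).symm

theorem ode_exp_cd : ContDiff ℝ 1 ode_exp := by
  rw [contDiff_iff_contDiffAt]
  intro x
  exact (NormedSpace.exp_analytic (𝕂 := ℝ) x).contDiffAt

theorem ode_exp_cst (r : ℝ) (u : Sm) : (expS (cst r * u)).1 = ode_exp (r • u.1) := by
  rw [ode_exp_eq]
  congr 1

/-- the right side in the Banach algebra -/
def ode_F (u0 : Sm) (z : ode_E P × ode_E P) : C(S2, ℝ) :=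
  (I (ode_exp ((2 : ℝ) • (u0.1 + ode_i P z.1))) * mass⁻¹) •
      (ode_exp ((-2 : ℝ) • (u0.1 + ode_i P z.1)) * (ode_i P z.2 * ode_i P z.2) * ode_l P z.2) +
    (2 : ℝ) • (ode_i P z.2 * ode_i P z.2) -
    (2 * (I (ode_i P z.2 * ode_exp ((2 : ℝ) • (u0.1 + ode_i P z.1))) *
      (I (ode_exp ((2 : ℝ) • (u0.1 + ode_i P z.1))))⁻¹)) • ode_i P z.2

theorem ode_F_eq (u0 : Sm) (z : ode_E P × ode_E P) :
    ode_F P u0 z = (Fe (u0 + ode_e P z.1) (ode_e P z.2)).1 := by
  have e2 : (expS (cst 2 * (u0 + ode_e P z.1))).1 = ode_exp ((2 : ℝ) • (u0.1 + ode_i P z.1)) :=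
    ode_exp_cst _ _
  have e3 : (expS (cst (-2) * (u0 + ode_e P z.1))).1 =
      ode_exp ((-2 : ℝ) • (u0.1 + ode_i P z.1)) :=
    ode_exp_cst _ _
  have ea : ar (u0 + ode_e P z.1) = I (ode_exp ((2 : ℝ) • (u0.1 + ode_i P z.1))) := by
    rw [ar, J_eq, e2]
  have em : mu (u0 + ode_e P z.1) (ode_e P z.2) =
      I (ode_i P z.2 * ode_exp ((2 : ℝ) • (u0.1 + ode_i P z.1))) *
      (I (ode_exp ((2 : ℝ) • (u0.1 + ode_i P z.1))))⁻¹ := by
    rw [mu, ea, J_eq, ← e2, div_eq_mul_inv]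
    rfl
  ext p
  rw [ode_F, ← em, ← ea, ← e3]
  simp only [Fe, bet, sm_add, sm_sub, sm_mul, cst_apply, ContinuousMap.add_apply,
    ContinuousMap.sub_apply, ContinuousMap.smul_apply, ContinuousMap.mul_apply, smul_eq_mul,
    ode_i_apply, ode_l_apply]
  ring

theorem ode_F_cd (u0 : Sm) : ContDiff ℝ 1 (ode_F P u0) := by
  have hu : ContDiff ℝ 1 (fun z : ode_E P × ode_E P => u0.1 + ode_i P z.1) :=
    contDiff_const.add ((ode_i P).contDiff.comp contDiff_fst)
  have hy : ContDiff ℝ 1 (fun z : ode_E P × ode_E P => ode_i P z.2) :=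
    (ode_i P).contDiff.comp contDiff_snd
  have hl : ContDiff ℝ 1 (fun z : ode_E P × ode_E P => ode_l P z.2) :=
    (ode_l P).contDiff.comp contDiff_snd
  have h2 : ContDiff ℝ 1
      (fun z : ode_E P × ode_E P => ode_exp ((2 : ℝ) • (u0.1 + ode_i P z.1))) :=
    ode_exp_cd.comp (hu.const_smul (2 : ℝ))
  have h3 : ContDiff ℝ 1
      (fun z : ode_E P × ode_E P => ode_exp ((-2 : ℝ) • (u0.1 + ode_i P z.1))) :=
    ode_exp_cd.comp (hu.const_smul (-2 : ℝ))
  have hI2 : ContDiff ℝ 1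
      (fun z : ode_E P × ode_E P => I (ode_exp ((2 : ℝ) • (u0.1 + ode_i P z.1)))) :=
    I.contDiff.comp h2
  have hne : ∀ z : ode_E P × ode_E P, I (ode_exp ((2 : ℝ) • (u0.1 + ode_i P z.1))) ≠ 0 := by
    intro z
    have : ar (u0 + ode_e P z.1) = I (ode_exp ((2 : ℝ) • (u0.1 + ode_i P z.1))) := by
      rw [ar, J_eq, ode_exp_cst]; rfl
    rw [← this]
    exact (ar_pos _).ne'
  have hm : ContDiff ℝ 1 (fun z : ode_E P × ode_E P =>
      I (ode_i P z.2 * ode_exp ((2 : ℝ) • (u0.1 + ode_i P z.1)))) :=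
    I.contDiff.comp (hy.mul h2)
  unfold ode_F
  exact (((hI2.mul contDiff_const).smul ((h3.mul (hy.mul hy)).mul hl)).add
    ((hy.mul hy).const_smul (2 : ℝ))).sub
      ((contDiff_const.mul (hm.mul (hI2.inv hne))).smul hy)

/-- equivalence of norms -/
theorem ode_norm : ∃ m : ℝ, 0 < m ∧ ∀ g : ode_E P, m * ‖g‖ ^ 2 ≤ N 0 (ode_e P g) := by
  have hc : Continuous (fun g : ode_E P => J (ode_e P g * ode_e P g)) := by
    have : (fun g : ode_E P => J (ode_e P g * ode_e P g)) =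
      fun g : ode_E P => I (ode_i P g * ode_i P g) := rfl
    rw [this]
    fun_prop
  by_cases hn : (Metric.sphere (0 : ode_E P) 1).Nonempty
  · obtain ⟨g0, hg0, hmin⟩ := (isCompact_sphere (0 : ode_E P) 1).exists_isMinOn hn hc.continuousOn
    refine ⟨J (ode_e P g0 * ode_e P g0), ?_, ?_⟩
    · rcases (J_sq_nonneg (ode_e P g0)).lt_or_eq with h | h
      · exact h
      · exfalso
        have : g0 = 0 := by
          have h2 := J_zero (fun p => mul_self_nonneg _) h.symm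
          apply ode_inj P
          rw [map_zero]
          apply sm_ext; intro p
          have h4 := congrArg (fun k : Sm => k.1 p) h2
          simpa using h4
        rw [this] at hg0
        simp at hg0
    · intro g
      by_cases h0 : g = 0
      · rw [h0, norm_zero]
        simp [N_zero]
      have hp : 0 < ‖g‖ := norm_pos_iff.mpr h0
      have hs : ‖g‖⁻¹ • g ∈ Metric.sphere (0 : ode_E P) 1 := by
        simp [norm_smul, hp.ne']
      have h1 : J (ode_e P g0 * ode_e P g0) ≤ J (ode_e P (‖g‖⁻¹ • g) * ode_e P (‖g‖⁻¹ • g)) :=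
        hmin hs
      have h2 : ode_e P (‖g‖⁻¹ • g) * ode_e P (‖g‖⁻¹ • g) =
          cst (‖g‖⁻¹ * ‖g‖⁻¹) * (ode_e P g * ode_e P g) := by
        rw [map_smul]
        apply sm_ext; intro p
        simp
        ring
      rw [h2, J_cst_mul] at h1
      rw [N_zero]
      calc J (ode_e P g0 * ode_e P g0) * ‖g‖ ^ 2
          ≤ (‖g‖⁻¹ * ‖g‖⁻¹ * J (ode_e P g * ode_e P g)) * ‖g‖ ^ 2 := by gcongr
        _ = J (ode_e P g * ode_e P g) := by field_simp
  · refine ⟨1, one_pos, fun g => ?_⟩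
    have h0 : g = 0 := by
      by_contra h0
      apply hn
      have hp : 0 < ‖g‖ := norm_pos_iff.mpr h0
      exact ⟨‖g‖⁻¹ • g, by simp [norm_smul, hp.ne']⟩
    rw [h0, norm_zero]
    simp [N_zero]

/-- derivative of curves in an invariant subspace -/
theorem ode_hd (hL : ∀ i, ∀ g ∈ P, L i g ∈ P) {T : Set ℝ} (n : ℕ) {z z' : ℝ → ode_E P}
    (h : ∀ t ∈ T, HasDerivWithinAt z (z' t) T t) :
    HD T n (fun t => ode_e P (z t)) (fun t => ode_e P (z' t)) := by
  induction n generalizing z z' with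
  | zero =>
    intro t ht
    exact (ode_i P).hasFDerivAt.comp_hasDerivWithinAt t (h t ht)
  | succ n ih =>
    refine ⟨fun t ht => (ode_i P).hasFDerivAt.comp_hasDerivWithinAt t (h t ht), fun i => ?_⟩
    let Li : ode_E P →L[ℝ] ode_E P := LinearMap.toContinuousLinearMap
      ((ode_q P).symm.toLinearMap.comp (((L i).restrict (hL i)).comp (ode_q P).toLinearMap))
    have hLi : ∀ x, ode_e P (Li x) = L i (ode_e P x) := by
      intro x
      rw [ode_e_q]
      show ((ode_q P ((ode_q P).symm ((L i).restrict (hL i) (ode_q P x))) : P) : Sm) = _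
      rw [LinearEquiv.apply_symm_apply]
      rfl
    have h1 : ∀ t ∈ T, HasDerivWithinAt (fun s => Li (z s)) (Li (z' t)) T t :=
      fun t ht => Li.hasFDerivAt.comp_hasDerivWithinAt t (h t ht)
    exact (ih h1).congr (fun t _ => (hLi _).symm) (fun t _ => (hLi _).symm)

end ODE

theorem galerkin_ode (P : Submodule ℝ Sm) [Module.Finite ℝ P] (h1 : (1 : Sm) ∈ P)
    (hL : ∀ i, ∀ g ∈ P, L i g ∈ P) (u0 φ0 : Sm) (hφ0 : φ0 ∈ P) (T R : ℝ) (hT : 0 < T) (hR : 0 < R) :
    ∃ (χ : ℝ → ℝ) (V φ G : ℝ → Sm), Gal P T u0 χ V φ G ∧ φ 0 = φ0 ∧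
      ∀ t ∈ Icc 0 T, N 0 (V t) + N 0 (φ t) ≤ R → χ t = 1 := by
  obtain ⟨m, hm, hmN⟩ := ode_norm P
  obtain ⟨one, hone⟩ := ode_surj P h1
  obtain ⟨y0, hy0⟩ := ode_surj P hφ0
  have hr : 0 < √(R / m) + 1 := by positivity
  let bmp : ContDiffBump (0 : ode_E P × ode_E P) := ⟨√(R / m) + 1, √(R / m) + 2, hr, by linarith⟩
  let F0 : ode_E P × ode_E P → ode_E P × ode_E P := fun z => (z.2 - one, ode_pi P (ode_F P u0 z))
  have hF0 : ContDiff ℝ 1 F0 :=
    (contDiff_snd.sub contDiff_const).prodMk ((ode_pi P).contDiff.comp (ode_F_cd P u0))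
  let F : ode_E P × ode_E P → ode_E P × ode_E P := fun z => bmp z • F0 z
  have hF : ContDiff ℝ 1 F := bmp.contDiff.smul hF0
  have hcs : HasCompactSupport F := bmp.hasCompactSupport.smul_right
  obtain ⟨K, hK⟩ := ContDiff.lipschitzWith_of_hasCompactSupport hcs hF one_ne_zero
  obtain ⟨C, hC⟩ := hcs.exists_bound_of_continuous hF.continuous
  have hC0 : 0 ≤ C := (norm_nonneg _).trans (hC 0)
  have hPL : IsPicardLindelof (fun _ : ℝ => F) (⟨0, left_mem_Icc.mpr hT.le⟩ : Icc (0 : ℝ) T)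
      ((0, y0) : ode_E P × ode_E P) (Real.toNNReal (C * T)) 0 (Real.toNNReal C) K := by
    refine ⟨fun t _ => hK.lipschitzOnWith, fun x _ => continuousOn_const, fun t _ x _ => ?_, ?_⟩
    · rw [Real.coe_toNNReal _ hC0]
      exact hC x
    · rw [Real.coe_toNNReal _ hC0, Real.coe_toNNReal _ (by positivity)]
      simp [hT.le]
  obtain ⟨α, hα0, hα⟩ := hPL.exists_eq_forall_mem_Icc_hasDerivWithinAt₀
  have hα0' : α 0 = (0, y0) := hα0
  refine ⟨fun t => bmp (α t), fun t => ode_e P (α t).1, fun t => ode_e P (α t).2,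
    fun t => ode_e P (ode_pi P (ode_F P u0 (α t))), ?_, ?_, ?_⟩
  · constructor
    · show ode_e P (α 0).1 = 0
      rw [hα0', map_zero]
    · exact fun t _ => ode_mem P _
    · exact fun t _ => ode_mem P _
    · exact fun t _ => ode_mem P _
    · intro t _ h hh
      obtain ⟨x, hx⟩ := ode_surj P hh
      have := ode_pi_spec P (ode_F P u0 (α t)) x
      rw [ode_F_eq, hx] at this
      rw [ode_F_eq]
      exact this
    · exact fun t _ => ⟨bmp.nonneg, bmp.le_one⟩
    · intro n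
      have hd : ∀ t ∈ Icc 0 T, HasDerivWithinAt (fun t => (α t).1)
          (bmp (α t) • ((α t).2 - one)) (Icc 0 T) t := by
        intro t ht
        exact (ContinuousLinearMap.fst ℝ (ode_E P) (ode_E P)).hasFDerivAt.comp_hasDerivWithinAt t
          (hα t ht)
      refine (ode_hd P hL n hd).congr (fun t _ => rfl) (fun t _ => ?_)
      rw [cst_mul_eq, map_smul, map_sub, hone]
    · intro n
      have hd : ∀ t ∈ Icc 0 T, HasDerivWithinAt (fun t => (α t).2)
          (bmp (α t) • ode_pi P (ode_F P u0 (α t))) (Icc 0 T) t := by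
        intro t ht
        exact (ContinuousLinearMap.snd ℝ (ode_E P) (ode_E P)).hasFDerivAt.comp_hasDerivWithinAt t
          (hα t ht)
      refine (ode_hd P hL n hd).congr (fun t _ => rfl) (fun t _ => ?_)
      rw [cst_mul_eq, map_smul]
  · show ode_e P (α 0).2 = φ0
    rw [hα0', hy0]
  · intro t _ hN
    apply bmp.one_of_mem_closedBall
    show α t ∈ Metric.closedBall 0 (√(R / m) + 1)
    rw [mem_closedBall_zero_iff, Prod.norm_def]
    have key : ∀ g : ode_E P, N 0 (ode_e P g) ≤ R → ‖g‖ ≤ √(R / m) + 1 := by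
      intro g hg
      have h2 := (hmN g).trans hg
      have h3 : ‖g‖ ^ 2 ≤ R / m := by
        rw [le_div_iff₀ hm]; linarith
      have h4 : ‖g‖ ≤ √(R / m) := Real.le_sqrt_of_sq_le h3
      linarith
    have hN' : N 0 (ode_e P (α t).1) + N 0 (ode_e P (α t).2) ≤ R := hN
    have n1 := N_nonneg 0 (ode_e P (α t).1)
    have n2 := N_nonneg 0 (ode_e P (α t).2)
    exact max_le (key _ (by linarith)) (key _ (by linarith))

end

end Pool.Agent.H797
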