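import Pool.Agent.H797.Ring

set_option autoImplicit false
open Set

namespace Pool.Agent.H797

noncomputable section

/-- affine functions on the sphere -/
def polyW : Submodule ℝ Sm := Submodule.span ℝ ({1, X 0, X 1, X 2} : Set Sm)

theorem poly_one_mem : (1 : Sm) ∈ polyW := Submodule.subset_span (by simp)

theorem poly_X_mem (i : Fin 3) : X i ∈ polyW := by
  apply Submodule.subset_span
  fin_cases i <;> simp

theorem poly_one_le : (1 : Submodule ℝ Sm) ≤ polyW := by
  rw [Submodule.one_le]; exact poly_one_mem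

theorem poly_mono : Monotone (fun n : ℕ => polyW ^ n) := by
  apply monotone_nat_of_le_succ
  intro n
  calc polyW ^ n = polyW ^ n * 1 := (mul_one _).symm
    _ ≤ polyW ^ n * polyW := mul_le_mul_right poly_one_le _
    _ = polyW ^ (n + 1) := (pow_succ _ _).symm

theorem poly_L_X (i j : Fin 3) : L i (X j) ∈ polyW := by
  have h := poly_X_mem
  fin_cases i <;> fin_cases j <;> simp [h]

theorem poly_L_base (i : Fin 3) : ∀ g ∈ polyW, L i g ∈ polyW := by
  have : polyW ≤ polyW.comap (L i) := by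
    conv_lhs => rw [polyW]
    rw [Submodule.span_le]
    intro x hx
    rw [SetLike.mem_coe, Submodule.mem_comap]
    rcases hx with rfl | rfl | rfl | rfl
    · rw [L_one]; exact zero_mem _
    all_goals exact poly_L_X _ _
  exact this

theorem poly_L_pow (n : ℕ) (i : Fin 3) : ∀ g ∈ polyW ^ n, L i g ∈ polyW ^ n := by
  induction n with
  | zero =>
    intro g hg
    rw [pow_zero] at hg ⊢
    obtain ⟨r, rfl⟩ := Submodule.mem_one.mp hg
    rw [L_algebraMap]; exact zero_mem _
  | succ n ih =>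
    intro g hg
    rw [pow_succ] at hg ⊢
    refine Submodule.mul_induction_on hg ?_ ?_
    · intro a ha b hb
      rw [L_mul]
      exact add_mem (Submodule.mul_mem_mul (ih a ha) hb)
        (Submodule.mul_mem_mul ha (poly_L_base i b hb))
    · intro a b ha hb
      rw [map_add]; exact add_mem ha hb

theorem poly_fg (n : ℕ) : Module.Finite ℝ (polyW ^ n : Submodule ℝ Sm) := by
  have h1 : polyW.FG := Submodule.fg_span (by
    exact (Set.finite_singleton _).insert _ |>.insert _ |>.insert _)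
  exact Module.Finite.iff_fg.mpr (h1.pow n)

theorem poly_adjoin (f : Sm) (hf : f ∈ Algebra.adjoin ℝ (Set.range X)) : ∃ n : ℕ, f ∈ polyW ^ n := by
  induction hf using Algebra.adjoin_induction with
  | mem x hx =>
    obtain ⟨j, rfl⟩ := hx
    exact ⟨1, by rw [pow_one]; exact poly_X_mem j⟩
  | algebraMap r =>
    exact ⟨0, by rw [pow_zero]; exact Submodule.mem_one.mpr ⟨r, rfl⟩⟩
  | add x y _ _ hx hy =>
    obtain ⟨n, hn⟩ := hx
    obtain ⟨m, hm⟩ := hy
    exact ⟨max n m, add_mem (poly_mono (le_max_left n m) hn) (poly_mono (le_max_right n m) hm)⟩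
  | mul x y _ _ hx hy =>
    obtain ⟨n, hn⟩ := hx
    obtain ⟨m, hm⟩ := hy
    exact ⟨n + m, by rw [pow_add]; exact Submodule.mul_mem_mul hn hm⟩

/-- TASK POLY. -/
theorem exists_poly : ∃ P : ℕ → Submodule ℝ Sm, Monotone P ∧ (∀ n, Module.Finite ℝ (P n)) ∧
    (∀ n i, ∀ g ∈ P n, L i g ∈ P n) ∧ (∀ n, (1 : Sm) ∈ P n) ∧
    ∀ (g : C(S2, ℝ)) (ε : ℝ), 0 < ε → ∃ n, ∃ h ∈ P n, ‖g - h.1‖ < ε := by
  refine ⟨fun n => polyW ^ n, poly_mono, poly_fg, poly_L_pow, ?_, ?_⟩
  · intro n
    have h0 : (1 : Sm) ∈ polyW ^ 0 := by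
      rw [pow_zero]; exact Submodule.mem_one.mpr ⟨1, map_one _⟩
    exact poly_mono (Nat.zero_le n) h0
  · intro g ε hε
    let B : Subalgebra ℝ C(S2, ℝ) := (Algebra.adjoin ℝ (Set.range X)).map Sm.val
    have hB : B.SeparatesPoints := by
      intro p q hpq
      by_contra hcon
      push Not at hcon
      apply hpq
      apply Subtype.ext
      have hj : ∀ j : Fin 3, (p : E3) j = (q : E3) j := by
        intro j
        have := hcon (fun z => (X j).1 z) ⟨(X j).1, ⟨X j, Algebra.subset_adjoin ⟨j, rfl⟩, rfl⟩, rfl⟩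
        exact this
      exact ext3 (hj 0) (hj 1) (hj 2)
    obtain ⟨⟨b, hb⟩, hbε⟩ :=
      ContinuousMap.exists_mem_subalgebra_near_continuousMap_of_separatesPoints B hB g ε hε
    obtain ⟨h, hh, hhb⟩ := hb
    obtain ⟨n, hn⟩ := poly_adjoin h hh
    refine ⟨n, h, hn, ?_⟩
    have h2 : b = h.1 := hhb.symm
    rw [← h2, norm_sub_rev]
    exact hbε

end

end Pool.Agent.H797
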