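import Pool.Agent.H797.Gal1

set_option autoImplicit false
open Set MeasureTheory Filter Topology
open scoped ContDiff

namespace Pool.Agent.H797

noncomputable section

theorem proj_surj {V : Type*} [AddCommMonoid V] [Module ℝ V] [Module.Finite ℝ V]
    (f : V →ₗ[ℝ] Module.Dual ℝ V) (hf : Function.Injective f) : Function.Surjective f := by
  let _ := Module.addCommMonoidToAddCommGroup ℝ (M := V)
  have hfr : Module.finrank ℝ V = Module.finrank ℝ (Module.Dual ℝ V) :=
    (Subspace.dual_finrank_eq (K := ℝ) (V := V)).symm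
  exact (LinearMap.injective_iff_surjective_of_finrank_eq_finrank hfr).mp hf

/-- the bilinear pairing on a subspace -/
def proj_pair (P : Submodule ℝ Sm) : P →ₗ[ℝ] Module.Dual ℝ P :=
  LinearMap.mk₂ ℝ (fun g h => J (g.1 * h.1))
    (fun a b c => by rw [Submodule.coe_add, add_mul, map_add])
    (fun r a b => by rw [Submodule.coe_smul, smul_mul_assoc, map_smul])
    (fun a b c => by rw [Submodule.coe_add, mul_add, map_add])
    (fun r a b => by rw [Submodule.coe_smul, mul_smul_comm, map_smul])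

theorem proj_pair_apply (P : Submodule ℝ Sm) (g h : P) : proj_pair P g h = J (g.1 * h.1) := rfl

theorem proj_exists (P : Submodule ℝ Sm) [Module.Finite ℝ P] (f : Sm) :
    ∃ g ∈ P, ∀ h ∈ P, J (g * h) = J (f * h) := by
  have hinj : Function.Injective (proj_pair P) := by
    rw [injective_iff_map_eq_zero]
    intro g hg
    have h1 : J (g.1 * g.1) = 0 := by
      rw [← proj_pair_apply, hg]; rfl
    have h2 := J_zero (g := g.1 * g.1) (fun p => mul_self_nonneg _) h1
    apply Subtype.ext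
    apply sm_ext
    intro p
    have h3 : (g.1 * g.1).1 p = 0 := by rw [h2]; rfl
    rw [sm_mul] at h3
    exact mul_self_eq_zero.mp h3
  have hsurj : Function.Surjective (proj_pair P) := proj_surj _ hinj
  obtain ⟨g, hg⟩ := hsurj ((J ∘ₗ LinearMap.mulLeft ℝ f) ∘ₗ P.subtype)
  refine ⟨g.1, g.2, fun h hh => ?_⟩
  have := congrArg (fun φ => φ ⟨h, hh⟩) hg
  exact this

theorem proj_conv (P : ℕ → Submodule ℝ Sm) (hmono : Monotone P)
    (hL : ∀ n i, ∀ g ∈ P n, L i g ∈ P n)
    (hd : ∀ (g : C(S2, ℝ)) (ε : ℝ), 0 < ε → ∃ n, ∃ h ∈ P n, ‖g - h.1‖ < ε)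
    (f : Sm) (g : ℕ → Sm) (hg : ∀ n, g n ∈ P n)
    (hgp : ∀ n, ∀ h ∈ P n, J (g n * h) = J (f * h)) :
    (∀ k n, N k (g n) ≤ N k f) ∧ ∀ k, Tendsto (fun n => N k (g n - f)) atTop (𝓝 0) := by
  have hB : ∀ k n, ∀ h ∈ P n, B k (g n - f) h = 0 := by
    intro k n h hh
    apply B_perp (hL n) k _ _ h hh
    intro h hh
    rw [sub_mul, map_sub, hgp n h hh, sub_self]
  have hbd : ∀ k n, N k (g n) ≤ N k f := by
    intro k n
    have h1 := hB k n (g n) (hg n)
    rw [B_sub_left, B_self] at h1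
    have h2 := B_CS k f (g n)
    have h3 := N_nonneg k (g n)
    have e : B k f (g n) = N k (g n) := by linarith
    rw [e] at h2
    rcases eq_or_lt_of_le h3 with h4 | h4
    · rw [← h4]; exact N_nonneg _ _
    · have : N k (g n) * N k (g n) ≤ N k f * N k (g n) := by nlinarith
      exact le_of_mul_le_mul_right this h4
  refine ⟨hbd, ?_⟩
  -- low order convergence
  have h0 : ∀ δ : ℝ, 0 < δ → ∃ n0, ∀ n, n0 ≤ n → N 0 (g n - f) ≤ δ := by
    intro δ hδ
    have hm := mass_pos
    obtain ⟨n0, h, hh, hn⟩ := hd f.1 (√(δ / mass)) (Real.sqrt_pos.mpr (div_pos hδ hm))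
    refine ⟨n0, fun n hn0 => ?_⟩
    have h1 : N 0 (f - h) ≤ δ := by
      refine (N0_le_norm (f - h)).trans ?_
      have e : (f - h).1 = f.1 - h.1 := rfl
      have h2 : ‖(f - h).1‖ ^ 2 ≤ δ / mass := by
        rw [e]
        have h3 : ‖f.1 - h.1‖ ^ 2 ≤ (√(δ / mass)) ^ 2 :=
          pow_le_pow_left₀ (norm_nonneg _) hn.le 2
        rwa [Real.sq_sqrt (div_nonneg hδ.le hm.le)] at h3
      calc ‖(f - h).1‖ ^ 2 * mass ≤ δ / mass * mass := by gcongr
        _ = δ := by field_simp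
    have h2 : h - g n ∈ P n := (P n).sub_mem (hmono hn0 hh) (hg n)
    have h3 := hB 0 n (h - g n) h2
    have h4 : f - h = -((g n - f) + (h - g n)) := by ring
    rw [h4, N_neg, N_add, h3] at h1
    have := N_nonneg 0 (h - g n)
    linarith
  intro k
  rw [Metric.tendsto_atTop]
  intro ε hε
  obtain ⟨δ, hδ, hk⟩ := interp k (ε / 2) (4 * N (2 * k) f) (by positivity)
  obtain ⟨n0, hn0⟩ := h0 δ hδ
  refine ⟨n0, fun n hn => ?_⟩
  have h1 : N (2 * k) (g n - f) ≤ 4 * N (2 * k) f := by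
    have := N_sub_le (2 * k) (g n) f
    have := hbd (2 * k) n
    linarith
  have h2 := hk (g n - f) (hn0 n hn) h1
  rw [Real.dist_eq, sub_zero, abs_of_nonneg (N_nonneg _ _)]
  linarith

end

end Pool.Agent.H797
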