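import Pool.Agent.H797.Lip

set_option autoImplicit false
open Set MeasureTheory
open scoped ContDiff ENNReal

namespace Pool.Agent.H797

noncomputable section

/-- data of a conformal reflection -/
structure RD where
  n : E3
  hn : ‖n‖ = 1
  c : ℝ
  h1 : -1 < c
  h2 : c < 1

namespace RD

variable (R : RD)

/-- height -/
def s (x : E3) : ℝ := inner ℝ x R.n

/-- one homogeneous denominator -/
def q (x : E3) : ℝ := (1 + R.c ^ 2) * ‖x‖ - 2 * R.c * R.s x

/-- one homogeneous reflection -/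
def im (x : E3) : E3 := (1 - R.c ^ 2) • x - (2 * (R.s x - R.c * ‖x‖)) • R.n

theorem a_pos : 0 < 1 - R.c ^ 2 := by nlinarith [R.h1, R.h2]

theorem s_abs (x : E3) : |R.s x| ≤ ‖x‖ := by
  have := abs_real_inner_le_norm x R.n
  rwa [R.hn, mul_one] at this

theorem q_pos {x : E3} (hx : x ≠ 0) : 0 < R.q x := by
  have hn : 0 < ‖x‖ := norm_pos_iff.mpr hx
  have h := abs_le.mp (R.s_abs x)
  rw [q]
  rcases le_or_gt 0 R.c with hc | hc
  · have : 2 * R.c * R.s x ≤ 2 * R.c * ‖x‖ := by gcongr; exact h.2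
    have h3 : 0 < (1 - R.c) ^ 2 * ‖x‖ := by
      have : 0 < 1 - R.c := by linarith [R.h2]
      positivity
    nlinarith
  · have : 2 * R.c * R.s x ≤ -(2 * R.c) * ‖x‖ := by nlinarith [h.1]
    have h3 : 0 < (1 + R.c) ^ 2 * ‖x‖ := by
      have : 0 < 1 + R.c := by linarith [R.h1]
      positivity
    nlinarith

theorem im_norm_sq (x : E3) : ‖R.im x‖ ^ 2 = (R.q x) ^ 2 := by
  have e : ‖R.im x‖ ^ 2 = (1 - R.c ^ 2) ^ 2 * ‖x‖ ^ 2
      - 4 * (1 - R.c ^ 2) * (R.s x - R.c * ‖x‖) * R.s x + 4 * (R.s x - R.c * ‖x‖) ^ 2 := by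
    rw [im, norm_sub_sq_real, norm_smul, norm_smul, R.hn, inner_smul_left, inner_smul_right,
      Real.norm_eq_abs, Real.norm_eq_abs, mul_pow, sq_abs, mul_pow, sq_abs]
    simp only [RCLike.conj_to_real]
    rw [show inner ℝ x R.n = R.s x from rfl]
    ring
  rw [e, q]; ring

theorem im_norm (x : E3) (hx : x ≠ 0) : ‖R.im x‖ = R.q x := by
  have := R.im_norm_sq x
  rwa [sq_eq_sq₀ (norm_nonneg _) (R.q_pos hx).le] at this

theorem im_ne {x : E3} (hx : x ≠ 0) : R.im x ≠ 0 := by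
  rw [← norm_ne_zero_iff, R.im_norm x hx]
  exact (R.q_pos hx).ne'

theorem contDiffOn_im : ContDiffOn ℝ ∞ R.im U0 := by
  intro x hx
  have h1 : ContDiffAt ℝ ∞ (fun x : E3 => ‖x‖) x := contDiffAt_norm ℝ hx
  have h2 : ContDiffAt ℝ ∞ (fun x : E3 => R.s x) x := contDiffAt_id.inner ℝ contDiffAt_const
  have h3 : ContDiffAt ℝ ∞ (fun x : E3 => (2 * (R.s x - R.c * ‖x‖)) • R.n) x :=
    (contDiffAt_const.mul (h2.sub (contDiffAt_const.mul h1))).smul contDiffAt_const
  have h4 : ContDiffAt ℝ ∞ (fun x : E3 => (1 - R.c ^ 2) • x) x := contDiffAt_id.const_smul _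
  exact (h4.sub h3).contDiffWithinAt

/-- reflection on the sphere -/
def rS : C(S2, S2) :=
  ⟨fun p => proj (R.im p), by
    apply continuousOn_proj.comp_continuous
    · exact R.contDiffOn_im.continuousOn.comp_continuous continuous_subtype_val (fun p => S2_ne p)
    · exact fun p => R.im_ne (S2_ne p)⟩

theorem im_smul (r : ℝ) (hr : 0 < r) (x : E3) : R.im (r • x) = r • R.im x := by
  have h1 : R.s (r • x) = r * R.s x := by
    rw [s, inner_smul_left]; simp [s]
  rw [im, im, h1, norm_smul r x, Real.norm_of_nonneg hr.le]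
  module

theorem rS_proj {x : E3} (hx : x ≠ 0) : R.rS (proj x) = proj (R.im x) := by
  change proj (R.im (proj x)) = _
  rw [proj_val x hx, R.im_smul _ (inv_pos.mpr (norm_pos_iff.mpr hx)), proj_smul _
    (inv_pos.mpr (norm_pos_iff.mpr hx))]

/-- composition with the reflection -/
def cR (g : Sm) : Sm :=
  ⟨g.1.comp R.rS, by
    have h : ContDiffOn ℝ ∞ (fun x => ex g.1 (R.im x)) U0 :=
      (sm_ex g).comp R.contDiffOn_im (fun x hx => R.im_ne hx)
    refine h.congr (fun x hx => ?_)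
    change g.1 (R.rS (proj x)) = g.1 (proj (R.im x))
    rw [R.rS_proj hx]⟩

@[simp] theorem cR_apply (g : Sm) (p : S2) : (R.cR g).1 p = g.1 (R.rS p) := rfl

theorem ex_cR (g : Sm) {x : E3} (hx : x ≠ 0) : ex (R.cR g).1 x = ex g.1 (R.im x) := by
  change g.1 (R.rS (proj x)) = g.1 (proj (R.im x))
  rw [R.rS_proj hx]

/-- derivative of the reflection -/
def dim (x : E3) : E3 →L[ℝ] E3 :=
  (1 - R.c ^ 2) • ContinuousLinearMap.id ℝ E3
    - (2 • (innerSL ℝ R.n - (R.c * ‖x‖⁻¹) • innerSL ℝ x)).smulRight R.n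

theorem dim_apply (x k : E3) : R.dim x k = (1 - R.c ^ 2) • k
    - (2 * (inner ℝ R.n k - R.c * ‖x‖⁻¹ * inner ℝ x k)) • R.n := by
  simp only [dim, sub_apply, smul_apply, ContinuousLinearMap.smulRight_apply, innerSL_apply_apply,
    ContinuousLinearMap.id_apply, smul_eq_mul, nsmul_eq_mul]
  push_cast
  module

theorem hasFDerivAt_norm' {x : E3} (hx : x ≠ 0) :
    HasFDerivAt (fun x : E3 => ‖x‖) (‖x‖⁻¹ • innerSL ℝ x) x := by
  have hn : ‖x‖ ≠ 0 := norm_ne_zero_iff.mpr hx
  have h0 : HasFDerivAt (fun x : E3 => ‖x‖ ^ 2) (2 • (innerSL ℝ x)) x :=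
    (hasStrictFDerivAt_norm_sq x).hasFDerivAt
  have h2 := h0.sqrt (by positivity)
  have h3 : (fun x : E3 => √(‖x‖ ^ 2)) = fun x => ‖x‖ := by
    funext x; exact Real.sqrt_sq (norm_nonneg x)
  rw [h3] at h2
  refine h2.congr_fderiv ?_
  ext v
  rw [Real.sqrt_sq (norm_nonneg x)]
  simp
  field_simp

theorem hasFDerivAt_im {x : E3} (hx : x ≠ 0) : HasFDerivAt R.im (R.dim x) x := by
  have h1 := hasFDerivAt_norm' hx
  have h2 : HasFDerivAt (fun x : E3 => R.s x) (innerSL ℝ R.n) x := by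
    have h3 : HasFDerivAt (fun x : E3 => innerSL ℝ R.n x) (innerSL ℝ R.n) x :=
      (innerSL ℝ R.n).hasFDerivAt
    refine h3.congr_of_eventuallyEq ?_
    filter_upwards with y
    exact real_inner_comm _ _
  have h4 : HasFDerivAt (fun x : E3 => 2 * (R.s x - R.c * ‖x‖))
      ((2 : ℝ) • (innerSL ℝ R.n - R.c • (‖x‖⁻¹ • innerSL ℝ x))) x :=
    (h2.sub (h1.const_mul R.c)).const_mul 2
  have h5 := ((hasFDerivAt_id x).const_smul (1 - R.c ^ 2)).sub (h4.smul_const R.n)
  refine HasFDerivAt.congr_fderiv h5 ?_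
  ext1 k
  rw [R.dim_apply]
  simp only [sub_apply, smul_apply, ContinuousLinearMap.smulRight_apply, innerSL_apply_apply,
    ContinuousLinearMap.id_apply, smul_eq_mul]
  module

theorem hasFDerivAt_dimk (p : S2) (k : E3) :
    HasFDerivAt (fun x => R.dim x k)
      (((2 * R.c) • (innerSL ℝ k - (inner ℝ (p : E3) k : ℝ) • innerSL ℝ (p : E3))).smulRight R.n)
      (p : E3) := by
  have h1 := hasFDerivAt_norm' (S2_ne p)
  have hn : ‖(p : E3)‖ ≠ 0 := by rw [S2_norm]; norm_num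
  have h2 : HasFDerivAt (fun x : E3 => ‖x‖⁻¹) (-(innerSL ℝ (p : E3))) (p : E3) := by
    have h5 := (hasDerivAt_inv (x := ‖(p : E3)‖) hn).comp_hasFDerivAt (p : E3) h1
    refine HasFDerivAt.congr_fderiv h5 ?_
    ext v
    simp
  have h3 : HasFDerivAt (fun x : E3 => (inner ℝ x k : ℝ)) (innerSL ℝ k) (p : E3) := by
    have h4 : HasFDerivAt (fun x : E3 => innerSL ℝ k x) (innerSL ℝ k) (p : E3) :=
      (innerSL ℝ k).hasFDerivAt
    refine h4.congr_of_eventuallyEq ?_
    filter_upwards with y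
    exact real_inner_comm _ _
  have h4 := ((((h2.const_mul R.c).mul h3).const_sub (inner ℝ R.n k)).const_mul 2).smul_const R.n
  have h5 := h4.const_sub ((1 - R.c ^ 2) • k)
  refine (HasFDerivAt.congr_fderiv h5 ?_).congr_of_eventuallyEq ?_
  · ext1 v
    simp only [neg_apply, add_apply, sub_apply, smul_apply, ContinuousLinearMap.smulRight_apply,
      innerSL_apply_apply, smul_eq_mul, S2_norm]
    module
  · filter_upwards with x
    rw [R.dim_apply]
    rfl

theorem D2_cR (g : Sm) (p : S2) (h k : E3) :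
    D2 (R.cR g) p h k = D2 g (R.im p) (R.dim p h) (R.dim p k)
      + 2 * R.c * (inner ℝ k h - inner ℝ (p : E3) k * inner ℝ (p : E3) h)
        * fderiv ℝ (ex g.1) (R.im p) R.n := by
  have h1 : HasFDerivAt (fun x => fderiv ℝ (ex (R.cR g).1) x k) ((D2 (R.cR g) p).flip k) (p : E3) := by
    have := (hasFDerivAt_fd (R.cR g) (S2_ne p)).clm_apply (hasFDerivAt_const k (p : E3))
    refine HasFDerivAt.congr_fderiv this ?_
    ext v; simp
  have h2 : HasFDerivAt (fun x => fderiv ℝ (ex g.1) (R.im x)) ((D2 g (R.im p)).comp (R.dim p)) (p : E3) :=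
    (hasFDerivAt_fd g (R.im_ne (S2_ne p))).comp (p : E3) (R.hasFDerivAt_im (S2_ne p))
  have h3 := h2.clm_apply (R.hasFDerivAt_dimk p k)
  have h4 : (fun x => fderiv ℝ (ex (R.cR g).1) x k)
      =ᶠ[nhds (p : E3)] fun x => fderiv ℝ (ex g.1) (R.im x) (R.dim x k) := by
    filter_upwards [isOpen_U0.mem_nhds (S2_ne p)] with x hx
    have e1 : ex (R.cR g).1 =ᶠ[nhds x] fun y => ex g.1 (R.im y) := by
      filter_upwards [isOpen_U0.mem_nhds hx] with y hy
      exact R.ex_cR g hy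
    have e2 := (diffAt_ex g (R.im_ne hx)).hasFDerivAt.comp x (R.hasFDerivAt_im hx)
    rw [(e2.congr_of_eventuallyEq e1).fderiv]
    rfl
  have h5 := h1.unique (h3.congr_of_eventuallyEq h4)
  have h6 := congrArg (fun T : E3 →L[ℝ] ℝ => T h) h5
  simp only [ContinuousLinearMap.flip_apply, add_apply, ContinuousLinearMap.comp_apply,
    ContinuousLinearMap.smulRight_apply, smul_apply, sub_apply, innerSL_apply_apply, map_smul,
    smul_eq_mul] at h6
  rw [h6]
  ring

theorem im_sphere (p : S2) : R.im p = (1 - R.c ^ 2) • (p : E3) - (2 * (R.s p - R.c)) • R.n := by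
  rw [im, S2_norm, mul_one]

theorem q_sphere (p : S2) : R.q p = 1 + R.c ^ 2 - 2 * R.c * R.s p := by
  rw [q, S2_norm, mul_one]

/-- conformal covariance of the Laplacian -/
theorem lap_cR (g : Sm) (p : S2) :
    (lap (R.cR g)).1 p = ((1 - R.c ^ 2) / R.q p) ^ 2 * (lap g).1 (R.rS p) := by
  set y := R.im p with hy
  have hy0 : y ≠ 0 := R.im_ne (S2_ne p)
  set a := 1 - R.c ^ 2 with ha
  set q := R.q p with hq
  have hqpos : 0 < q := R.q_pos (S2_ne p)
  have hyq : ‖y‖ = q := R.im_norm p (S2_ne p)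
  set m : E3 := R.n - R.c • (p : E3) with hm
  have hT : ∀ k : E3, R.dim p k = a • k - (2 * inner ℝ m k) • R.n := by
    intro k
    rw [R.dim_apply, S2_norm, hm, inner_sub_left, inner_smul_left, ha]
    simp
  set B := D2 g y with hB
  have hsy : ∀ v w, B v w = B w v := fun v w => D2_symm g hy0 v w
  have hexp : ∀ i : Fin 3, D2 (R.cR g) p (ee i) (ee i)
      = a ^ 2 * B (ee i) (ee i) - 4 * a * m i * B (ee i) R.n + 4 * m i ^ 2 * B R.n R.n
        + 2 * R.c * (1 - (p : E3) i ^ 2) * fderiv ℝ (ex g.1) y R.n := by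
    intro i
    rw [R.D2_cR, hT]
    have e1 : inner ℝ m (ee i) = m i := by
      simp [ee, EuclideanSpace.inner_single_right]
    have e2 : inner ℝ (p : E3) (ee i) = (p : E3) i := by
      simp [ee, EuclideanSpace.inner_single_right]
    have e3 : inner ℝ (ee i) (ee i) = (1 : ℝ) := by
      simp [ee]
    rw [e1, e2, e3]
    simp only [map_sub, map_smul, sub_apply, smul_apply, smul_eq_mul]
    rw [← hB, hsy R.n (ee i)]
    ring
  rw [← trace_D2]
  simp only [hexp]
  have htr : q ^ 2 * ∑ i : Fin 3, B (ee i) (ee i) = (lap g).1 (R.rS p) := by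
    have := trace_D2' g hy0
    rw [hyq] at this
    rw [this]
    change (lap g).1 (proj y) = _
    rfl
  have hmn : ∑ i : Fin 3, m i * B (ee i) R.n = B m R.n := by
    have := lin_expand (B.flip R.n) m
    simp only [ContinuousLinearMap.flip_apply] at this
    rw [this, Fin.sum_univ_three]
  have hmm : ∑ i : Fin 3, m i ^ 2 = q := by
    have e1 : ‖m‖ ^ 2 = ∑ i : Fin 3, m i ^ 2 := by
      rw [EuclideanSpace.real_norm_sq_eq]
    rw [← e1, hm, norm_sub_sq_real, R.hn, norm_smul, S2_norm, inner_smul_right, hq, R.q_sphere]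
    rw [real_inner_comm, show inner ℝ (p : E3) R.n = R.s p from rfl]
    rw [mul_one, Real.norm_eq_abs, sq_abs]
    ring
  have hpp : ∑ i : Fin 3, (1 - (p : E3) i ^ 2) = 2 := by
    have := S2_sq p
    rw [Fin.sum_univ_three]; linarith
  have ham : a • m = q • R.n - R.c • y := by
    rw [hm, hy, R.im_sphere, hq, R.q_sphere, ha]
    module
  have hBm : a * B m R.n = q * B R.n R.n - R.c * B y R.n := by
    have := congrArg (fun v => B v R.n) ham
    simp only [map_smul, map_sub, smul_apply, sub_apply, smul_eq_mul] at this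
    exact this
  have hBy : B y R.n = - fderiv ℝ (ex g.1) y R.n := by
    rw [hsy]; exact D2_self g hy0 R.n
  rw [← htr]
  have hfin : ∑ i : Fin 3, (a ^ 2 * B (ee i) (ee i) - 4 * a * m i * B (ee i) R.n
      + 4 * m i ^ 2 * B R.n R.n + 2 * R.c * (1 - (p : E3) i ^ 2) * fderiv ℝ (ex g.1) y R.n)
      = a ^ 2 * ∑ i : Fin 3, B (ee i) (ee i) - 4 * a * ∑ i : Fin 3, m i * B (ee i) R.n
        + 4 * (∑ i : Fin 3, m i ^ 2) * B R.n R.n
        + 2 * R.c * (∑ i : Fin 3, (1 - (p : E3) i ^ 2)) * fderiv ℝ (ex g.1) y R.n := by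
    simp only [Fin.sum_univ_three]; ring
  rw [hfin, hmn, hmm, hpp]
  field_simp
  linear_combination (-4 : ℝ) * hBm + 4 * R.c * hBy

end RD

end

end Pool.Agent.H797
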