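import Pool.Agent.H797.Refl

set_option autoImplicit false
open Set MeasureTheory
open scoped ContDiff ENNReal

namespace Pool.Agent.H797

noncomputable section

open Classical in
/-- logarithm -/
def lgS (g : Sm) : Sm :=
  if h : ∀ p, 0 < g.1 p then
    ⟨⟨fun p => Real.log (g.1 p), (g.1.continuous).log (fun p => (h p).ne')⟩,
      (sm_ex g).log (fun x _ => (h (proj x)).ne')⟩
  else 0

theorem lgS_apply (g : Sm) (h : ∀ p, 0 < g.1 p) (p : S2) : (lgS g).1 p = Real.log (g.1 p) := by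
  rw [lgS, dif_pos h]; rfl

theorem L_lgS (i : Fin 3) (g : Sm) (h : ∀ p, 0 < g.1 p) : L i (lgS g) = invS g * L i g := by
  have h1 : expS (lgS g) = g := by
    apply sm_ext; intro p
    rw [expS_apply, lgS_apply g h, Real.exp_log (h p)]
  have h2 := L_expS i (lgS g)
  rw [h1] at h2
  have h3 := mul_invS g (fun p => (h p).ne')
  rw [h2, mul_left_comm, ← mul_assoc, h3, one_mul]

namespace RD

variable (R : RD)

def nX : Sm := cst (R.n 0) * X 0 + cst (R.n 1) * X 1 + cst (R.n 2) * X 2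

theorem nX_apply (p : S2) : R.nX.1 p = R.s p := by
  simp only [nX, sm_add, sm_mul, cst_apply, X_apply, s, inner3]
  ring

def qS : Sm := cst (1 + R.c ^ 2) - cst (2 * R.c) * R.nX

theorem qS_apply (p : S2) : R.qS.1 p = R.q p := by
  rw [qS, R.q_sphere, sm_sub, sm_mul, cst_apply, cst_apply, nX_apply]

theorem qS_pos (p : S2) : 0 < R.qS.1 p := by
  rw [qS_apply]; exact R.q_pos (S2_ne p)

def llam : Sm := cst (Real.log (1 - R.c ^ 2)) - lgS R.qS

theorem llam_apply (p : S2) : R.llam.1 p = Real.log (1 - R.c ^ 2) - Real.log (R.q p) := by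
  rw [llam, sm_sub, cst_apply, lgS_apply _ R.qS_pos, qS_apply]

theorem n_sq : R.n 0 ^ 2 + R.n 1 ^ 2 + R.n 2 ^ 2 = 1 := by
  rw [← norm_sq3, R.hn]; norm_num

theorem L_nX0 : L 0 R.nX = - (cst (R.n 1) * X 2) + cst (R.n 2) * X 1 := by
  simp only [nX, map_add, L_cst_mul, L00, L01, L02]; ring

theorem L_nX1 : L 1 R.nX = cst (R.n 0) * X 2 - cst (R.n 2) * X 0 := by
  simp only [nX, map_add, L_cst_mul, L10, L11, L12]; ring

theorem L_nX2 : L 2 R.nX = - (cst (R.n 0) * X 1) + cst (R.n 1) * X 0 := by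
  simp only [nX, map_add, L_cst_mul, L20, L21, L22]; ring

theorem lap_nX : lap R.nX = - (cst 2 * R.nX) := by
  rw [lap_eq3, L_nX0, L_nX1, L_nX2]
  simp only [map_add, map_sub, map_neg, L_cst_mul, L01, L02, L10, L12, L20, L21]
  rw [nX]
  apply sm_ext; intro p
  simp
  ring

theorem grad_nX (p : S2) : ((L 0 R.nX).1 p) ^ 2 + ((L 1 R.nX).1 p) ^ 2 + ((L 2 R.nX).1 p) ^ 2
    = 1 - (R.s p) ^ 2 := by
  rw [L_nX0, L_nX1, L_nX2, ← nX_apply, nX]
  simp only [sm_add, sm_sub, sm_neg, sm_mul, cst_apply, X_apply]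
  have h1 := R.n_sq
  have h2 := S2_sq p
  linear_combination ((p : E3) 0 ^ 2 + (p : E3) 1 ^ 2 + (p : E3) 2 ^ 2) * h1 + h2

theorem lap_llam (p : S2) : (lap R.llam).1 p = 1 - ((1 - R.c ^ 2) / R.q p) ^ 2 := by
  have hne : ∀ p, R.qS.1 p ≠ 0 := fun p => (R.qS_pos p).ne'
  have hL : ∀ i, L i R.llam = - (invS R.qS * L i R.qS) := by
    intro i
    rw [llam, map_sub, L_cst, L_lgS i _ R.qS_pos, zero_sub]
  have hLq : ∀ i, L i R.qS = - (cst (2 * R.c) * L i R.nX) := by
    intro i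
    rw [qS, map_sub, L_cst, L_cst_mul, zero_sub]
  have hLL : ∀ i, L i (L i R.llam) = cst (2 * R.c) * (invS R.qS * L i (L i R.nX))
      + cst (2 * R.c) * cst (2 * R.c) * (invS R.qS * invS R.qS * (L i R.nX * L i R.nX)) := by
    intro i
    rw [hL, hLq, map_neg, L_mul, L_invS i _ hne, hLq, map_neg, L_cst_mul]
    ring
  have hsum : lap R.llam = cst (2 * R.c) * (invS R.qS * lap R.nX)
      + cst (2 * R.c) * cst (2 * R.c) * (invS R.qS * invS R.qS *
        (L 0 R.nX * L 0 R.nX + L 1 R.nX * L 1 R.nX + L 2 R.nX * L 2 R.nX)) := by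
    rw [lap_eq3, hLL, hLL, hLL, lap_eq3 R.nX]; ring
  rw [hsum, lap_nX]
  have hg := R.grad_nX p
  have hq := R.q_sphere p
  have hqp := R.q_pos (S2_ne p)
  simp only [sm_add, sm_mul, sm_neg, cst_apply, invS_apply _ hne, qS_apply, nX_apply]
  have e : (L 0 R.nX).1 p * (L 0 R.nX).1 p + (L 1 R.nX).1 p * (L 1 R.nX).1 p
      + (L 2 R.nX).1 p * (L 2 R.nX).1 p = 1 - (R.s p) ^ 2 := by rw [← hg]; ring
  rw [e]
  field_simp
  rw [hq]
  ring

/-- the reflected difference -/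
def zD (u : Sm) : Sm := R.cR u + R.llam - u

theorem zD_apply (u : Sm) (p : S2) : (R.zD u).1 p
    = u.1 (R.rS p) + (Real.log (1 - R.c ^ 2) - Real.log (R.q p)) - u.1 p := by
  rw [zD, sm_sub, sm_add, cR_apply, llam_apply]

theorem ww_zD (u : Sm) (p : S2) :
    ((1 - R.c ^ 2) / R.q p) ^ 2 * (ww u).1 (R.rS p) = (ww u).1 p - (lap (R.zD u)).1 p := by
  rw [zD, map_sub, map_add, sm_sub, sm_add, lap_cR, lap_llam, ww, sm_sub, sm_sub, sm_one, sm_one]
  ring

theorem rS_bdry (p : S2) (hp : R.s p = R.c) : R.rS p = p := by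
  change proj (R.im p) = p
  rw [R.im_sphere, hp, sub_self, mul_zero, zero_smul, sub_zero, proj_smul _ R.a_pos, proj_coe]

theorem zD_bdry (u : Sm) (p : S2) (hp : R.s p = R.c) : (R.zD u).1 p = 0 := by
  rw [zD_apply, R.rS_bdry p hp, R.q_sphere, hp]
  have : 1 + R.c ^ 2 - 2 * R.c * R.c = 1 - R.c ^ 2 := by ring
  rw [this]; ring

theorem cont_s : Continuous (fun p : S2 => R.s p) := by
  unfold s; fun_prop

/-- the reflection inequality is preserved by the flow -/
theorem pres {T : ℝ} (hT : 0 ≤ T) {u : ℝ → Sm} (h : Sol T u)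
    (h0 : ∀ p : S2, R.c ≤ R.s p → 0 ≤ (R.zD (u 0)).1 p) :
    ∀ t ∈ Icc 0 T, ∀ p : S2, R.c ≤ R.s p → 0 ≤ (R.zD (u t)).1 p := by
  obtain ⟨C, hC⟩ := (isCompact_Icc (a := (0 : ℝ)) (b := T)).exists_bound_of_continuousOn
    (h.ffd 0).cont
  have hfC : ∀ t ∈ Icc 0 T, ∀ p, (ff (u t)).1 p ≤ C := by
    intro t ht p
    exact (le_abs_self _).trans (((ff (u t)).1.norm_coe_le_norm p).trans (hC t ht))
  have hC0 : 0 < C := (ff_pos (h.pos 0 ⟨le_rfl, hT⟩) pole).trans_le (hfC 0 ⟨le_rfl, hT⟩ pole)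
  by_contra hcon
  push Not at hcon
  obtain ⟨t1, ht1, p1, hp1, hz1⟩ := hcon
  set κ := 2 * C with hκ
  obtain ⟨ε, hε, hε2⟩ : ∃ ε : ℝ, 0 < ε ∧
      Real.exp (-κ * t1) * (R.zD (u t1)).1 p1 + ε * (t1 + 1) < 0 := by
    have h1 : Real.exp (-κ * t1) * (R.zD (u t1)).1 p1 < 0 :=
      mul_neg_of_pos_of_neg (Real.exp_pos _) hz1
    refine ⟨-(Real.exp (-κ * t1) * (R.zD (u t1)).1 p1) / (2 * (t1 + 1)), ?_, ?_⟩
    · have := ht1.1
      apply div_pos (by linarith) (by linarith)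
    · have := ht1.1
      have h2 : -(Real.exp (-κ * t1) * (R.zD (u t1)).1 p1) / (2 * (t1 + 1)) * (t1 + 1)
          = -(Real.exp (-κ * t1) * (R.zD (u t1)).1 p1) / 2 := by
        field_simp
      rw [h2]; linarith
  set D : Set S2 := {p | R.c ≤ R.s p} with hD
  have hDc : IsCompact D := by
    apply IsClosed.isCompact
    exact isClosed_le continuous_const R.cont_s
  set φ : ℝ × S2 → ℝ := fun z => Real.exp (-κ * z.1) * (R.zD (u z.1)).1 z.2 + ε * (z.1 + 1) with hφ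
  have hcu : ContinuousOn (fun z : ℝ × S2 => (u z.1).1 z.2) (Icc 0 T ×ˢ univ) :=
    cont_joint (h.flow 0).cont
  have hcz : ContinuousOn (fun z : ℝ × S2 => (R.zD (u z.1)).1 z.2) (Icc 0 T ×ˢ univ) := by
    have e1 : ContinuousOn (fun z : ℝ × S2 => (u z.1).1 (R.rS z.2)) (Icc 0 T ×ˢ univ) := by
      have e2 : ContinuousOn (fun z : ℝ × S2 => (z.1, R.rS z.2)) (Icc 0 T ×ˢ univ) := by
        fun_prop
      exact hcu.comp e2 (fun z hz => ⟨hz.1, mem_univ _⟩)
    have e3 : ContinuousOn (fun z : ℝ × S2 => R.llam.1 z.2) (Icc 0 T ×ˢ univ) := by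
      fun_prop
    exact (e1.add e3).sub hcu
  have hcφ : ContinuousOn φ (Icc 0 T ×ˢ D) := by
    have e1 : ContinuousOn φ (Icc 0 T ×ˢ univ) := by
      apply ContinuousOn.add
      · apply ContinuousOn.mul _ hcz
        fun_prop
      · fun_prop
    exact e1.mono (prod_mono le_rfl (subset_univ _))
  obtain ⟨⟨t0, p0⟩, hz, hmin⟩ := (isCompact_Icc.prod hDc).exists_isMinOn
    ⟨(t1, p1), ⟨ht1, hp1⟩⟩ hcφ
  have ht0 : t0 ∈ Icc 0 T := hz.1
  have hp0 : R.c ≤ R.s p0 := hz.2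
  have hmin' : ∀ t ∈ Icc 0 T, ∀ p ∈ D, φ (t0, p0) ≤ φ (t, p) :=
    fun t ht p hp => hmin (show (t, p) ∈ Icc 0 T ×ˢ D from ⟨ht, hp⟩)
  have hneg : φ (t0, p0) < 0 := (hmin' t1 ht1 p1 hp1).trans_lt hε2
  have hex := Real.exp_pos (-κ * t0)
  have hzneg : (R.zD (u t0)).1 p0 < 0 := by
    by_contra hh
    push Not at hh
    have : 0 ≤ φ (t0, p0) := by
      simp only [hφ]
      have := ht0.1
      positivity
    linarith
  have ht0pos : 0 < t0 := by
    rcases lt_or_eq_of_le ht0.1 with h' | h'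
    · exact h'
    · exfalso
      rw [← h'] at hzneg
      exact absurd (h0 p0 hp0) (not_le.mpr hzneg)
  have hint : R.c < R.s p0 := by
    rcases lt_or_eq_of_le hp0 with h' | h'
    · exact h'
    · exfalso
      rw [R.zD_bdry _ p0 h'.symm] at hzneg
      exact lt_irrefl _ hzneg
  -- spatial minimum
  have hloc : ∀ᶠ q in nhds p0, (R.zD (u t0)).1 p0 ≤ (R.zD (u t0)).1 q := by
    have h1 : ∀ᶠ q : S2 in nhds p0, R.c < R.s q := R.cont_s.continuousAt.eventually_const_lt hint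
    filter_upwards [h1] with q hq
    have h2 := hmin' t0 ht0 q hq.le
    simp only [hφ] at h2
    have h3 : Real.exp (-κ * t0) * (R.zD (u t0)).1 p0 ≤ Real.exp (-κ * t0) * (R.zD (u t0)).1 q := by
      linarith
    exact le_of_mul_le_mul_left h3 hex
  have hlap := lap_of_min _ _ hloc
  -- reaction inequality
  have hw := h.pos t0 ht0
  have hkey : 2 * (R.zD (u t0)).1 p0 * C ≤ (ff (u t0)).1 (R.rS p0) - (ff (u t0)).1 p0 := by
    set z := (R.zD (u t0)).1 p0 with hzz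
    have hq := R.q_pos (S2_ne p0)
    have hww := R.ww_zD (u t0) p0
    have hwle : ((1 - R.c ^ 2) / R.q p0) ^ 2 * (ww (u t0)).1 (R.rS p0) ≤ (ww (u t0)).1 p0 := by
      linarith
    have hb : (bet (u t0)).1 (R.rS p0) = (bet (u t0)).1 p0 * Real.exp (-2 * z)
        * ((1 - R.c ^ 2) / R.q p0) ^ 2 := by
      rw [bet_apply, bet_apply]
      have e1 : (u t0).1 (R.rS p0) = (u t0).1 p0 + z - Real.log ((1 - R.c ^ 2) / R.q p0) := by
        rw [hzz, zD_apply, Real.log_div R.a_pos.ne' hq.ne']; ring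
      have e2 : Real.exp (-2 * (u t0).1 (R.rS p0)) = Real.exp (-2 * (u t0).1 p0)
          * Real.exp (-2 * z) * ((1 - R.c ^ 2) / R.q p0) ^ 2 := by
        have e3 : ((1 - R.c ^ 2) / R.q p0) ^ 2
            = Real.exp (2 * Real.log ((1 - R.c ^ 2) / R.q p0)) := by
          rw [two_mul, Real.exp_add, Real.exp_log (div_pos R.a_pos hq)]; ring
        rw [e3, ← Real.exp_add, ← Real.exp_add, e1]
        congr 1; ring
      rw [e2]; ring
    have hf1 := ff_apply hw (R.rS p0)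
    have hf0 := ff_apply hw p0
    have hbp := bet_pos (u t0) p0
    have hwp := hw p0
    have hwr := hw (R.rS p0)
    have hbr := bet_pos (u t0) (R.rS p0)
    have hprod : (bet (u t0)).1 (R.rS p0) * (ww (u t0)).1 (R.rS p0)
        ≤ (bet (u t0)).1 p0 * (ww (u t0)).1 p0 * Real.exp (-2 * z) := by
      rw [hb]
      have : (bet (u t0)).1 p0 * Real.exp (-2 * z) * ((1 - R.c ^ 2) / R.q p0) ^ 2
          * (ww (u t0)).1 (R.rS p0) = (bet (u t0)).1 p0 * Real.exp (-2 * z)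
          * (((1 - R.c ^ 2) / R.q p0) ^ 2 * (ww (u t0)).1 (R.rS p0)) := by ring
      rw [this]
      calc _ ≤ (bet (u t0)).1 p0 * Real.exp (-2 * z) * (ww (u t0)).1 p0 := by
            have := Real.exp_pos (-2 * z)
            gcongr
        _ = _ := by ring
    have hfr : (ff (u t0)).1 p0 * Real.exp (2 * z) ≤ (ff (u t0)).1 (R.rS p0) := by
      rw [hf1, hf0]
      have e1 : ((bet (u t0)).1 p0 * (ww (u t0)).1 p0)⁻¹ * Real.exp (2 * z)
          = ((bet (u t0)).1 p0 * (ww (u t0)).1 p0 * Real.exp (-2 * z))⁻¹ := by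
        have e4 : Real.exp (2 * z) = (Real.exp (-2 * z))⁻¹ := by
          rw [← Real.exp_neg]; congr 1; ring
        rw [e4, ← mul_inv]
      rw [e1]
      exact inv_anti₀ (by positivity) hprod
    have hexp : 1 + 2 * z ≤ Real.exp (2 * z) := by
      have := Real.add_one_le_exp (2 * z); linarith
    have hfp := ff_pos hw p0
    have hfc := hfC t0 ht0 p0
    have h5 : (ff (u t0)).1 p0 * (1 + 2 * z) ≤ (ff (u t0)).1 (R.rS p0) :=
      (mul_le_mul_of_nonneg_left hexp hfp.le).trans hfr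
    nlinarith
  -- time derivative
  have hd : HasDerivWithinAt (fun t => - φ (t, p0))
      (-(Real.exp (-κ * t0) * ((ff (u t0)).1 (R.rS p0) - (ff (u t0)).1 p0
        - κ * (R.zD (u t0)).1 p0) + ε)) (Icc 0 T) t0 := by
    have d1 := (h.flow 0).pt (R.rS p0) t0 ht0
    have d2 := (h.flow 0).pt p0 t0 ht0
    have d3 : HasDerivWithinAt (fun t => (R.zD (u t)).1 p0)
        ((ff (u t0)).1 (R.rS p0) - (ff (u t0)).1 p0) (Icc 0 T) t0 := by
      have := (d1.add_const (Real.log (1 - R.c ^ 2) - Real.log (R.q p0))).sub d2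
      refine HasDerivWithinAt.congr_deriv (this.congr_of_eventuallyEq ?_ ?_) ?_
      · filter_upwards with t
        exact R.zD_apply (u t) p0
      · exact R.zD_apply (u t0) p0
      · rw [sm_sub, sm_sub, sm_one, sm_one]; ring
    have d4 : HasDerivWithinAt (fun t : ℝ => Real.exp (-κ * t)) (Real.exp (-κ * t0) * (-κ))
        (Icc 0 T) t0 := by
      have := ((hasDerivAt_id t0).const_mul (-κ)).exp.hasDerivWithinAt (s := Icc 0 T)
      simpa using this
    have d5 : HasDerivWithinAt (fun t : ℝ => ε * (t + 1)) ε (Icc 0 T) t0 := by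
      have := (((hasDerivAt_id t0).add_const 1).const_mul ε).hasDerivWithinAt (s := Icc 0 T)
      simpa using this
    have d6 := ((d4.mul d3).add d5).neg
    refine HasDerivWithinAt.congr_deriv d6 ?_
    ring
  have hle := left_deriv_nonneg ht0 ht0pos hd (fun s hs => by
    have := hmin' s ⟨hs.1, hs.2.trans ht0.2⟩ p0 hp0
    linarith)
  have h6 : 0 ≤ (ff (u t0)).1 (R.rS p0) - (ff (u t0)).1 p0 - κ * (R.zD (u t0)).1 p0 := by
    rw [hκ]; linarith
  have h7 : 0 ≤ Real.exp (-κ * t0) * ((ff (u t0)).1 (R.rS p0) - (ff (u t0)).1 p0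
        - κ * (R.zD (u t0)).1 p0) := mul_nonneg hex.le h6
  linarith

end RD

end

end Pool.Agent.H797
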