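import Pool.Agent.H797.Refl2

set_option autoImplicit false
open Set MeasureTheory
open scoped ContDiff ENNReal

namespace Pool.Agent.H797

noncomputable section

namespace RD

theorem rS_coe (R : RD) (p : S2) : ((R.rS p : S2) : E3) = (R.q p)⁻¹ • R.im p := by
  change ((proj (R.im p) : S2) : E3) = _
  rw [proj_val _ (R.im_ne (S2_ne p)), R.im_norm _ (S2_ne p)]

/-- displacement of the reflection -/
theorem rS_dist (R : RD) (p : S2) (hp : R.c ≤ R.s p) :
    ‖((R.rS p : S2) : E3) - p‖ = 2 * (R.s p - R.c) / √(R.q p) := by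
  have hq := R.q_pos (S2_ne p)
  have h1 : ((R.rS p : S2) : E3) - p = (2 * (R.s p - R.c) / R.q p) • (R.c • (p : E3) - R.n) := by
    rw [rS_coe, R.im_sphere]
    have h2 : (1 - R.c ^ 2) = R.q p + 2 * R.c * (R.s p - R.c) := by rw [R.q_sphere]; ring
    rw [h2]
    have hq' := hq.ne'
    revert hq'
    generalize R.q p = Q
    generalize R.s p = σ
    intro hq'
    ext j
    simp only [PiLp.sub_apply, PiLp.smul_apply, smul_eq_mul]
    field_simp
    ring
  have h5 : ‖R.c • (p : E3) - R.n‖ = √(R.q p) := by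
    rw [eq_comm, Real.sqrt_eq_iff_mul_self_eq hq.le (norm_nonneg _), ← sq, norm_sub_sq_real,
      R.hn, norm_smul, S2_norm, inner_smul_left, R.q_sphere, mul_one, Real.norm_eq_abs, sq_abs]
    simp only [RCLike.conj_to_real]
    rw [show inner ℝ (p : E3) R.n = R.s p from rfl]
    ring
  rw [h1, norm_smul, h5, Real.norm_of_nonneg (by
    have : 0 ≤ R.s p - R.c := by linarith
    positivity)]
  have h6 := Real.mul_self_sqrt hq.le
  have h7 : 0 < √(R.q p) := Real.sqrt_pos.mpr hq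
  rw [div_mul_eq_mul_div, div_eq_div_iff hq.ne' h7.ne']
  rw [mul_assoc, h6]

/-- any two distinct points are exchanged by a reflection with given parameter -/
theorem exists_pair (c : ℝ) (hc0 : 0 < c) (hc1 : c < 1) (x y : S2) (hxy : x ≠ y) :
    ∃ R : RD, R.c = c ∧ c ≤ R.s x ∧ R.rS x = y ∧
      Real.log (1 - R.c ^ 2) - Real.log (R.q x) ≤ c / (1 - c) * ‖(x : E3) - y‖ := by
  set d := ‖(x : E3) - y‖ with hd
  have hd0 : 0 < d := by
    rw [hd, norm_pos_iff, sub_ne_zero]
    exact fun h => hxy (Subtype.ext h)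
  have hd2 : d ≤ 2 := by
    have := norm_sub_le (x : E3) (y : E3)
    rw [S2_norm, S2_norm] at this
    linarith
  have hin : inner ℝ (x : E3) (x - y) = d ^ 2 / 2 := by
    rw [hd, norm_sub_sq_real, S2_norm, S2_norm, inner_sub_right, real_inner_self_eq_norm_sq, S2_norm]
    ring
  obtain ⟨r, hr0, hr⟩ : ∃ r : ℝ, 0 < r ∧ r ^ 2 + c * d * r = 1 - c ^ 2 := by
    have h1 : 0 ≤ (c * d) ^ 2 + 4 * (1 - c ^ 2) := by nlinarith [sq_nonneg (c * d)]
    have h3 : c * d < √((c * d) ^ 2 + 4 * (1 - c ^ 2)) := by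
      apply Real.lt_sqrt_of_sq_lt
      nlinarith
    refine ⟨(-(c * d) + √((c * d) ^ 2 + 4 * (1 - c ^ 2))) / 2, by linarith, ?_⟩
    have h2 := Real.sq_sqrt h1
    nlinarith
  set ρ := r / d with hρ
  have hρ0 : 0 < ρ := by positivity
  have hρd : ρ * d = r := by rw [hρ]; field_simp
  set n : E3 := c • (x : E3) + ρ • ((x : E3) - y) with hn
  have hnn : ‖n‖ ^ 2 = 1 := by
    rw [hn, norm_add_sq_real, norm_smul, norm_smul, S2_norm, inner_smul_left, inner_smul_right, hin,
      ← hd, Real.norm_eq_abs, Real.norm_eq_abs, mul_one, mul_pow, sq_abs, sq_abs]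
    simp only [RCLike.conj_to_real]
    have e : c ^ 2 + 2 * (c * (ρ * (d ^ 2 / 2))) + ρ ^ 2 * d ^ 2
        = c ^ 2 + c * d * (ρ * d) + (ρ * d) ^ 2 := by ring
    rw [e, hρd]; linarith
  have hn1 : ‖n‖ = 1 := by
    have : ‖n‖ ^ 2 = 1 ^ 2 := by rw [hnn]; norm_num
    exact (sq_eq_sq₀ (norm_nonneg _) (by norm_num)).mp this
  let R : RD := ⟨n, hn1, c, by linarith, hc1⟩
  have hs : R.s x = c + ρ * (d ^ 2 / 2) := by
    change inner ℝ (x : E3) n = _
    rw [hn, inner_add_right, inner_smul_right, inner_smul_right, hin, real_inner_self_eq_norm_sq,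
      S2_norm]
    ring
  have hq : R.q x = r ^ 2 := by
    rw [R.q_sphere, hs]
    change 1 + c ^ 2 - 2 * c * (c + ρ * (d ^ 2 / 2)) = r ^ 2
    have : 2 * c * (c + ρ * (d ^ 2 / 2)) = 2 * c ^ 2 + c * d * (ρ * d) := by ring
    rw [this, hρd]; linarith
  refine ⟨R, rfl, ?_, ?_, ?_⟩
  · rw [hs]
    have : 0 ≤ ρ * (d ^ 2 / 2) := by positivity
    linarith
  · apply Subtype.ext
    rw [R.rS_coe, R.im_sphere, hq, hs]
    change (r ^ 2)⁻¹ • ((1 - c ^ 2) • (x : E3) - (2 * (c + ρ * (d ^ 2 / 2) - c)) • n) = y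
    have e1 : (1 - c ^ 2) • (x : E3) - (2 * (c + ρ * (d ^ 2 / 2) - c)) • n = r ^ 2 • (y : E3) := by
      have e2 : (2 * (c + ρ * (d ^ 2 / 2) - c)) = r * d := by
        rw [← hρd]; ring
      rw [e2, hn, smul_add, smul_smul, smul_smul]
      have e3 : r * d * ρ = r ^ 2 := by
        calc r * d * ρ = r * (ρ * d) := by ring
          _ = r ^ 2 := by rw [hρd]; ring
      rw [e3, ← hr]
      module
    rw [e1, smul_smul, inv_mul_cancel₀ (by positivity), one_smul]
  · have ha := R.a_pos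
    change Real.log (1 - c ^ 2) - Real.log (R.q x) ≤ c / (1 - c) * d
    rw [hq, ← Real.log_div ha.ne' (by positivity)]
    have h1c : 0 < 1 - c := by linarith
    have hrc : 1 - c ≤ r := by
      have : 1 ≤ (r + c) ^ 2 := by
        have : c * d * r ≤ c * 2 * r := by gcongr
        nlinarith
      nlinarith
    have h2 : (1 - c ^ 2) / r ^ 2 = 1 + c * d / r := by
      rw [← hr]; field_simp
    rw [h2]
    have h3 : Real.log (1 + c * d / r) ≤ c * d / r := by
      have := Real.log_le_sub_one_of_pos (show 0 < 1 + c * d / r by positivity)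
      linarith
    refine h3.trans ?_
    rw [div_mul_eq_mul_div]
    gcongr

/-- Lipschitz bound from the reflection inequalities -/
theorem lip_of_refl (c : ℝ) (hc0 : 0 < c) (hc1 : c < 1) (u : Sm)
    (h : ∀ R : RD, R.c = c → ∀ p : S2, c ≤ R.s p → 0 ≤ (R.zD u).1 p) (x y : S2) :
    |u.1 x - u.1 y| ≤ c / (1 - c) * ‖(x : E3) - y‖ := by
  have key : ∀ x y : S2, x ≠ y → u.1 x - u.1 y ≤ c / (1 - c) * ‖(x : E3) - y‖ := by
    intro x y hxy
    obtain ⟨R, hRc, hs, hr, hl⟩ := exists_pair c hc0 hc1 x y hxy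
    have := h R hRc x hs
    rw [R.zD_apply, hr] at this
    linarith
  by_cases hxy : x = y
  · rw [hxy]; simp
  · rw [abs_le]
    constructor
    · have := key y x (Ne.symm hxy)
      rw [norm_sub_rev] at this
      linarith
    · exact key x y hxy

/-- a Lipschitz function satisfies all reflection inequalities for large parameter -/
theorem refl_of_lip (G : ℝ) (hG : 0 ≤ G) : ∃ c : ℝ, 0 < c ∧ c < 1 ∧ ∀ u : Sm,
    (∀ x y : S2, |u.1 x - u.1 y| ≤ G * ‖(x : E3) - y‖) →
    ∀ R : RD, R.c = c → ∀ p : S2, c ≤ R.s p → 0 ≤ (R.zD u).1 p := by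
  obtain ⟨δ, hδ0, hδ1, hδ2⟩ : ∃ δ : ℝ, 0 < δ ∧ δ ≤ 1 / 2 ∧ 2 * G * δ ≤ Real.exp (-(2 * G)) := by
    refine ⟨min (1 / 2) (Real.exp (-(2 * G)) / (2 * (G + 1))), ?_, min_le_left _ _, ?_⟩
    · have := Real.exp_pos (-(2 * G))
      positivity
    · calc 2 * G * min (1 / 2) (Real.exp (-(2 * G)) / (2 * (G + 1)))
          ≤ 2 * G * (Real.exp (-(2 * G)) / (2 * (G + 1))) := by
            gcongr; exact min_le_right _ _
        _ ≤ 2 * (G + 1) * (Real.exp (-(2 * G)) / (2 * (G + 1))) := by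
            have := Real.exp_pos (-(2 * G))
            gcongr; linarith
        _ = _ := by field_simp
  set c := √(1 - δ ^ 2) with hc
  have hδsq : δ ^ 2 ≤ 1 / 4 := by nlinarith
  have hcsq : c ^ 2 = 1 - δ ^ 2 := Real.sq_sqrt (by linarith)
  have hchalf : 1 / 2 ≤ c := by
    apply Real.le_sqrt_of_sq_le; nlinarith
  have hc1 : c < 1 := by
    rw [hc, Real.sqrt_lt' one_pos]; nlinarith
  refine ⟨c, by linarith, hc1, fun u hu R hR p hp => ?_⟩
  have hq := R.q_pos (S2_ne p)
  have hp' : R.c ≤ R.s p := by rw [hR]; exact hp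
  have hdist := R.rS_dist p hp'
  have h1 := hu (R.rS p) p
  rw [hdist] at h1
  have h2 := (abs_le.mp h1).1
  rw [R.zD_apply]
  have ha : 1 - R.c ^ 2 = δ ^ 2 := by rw [hR, hcsq]; ring
  have hqs := R.q_sphere p
  set Q := R.q p with hQ
  set sq := √Q with hsq
  have hsq0 : 0 < sq := Real.sqrt_pos.mpr hq
  have hsqsq : sq ^ 2 = Q := Real.sq_sqrt hq.le
  -- the main inequality
  have hsc : 2 * (R.s p - R.c) = (δ ^ 2 - Q) / c := by
    rw [eq_div_iff (by linarith), hqs, hR]
    linear_combination (-1 : ℝ) * hcsq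
  set θ := δ / sq with hθ
  have hθ0 : 0 < θ := by positivity
  have hθ1 : 1 ≤ θ := by
    rw [hθ, one_le_div hsq0]
    have : sq ^ 2 ≤ δ ^ 2 := by
      rw [hsqsq]
      have : 0 ≤ (δ ^ 2 - Q) / c := by rw [← hsc]; linarith
      have hc0 : 0 < c := by linarith
      have := (div_nonneg_iff.mp this)
      rcases this with h | h
      · linarith [h.1]
      · linarith [h.2]
    nlinarith
  have hθmax : δ * θ ≤ 2 := by
    have h3 : (1 - c) ^ 2 ≤ Q := by
      rw [hqs, hR]
      have := (abs_le.mp (R.s_abs p)).2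
      rw [S2_norm] at this
      nlinarith
    have h4 : 1 - c ≤ sq := by
      apply Real.le_sqrt_of_sq_le; exact h3
    have h5 : δ * δ = (1 - c) * (1 + c) := by linear_combination hcsq
    rw [hθ, ← mul_div_assoc, div_le_iff₀ hsq0, h5]
    have h6 : (1 - c) * (1 + c) ≤ sq * 2 := mul_le_mul h4 (by linarith) (by linarith) hsq0.le
    linarith
  have hlog : Real.log (1 - R.c ^ 2) - Real.log Q = 2 * Real.log θ := by
    rw [ha, hθ, Real.log_div hδ0.ne' hsq0.ne', Real.log_pow, ← hsqsq, Real.log_pow]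
    push_cast; ring
  have hD : 2 * (R.s p - R.c) / sq = δ / c * (θ - 1 / θ) := by
    rw [hsc, hθ, ← hsqsq]
    field_simp
  set G' := G * δ / c with hG'
  have hG'0 : 0 ≤ G' := by positivity
  have hG'1 : G' ≤ Real.exp (-(2 * G)) := by
    refine le_trans ?_ hδ2
    rw [hG', div_le_iff₀ (by linarith)]
    calc G * δ = 2 * G * δ * (1 / 2) := by ring
      _ ≤ 2 * G * δ * c := by gcongr
  have hexp1 : Real.exp (-(2 * G)) ≤ 1 := Real.exp_le_one_iff.mpr (by linarith)
  have hmain : G' * (θ - 1 / θ) ≤ 2 * Real.log θ := by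
    by_cases hcase : G' * (θ + 1) ≤ 2
    · have h3 : 1 - 1 / θ ≤ Real.log θ := by
        have := Real.one_sub_inv_le_log_of_pos hθ0
        rwa [← one_div] at this
      have h4 : G' * (θ - 1 / θ) = (G' * (θ + 1)) * (1 - 1 / θ) := by
        field_simp
        ring
      have h5 : 0 ≤ 1 - 1 / θ := by
        rw [sub_nonneg, div_le_one hθ0]; exact hθ1
      rw [h4]
      calc (G' * (θ + 1)) * (1 - 1 / θ) ≤ 2 * (1 - 1 / θ) :=
            mul_le_mul_of_nonneg_right hcase h5
        _ ≤ 2 * Real.log θ := by linarith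
    · push Not at hcase
      have hG'pos : 0 < G' := by
        rcases lt_or_eq_of_le hG'0 with h | h
        · exact h
        · rw [← h] at hcase; norm_num at hcase
      have h3 : 1 / G' ≤ θ := by
        rw [div_le_iff₀ hG'pos]
        have : G' ≤ 1 := hG'1.trans hexp1
        linarith
      have h4 : 2 * G ≤ Real.log θ := by
        have h5 : Real.exp (2 * G) ≤ 1 / G' := by
          rw [le_div_iff₀ hG'pos]
          calc Real.exp (2 * G) * G' ≤ Real.exp (2 * G) * Real.exp (-(2 * G)) := by gcongr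
            _ = 1 := by rw [← Real.exp_add]; simp
        rw [Real.le_log_iff_exp_le hθ0]
        exact h5.trans h3
      have h6 : G' * (θ - 1 / θ) ≤ G' * θ := by
        have h8 : 0 < 1 / θ := by positivity
        exact mul_le_mul_of_nonneg_left (by linarith) hG'0
      have h7 : G' * θ ≤ 4 * G := by
        have : G' * θ = G * (δ * θ) / c := by rw [hG']; ring
        rw [this, div_le_iff₀ (by linarith)]
        calc G * (δ * θ) ≤ G * 2 := by gcongr
          _ = 4 * G * (1 / 2) := by ring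
          _ ≤ 4 * G * c := by gcongr
      linarith
  have hfin : G * (2 * (R.s p - R.c) / sq) = G' * (θ - 1 / θ) := by
    rw [hD, hG']; ring
  rw [hlog]
  linarith

end RD

/-- uniform gradient bound along the flow -/
theorem grad_bound (G0 : ℝ) (hG0 : 0 ≤ G0) : ∃ G : ℝ, 0 ≤ G ∧ ∀ (T : ℝ) (u : ℝ → Sm), 0 ≤ T →
    Sol T u → (∀ x y : S2, |(u 0).1 x - (u 0).1 y| ≤ G0 * ‖(x : E3) - y‖) →
    ∀ t ∈ Icc 0 T, ∀ x y : S2, |(u t).1 x - (u t).1 y| ≤ G * ‖(x : E3) - y‖ := by
  obtain ⟨c, hc0, hc1, hc⟩ := RD.refl_of_lip G0 hG0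
  have h1c : 0 < 1 - c := by linarith
  refine ⟨c / (1 - c), by positivity, fun T u hT hsol h0 t ht x y => ?_⟩
  apply RD.lip_of_refl c hc0 hc1
  intro R hR p hp
  exact R.pres hT hsol (fun q hq => hc (u 0) h0 R hR q (by rw [← hR]; exact hq)) t ht p
    (by rw [hR]; exact hp)

end

end Pool.Agent.H797
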