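import Mathlib

set_option autoImplicit false
open Set
open scoped ContDiff

namespace Pool.Agent.H797

noncomputable section

abbrev E3 : Type := EuclideanSpace ℝ (Fin 3)
abbrev S2 : Type := Metric.sphere (0 : E3) 1

theorem norm_sq3 (x : E3) : ‖x‖ ^ 2 = x 0 ^ 2 + x 1 ^ 2 + x 2 ^ 2 := by
  rw [EuclideanSpace.real_norm_sq_eq, Fin.sum_univ_three]

theorem S2_norm (p : S2) : ‖(p : E3)‖ = 1 := by
  have := p.2
  simp

theorem S2_ne (p : S2) : (p : E3) ≠ 0 := by
  intro h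
  have := S2_norm p
  rw [h] at this
  simp at this

theorem S2_sq (p : S2) : (p : E3) 0 ^ 2 + (p : E3) 1 ^ 2 + (p : E3) 2 ^ 2 = 1 := by
  rw [← norm_sq3, S2_norm]; norm_num

def pole : S2 := ⟨EuclideanSpace.single 0 1, by simp⟩

theorem nrm_mem (x : E3) (hx : x ≠ 0) : ‖x‖⁻¹ • x ∈ Metric.sphere (0 : E3) 1 := by
  simp [norm_smul, hx]

open Classical in
def proj (x : E3) : S2 := if h : x = 0 then pole else ⟨‖x‖⁻¹ • x, nrm_mem x h⟩

theorem proj_val (x : E3) (hx : x ≠ 0) : (proj x : E3) = ‖x‖⁻¹ • x := by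
  simp [proj, hx]

theorem proj_coe (p : S2) : proj (p : E3) = p := by
  apply Subtype.ext
  rw [proj_val _ (S2_ne p), S2_norm]; simp

theorem proj_smul (r : ℝ) (hr : 0 < r) (x : E3) : proj (r • x) = proj x := by
  by_cases hx : x = 0
  · simp [hx]
  · apply Subtype.ext
    have h2 : r • x ≠ 0 := smul_ne_zero hr.ne' hx
    rw [proj_val _ h2, proj_val _ hx, norm_smul, Real.norm_of_nonneg hr.le, smul_smul]
    congr 1
    have : ‖x‖ ≠ 0 := norm_ne_zero_iff.mpr hx
    field_simp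

def U0 : Set E3 := {x | x ≠ 0}

theorem isOpen_U0 : IsOpen U0 := isOpen_ne

theorem contDiffOn_nrm : ContDiffOn ℝ ∞ (fun x : E3 => ‖x‖⁻¹ • x) U0 := by
  intro x hx
  have h1 : ContDiffAt ℝ ∞ (fun x : E3 => ‖x‖) x := contDiffAt_norm ℝ hx
  have h2 : ContDiffAt ℝ ∞ (fun x : E3 => ‖x‖⁻¹) x := h1.inv (norm_ne_zero_iff.mpr hx)
  exact (h2.smul contDiffAt_id).contDiffWithinAt

theorem continuousOn_proj : ContinuousOn proj U0 := by
  rw [Topology.IsInducing.subtypeVal.continuousOn_iff]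
  exact contDiffOn_nrm.continuousOn.congr (fun x hx => proj_val x hx)

/-- the zero homogeneous extension -/
def ex (g : C(S2, ℝ)) (x : E3) : ℝ := g (proj x)

theorem ex_coe (g : C(S2, ℝ)) (p : S2) : ex g (p : E3) = g p := by
  rw [ex, proj_coe]

theorem ex_smul (g : C(S2, ℝ)) (r : ℝ) (hr : 0 < r) (x : E3) : ex g (r • x) = ex g x := by
  rw [ex, proj_smul r hr]; rfl

theorem continuousOn_ex (g : C(S2, ℝ)) : ContinuousOn (ex g) U0 :=
  g.continuous.comp_continuousOn continuousOn_proj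

def Sm : Subalgebra ℝ C(S2, ℝ) where
  carrier := {g | ContDiffOn ℝ ∞ (ex g) U0}
  mul_mem' := by
    intro a b ha hb
    exact ContDiffOn.mul ha hb
  add_mem' := by
    intro a b ha hb
    exact ContDiffOn.add ha hb
  algebraMap_mem' := by
    intro r
    exact contDiffOn_const

theorem sm_ex (g : Sm) : ContDiffOn ℝ ∞ (ex g.1) U0 := g.2

@[simp] theorem sm_add (g h : Sm) (p : S2) : (g + h).1 p = g.1 p + h.1 p := rfl
@[simp] theorem sm_sub (g h : Sm) (p : S2) : (g - h).1 p = g.1 p - h.1 p := rfl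
@[simp] theorem sm_neg (g : Sm) (p : S2) : (-g).1 p = -g.1 p := rfl
@[simp] theorem sm_mul (g h : Sm) (p : S2) : (g * h).1 p = g.1 p * h.1 p := rfl
@[simp] theorem sm_zero (p : S2) : (0 : Sm).1 p = 0 := rfl
@[simp] theorem sm_one (p : S2) : (1 : Sm).1 p = 1 := rfl
@[simp] theorem sm_smul (r : ℝ) (g : Sm) (p : S2) : (r • g).1 p = r * g.1 p := rfl
@[simp] theorem sm_pow (g : Sm) (n : ℕ) (p : S2) : (g ^ n).1 p = g.1 p ^ n := rfl
@[simp] theorem sm_two (p : S2) : (2 : Sm).1 p = 2 := rfl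
@[simp] theorem sm_sum {ι : Type*} (s : Finset ι) (g : ι → Sm) (p : S2) :
    (∑ i ∈ s, g i).1 p = ∑ i ∈ s, (g i).1 p := by
  rw [show (∑ i ∈ s, g i).1 = ∑ i ∈ s, (g i).1 from map_sum Sm.val g s]
  simp

theorem sm_ext {g h : Sm} (H : ∀ p, g.1 p = h.1 p) : g = h :=
  Subtype.ext (ContinuousMap.ext H)

/-- restriction of a smooth function to the sphere -/
def mkS (G : E3 → ℝ) (hG : ContDiffOn ℝ ∞ G U0) : Sm :=
  ⟨⟨fun p => G p, hG.continuousOn.comp_continuous continuous_subtype_val (fun p => S2_ne p)⟩, by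
    change ContDiffOn ℝ ∞ (fun x : E3 => G (proj x : E3)) U0
    have : ContDiffOn ℝ ∞ (fun x : E3 => G (‖x‖⁻¹ • x)) U0 :=
      hG.comp contDiffOn_nrm (fun x hx => by
        have := nrm_mem x hx
        intro h
        rw [h] at this
        simp at this)
    exact this.congr (fun x hx => by rw [proj_val x hx])⟩

@[simp] theorem mkS_apply (G : E3 → ℝ) (hG) (p : S2) : (mkS G hG).1 p = G p := rfl

theorem nrm_ne (x : E3) (hx : x ≠ 0) : ‖x‖⁻¹ • x ≠ 0 :=
  smul_ne_zero (inv_ne_zero (norm_ne_zero_iff.mpr hx)) hx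

theorem ex_mkS (G : E3 → ℝ) (hG) (x : E3) (hx : x ≠ 0) : ex (mkS G hG).1 x = G (‖x‖⁻¹ • x) := by
  rw [ex, mkS_apply, proj_val x hx]

/-- rotation generators, `A i x = e_i × x` -/
def Al (i : Fin 3) : E3 →ₗ[ℝ] E3 where
  toFun x := match i with
    | 0 => !₂[0, -x 2, x 1]
    | 1 => !₂[x 2, 0, -x 0]
    | 2 => !₂[-x 1, x 0, 0]
  map_add' x y := by
    fin_cases i <;> ext j <;> fin_cases j <;> simp <;> ring
  map_smul' r x := by
    fin_cases i <;> ext j <;> fin_cases j <;> simp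

def A (i : Fin 3) : E3 →L[ℝ] E3 := (Al i).toContinuousLinearMap

@[simp] theorem A00 (x : E3) : A 0 x 0 = 0 := rfl
@[simp] theorem A01 (x : E3) : A 0 x 1 = - x 2 := rfl
@[simp] theorem A02 (x : E3) : A 0 x 2 = x 1 := rfl
@[simp] theorem A10 (x : E3) : A 1 x 0 = x 2 := rfl
@[simp] theorem A11 (x : E3) : A 1 x 1 = 0 := rfl
@[simp] theorem A12 (x : E3) : A 1 x 2 = - x 0 := rfl
@[simp] theorem A20 (x : E3) : A 2 x 0 = - x 1 := rfl
@[simp] theorem A21 (x : E3) : A 2 x 1 = x 0 := rfl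
@[simp] theorem A22 (x : E3) : A 2 x 2 = 0 := rfl

theorem ext3 {x y : E3} (h0 : x 0 = y 0) (h1 : x 1 = y 1) (h2 : x 2 = y 2) : x = y := by
  ext j; fin_cases j <;> assumption

theorem inner3 (x y : E3) : inner ℝ x y = x 0 * y 0 + x 1 * y 1 + x 2 * y 2 := by
  simp [PiLp.inner_apply, Fin.sum_univ_three]; ring

theorem diffAt_ex (g : Sm) {x : E3} (hx : x ≠ 0) : DifferentiableAt ℝ (ex g.1) x :=
  ((sm_ex g).contDiffAt (isOpen_U0.mem_nhds hx)).differentiableAt (by simp)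

theorem fderiv_scale (g : Sm) (r : ℝ) (hr : 0 < r) {x : E3} (hx : x ≠ 0) :
    fderiv ℝ (ex g.1) x = r • fderiv ℝ (ex g.1) (r • x) := by
  have h1 : HasFDerivAt (ex g.1) (fderiv ℝ (ex g.1) (r • x)) (r • x) :=
    (diffAt_ex g (smul_ne_zero hr.ne' hx)).hasFDerivAt
  have h2 : HasFDerivAt (fun y : E3 => r • y) (r • ContinuousLinearMap.id ℝ E3) x :=
    (hasFDerivAt_id x).const_smul r
  have h3 := h1.comp x h2
  have h4 : (ex g.1 ∘ fun y : E3 => r • y) = ex g.1 := by
    funext y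
    exact ex_smul g.1 r hr y
  rw [h4] at h3
  rw [h3.fderiv]
  ext v
  simp

theorem fderiv_self (g : Sm) {x : E3} (hx : x ≠ 0) : fderiv ℝ (ex g.1) x x = 0 := by
  have h1 : HasFDerivAt (ex g.1) (fderiv ℝ (ex g.1) x) x := (diffAt_ex g hx).hasFDerivAt
  have h1' : HasFDerivAt (ex g.1) (fderiv ℝ (ex g.1) x) ((1 : ℝ) • x) := by simpa using h1
  have h2 : HasDerivAt (fun t : ℝ => t • x) ((1 : ℝ) • x) 1 := (hasDerivAt_id (1 : ℝ)).smul_const x
  have h3 := h1'.comp_hasDerivAt (1 : ℝ) h2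
  have h4 : (ex g.1 ∘ fun t : ℝ => t • x) =ᶠ[nhds 1] fun _ => ex g.1 x := by
    filter_upwards [isOpen_Ioi.mem_nhds (show (1 : ℝ) ∈ Ioi (0 : ℝ) by simp)] with t ht
    exact ex_smul g.1 t ht x
  have h5 : HasDerivAt (ex g.1 ∘ fun t : ℝ => t • x) 0 1 :=
    (hasDerivAt_const (1 : ℝ) (ex g.1 x)).congr_of_eventuallyEq h4
  have := h3.unique h5
  simpa using this

theorem contDiffOn_fd (g : Sm) : ContDiffOn ℝ ∞ (fderiv ℝ (ex g.1)) U0 :=
  (sm_ex g).fderiv_of_isOpen isOpen_U0 (by simp)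

theorem contDiffOn_LA (g : Sm) (i : Fin 3) :
    ContDiffOn ℝ ∞ (fun x => fderiv ℝ (ex g.1) x (A i x)) U0 :=
  (contDiffOn_fd g).clm_apply (A i).contDiff.contDiffOn

/-- rotation field derivative -/
def L (i : Fin 3) : Sm →ₗ[ℝ] Sm where
  toFun g := mkS (fun x => fderiv ℝ (ex g.1) x (A i x)) (contDiffOn_LA g i)
  map_add' g h := by
    apply sm_ext; intro p
    have : ex (g + h).1 = fun x => ex g.1 x + ex h.1 x := rfl
    simp only [mkS_apply, sm_add, this]
    rw [fderiv_fun_add (diffAt_ex g (S2_ne p)) (diffAt_ex h (S2_ne p))]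
    simp
  map_smul' r g := by
    apply sm_ext; intro p
    have : ex (r • g).1 = fun x => r * ex g.1 x := rfl
    simp only [mkS_apply, sm_smul, this]
    rw [fderiv_const_mul (diffAt_ex g (S2_ne p))]
    simp

theorem L_apply (i : Fin 3) (g : Sm) (p : S2) :
    (L i g).1 p = fderiv ℝ (ex g.1) p (A i p) := rfl

theorem ex_L (i : Fin 3) (g : Sm) {x : E3} (hx : x ≠ 0) :
    ex (L i g).1 x = fderiv ℝ (ex g.1) x (A i x) := by
  have hn : 0 < ‖x‖ := norm_pos_iff.mpr hx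
  change (L i g).1 (proj x) = _
  rw [L_apply, proj_val x hx, fderiv_scale g ‖x‖⁻¹ (inv_pos.mpr hn) hx]
  simp

theorem L_mul (i : Fin 3) (g h : Sm) : L i (g * h) = L i g * h + g * L i h := by
  apply sm_ext; intro p
  have : ex (g * h).1 = fun x => ex g.1 x * ex h.1 x := rfl
  simp only [sm_add, sm_mul, L_apply, this]
  rw [fderiv_fun_mul (diffAt_ex g (S2_ne p)) (diffAt_ex h (S2_ne p))]
  simp [ex_coe]; ring

theorem L_one (i : Fin 3) : L i 1 = 0 := by
  have h := L_mul i 1 1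
  simp only [mul_one, one_mul] at h
  have : L i 1 = L i 1 + L i 1 := h
  simpa using this

theorem L_algebraMap (i : Fin 3) (r : ℝ) : L i (algebraMap ℝ Sm r) = 0 := by
  rw [Algebra.algebraMap_eq_smul_one, map_smul, L_one, smul_zero]

/-- value of the differential of the extension through the rotation fields -/
theorem fderiv_formula (g : Sm) {z : E3} (hz : z ≠ 0) (h : E3) :
    fderiv ℝ (ex g.1) z h = (‖z‖ ^ 2)⁻¹ * ∑ i, inner ℝ (A i z) h * ex (L i g).1 z := by
  have hn : ‖z‖ ^ 2 ≠ 0 := by positivity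
  have key : ∑ i, inner ℝ (A i z) h * ex (L i g).1 z = fderiv ℝ (ex g.1) z (‖z‖ ^ 2 • h) := by
    have h1 : ‖z‖ ^ 2 • h = (∑ i, (inner ℝ (A i z) h : ℝ) • A i z) + (inner ℝ z h : ℝ) • z := by
      apply ext3 <;>
      · simp only [Fin.sum_univ_three, norm_sq3, inner3, PiLp.smul_apply, PiLp.add_apply,
          smul_eq_mul, A00, A01, A02, A10, A11, A12, A20, A21, A22]
        ring
    rw [h1, map_add, map_smul, fderiv_self g hz, smul_zero, add_zero, map_sum]
    apply Finset.sum_congr rfl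
    intro i _
    rw [map_smul, ex_L i g hz, smul_eq_mul]
  rw [key, map_smul, smul_eq_mul]
  field_simp

/-- second derivative of the extension -/
def D2 (g : Sm) (z : E3) : E3 →L[ℝ] E3 →L[ℝ] ℝ := fderiv ℝ (fderiv ℝ (ex g.1)) z

theorem hasFDerivAt_fd (g : Sm) {z : E3} (hz : z ≠ 0) :
    HasFDerivAt (fderiv ℝ (ex g.1)) (D2 g z) z :=
  (((contDiffOn_fd g).contDiffAt (isOpen_U0.mem_nhds hz)).differentiableAt (by simp)).hasFDerivAt

theorem D2_symm (g : Sm) {z : E3} (hz : z ≠ 0) (h k : E3) : D2 g z h k = D2 g z k h := by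
  have h1 : ContDiffAt ℝ ∞ (ex g.1) z := (sm_ex g).contDiffAt (isOpen_U0.mem_nhds hz)
  have := h1.isSymmSndFDerivAt (by simp only [minSmoothness_of_isRCLikeNormedField]; exact ENat.LEInfty.out)
  exact this h k

theorem D2_self (g : Sm) {z : E3} (hz : z ≠ 0) (h : E3) :
    D2 g z h z = - fderiv ℝ (ex g.1) z h := by
  have h1 : HasFDerivAt (fun y => fderiv ℝ (ex g.1) y y)
      ((fderiv ℝ (ex g.1) z).comp (ContinuousLinearMap.id ℝ E3) + (D2 g z).flip z) z :=
    (hasFDerivAt_fd g hz).clm_apply (hasFDerivAt_id z)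
  have h2 : (fun y => fderiv ℝ (ex g.1) y y) =ᶠ[nhds z] fun _ => (0 : ℝ) := by
    filter_upwards [isOpen_U0.mem_nhds hz] with y hy
    exact fderiv_self g hy
  have h3 : HasFDerivAt (fun y => fderiv ℝ (ex g.1) y y) (0 : E3 →L[ℝ] ℝ) z :=
    (hasFDerivAt_const (0 : ℝ) z).congr_of_eventuallyEq h2
  have h4 := h1.unique h3
  have h5 := congrArg (fun T : E3 →L[ℝ] ℝ => T h) h4
  simp at h5
  linarith

theorem LL_apply (i j : Fin 3) (g : Sm) (p : S2) :
    (L i (L j g)).1 p = D2 g p (A i p) (A j p) + fderiv ℝ (ex g.1) p (A j (A i p)) := by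
  rw [L_apply]
  have h1 : HasFDerivAt (fun y => fderiv ℝ (ex g.1) y (A j y))
      ((fderiv ℝ (ex g.1) p).comp (A j) + (D2 g p).flip (A j p)) (p : E3) :=
    (hasFDerivAt_fd g (S2_ne p)).clm_apply (A j).hasFDerivAt
  have h2 : ex (L j g).1 =ᶠ[nhds (p : E3)] (fun y => fderiv ℝ (ex g.1) y (A j y)) := by
    filter_upwards [isOpen_U0.mem_nhds (S2_ne p)] with y hy
    exact ex_L j g hy
  rw [(h1.congr_of_eventuallyEq h2).fderiv]
  simp; ring

/-- structure constants: `L i L j - L j L i = - eps_ijk L k` -/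
theorem comm01 (g : Sm) : L 0 (L 1 g) - L 1 (L 0 g) = - L 2 g := by
  apply sm_ext; intro p
  rw [sm_sub, LL_apply, LL_apply, sm_neg, L_apply, D2_symm g (S2_ne p) (A 0 p) (A 1 p)]
  have : A 1 (A 0 p) - A 0 (A 1 p) = - A 2 (p : E3) := by
    apply ext3 <;> simp
  have h2 := congrArg (fderiv ℝ (ex g.1) (p : E3)) this
  simp only [map_sub, map_neg] at h2
  linarith

theorem comm12 (g : Sm) : L 1 (L 2 g) - L 2 (L 1 g) = - L 0 g := by
  apply sm_ext; intro p
  rw [sm_sub, LL_apply, LL_apply, sm_neg, L_apply, D2_symm g (S2_ne p) (A 1 p) (A 2 p)]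
  have : A 2 (A 1 p) - A 1 (A 2 p) = - A 0 (p : E3) := by
    apply ext3 <;> simp
  have h2 := congrArg (fderiv ℝ (ex g.1) (p : E3)) this
  simp only [map_sub, map_neg] at h2
  linarith

theorem comm20 (g : Sm) : L 2 (L 0 g) - L 0 (L 2 g) = - L 1 g := by
  apply sm_ext; intro p
  rw [sm_sub, LL_apply, LL_apply, sm_neg, L_apply, D2_symm g (S2_ne p) (A 2 p) (A 0 p)]
  have : A 0 (A 2 p) - A 2 (A 0 p) = - A 1 (p : E3) := by
    apply ext3 <;> simp
  have h2 := congrArg (fderiv ℝ (ex g.1) (p : E3)) this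
  simp only [map_sub, map_neg] at h2
  linarith

/-- the Laplacian of the sphere -/
def lap : Sm →ₗ[ℝ] Sm := ∑ i, (L i).comp (L i)

theorem lap_eq (g : Sm) : lap g = ∑ i, L i (L i g) := by
  simp [lap, LinearMap.sum_apply]

theorem lap_eq3 (g : Sm) : lap g = L 0 (L 0 g) + L 1 (L 1 g) + L 2 (L 2 g) := by
  rw [lap_eq, Fin.sum_univ_three]

theorem lap_L (i : Fin 3) (g : Sm) : lap (L i g) = L i (lap g) := by
  have a01 := comm01 g
  have a12 := comm12 g
  have a20 := comm20 g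
  have c01 := comm01 (L 0 g)
  have c01' := comm01 (L 1 g)
  have c12 := comm12 (L 1 g)
  have c12' := comm12 (L 2 g)
  have c20 := comm20 (L 2 g)
  have c20' := comm20 (L 0 g)
  have m01 := congrArg (L 0) a01
  have n01 := congrArg (L 1) a01
  have m12 := congrArg (L 1) a12
  have n12 := congrArg (L 2) a12
  have m20 := congrArg (L 2) a20
  have n20 := congrArg (L 0) a20
  simp only [map_sub, map_neg] at m01 n01 m12 n12 m20 n20
  rw [lap_eq3, lap_eq3]
  fin_cases i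
  · simp only [map_add, Fin.zero_eta]
    linear_combination -n01 - c01' + m20 + c20
  · simp only [map_add, Fin.mk_one]
    linear_combination m01 + c01 - n12 - c12'
  · simp only [map_add, Fin.reduceFinMk]
    linear_combination -n20 - c20' + m12 + c12

/-- coordinate vectors -/
abbrev ee (i : Fin 3) : E3 := EuclideanSpace.single i 1

theorem ee_expand (v : E3) : v = v 0 • ee 0 + v 1 • ee 1 + v 2 • ee 2 := by
  apply ext3 <;> simp

theorem bil_expand (T : E3 →L[ℝ] E3 →L[ℝ] ℝ) (v w : E3) :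
    T v w = v 0 * (w 0 * T (ee 0) (ee 0) + w 1 * T (ee 0) (ee 1) + w 2 * T (ee 0) (ee 2))
      + v 1 * (w 0 * T (ee 1) (ee 0) + w 1 * T (ee 1) (ee 1) + w 2 * T (ee 1) (ee 2))
      + v 2 * (w 0 * T (ee 2) (ee 0) + w 1 * T (ee 2) (ee 1) + w 2 * T (ee 2) (ee 2)) := by
  conv_lhs => rw [ee_expand v, ee_expand w]
  simp only [map_add, map_smul, add_apply, smul_apply, smul_eq_mul]
  ring

theorem lin_expand (T : E3 →L[ℝ] ℝ) (v : E3) :
    T v = v 0 * T (ee 0) + v 1 * T (ee 1) + v 2 * T (ee 2) := by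
  conv_lhs => rw [ee_expand v]
  simp only [map_add, map_smul, smul_eq_mul]

/-- trace of the second derivative on the sphere -/
theorem trace_D2 (g : Sm) (p : S2) :
    ∑ i : Fin 3, D2 g p (ee i) (ee i) = (lap g).1 p := by
  have h0 := D2_self g (S2_ne p) (p : E3)
  rw [fderiv_self g (S2_ne p)] at h0
  rw [bil_expand] at h0
  have h1 := fderiv_self g (S2_ne p)
  rw [lin_expand] at h1
  have hs := S2_sq p
  rw [lap_eq3, sm_add, sm_add, LL_apply, LL_apply, LL_apply, Fin.sum_univ_three]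
  rw [bil_expand (D2 g p) (A 0 p), bil_expand (D2 g p) (A 1 p), bil_expand (D2 g p) (A 2 p)]
  rw [lin_expand _ (A 0 (A 0 p)), lin_expand _ (A 1 (A 1 p)), lin_expand _ (A 2 (A 2 p))]
  simp only [A00, A01, A02, A10, A11, A12, A20, A21, A22]
  linear_combination (-(D2 g p (ee 0) (ee 0) + D2 g p (ee 1) (ee 1) + D2 g p (ee 2) (ee 2))) * hs
    + h0 + 2 * h1

theorem D2_scale (g : Sm) (r : ℝ) (hr : 0 < r) {x : E3} (hx : x ≠ 0) (h k : E3) :
    D2 g x h k = r ^ 2 * D2 g (r • x) h k := by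
  have h1 : HasFDerivAt (fun y => r • fderiv ℝ (ex g.1) (r • y))
      (r • ((D2 g (r • x)).comp (r • ContinuousLinearMap.id ℝ E3))) x := by
    exact ((hasFDerivAt_fd g (smul_ne_zero hr.ne' hx)).comp x
      ((hasFDerivAt_id x).const_smul r)).const_smul r
  have h2 : (fun y => r • fderiv ℝ (ex g.1) (r • y)) =ᶠ[nhds x] fderiv ℝ (ex g.1) := by
    filter_upwards [isOpen_U0.mem_nhds hx] with y hy
    exact (fderiv_scale g r hr hy).symm
  have h3 := (h1.congr_of_eventuallyEq h2.symm).unique (hasFDerivAt_fd g hx)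
  rw [← h3]
  simp; ring

theorem trace_D2' (g : Sm) {z : E3} (hz : z ≠ 0) :
    ‖z‖ ^ 2 * ∑ i : Fin 3, D2 g z (ee i) (ee i) = ex (lap g).1 z := by
  have hn : 0 < ‖z‖ := norm_pos_iff.mpr hz
  have h1 : ex (lap g).1 z = (lap g).1 (proj z) := rfl
  rw [h1, ← trace_D2, Finset.mul_sum]
  apply Finset.sum_congr rfl
  intro i _
  rw [D2_scale g ‖z‖ hn (S2_ne (proj z)), proj_val z hz, smul_smul, mul_inv_cancel₀ hn.ne', one_smul]

/-- necessary second order condition on the line -/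
theorem second_order {f f' : ℝ → ℝ} {b : ℝ} (h1 : ∀ᶠ s in nhds (0 : ℝ), HasDerivAt f (f' s) s)
    (h2 : HasDerivAt f' b 0) (h3 : IsLocalMin f 0) : 0 ≤ b := by
  by_contra hb
  push Not at hb
  have e1 : deriv f =ᶠ[nhds 0] f' := h1.mono (fun s hs => hs.deriv)
  have e2 : deriv (deriv f) 0 = b := by
    rw [e1.deriv_eq]; exact h2.deriv
  have e3 : deriv f 0 = 0 := h3.deriv_eq_zero
  have e4 : ContinuousAt f 0 := (h1.self_of_nhds).continuousAt
  have h4 : IsLocalMax f 0 := isLocalMax_of_deriv_deriv_neg (by rw [e2]; exact hb) e3 e4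
  have h5 : f =ᶠ[nhds 0] fun _ => f 0 := by
    filter_upwards [h3, h4] with s a b
    exact le_antisymm b a
  have h6 : f' =ᶠ[nhds 0] fun _ => 0 := by
    have h7 : deriv f =ᶠ[nhds 0] deriv (fun _ => f 0) := h5.deriv
    filter_upwards [h7, e1] with s a b
    rw [← b, a]; simp
  have h8 : HasDerivAt f' 0 0 := (hasDerivAt_const (0 : ℝ) (0 : ℝ)).congr_of_eventuallyEq h6
  have := h2.unique h8
  linarith

theorem continuousAt_proj {x : E3} (hx : x ≠ 0) : ContinuousAt proj x :=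
  continuousOn_proj.continuousAt (isOpen_U0.mem_nhds hx)

theorem locMin_ex (g : Sm) (p : S2) (hm : ∀ᶠ q in nhds p, g.1 p ≤ g.1 q) :
    IsLocalMin (ex g.1) (p : E3) := by
  have h1 : Filter.Tendsto proj (nhds (p : E3)) (nhds p) := by
    have := continuousAt_proj (S2_ne p)
    rwa [ContinuousAt, proj_coe] at this
  have h2 := h1.eventually hm
  filter_upwards [h2] with x hx
  rw [ex_coe]; exact hx

theorem L_of_min (g : Sm) (p : S2) (hm : ∀ᶠ q in nhds p, g.1 p ≤ g.1 q) (i : Fin 3) :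
    (L i g).1 p = 0 := by
  rw [L_apply, (locMin_ex g p hm).fderiv_eq_zero]; rfl

theorem lap_of_min (g : Sm) (p : S2) (hm : ∀ᶠ q in nhds p, g.1 p ≤ g.1 q) :
    0 ≤ (lap g).1 p := by
  rw [← trace_D2]
  apply Finset.sum_nonneg
  intro i _
  have hl : Continuous (fun s : ℝ => (p : E3) + s • ee i) := by fun_prop
  have hl0 : (p : E3) + (0 : ℝ) • ee i = p := by simp
  have hd : ∀ s : ℝ, HasDerivAt (fun s : ℝ => (p : E3) + s • ee i) (ee i) s := by
    intro s
    simpa using ((hasDerivAt_id s).smul_const (ee i)).const_add (p : E3)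
  have hne : ∀ᶠ s in nhds (0 : ℝ), (p : E3) + s • ee i ≠ 0 := by
    apply hl.continuousAt.eventually_ne
    rw [hl0]; exact S2_ne p
  apply second_order (f := fun s => ex g.1 ((p : E3) + s • ee i))
    (f' := fun s => fderiv ℝ (ex g.1) ((p : E3) + s • ee i) (ee i))
  · filter_upwards [hne] with s hs
    exact (diffAt_ex g hs).hasFDerivAt.comp_hasDerivAt s (hd s)
  · have h1 : HasFDerivAt (fderiv ℝ (ex g.1)) (D2 g p) ((p : E3) + (0 : ℝ) • ee i) := by
      rw [hl0]; exact hasFDerivAt_fd g (S2_ne p)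
    have h2 := h1.comp_hasDerivAt (0 : ℝ) (hd 0)
    have h3 := h2.clm_apply (hasDerivAt_const (0 : ℝ) (ee i))
    simpa using h3
  · have h1 := locMin_ex g p hm
    have h2 : Filter.Tendsto (fun s : ℝ => (p : E3) + s • ee i) (nhds 0) (nhds (p : E3)) := by
      have := hl.tendsto 0
      rwa [hl0] at this
    have h3 := h2.eventually h1
    filter_upwards [h3] with s hs
    simpa using hs

theorem L_of_max (g : Sm) (p : S2) (hm : ∀ᶠ q in nhds p, g.1 q ≤ g.1 p) (i : Fin 3) :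
    (L i g).1 p = 0 := by
  have := L_of_min (-g) p (hm.mono (fun q hq => by simpa using hq)) i
  rw [map_neg] at this
  simpa using this

theorem lap_of_max (g : Sm) (p : S2) (hm : ∀ᶠ q in nhds p, g.1 q ≤ g.1 p) :
    (lap g).1 p ≤ 0 := by
  have := lap_of_min (-g) p (hm.mono (fun q hq => by simpa using hq))
  rw [map_neg] at this
  simpa using this

theorem lap_mul (g h : Sm) : lap (g * h) = lap g * h + 2 * ∑ i, L i g * L i h + g * lap h := by
  simp only [lap_eq, L_mul, map_add, Fin.sum_univ_three]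
  ring

/-- coordinate functions -/
def X (j : Fin 3) : Sm := mkS (fun x => x j) (by
  apply ContDiff.contDiffOn; fun_prop)

@[simp] theorem X_apply (j : Fin 3) (p : S2) : (X j).1 p = (p : E3) j := rfl

theorem hasFDerivAt_nrm (p : S2) :
    HasFDerivAt (fun x : E3 => ‖x‖⁻¹ • x)
      (ContinuousLinearMap.id ℝ E3 - (innerSL ℝ (p : E3)).smulRight (p : E3)) (p : E3) := by
  have h0 : HasFDerivAt (fun x : E3 => ‖x‖ ^ 2) (2 • (innerSL ℝ (p : E3))) (p : E3) := by
    exact (hasStrictFDerivAt_norm_sq (p : E3)).hasFDerivAt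
  have h1 : HasFDerivAt (fun x : E3 => ‖x‖) (innerSL ℝ (p : E3)) (p : E3) := by
    have h2 := h0.sqrt (by rw [S2_norm]; norm_num)
    have h3 : (fun x : E3 => √(‖x‖ ^ 2)) = fun x => ‖x‖ := by
      funext x; exact Real.sqrt_sq (norm_nonneg x)
    rw [h3] at h2
    refine h2.congr_fderiv ?_
    ext v
    simp [S2_norm]
  have h4 : HasFDerivAt (fun x : E3 => ‖x‖⁻¹) (-(innerSL ℝ (p : E3))) (p : E3) := by
    have h5 := (hasDerivAt_inv (x := ‖(p : E3)‖) (by rw [S2_norm]; norm_num)).comp_hasFDerivAt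
      (p : E3) h1
    refine HasFDerivAt.congr_fderiv h5 ?_
    ext v
    simp [S2_norm]
  have h6 := h4.smul (hasFDerivAt_id (p : E3))
  refine HasFDerivAt.congr_fderiv h6 ?_
  ext v
  simp [S2_norm]
  ring

theorem L_mkS (i : Fin 3) (G : E3 → ℝ) (hG : ContDiffOn ℝ ∞ G U0) (p : S2) :
    (L i (mkS G hG)).1 p = fderiv ℝ G p (A i p) := by
  rw [L_apply]
  have h1 : HasFDerivAt G (fderiv ℝ G p) (‖(p : E3)‖⁻¹ • (p : E3)) := by
    rw [S2_norm]; simp only [inv_one, one_smul]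
    exact ((hG.contDiffAt (isOpen_U0.mem_nhds (S2_ne p))).differentiableAt (by simp)).hasFDerivAt
  have h2 := HasFDerivAt.comp (p : E3) (g := G) (f := fun x : E3 => ‖x‖⁻¹ • x) h1
    (hasFDerivAt_nrm p)
  have h3 : ex (mkS G hG).1 =ᶠ[nhds (p : E3)] (G ∘ fun x : E3 => ‖x‖⁻¹ • x) := by
    filter_upwards [isOpen_U0.mem_nhds (S2_ne p)] with x hx
    exact ex_mkS G hG x hx
  rw [(h2.congr_of_eventuallyEq h3).fderiv]
  have h4 : inner ℝ (p : E3) (A i p) = 0 := by
    rw [inner3]; fin_cases i <;> simp <;> ring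
  simp [h4]

theorem L_X_apply (i j : Fin 3) (p : S2) : (L i (X j)).1 p = A i (p : E3) j := by
  rw [X, L_mkS]
  have : HasFDerivAt (fun x : E3 => x j) (EuclideanSpace.proj j : E3 →L[ℝ] ℝ) (p : E3) :=
    (EuclideanSpace.proj j : E3 →L[ℝ] ℝ).hasFDerivAt
  rw [this.fderiv]
  rfl

@[simp] theorem L00 : L 0 (X 0) = 0 := sm_ext fun p => by rw [L_X_apply]; simp
@[simp] theorem L01 : L 0 (X 1) = - X 2 := sm_ext fun p => by rw [L_X_apply]; simp
@[simp] theorem L02 : L 0 (X 2) = X 1 := sm_ext fun p => by rw [L_X_apply]; simp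
@[simp] theorem L10 : L 1 (X 0) = X 2 := sm_ext fun p => by rw [L_X_apply]; simp
@[simp] theorem L11 : L 1 (X 1) = 0 := sm_ext fun p => by rw [L_X_apply]; simp
@[simp] theorem L12 : L 1 (X 2) = - X 0 := sm_ext fun p => by rw [L_X_apply]; simp
@[simp] theorem L20 : L 2 (X 0) = - X 1 := sm_ext fun p => by rw [L_X_apply]; simp
@[simp] theorem L21 : L 2 (X 1) = X 0 := sm_ext fun p => by rw [L_X_apply]; simp
@[simp] theorem L22 : L 2 (X 2) = 0 := sm_ext fun p => by rw [L_X_apply]; simp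

theorem X_sq : X 0 ^ 2 + X 1 ^ 2 + X 2 ^ 2 = 1 := sm_ext fun p => by simpa using S2_sq p

theorem X_L (g : Sm) : X 0 * L 0 g + X 1 * L 1 g + X 2 * L 2 g = 0 := by
  apply sm_ext; intro p
  have h := lin_expand (fderiv ℝ (ex g.1) (p : E3))
  simp only [sm_add, sm_mul, X_apply, L_apply, sm_zero, h (A 0 p), h (A 1 p), h (A 2 p),
    A00, A01, A02, A10, A11, A12, A20, A21, A22]
  ring

/-- exponential -/
def expS (g : Sm) : Sm :=
  ⟨⟨fun p => Real.exp (g.1 p), by fun_prop⟩, (sm_ex g).exp⟩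

@[simp] theorem expS_apply (g : Sm) (p : S2) : (expS g).1 p = Real.exp (g.1 p) := rfl

theorem L_expS (i : Fin 3) (g : Sm) : L i (expS g) = expS g * L i g := by
  apply sm_ext; intro p
  rw [sm_mul, L_apply, L_apply, expS_apply]
  have : ex (expS g).1 = fun x => Real.exp (ex g.1 x) := rfl
  rw [this, ((diffAt_ex g (S2_ne p)).hasFDerivAt.exp).fderiv]
  simp [ex_coe]

open Classical in
/-- inverse -/
def invS (g : Sm) : Sm :=
  if h : ∀ p, g.1 p ≠ 0 then
    ⟨⟨fun p => (g.1 p)⁻¹, (g.1.continuous).inv₀ h⟩, (sm_ex g).inv (fun x _ => h (proj x))⟩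
  else 0

theorem invS_apply (g : Sm) (h : ∀ p, g.1 p ≠ 0) (p : S2) : (invS g).1 p = (g.1 p)⁻¹ := by
  rw [invS, dif_pos h]; rfl

theorem mul_invS (g : Sm) (h : ∀ p, g.1 p ≠ 0) : g * invS g = 1 := by
  apply sm_ext; intro p
  rw [sm_mul, invS_apply g h, sm_one, mul_inv_cancel₀ (h p)]

theorem L_invS (i : Fin 3) (g : Sm) (h : ∀ p, g.1 p ≠ 0) :
    L i (invS g) = - (invS g * invS g * L i g) := by
  have h1 := mul_invS g h
  have h2 := congrArg (L i) h1
  rw [L_mul, L_one] at h2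
  have h3 : L i (invS g) = (g * invS g) * L i (invS g) := by rw [h1, one_mul]
  linear_combination h3 + invS g * h2

/-- constants -/
abbrev cst (r : ℝ) : Sm := algebraMap ℝ Sm r

@[simp] theorem cst_apply (r : ℝ) (p : S2) : (cst r).1 p = r := rfl

@[simp] theorem L_cst (i : Fin 3) (r : ℝ) : L i (cst r) = 0 := L_algebraMap i r

@[simp] theorem lap_cst (r : ℝ) : lap (cst r) = 0 := by simp [lap_eq]

theorem L_cst_mul (i : Fin 3) (r : ℝ) (g : Sm) : L i (cst r * g) = cst r * L i g := by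
  rw [L_mul, L_cst, zero_mul, zero_add]

theorem cst_mul_eq (r : ℝ) (g : Sm) : cst r * g = r • g := by
  rw [Algebra.smul_def]

/-- a smooth function with vanishing rotation derivatives is constant -/
theorem const_of_L (g : Sm) (h : ∀ i, L i g = 0) : ∃ r, g = cst r := by
  have h1 : ∀ z ∈ U0, fderiv ℝ (ex g.1) z = 0 := by
    intro z hz
    ext v
    rw [fderiv_formula g hz]
    simp only [h]
    simp [ex]
  have hpre : IsPreconnected U0 := by
    have h3 : 1 < Module.rank ℝ E3 := by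
      rw [← Module.finrank_eq_rank]
      simp
    have := (isConnected_compl_singleton_of_one_lt_rank h3 (0 : E3)).isPreconnected
    exact this
  obtain ⟨r, hr⟩ := isOpen_U0.exists_is_const_of_fderiv_eq_zero hpre
    ((sm_ex g).differentiableOn (by simp)) (fun z hz => h1 z hz)
  refine ⟨r, sm_ext fun p => ?_⟩
  rw [cst_apply, ← ex_coe]
  exact hr p (S2_ne p)

end

end Pool.Agent.H797
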