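import Pool.Agent.H797.Compact

set_option autoImplicit false
open Set MeasureTheory Filter Topology
open scoped ContDiff

namespace Pool.Agent.H797

noncomputable section

/-- continuity in the sup norm and bounds of all orders give continuity of the derivatives -/
theorem weak_contL (i : Fin 3) (T : ℝ) (c' : ℝ → Sm)
    (hb : ∀ k, ∃ C, ∀ t ∈ Icc 0 T, N k (c' t) ≤ C)
    (hc : ContinuousOn (fun t => (c' t).1) (Icc 0 T)) :
    ContinuousOn (fun t => (L i (c' t)).1) (Icc 0 T) := by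
  obtain ⟨C, hC0, hC⟩ := norm_le_N
  obtain ⟨M, hM⟩ := hb 6
  rw [Metric.continuousOn_iff]
  intro t0 ht0 ε hε
  obtain ⟨δ, hδ, hδ2⟩ := interp 3 ((ε / 2) ^ 2 / (C + 1)) (2 * M + 2 * M) (by positivity)
  rw [Metric.continuousOn_iff] at hc
  have hm := mass_pos
  obtain ⟨η, hη, hη2⟩ := hc t0 ht0 (√(δ / mass)) (Real.sqrt_pos.2 (by positivity))
  refine ⟨η, hη, fun t ht htt => ?_⟩
  have h1 := hη2 t ht htt
  simp only [dist_eq_norm] at h1 ⊢
  have h2 : (L i (c' t)).1 - (L i (c' t0)).1 = (L i (c' t - c' t0)).1 := by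
    rw [map_sub]
    rfl
  rw [h2]
  have h3 : N 0 (c' t - c' t0) ≤ δ := by
    refine (N0_le_norm _).trans ?_
    have h4 : ‖(c' t - c' t0).1‖ ≤ √(δ / mass) := h1.le
    have h5 : ‖(c' t - c' t0).1‖ ^ 2 ≤ δ / mass := by
      calc ‖(c' t - c' t0).1‖ ^ 2 ≤ √(δ / mass) ^ 2 := pow_le_pow_left₀ (norm_nonneg _) h4 2
        _ = δ / mass := Real.sq_sqrt (by positivity)
    calc ‖(c' t - c' t0).1‖ ^ 2 * mass ≤ δ / mass * mass := by gcongr
      _ = δ := by field_simp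
  have h6 : N (2 * 3) (c' t - c' t0) ≤ 2 * M + 2 * M :=
    (N_sub_le 6 _ _).trans (by have := hM t ht; have := hM t0 ht0; linarith)
  have h7 := hδ2 _ h3 h6
  have h8 : N 2 (L i (c' t - c' t0)) ≤ (ε / 2) ^ 2 / (C + 1) := (N_L_le 2 i _).trans h7
  refine lt_of_le_of_lt (hC _) ?_
  have h9 : C * N 2 (L i (c' t - c' t0)) ≤ (ε / 2) ^ 2 := by
    calc C * N 2 (L i (c' t - c' t0)) ≤ (C + 1) * ((ε / 2) ^ 2 / (C + 1)) := by
          have hn := N_nonneg 2 (L i (c' t - c' t0))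
          apply mul_le_mul (by linarith) h8 hn (by positivity)
      _ = (ε / 2) ^ 2 := by field_simp
  calc √(C * N 2 (L i (c' t - c' t0))) ≤ √((ε / 2) ^ 2) := Real.sqrt_le_sqrt h9
    _ = ε / 2 := Real.sqrt_sq (by positivity)
    _ < ε := by linarith

/-- a continuous function which is orthogonal to a dense set is zero -/
theorem weak_zero (Q : Set Sm)
    (hQd : ∀ (g : C(S2, ℝ)) (ε : ℝ), 0 < ε → ∃ h ∈ Q, ‖g - h.1‖ < ε) (g : C(S2, ℝ))
    (h0 : ∀ h ∈ Q, I (g * h.1) = 0) : g = 0 := by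
  have h1 : I (g * g) = 0 := by
    by_contra hne
    have hpos : 0 < |I (g * g)| := abs_pos.2 hne
    obtain ⟨h, hQ, hh⟩ := hQd g (|I (g * g)| / (‖I‖ * ‖g‖ + 1)) (by positivity)
    have h2 : I (g * g) = I (g * (g - h.1)) := by
      rw [mul_sub, map_sub, h0 h hQ, sub_zero]
    have h3 : |I (g * (g - h.1))| ≤ ‖I‖ * (‖g‖ * ‖g - h.1‖) := by
      rw [← Real.norm_eq_abs]
      exact (I.le_opNorm _).trans (mul_le_mul_of_nonneg_left (norm_mul_le _ _) (norm_nonneg _))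
    have h4 : ‖I‖ * (‖g‖ * ‖g - h.1‖) ≤ (‖I‖ * ‖g‖ + 1) * ‖g - h.1‖ := by
      nlinarith [norm_nonneg (g - h.1)]
    have h5 : (‖I‖ * ‖g‖ + 1) * ‖g - h.1‖ < |I (g * g)| := by
      have h6 : 0 < ‖I‖ * ‖g‖ + 1 := by positivity
      calc (‖I‖ * ‖g‖ + 1) * ‖g - h.1‖
          < (‖I‖ * ‖g‖ + 1) * (|I (g * g)| / (‖I‖ * ‖g‖ + 1)) := by gcongr
        _ = |I (g * g)| := by field_simp
    rw [h2] at h5
    linarith
  have h2 : g * g = 0 := I_zero_iff (fun p => mul_self_nonneg (g p)) h1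
  ext p
  have h3 : g p * g p = 0 := by
    have := congrArg (fun f : C(S2, ℝ) => f p) h2
    simpa using this
  simpa using h3

/-- the base case -/
theorem weak_base (Q : Set Sm)
    (hQd : ∀ (g : C(S2, ℝ)) (ε : ℝ), 0 < ε → ∃ h ∈ Q, ‖g - h.1‖ < ε)
    (T : ℝ) (hT : 0 < T) (c c' : ℝ → Sm)
    (hc : ContinuousOn (fun t => (c' t).1) (Icc 0 T))
    (hw : ∀ h ∈ Q, ∀ t ∈ Icc 0 T, J (c t * h) = J (c 0 * h) + ∫ s in (0 : ℝ)..t, J (c' s * h)) :
    ∀ t ∈ Icc 0 T, HasDerivWithinAt (fun s => (c s).1) (c' t).1 (Icc 0 T) t := by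
  set z : ℝ → C(S2, ℝ) := IccExtend hT.le ((Icc 0 T).domRestrict fun t => (c' t).1) with hz
  have hzc : Continuous z :=
    (continuousOn_iff_continuous_domRestrict.mp hc).Icc_extend'
  have hze : ∀ t ∈ Icc 0 T, z t = (c' t).1 := fun t ht => by
    rw [hz, IccExtend_of_mem hT.le _ ht]
    rfl
  have key : ∀ t ∈ Icc 0 T, (c t).1 = (c 0).1 + ∫ s in (0 : ℝ)..t, z s := by
    intro t ht
    rw [← sub_eq_zero]
    refine weak_zero Q hQd _ fun h hQ => ?_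
    have h2 : I ((∫ s in (0 : ℝ)..t, z s) * h.1) = ∫ s in (0 : ℝ)..t, I (z s * h.1) := by
      have h3 := (I.comp ((ContinuousLinearMap.mul ℝ C(S2, ℝ)).flip h.1) :
        C(S2, ℝ) →L[ℝ] ℝ).intervalIntegral_comp_comm (μ := volume)
        (hzc.intervalIntegrable 0 t)
      exact h3.symm
    have h4 : ∫ s in (0 : ℝ)..t, I (z s * h.1) = ∫ s in (0 : ℝ)..t, J (c' s * h) := by
      refine intervalIntegral.integral_congr fun s hs => ?_
      rw [uIcc_of_le ht.1] at hs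
      rw [hze s ⟨hs.1, hs.2.trans ht.2⟩]
      rfl
    have h5 := hw h hQ t ht
    rw [sub_mul, add_mul, map_sub, map_add, h2, h4]
    have h6 : I ((c t).1 * h.1) = J (c t * h) := rfl
    have h7 : I ((c 0).1 * h.1) = J (c 0 * h) := rfl
    rw [h6, h7, h5]
    ring
  intro t ht
  have h1 : HasDerivAt (fun t => (c 0).1 + ∫ s in (0 : ℝ)..t, z s) (z t) t :=
    (hzc.integral_hasStrictDerivAt 0 t).hasDerivAt.const_add _
  rw [hze t ht] at h1
  exact h1.hasDerivWithinAt.congr (fun s hs => key s hs) (key t ht)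

/-- TASK WEAK. -/
theorem hd_of_weak (Q : Set Sm) (hQL : ∀ i, ∀ h ∈ Q, L i h ∈ Q)
    (hQd : ∀ (g : C(S2, ℝ)) (ε : ℝ), 0 < ε → ∃ h ∈ Q, ‖g - h.1‖ < ε)
    (T : ℝ) (hT : 0 < T) (c c' : ℝ → Sm)
    (hb : ∀ k, ∃ C, ∀ t ∈ Icc 0 T, N k (c' t) ≤ C)
    (hc : ContinuousOn (fun t => (c' t).1) (Icc 0 T))
    (hw : ∀ h ∈ Q, ∀ t ∈ Icc 0 T, J (c t * h) = J (c 0 * h) + ∫ s in (0 : ℝ)..t, J (c' s * h)) :
    ∀ n, HD (Icc 0 T) n c c' := by
  intro n
  induction n generalizing c c' with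
  | zero => exact weak_base Q hQd T hT c c' hc hw
  | succ n ih =>
    refine ⟨weak_base Q hQd T hT c c' hc hw, fun i => ?_⟩
    refine ih _ _ (fun k => ?_) (weak_contL i T c' hb hc) ?_
    · obtain ⟨C, hC⟩ := hb (k + 1)
      exact ⟨C, fun t ht => (N_L_le k i _).trans (hC t ht)⟩
    · intro h hQ t ht
      have h1 := hw (L i h) (hQL i h hQ) t ht
      rw [J_ibp, J_ibp, h1]
      have h2 : ∫ s in (0 : ℝ)..t, J (L i (c' s) * h) = -∫ s in (0 : ℝ)..t, J (c' s * L i h) := by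
        rw [← intervalIntegral.integral_neg]
        exact intervalIntegral.integral_congr fun s _ => J_ibp i (c' s) h
      rw [h2]
      ring

end

end Pool.Agent.H797
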