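import Pool.Agent.H797.Gal1
import Pool.Agent.H797.Poly
import Pool.Agent.H797.Weak
import Pool.Agent.H797.Limit
import Pool.Agent.H797.Ode
import Pool.Agent.H797.Higher
import Pool.Agent.H797.Constr
import Pool.Agent.H797.Proj
import Pool.Agent.H797.Fecont

set_option autoImplicit false
open Set MeasureTheory Filter Topology
open scoped ContDiff

namespace Pool.Agent.H797

noncomputable section


theorem g_norm_tend {g : ℕ → Sm} {v : Sm} (h : Tendsto (fun n => N 2 (g n - v)) atTop (𝓝 0)) :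
    Tendsto (fun n => (g n).1) atTop (𝓝 v.1) := by
  obtain ⟨C, hC0, hC⟩ := norm_le_N
  rw [tendsto_iff_norm_sub_tendsto_zero]
  have h1 : Tendsto (fun n => √(C * N 2 (g n - v))) atTop (𝓝 0) := by
    have h2 := (h.const_mul C).sqrt
    rw [mul_zero, Real.sqrt_zero] at h2
    exact h2
  exact squeeze_zero (fun n => norm_nonneg _) (fun n => hC (g n - v)) h1

theorem g_pt_tend {g : ℕ → Sm} {v : Sm} (h : Tendsto (fun n => (g n).1) atTop (𝓝 v.1)) (p : S2) :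
    Tendsto (fun n => (g n).1 p) atTop (𝓝 (v.1 p)) :=
  ((continuous_eval_const p).tendsto v.1).comp h

theorem g_lim_unique {g : ℕ → Sm} {v w : Sm} (h : Tendsto (fun n => (g n).1) atTop (𝓝 v.1))
    (h' : Tendsto (fun n => (g n).1) atTop (𝓝 w.1)) : v = w :=
  Subtype.ext (tendsto_nhds_unique h h')

theorem J_mul_cont (h : Sm) : Continuous (fun g : C(S2, ℝ) => I (g * h.1)) :=
  I.continuous.comp (continuous_id.mul continuous_const)

/-- passage to the limit in the weak formulation -/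
theorem weak_lim {T : ℝ} (hT : 0 < T) (c c' : ℕ → ℝ → Sm) (d d' : ℝ → Sm) (h : Sm)
    (hn : ∀ᶠ n in atTop, ∀ t ∈ Icc 0 T,
      HasDerivWithinAt (fun t => J (c n t * h)) (J (c' n t * h)) (Icc 0 T) t)
    (hcont : ∀ n, ContinuousOn (fun t => (c' n t).1) (Icc 0 T))
    (hb : ∃ C, ∀ n, ∀ t ∈ Icc 0 T, N 0 (c' n t) ≤ C)
    (hlim : ∀ t ∈ Icc 0 T, Tendsto (fun n => (c n t).1) atTop (𝓝 (d t).1))
    (hlim' : ∀ t ∈ Icc 0 T, Tendsto (fun n => (c' n t).1) atTop (𝓝 (d' t).1)) :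
    ∀ t ∈ Icc 0 T, J (d t * h) = J (d 0 * h) + ∫ s in (0 : ℝ)..t, J (d' s * h) := by
  intro t ht
  obtain ⟨C, hC⟩ := hb
  have hsub : Icc 0 t ⊆ Icc 0 T := Icc_subset_Icc le_rfl ht.2
  have hJc : ∀ n, ContinuousOn (fun s => J (c' n s * h)) (Icc 0 t) := by
    intro n
    exact (J_mul_cont h).comp_continuousOn ((hcont n).mono hsub)
  have h0 : (0 : ℝ) ∈ Icc 0 T := ⟨le_rfl, hT.le⟩
  have h1 : ∀ᶠ n in atTop, J (c n t * h) = J (c n 0 * h) + ∫ s in (0 : ℝ)..t, J (c' n s * h) := by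
    filter_upwards [hn] with n hn
    have e1 := intervalIntegral.integral_eq_sub_of_hasDerivAt_of_le ht.1
      (f := fun s => J (c n s * h)) (f' := fun s => J (c' n s * h))
      (fun s hs => ((hn s (hsub hs)).mono hsub).continuousWithinAt)
      (fun s hs => ((hn s (hsub (Ioo_subset_Icc_self hs))).mono hsub).hasDerivAt
        (Icc_mem_nhds hs.1 hs.2))
      ((hJc n).intervalIntegrable_of_Icc ht.1)
    rw [e1]; ring
  have h2 : Tendsto (fun n => J (c n t * h)) atTop (𝓝 (J (d t * h))) :=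
    ((J_mul_cont h).tendsto _).comp (hlim t ht)
  have h3 : Tendsto (fun n => J (c n 0 * h)) atTop (𝓝 (J (d 0 * h))) :=
    ((J_mul_cont h).tendsto _).comp (hlim 0 h0)
  have h4 : Tendsto (fun n => ∫ s in (0 : ℝ)..t, J (c' n s * h)) atTop
      (𝓝 (∫ s in (0 : ℝ)..t, J (d' s * h))) := by
    apply intervalIntegral.tendsto_integral_filter_of_dominated_convergence
      (fun _ => √C * √(N 0 h))
    · refine Eventually.of_forall (fun n => ?_)
      rw [uIoc_of_le ht.1]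
      exact ((hJc n).mono Ioc_subset_Icc_self).aestronglyMeasurable measurableSet_Ioc
    · refine Eventually.of_forall (fun n => Eventually.of_forall (fun s hs => ?_))
      rw [uIoc_of_le ht.1] at hs
      have hs' : s ∈ Icc 0 T := hsub (Ioc_subset_Icc_self hs)
      rw [Real.norm_eq_abs]
      refine (J_CS_abs _ _).trans ?_
      have := hC n s hs'
      rw [N_zero] at this
      rw [N_zero]
      gcongr
    · exact intervalIntegrable_const
    · refine Eventually.of_forall (fun s hs => ?_)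
      rw [uIoc_of_le ht.1] at hs
      have hs' : s ∈ Icc 0 T := hsub (Ioc_subset_Icc_self hs)
      exact ((J_mul_cont h).tendsto _).comp (hlim' s hs')
  exact tendsto_nhds_unique (h2.congr' (h1.mono (fun n hn => hn))) (h3.add h4)

theorem lip_curve {T K : ℝ} {c c' : ℝ → Sm} (h : HD (Icc 0 T) 0 c c')
    (hK : ∀ t ∈ Icc 0 T, ‖(c' t).1‖ ≤ K) : ∀ s ∈ Icc 0 T, ∀ t ∈ Icc 0 T,
    ‖(c t).1 - (c s).1‖ ≤ K * |t - s| := by
  intro s hs t ht
  have := Convex.norm_image_sub_le_of_norm_hasDerivWithin_le (f := fun s => (c s).1)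
    (f' := fun s => (c' s).1) (s := Icc 0 T) (C := K) (fun x hx => h.base x hx) hK
    (convex_Icc 0 T) hs ht
  rwa [Real.norm_eq_abs] at this

theorem cst_one' : cst 1 = (1 : Sm) := sm_ext fun _ => rfl

theorem cont_of_lip {T K : ℝ} {c : ℝ → Sm}
    (hK : ∀ s ∈ Icc 0 T, ∀ t ∈ Icc 0 T, ‖(c t).1 - (c s).1‖ ≤ K * |t - s|) :
    ContinuousOn (fun t => (c t).1) (Icc 0 T) := by
  apply LipschitzOnWith.continuousOn (K := Real.toNNReal |K|)
  apply LipschitzOnWith.of_dist_le_mul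
  intro x hx y hy
  rw [dist_eq_norm, Real.coe_toNNReal _ (abs_nonneg _), Real.dist_eq]
  refine (hK y hy x hx).trans ?_
  gcongr
  exact le_abs_self K

theorem short (M : ℝ) (hM : 0 < M) : ∃ T : ℝ, 0 < T ∧ ∀ u0 : Sm, (∀ p, 0 < (ww u0).1 p) →
    N 4 u0 ≤ M → N 4 (ff u0) ≤ M → (∀ p, 1 ≤ M * (ff u0).1 p) →
    ∃ u : ℝ → Sm, Sol T u ∧ u 0 = u0 := by
  obtain ⟨T, hT, hT1, M', hM', hbase⟩ := gal_base (2 * max M 1) (by
    have := le_max_right M 1
    linarith)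
  refine ⟨T, hT, fun u0 hpos hu0 hf0 hlow => ?_⟩
  have hMM : M ≤ 2 * max M 1 := by
    have := le_max_left M 1
    have := le_max_right M 1
    linarith
  obtain ⟨P, hmono, hfin, hL, h1, hd⟩ := exists_poly
  choose g hg hgp using fun n => (have := hfin n; proj_exists (P n) (ff u0))
  obtain ⟨hgN, hgt⟩ := proj_conv P hmono hL hd (ff u0) g hg hgp
  have hgs : Tendsto (fun n => (g n).1) atTop (𝓝 (ff u0).1) := g_norm_tend (hgt 2)
  -- lower bound of the projected data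
  have hlowg : ∀ᶠ n in atTop, ∀ p, 1 ≤ (2 * max M 1) * (g n).1 p := by
    have h2 := (tendsto_iff_norm_sub_tendsto_zero.mp hgs).eventually_le_const
      (show 0 < 1 / (2 * M) by positivity)
    filter_upwards [h2] with n hn p
    have a1 := ((g n - ff u0).1.norm_coe_le_norm p).trans hn
    rw [Real.norm_eq_abs, sm_sub] at a1
    have a2 := (abs_le.mp a1).1
    have a3 : 1 / M ≤ (ff u0).1 p := by
      rw [div_le_iff₀ hM, mul_comm]; exact hlow p
    have a4 : 1 / (2 * M) ≤ (g n).1 p := by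
      have : 1 / M = 1 / (2 * M) + 1 / (2 * M) := by field_simp; norm_num
      linarith
    calc 1 = (2 * M) * (1 / (2 * M)) := by field_simp
      _ ≤ (2 * max M 1) * (g n).1 p := by
        have : 0 ≤ 1 / (2 * M) := by positivity
        gcongr
        exact le_max_left _ _
  obtain ⟨n0, hn0⟩ := eventually_atTop.mp hlowg
  have hex : ∀ n, ∃ (χ : ℝ → ℝ) (V φ G : ℝ → Sm), Gal (P (n + n0)) T u0 χ V φ G ∧
      φ 0 = g (n + n0) ∧ (∀ t ∈ Icc 0 T, χ t = 1) ∧ (∀ t ∈ Icc 0 T, N 4 (u0 + V t) ≤ M' ∧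
        N 4 (φ t) ≤ M' ∧ (∀ p, 1 ≤ M' * (φ t).1 p) ∧ N 4 (V t) ≤ M') := by
    intro n
    have := hfin (n + n0)
    obtain ⟨χ, V, φ, G, hG, hφ0, hχ⟩ := galerkin_ode (P (n + n0)) (h1 _) (hL _) u0 (g (n + n0))
      (hg _) T (2 * M') hT (by linarith)
    have hb := hbase (P (n + n0)) T u0 χ V φ G (hL _) le_rfl hG (hu0.trans hMM)
      (by rw [hφ0]; exact ((hgN 4 _).trans hf0).trans hMM)
      (by rw [hφ0]; exact hn0 _ (by omega))
    refine ⟨χ, V, φ, G, hG, hφ0, fun t ht => hχ t ht ?_, hb⟩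
    have b := hb t ht
    have a1 := (N_mono (k := 0) (l := 4) (by norm_num) (V t)).trans b.2.2.2
    have a2 := (N_mono (k := 0) (l := 4) (by norm_num) (φ t)).trans b.2.1
    linarith
  choose χ V φ G hG hφ0 hχ hb using hex
  -- uniform bounds
  have hhigh : ∀ k, ∃ C, ∀ n, ∀ t ∈ Icc 0 T, N k (φ n t) ≤ C ∧ N k (V n t) ≤ C := by
    intro k
    obtain ⟨C, hC0, hC⟩ := gal_high k M' (N (k + 4) u0 + N (k + 4) (ff u0)) hM'
      (add_nonneg (N_nonneg _ _) (N_nonneg _ _))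
    refine ⟨C, fun n t ht => ?_⟩
    have := (hC (P (n + n0)) T u0 (χ n) (V n) (φ n) (G n) (hL _) hT.le hT1 (hG n) (hχ n) (hb n)
      (by have := N_nonneg (k + 4) (ff u0); linarith)
      (by
        rw [hφ0]
        have := N_nonneg (k + 4) u0
        have := hgN (k + 4) (n + n0)
        linarith)).1 t ht
    exact ⟨(N_mono (by omega) _).trans this.1, (N_mono (by omega) _).trans this.2⟩
  have hφb : ∀ k, ∃ C, ∀ n, ∀ t ∈ Icc 0 T, N k (φ n t) ≤ C := fun k => by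
    obtain ⟨C, hC⟩ := hhigh k
    exact ⟨C, fun n t ht => (hC n t ht).1⟩
  have hVb : ∀ k, ∃ C, ∀ n, ∀ t ∈ Icc 0 T, N k (V n t) ≤ C := fun k => by
    obtain ⟨C, hC⟩ := hhigh k
    exact ⟨C, fun n t ht => (hC n t ht).2⟩
  have hub : ∀ k, ∃ C, ∀ n, ∀ t ∈ Icc 0 T, N k (u0 + V n t) ≤ C := fun k => by
    obtain ⟨C, hC⟩ := hVb k
    exact ⟨2 * N k u0 + 2 * C, fun n t ht => (N_add_le _ _ _).trans (by
      have := hC n t ht; linarith)⟩
  have hdφ : ∀ n k, HD (Icc 0 T) k (φ n) (G n) := fun n k =>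
    ((hG n).dφ k).congr (fun _ _ => rfl) (fun t ht => by
      rw [hχ n t ht, cst_one', one_mul])
  have hdV : ∀ n k, HD (Icc 0 T) k (V n) (fun t => φ n t - 1) := fun n k =>
    ((hG n).dV k).congr (fun _ _ => rfl) (fun t ht => by
      rw [hχ n t ht, cst_one', one_mul])
  -- bound of the nonlinear term
  obtain ⟨KF, hKF⟩ : ∃ K, ∀ n, ∀ t ∈ Icc 0 T, N 2 (Fe (u0 + V n t) (φ n t)) ≤ K := by
    obtain ⟨C1, hC1⟩ := hub 2
    obtain ⟨C2, hC2⟩ := hφb 4
    have h0 : (0 : ℝ) ∈ Icc 0 T := ⟨le_rfl, hT.le⟩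
    have hC10 : 0 ≤ C1 := (N_nonneg _ _).trans (hC1 0 0 h0)
    have hC20 : 0 ≤ C2 := (N_nonneg _ _).trans (hC2 0 0 h0)
    obtain ⟨C, hC0, hC⟩ := N_Fe 0 (C1 + C2) (by positivity)
    exact ⟨C, fun n t ht => hC _ _ ((hC1 n t ht).trans (by linarith))
      ((hC2 n t ht).trans (by linarith))⟩
  obtain ⟨Cn, hCn0, hCn⟩ := norm_le_N
  -- Lipschitz bounds in time
  have hφl : ∃ K, ∀ n, ∀ s ∈ Icc 0 T, ∀ t ∈ Icc 0 T, ‖(φ n t).1 - (φ n s).1‖ ≤ K * |t - s| := by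
    refine ⟨√(Cn * KF), fun n => lip_curve (hdφ n 0) (fun t ht => ?_)⟩
    refine (hCn _).trans (Real.sqrt_le_sqrt ?_)
    have := ((hG n).NG (hL _) 2 ht).trans (hKF n t ht)
    gcongr
  have hVl : ∃ K, ∀ n, ∀ s ∈ Icc 0 T, ∀ t ∈ Icc 0 T, ‖(V n t).1 - (V n s).1‖ ≤ K * |t - s| := by
    obtain ⟨C2, hC2⟩ := hφb 2
    refine ⟨√(Cn * (2 * C2 + 2 * mass)), fun n => lip_curve (hdV n 0) (fun t ht => ?_)⟩
    refine (hCn _).trans (Real.sqrt_le_sqrt ?_)
    have := N_sub_le 2 (φ n t) 1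
    rw [N_one] at this
    have := hC2 n t ht
    gcongr
    linarith
  -- extraction
  obtain ⟨ψ1, hψ1, φ', hφ'1, hφ'2, hφ'3⟩ := curve_limit T hT φ hφb hφl
  obtain ⟨ψ2, hψ2, V', hV'1, hV'2, hV'3⟩ := curve_limit T hT (fun n => V (ψ1 n))
    (fun k => by
      obtain ⟨C, hC⟩ := hVb k
      exact ⟨C, fun n => hC (ψ1 n)⟩) (by
      obtain ⟨K, hK⟩ := hVl
      exact ⟨K, fun n => hK (ψ1 n)⟩)
  have hψ : ∀ n, n ≤ ψ1 (ψ2 n) := fun n => (hψ1.comp hψ2).le_apply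
  have hφlim : ∀ t ∈ Icc 0 T, ∀ k, Tendsto (fun n => N k (φ (ψ1 (ψ2 n)) t - φ' t)) atTop (𝓝 0) :=
    fun t ht k => (hφ'1 t ht k).comp hψ2.tendsto_atTop
  have hVlim : ∀ t ∈ Icc 0 T, ∀ k, Tendsto (fun n => N k (V (ψ1 (ψ2 n)) t - V' t)) atTop (𝓝 0) :=
    fun t ht k => hV'1 t ht k
  have hulim : ∀ t ∈ Icc 0 T, ∀ k, Tendsto (fun n => N k (u0 + V (ψ1 (ψ2 n)) t - (u0 + V' t)))
      atTop (𝓝 0) := by
    intro t ht k
    refine (hVlim t ht k).congr (fun n => ?_)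
    congr 1; ring
  have h0T : (0 : ℝ) ∈ Icc 0 T := ⟨le_rfl, hT.le⟩
  have hcφ : ContinuousOn (fun t => (φ' t).1) (Icc 0 T) := by
    obtain ⟨K, hK⟩ := hφ'3
    exact cont_of_lip hK
  have hcV : ContinuousOn (fun t => (V' t).1) (Icc 0 T) := by
    obtain ⟨K, hK⟩ := hV'3
    exact cont_of_lip hK
  have hcu : ContinuousOn (fun t => (u0 + V' t).1) (Icc 0 T) := continuousOn_const.add hcV
  have hub' : ∀ k, ∃ C, ∀ t ∈ Icc 0 T, N k (u0 + V' t) ≤ C := fun k => by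
    obtain ⟨C, hC⟩ := hV'2 k
    exact ⟨2 * N k u0 + 2 * C, fun t ht => (N_add_le _ _ _).trans (by
      have := hC t ht; linarith)⟩
  have hF := Fe_curve T (fun t => u0 + V' t) φ' hub' hφ'2 hcu hcφ
  -- the limit equations
  have hQL : ∀ i, ∀ h ∈ {h : Sm | ∃ n, h ∈ P n}, L i h ∈ {h : Sm | ∃ n, h ∈ P n} := by
    rintro i h ⟨n, hn⟩
    exact ⟨n, hL n i h hn⟩
  have hQd : ∀ (g : C(S2, ℝ)) (ε : ℝ), 0 < ε → ∃ h ∈ {h : Sm | ∃ n, h ∈ P n}, ‖g - h.1‖ < ε := by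
    intro g ε hε
    obtain ⟨n, h, hh, hlt⟩ := hd g ε hε
    exact ⟨h, ⟨n, hh⟩, hlt⟩
  have hφeq : ∀ n, HD (Icc 0 T) n φ' (fun t => Fe (u0 + V' t) (φ' t)) := by
    apply hd_of_weak _ hQL hQd T hT φ' _ hF.1 hF.2
    rintro h ⟨n1, hn1⟩
    apply weak_lim hT (fun n => φ (ψ1 (ψ2 n)))
      (fun n t => Fe (u0 + V (ψ1 (ψ2 n)) t) (φ (ψ1 (ψ2 n)) t))
    · filter_upwards [eventually_ge_atTop n1] with n hn t ht
      have e1 := ((hdφ (ψ1 (ψ2 n)) 0).mul (HD.const 0 h)).Jd t ht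
      refine HasDerivWithinAt.congr_deriv e1 ?_
      have hmem : h ∈ P (ψ1 (ψ2 n) + n0) := hmono (by have := hψ n; omega) hn1
      rw [mul_zero, add_zero, (hG _).proj t ht h hmem]
    · intro n
      exact (Fe_curve T (fun t => u0 + V (ψ1 (ψ2 n)) t) (φ (ψ1 (ψ2 n)))
        (fun k => by obtain ⟨C, hC⟩ := hub k; exact ⟨C, hC _⟩)
        (fun k => by obtain ⟨C, hC⟩ := hφb k; exact ⟨C, hC _⟩)
        (continuousOn_const.add (hdV (ψ1 (ψ2 n)) 0).cont) (hdφ (ψ1 (ψ2 n)) 0).cont).2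
    · exact ⟨KF, fun n t ht => (N_mono (by norm_num) _).trans (hKF _ t ht)⟩
    · exact fun t ht => g_norm_tend (hφlim t ht 2)
    · exact fun t ht => Fe_tend _ _ _ _ (hulim t ht) (hφlim t ht)
  have hVeq : ∀ n, HD (Icc 0 T) n V' (fun t => φ' t - 1) := by
    apply hd_of_weak _ hQL hQd T hT V' _ _ _
    · rintro h ⟨n1, hn1⟩
      apply weak_lim hT (fun n => V (ψ1 (ψ2 n))) (fun n t => φ (ψ1 (ψ2 n)) t - 1)
      · filter_upwards with n t ht
        have e1 := ((hdV (ψ1 (ψ2 n)) 0).mul (HD.const 0 h)).Jd t ht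
        refine HasDerivWithinAt.congr_deriv e1 ?_
        rw [mul_zero, add_zero]
      · intro n
        exact (hdφ (ψ1 (ψ2 n)) 0).cont.sub continuousOn_const
      · obtain ⟨C, hC⟩ := hφb 0
        refine ⟨2 * C + 2 * mass, fun n t ht => (N_sub_le _ _ _).trans ?_⟩
        rw [N_one]
        have := hC (ψ1 (ψ2 n)) t ht
        linarith
      · exact fun t ht => g_norm_tend (hVlim t ht 2)
      · exact fun t ht => (g_norm_tend (hφlim t ht 2)).sub_const _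
    · intro k
      obtain ⟨C, hC⟩ := hφ'2 k
      refine ⟨2 * C + 2 * mass, fun t ht => (N_sub_le _ _ _).trans ?_⟩
      rw [N_one]
      have := hC t ht
      linarith
    · exact hcφ.sub continuousOn_const
  -- initial values
  have hφ00 : φ' 0 = ff u0 := by
    apply g_lim_unique (g_norm_tend (hφlim 0 h0T 2))
    have e : ∀ n, φ (ψ1 (ψ2 n)) 0 = g (ψ1 (ψ2 n) + n0) := fun n => hφ0 _
    simp only [e]
    exact hgs.comp (tendsto_atTop_mono
      (fun n => (by have := hψ n; omega : n ≤ ψ1 (ψ2 n) + n0)) tendsto_id)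
  have hV00 : V' 0 = 0 := by
    apply g_lim_unique (g_norm_tend (hVlim 0 h0T 2))
    have e : ∀ n, V (ψ1 (ψ2 n)) 0 = 0 := fun n => (hG _).V0
    simp only [e]
    exact tendsto_const_nhds
  refine ⟨fun t => u0 + V' t, ?_, by simp [hV00]⟩
  apply sol_of_ext T hT u0 hpos (fun t => u0 + V' t) φ'
  · intro n
    exact ((HD.const n u0).add (hVeq n)).congr (fun _ _ => rfl) (fun t _ => (zero_add _).symm)
  · exact hφeq
  · simp [hV00]
  · exact hφ00
  · intro t ht p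
    have e1 := (g_pt_tend (g_norm_tend (hφlim t ht 2)) p).const_mul M'
    have e2 : 1 ≤ M' * (φ' t).1 p := ge_of_tendsto' e1 (fun n => (hb _ t ht).2.2.1 p)
    by_contra hcon
    push Not at hcon
    nlinarith

end

end Pool.Agent.H797
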