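import Pool.Agent.H797.Cone

set_option autoImplicit false
open Set MeasureTheory
open scoped ContDiff ENNReal

namespace Pool.Agent.H797

noncomputable section

/-- linear part of the chart -/
def lc (c : Fin 3) : P2 →L[ℝ] E3 :=
  LinearMap.toContinuousLinearMap
    { toFun := fun y => ins c 0 y
      map_add' := fun x y => by rw [ins_add, add_zero]
      map_smul' := fun r y => by simp [ins_smul] }

theorem ins_eq (c : Fin 3) (y : P2) : ins c 1 y = ins c 1 0 + lc c y := by
  change _ = ins c 1 0 + ins c 0 y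
  rw [ins_add, add_zero, zero_add]

def ch (b : Bool) (c : Fin 3) (y : P2) : E3 := Rs b (ins c 1 y)

theorem ch_ne (b : Bool) (c : Fin 3) (y : P2) : ch b c y ≠ 0 := by
  simpa [ch] using ins_ne c y

theorem hasFDerivAt_ch (b : Bool) (c : Fin 3) (y : P2) :
    HasFDerivAt (ch b c) (((Rs b : E3 ≃L[ℝ] E3) : E3 →L[ℝ] E3).comp (lc c)) y := by
  have h1 : HasFDerivAt (fun y => ins c 1 y) (lc c) y := by
    have := (lc c).hasFDerivAt (x := y) |>.const_add (ins c 1 0)
    refine this.congr_of_eventuallyEq ?_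
    filter_upwards with z
    exact ins_eq c z
  exact ((Rs b : E3 ≃L[ℝ] E3) : E3 →L[ℝ] E3).hasFDerivAt.comp y h1

theorem contDiff_ch (b : Bool) (c : Fin 3) : ContDiff ℝ ∞ (ch b c) := by
  have h1 : ContDiff ℝ ∞ (fun y => ins c 1 y) := by
    have : (fun y => ins c 1 y) = fun y => ins c 1 0 + lc c y := by
      funext y; exact ins_eq c y
    rw [this]
    exact contDiff_const.add (lc c).contDiff
  exact ((Rs b : E3 ≃L[ℝ] E3) : E3 →L[ℝ] E3).contDiff.comp h1

def Gc (b : Bool) (c : Fin 3) (h : C(S2, ℝ)) (y : P2) : ℝ := ex h (ch b c y)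

theorem contDiff_Gc (b : Bool) (c : Fin 3) (h : Sm) : ContDiff ℝ ∞ (Gc b c h.1) := by
  rw [← contDiffOn_univ]
  exact (sm_ex h).comp (contDiff_ch b c).contDiffOn (fun y _ => ch_ne b c y)

def om (b : Bool) (c : Fin 3) (i : Fin 3) (k : P2) (y : P2) : ℝ :=
  (‖ch b c y‖ ^ 2)⁻¹ * inner ℝ (A i (ch b c y)) (Rs b (lc c k))

theorem contDiff_om (b : Bool) (c : Fin 3) (i : Fin 3) (k : P2) : ContDiff ℝ ∞ (om b c i k) := by
  have h1 : ContDiff ℝ ∞ (fun y => (‖ch b c y‖ ^ 2)⁻¹) := by
    apply ContDiff.inv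
    · exact (contDiff_ch b c).norm_sq ℝ
    · intro y
      have := norm_pos_iff.mpr (ch_ne b c y)
      positivity
  have h2 : ContDiff ℝ ∞ (fun y => (inner ℝ (A i (ch b c y)) (Rs b (lc c k)) : ℝ)) :=
    ((A i).contDiff.comp (contDiff_ch b c)).inner ℝ contDiff_const
  exact h1.mul h2

theorem fderiv_Gc (b : Bool) (c : Fin 3) (h : Sm) (y k : P2) :
    fderiv ℝ (Gc b c h.1) y k = ∑ i, om b c i k y * Gc b c (L i h).1 y := by
  have h1 := (diffAt_ex h (ch_ne b c y)).hasFDerivAt.comp y (hasFDerivAt_ch b c y)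
  have h2 : fderiv ℝ (Gc b c h.1) y = _ := h1.fderiv
  rw [h2]
  simp only [ContinuousLinearMap.comp_apply]
  rw [fderiv_formula h (ch_ne b c y), Finset.mul_sum]
  apply Finset.sum_congr rfl
  intro i _
  exact (mul_assoc _ _ _).symm

/-- cut off functions -/
structure Cut where
  f : P2 → ℝ
  sm : ContDiff ℝ ∞ f
  supp : ∀ y, y ∉ box 2 → f y = 0

theorem box_eq (ρ : ℝ) (hρ : 0 ≤ ρ) : box ρ = Metric.closedBall (0 : P2) ρ := by
  ext y
  rw [mem_closedBall_zero_iff, pi_norm_le_iff_of_nonneg hρ]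
  rfl

theorem compact_box (ρ : ℝ) (hρ : 0 ≤ ρ) : IsCompact (box ρ) := by
  rw [box_eq ρ hρ]; exact isCompact_closedBall 0 ρ

def cD (b : Bool) (c : Fin 3) (k : P2) (m : Option (Fin 3)) (a : Cut) : Cut :=
  match m with
  | none => ⟨fun y => fderiv ℝ a.f y k, (a.sm.fderiv_right (by simp)).clm_apply contDiff_const, by
      intro y hy
      have h1 : a.f =ᶠ[nhds y] fun _ => 0 := by
        have h2 : (box 2)ᶜ ∈ nhds y := by
          apply IsOpen.mem_nhds _ hy
          exact (compact_box 2 (by norm_num)).isClosed.isOpen_compl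
        filter_upwards [h2] with z hz
        exact a.supp z hz
      rw [h1.fderiv_eq]
      simp⟩
  | some i => ⟨fun y => a.f y * om b c i k y, a.sm.mul (contDiff_om b c i k), by
      intro y hy
      rw [a.supp y hy, zero_mul]⟩

def opt (m : Option (Fin 3)) (h : Sm) : Sm :=
  match m with
  | none => h
  | some i => L i h

theorem fderiv_aG (b : Bool) (c : Fin 3) (a : Cut) (h : Sm) (y k : P2) :
    fderiv ℝ (fun y => a.f y * Gc b c h.1 y) y k
      = ∑ m : Option (Fin 3), (cD b c k m a).f y * Gc b c (opt m h).1 y := by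
  have h1 : DifferentiableAt ℝ a.f y := a.sm.differentiable (by simp) y
  have h2 : DifferentiableAt ℝ (Gc b c h.1) y := (contDiff_Gc b c h).differentiable (by simp) y
  rw [fderiv_fun_mul h1 h2, Fintype.sum_option]
  simp only [add_apply, smul_apply, smul_eq_mul, fderiv_Gc, Finset.mul_sum, cD, opt]
  rw [add_comm]
  congr 1
  · ring
  · apply Finset.sum_congr rfl
    intro i _; ring

theorem contDiff_aG (b : Bool) (c : Fin 3) (a : Cut) (h : Sm) :
    ContDiff ℝ ∞ (fun y => a.f y * Gc b c h.1 y) := a.sm.mul (contDiff_Gc b c h)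

theorem cut_int (b : Bool) (c : Fin 3) (a : Cut) :
    ∃ C : ℝ, 0 ≤ C ∧ ∀ h : C(S2, ℝ),
      ∫⁻ y, ‖a.f y * Gc b c h y‖ₑ ≤ ENNReal.ofReal (C * I |h|) := by
  obtain ⟨M, hM⟩ := (compact_box 2 (by norm_num)).exists_bound_of_continuousOn
    a.sm.continuous.continuousOn
  refine ⟨|M| * 64, by positivity, fun h => ?_⟩
  have h1 : ∀ y, ‖a.f y * Gc b c h y‖ₑ ≤
      (box 2).indicator (fun y => ENNReal.ofReal |M| * ENNReal.ofReal (ex |h| (Rs b (ins c 1 y)))) y := by
    intro y
    by_cases hy : y ∈ box 2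
    · rw [indicator_of_mem hy, enorm_mul]
      apply mul_le_mul'
      · rw [← ofReal_norm]
        exact ENNReal.ofReal_le_ofReal ((hM y hy).trans (le_abs_self M))
      · rw [← ofReal_norm]
        apply ENNReal.ofReal_le_ofReal
        simp only [Gc, ch, ex, ContinuousMap.abs_apply, Real.norm_eq_abs]
        exact le_rfl
    · rw [a.supp y hy]; simp
  have hmeas : Measurable (fun y : P2 => ENNReal.ofReal (ex |h| (Rs b (ins c 1 y)))) := by
    apply Measurable.ennreal_ofReal
    apply (measurable_ex |h|).comp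
    exact (contDiff_ch b c).continuous.measurable
  calc ∫⁻ y, ‖a.f y * Gc b c h y‖ₑ ≤ _ := lintegral_mono h1
    _ = ENNReal.ofReal |M| * ∫⁻ y in box 2, ENNReal.ofReal (ex |h| (Rs b (ins c 1 y))) := by
        rw [lintegral_indicator (measurable_box 2), lintegral_const_mul _ hmeas]
    _ ≤ ENNReal.ofReal |M| * ENNReal.ofReal (64 * I |h|) := by
        gcongr
        exact chart_le (Rs b) c |h| (fun p => by simp)
    _ = ENNReal.ofReal (|M| * 64 * I |h|) := by
        rw [← ENNReal.ofReal_mul (abs_nonneg M), mul_assoc]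

abbrev e0 : P2 := Pi.single 0 1
abbrev e1 : P2 := Pi.single 1 1

theorem line_bound (f : ℝ → ℝ) (hf : ContDiff ℝ ∞ f) (hs : ∀ s, 2 < |s| → f s = 0) (x : ℝ) :
    ‖f x‖ₑ ≤ ∫⁻ s, ‖deriv f s‖ₑ := by
  have h1 : HasCompactSupport f := by
    apply HasCompactSupport.intro (isCompact_Icc (a := (-2 : ℝ)) (b := 2))
    intro s hs'
    apply hs
    by_contra h
    push Not at h
    exact hs' (abs_le.mp h)
  refine (h1.enorm_le_lintegral_Ici_deriv (hf.of_le (by simp)) x).trans ?_
  exact setLIntegral_le_lintegral _ _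

theorem two_var (F : Cut) (y : P2) :
    ‖F.f y‖ₑ ≤ ∫⁻ z, ‖fderiv ℝ (fun w => fderiv ℝ F.f w e0) z e1‖ₑ := by
  have hF0 : ContDiff ℝ ∞ (fun w => fderiv ℝ F.f w e0) :=
    (F.sm.fderiv_right (by simp)).clm_apply contDiff_const
  have hs0 : ∀ y, y ∉ box 2 → fderiv ℝ F.f y e0 = 0 := (cD true 0 e0 none F).supp
  have hv0 : ∀ r s : ℝ, HasDerivAt (fun s : ℝ => (![s, r] : P2)) e0 s := by
    intro r s
    rw [hasDerivAt_pi]
    intro j
    fin_cases j
    · simpa using hasDerivAt_id' s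
    · simpa using hasDerivAt_const s r
  have hv1 : ∀ s r : ℝ, HasDerivAt (fun r : ℝ => (![s, r] : P2)) e1 r := by
    intro s r
    rw [hasDerivAt_pi]
    intro j
    fin_cases j
    · simpa using hasDerivAt_const r s
    · simpa using hasDerivAt_id' r
  have hc0 : ∀ r : ℝ, ContDiff ℝ ∞ (fun s : ℝ => (![s, r] : P2)) := by
    intro r
    rw [contDiff_pi]
    intro j
    fin_cases j
    · exact contDiff_id
    · exact contDiff_const
  have hc1 : ∀ s : ℝ, ContDiff ℝ ∞ (fun r : ℝ => (![s, r] : P2)) := by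
    intro s
    rw [contDiff_pi]
    intro j
    fin_cases j
    · exact contDiff_const
    · exact contDiff_id
  have step1 : ‖F.f y‖ₑ ≤ ∫⁻ s, ‖fderiv ℝ F.f ![s, y 1] e0‖ₑ := by
    have h1 := line_bound (fun s => F.f ![s, y 1]) (F.sm.comp (hc0 (y 1))) (by
      intro s hs
      apply F.supp
      intro hb
      have := hb 0
      simp at this
      linarith) (y 0)
    have h2 : (![y 0, y 1] : P2) = y := by
      ext j; fin_cases j <;> rfl
    rw [h2] at h1
    refine h1.trans (le_of_eq ?_)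
    apply lintegral_congr
    intro s
    have h3 := (F.sm.differentiable (by simp) ![s, y 1]).hasFDerivAt.comp_hasDerivAt s (hv0 (y 1) s)
    have h4 : deriv (fun s => F.f ![s, y 1]) s = _ := h3.deriv
    rw [h4]
  have step2 : ∀ s, ‖fderiv ℝ F.f ![s, y 1] e0‖ₑ
      ≤ ∫⁻ r, ‖fderiv ℝ (fun w => fderiv ℝ F.f w e0) ![s, r] e1‖ₑ := by
    intro s
    have h1 := line_bound (fun r => fderiv ℝ F.f ![s, r] e0) (hF0.comp (hc1 s)) (by
      intro r hr
      apply hs0
      intro hb
      have := hb 1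
      simp at this
      linarith) (y 1)
    refine h1.trans (le_of_eq ?_)
    apply lintegral_congr
    intro r
    have h3 := (hF0.differentiable (by simp) ![s, r]).hasFDerivAt.comp_hasDerivAt r (hv1 s r)
    have h4 : deriv (fun r => fderiv ℝ F.f ![s, r] e0) r = _ := h3.deriv
    rw [h4]
  refine (step1.trans (lintegral_mono step2)).trans (le_of_eq ?_)
  have hK : Continuous (fun z : P2 => ‖fderiv ℝ (fun w => fderiv ℝ F.f w e0) z e1‖ₑ) := by
    have : ContDiff ℝ ∞ (fun z => fderiv ℝ (fun w => fderiv ℝ F.f w e0) z e1) :=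
      (hF0.fderiv_right (by simp)).clm_apply contDiff_const
    exact this.continuous.enorm
  have h5 := ((volume_preserving_finTwoArrow ℝ).symm MeasurableEquiv.finTwoArrow).lintegral_comp
    hK.measurable
  rw [← h5]
  change _ = ∫⁻ z : ℝ × ℝ, ‖fderiv ℝ (fun w => fderiv ℝ F.f w e0) ![z.1, z.2] e1‖ₑ
    ∂(volume.prod volume)
  rw [lintegral_prod (fun z : ℝ × ℝ => ‖fderiv ℝ (fun w => fderiv ℝ F.f w e0) ![z.1, z.2] e1‖ₑ)]
  apply Measurable.aemeasurable
  exact hK.measurable.comp (MeasurableEquiv.finTwoArrow (α := ℝ)).symm.measurable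

def aGcut (b : Bool) (c : Fin 3) (a : Cut) (h : Sm) : Cut :=
  ⟨fun y => a.f y * Gc b c h.1 y, contDiff_aG b c a h, fun y hy => by rw [a.supp y hy, zero_mul]⟩

theorem meas_aG (b : Bool) (c : Fin 3) (a : Cut) (h : Sm) :
    Measurable (fun y => ‖a.f y * Gc b c h.1 y‖ₑ) :=
  (contDiff_aG b c a h).continuous.enorm.measurable

theorem sup_chart (b : Bool) (c : Fin 3) (a : Cut) :
    ∃ C : ℝ, 0 ≤ C ∧ ∀ (h : Sm) (y : P2), |a.f y * Gc b c h.1 y|
      ≤ C * ∑ m, ∑ m', I |(opt m' (opt m h)).1| := by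
  choose C hC0 hC using fun (m m' : Option (Fin 3)) => cut_int b c (cD b c e1 m' (cD b c e0 m a))
  have hCs : ∀ m m', C m m' ≤ ∑ m, ∑ m', C m m' := by
    intro m m'
    calc C m m' ≤ ∑ m', C m m' := Finset.single_le_sum (f := fun m' => C m m')
          (fun i _ => hC0 m i) (Finset.mem_univ m')
      _ ≤ _ := Finset.single_le_sum (f := fun m => ∑ m', C m m')
          (fun i _ => Finset.sum_nonneg (fun j _ => hC0 i j)) (Finset.mem_univ m)
  refine ⟨∑ m, ∑ m', C m m', Finset.sum_nonneg (fun i _ => Finset.sum_nonneg (fun j _ => hC0 i j)),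
    fun h y => ?_⟩
  have hI : ∀ k : C(S2, ℝ), 0 ≤ I |k| := fun k => I_nonneg (fun p => by simp)
  have h1 := two_var (aGcut b c a h) y
  have h2 : ∀ z, fderiv ℝ (fun w => fderiv ℝ (aGcut b c a h).f w e0) z e1
      = ∑ m, ∑ m', (cD b c e1 m' (cD b c e0 m a)).f z * Gc b c (opt m' (opt m h)).1 z := by
    intro z
    have e : (fun w => fderiv ℝ (aGcut b c a h).f w e0)
        = fun w => ∑ m, (cD b c e0 m a).f w * Gc b c (opt m h).1 w := by
      funext w
      exact fderiv_aG b c a h w e0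
    rw [e, fderiv_fun_sum (fun m _ =>
      (contDiff_aG b c (cD b c e0 m a) (opt m h)).differentiable (by simp) z)]
    rw [sum_apply]
    apply Finset.sum_congr rfl
    intro m _
    exact fderiv_aG b c _ _ z e1
  have h3 : ∫⁻ z, ‖fderiv ℝ (fun w => fderiv ℝ (aGcut b c a h).f w e0) z e1‖ₑ
      ≤ ENNReal.ofReal (∑ m, ∑ m', C m m' * I |(opt m' (opt m h)).1|) := by
    simp_rw [h2]
    calc _ ≤ ∫⁻ z, ∑ m, ∑ m', ‖(cD b c e1 m' (cD b c e0 m a)).f z * Gc b c (opt m' (opt m h)).1 z‖ₑ := by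
          apply lintegral_mono
          intro z
          exact (enorm_sum_le _ _).trans (Finset.sum_le_sum (fun m _ => enorm_sum_le _ _))
      _ = ∑ m, ∑ m', ∫⁻ z, ‖(cD b c e1 m' (cD b c e0 m a)).f z * Gc b c (opt m' (opt m h)).1 z‖ₑ := by
          rw [lintegral_finsetSum]
          · apply Finset.sum_congr rfl
            intro m _
            rw [lintegral_finsetSum]
            intro m' _
            exact meas_aG b c _ _
          · intro m _
            exact Finset.measurable_sum _ (fun m' _ => meas_aG b c _ _)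
      _ ≤ ∑ m, ∑ m', ENNReal.ofReal (C m m' * I |(opt m' (opt m h)).1|) := by
          apply Finset.sum_le_sum; intro m _
          apply Finset.sum_le_sum; intro m' _
          exact hC m m' _
      _ = _ := by
          rw [ENNReal.ofReal_sum_of_nonneg]
          · apply Finset.sum_congr rfl
            intro m _
            rw [ENNReal.ofReal_sum_of_nonneg]
            intro m' _
            exact mul_nonneg (hC0 m m') (hI _)
          · intro m _
            exact Finset.sum_nonneg (fun m' _ => mul_nonneg (hC0 m m') (hI _))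
  have h4 := h1.trans h3
  rw [← ofReal_norm, ENNReal.ofReal_le_ofReal_iff (Finset.sum_nonneg (fun m _ =>
    Finset.sum_nonneg (fun m' _ => mul_nonneg (hC0 m m') (hI _))))] at h4
  refine (le_of_eq (Real.norm_eq_abs _).symm).trans (h4.trans ?_)
  rw [Finset.mul_sum]
  apply Finset.sum_le_sum; intro m _
  rw [Finset.mul_sum]
  apply Finset.sum_le_sum; intro m' _
  exact mul_le_mul_of_nonneg_right (hCs m m') (hI _)

/-- a cut off equal to one on the inner box -/
theorem exists_cut : ∃ a : Cut, ∀ y ∈ box 1, a.f y = 1 := by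
  let β : ContDiffBump (0 : P2) := ⟨1, 2, one_pos, one_lt_two⟩
  refine ⟨⟨β, β.contDiff, ?_⟩, ?_⟩
  · intro y hy
    apply β.zero_of_le_dist
    rw [box_eq 2 (by norm_num), Metric.mem_closedBall] at hy
    push Not at hy
    exact hy.le
  · intro y hy
    rw [box_eq 1 (by norm_num)] at hy
    exact β.one_of_mem_closedBall hy

theorem chart_point (p : S2) : ∃ (b : Bool) (c : Fin 3) (y : P2), y ∈ box 1 ∧
    ∀ h : C(S2, ℝ), Gc b c h y = h p := by
  set x : E3 := (1 / 2 : ℝ) • (p : E3) with hx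
  have hx0 : x ≠ 0 := smul_ne_zero (by norm_num) (S2_ne p)
  have hxn : ‖x‖ < 1 := by rw [hx, norm_smul, S2_norm]; norm_num
  have hex : ∀ h : C(S2, ℝ), ex h x = h p := by
    intro h; rw [hx, ex_smul h _ (by norm_num), ex_coe]
  obtain ⟨c, hc⟩ := cover x hx0 hxn
  have key : ∀ z ∈ cone c 1 1, ∃ y ∈ box 1, ins c 1 y = (z c)⁻¹ • z := by
    intro z hz
    refine ⟨fun j => (z c)⁻¹ * z (c.succAbove j), ?_, ?_⟩
    · intro j
      have h1 := hz.2.2 j
      have h2 := hz.1
      simp only [abs_mul, abs_inv, abs_of_pos h2]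
      rw [one_mul] at h1
      rw [inv_mul_le_iff₀ h2, mul_one]; exact h1
    · apply ins_ext (c := c)
      · have h2 := hz.1
        simp [ins_same, h2.ne']
      · intro j; simp [ins_above]
  rcases hc with hc | hc
  · obtain ⟨y, hy, hy2⟩ := key x hc
    refine ⟨true, c, y, hy, fun h => ?_⟩
    have : ch true c y = (x c)⁻¹ • x := by simp [ch, Rs, hy2]
    rw [Gc, this, ex_smul h _ (inv_pos.mpr hc.1), hex]
  · obtain ⟨y, hy, hy2⟩ := key (-x) hc
    refine ⟨false, c, y, hy, fun h => ?_⟩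
    have : ch false c y = ((-x) c)⁻¹ • x := by
      simp only [ch, Rs, hy2]
      simp
    rw [Gc, this, ex_smul h _ (inv_pos.mpr hc.1), hex]

theorem sup_bd : ∃ C : ℝ, 0 ≤ C ∧ ∀ (h : Sm) (p : S2), |h.1 p|
      ≤ C * ∑ m, ∑ m', I |(opt m' (opt m h)).1| := by
  obtain ⟨a, ha⟩ := exists_cut
  choose C hC0 hC using fun (b : Bool) (c : Fin 3) => sup_chart b c a
  refine ⟨∑ b, ∑ c, C b c, Finset.sum_nonneg (fun b _ => Finset.sum_nonneg (fun c _ => hC0 b c)),
    fun h p => ?_⟩
  obtain ⟨b, c, y, hy, hyp⟩ := chart_point p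
  have h1 := hC b c h y
  rw [ha y hy, one_mul, hyp] at h1
  refine h1.trans (mul_le_mul_of_nonneg_right ?_ (Finset.sum_nonneg (fun m _ =>
    Finset.sum_nonneg (fun m' _ => I_nonneg (fun p => by simp)))))
  calc C b c ≤ ∑ c, C b c := Finset.single_le_sum (f := fun c => C b c)
        (fun i _ => hC0 b i) (Finset.mem_univ c)
    _ ≤ _ := Finset.single_le_sum (f := fun b => ∑ c, C b c)
        (fun i _ => Finset.sum_nonneg (fun j _ => hC0 i j)) (Finset.mem_univ b)

theorem w11_chart (b : Bool) (c : Fin 3) (a : Cut) :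
    ∃ C : ℝ, 0 ≤ C ∧ ∀ (h : Sm), ∫⁻ y, ‖a.f y * Gc b c h.1 y‖ₑ ^ (2 : ℝ)
      ≤ ENNReal.ofReal (C * (∑ m, I |(opt m h).1|) ^ 2) := by
  choose C0 hC00 hC0 using fun (m : Option (Fin 3)) => cut_int b c (cD b c e0 m a)
  choose C1 hC10 hC1 using fun (m : Option (Fin 3)) => cut_int b c (cD b c e1 m a)
  set K := lintegralPowLePowLIntegralFDerivConst (volume : Measure P2) 2 with hK
  set D : ℝ := ∑ m, C0 m + ∑ m, C1 m with hD
  have hD0 : 0 ≤ D := add_nonneg (Finset.sum_nonneg (fun m _ => hC00 m))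
    (Finset.sum_nonneg (fun m _ => hC10 m))
  refine ⟨K * D ^ 2, by positivity, fun h => ?_⟩
  have hI : ∀ k : C(S2, ℝ), 0 ≤ I |k| := fun k => I_nonneg (fun p => by simp)
  have hcs : HasCompactSupport (fun y => a.f y * Gc b c h.1 y) :=
    HasCompactSupport.intro (compact_box 2 (by norm_num)) (aGcut b c a h).supp
  have hp : (↑(Module.finrank ℝ P2) : ℝ).HolderConjugate 2 := by
    have : Module.finrank ℝ P2 = 2 := by simp
    rw [this]
    exact Real.HolderConjugate.two_two
  have h1 := lintegral_pow_le_pow_lintegral_fderiv (volume : Measure P2)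
    ((contDiff_aG b c a h).of_le (by simp)) hcs hp
  have h2 : ∀ (C : Option (Fin 3) → ℝ) (k : P2), (∀ m, 0 ≤ C m) →
      (∀ m (h : C(S2, ℝ)), ∫⁻ y, ‖(cD b c k m a).f y * Gc b c h y‖ₑ ≤ ENNReal.ofReal (C m * I |h|)) →
      ∫⁻ y, ‖fderiv ℝ (fun y => a.f y * Gc b c h.1 y) y k‖ₑ
        ≤ ENNReal.ofReal ((∑ m, C m) * ∑ m, I |(opt m h).1|) := by
    intro C k hCn hCi
    simp_rw [fderiv_aG]
    calc _ ≤ ∫⁻ y, ∑ m, ‖(cD b c k m a).f y * Gc b c (opt m h).1 y‖ₑ :=
          lintegral_mono (fun y => enorm_sum_le _ _)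
      _ = ∑ m, ∫⁻ y, ‖(cD b c k m a).f y * Gc b c (opt m h).1 y‖ₑ :=
          lintegral_finsetSum _ (fun m _ => meas_aG b c _ _)
      _ ≤ ∑ m, ENNReal.ofReal (C m * I |(opt m h).1|) := Finset.sum_le_sum (fun m _ => hCi m _)
      _ = ENNReal.ofReal (∑ m, C m * I |(opt m h).1|) := by
          rw [ENNReal.ofReal_sum_of_nonneg]
          intro m _
          exact mul_nonneg (hCn m) (hI _)
      _ ≤ _ := by
          apply ENNReal.ofReal_le_ofReal
          rw [Finset.sum_mul]
          apply Finset.sum_le_sum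
          intro m _
          apply mul_le_mul_of_nonneg_left _ (hCn m)
          exact Finset.single_le_sum (f := fun m => I |(opt m h).1|) (fun i _ => hI _)
            (Finset.mem_univ m)
  have h3 : ∫⁻ y, ‖fderiv ℝ (fun y => a.f y * Gc b c h.1 y) y‖ₑ
      ≤ ENNReal.ofReal (D * ∑ m, I |(opt m h).1|) := by
    have hpt : ∀ T : P2 →L[ℝ] ℝ, ‖T‖ₑ ≤ ‖T e0‖ₑ + ‖T e1‖ₑ := by
      intro T
      rw [← ofReal_norm, ← ofReal_norm, ← ofReal_norm, ← ENNReal.ofReal_add (norm_nonneg _)
        (norm_nonneg _)]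
      apply ENNReal.ofReal_le_ofReal
      apply T.opNorm_le_bound (by positivity)
      intro v
      have hv : v = v 0 • e0 + v 1 • e1 := by
        ext j; fin_cases j <;> simp
      have n0 := norm_le_pi_norm v 0
      have n1 := norm_le_pi_norm v 1
      conv_lhs => rw [hv]
      rw [map_add, map_smul, map_smul]
      calc ‖v 0 • T e0 + v 1 • T e1‖ ≤ ‖v 0 • T e0‖ + ‖v 1 • T e1‖ := norm_add_le _ _
        _ = ‖v 0‖ * ‖T e0‖ + ‖v 1‖ * ‖T e1‖ := by rw [norm_smul, norm_smul]
        _ ≤ ‖v‖ * ‖T e0‖ + ‖v‖ * ‖T e1‖ := by gcongr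
        _ = _ := by ring
    have hm : Measurable (fun y => ‖fderiv ℝ (fun y => a.f y * Gc b c h.1 y) y e0‖ₑ) := by
      have : ContDiff ℝ ∞ (fun y => fderiv ℝ (fun y => a.f y * Gc b c h.1 y) y e0) :=
        ((contDiff_aG b c a h).fderiv_right (by simp)).clm_apply contDiff_const
      exact this.continuous.enorm.measurable
    calc _ ≤ ∫⁻ y, (‖fderiv ℝ (fun y => a.f y * Gc b c h.1 y) y e0‖ₑ
              + ‖fderiv ℝ (fun y => a.f y * Gc b c h.1 y) y e1‖ₑ) := lintegral_mono (fun y => hpt _)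
      _ = _ := lintegral_add_left hm _
      _ ≤ _ := add_le_add (h2 C0 e0 hC00 hC0) (h2 C1 e1 hC10 hC1)
      _ = _ := by
        rw [← ENNReal.ofReal_add, hD, add_mul]
        · exact mul_nonneg (Finset.sum_nonneg (fun m _ => hC00 m)) (Finset.sum_nonneg (fun m _ => hI _))
        · exact mul_nonneg (Finset.sum_nonneg (fun m _ => hC10 m)) (Finset.sum_nonneg (fun m _ => hI _))
  refine h1.trans ?_
  calc _ ≤ (K : ℝ≥0∞) * (ENNReal.ofReal (D * ∑ m, I |(opt m h).1|)) ^ (2 : ℝ) := by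
        gcongr
    _ = _ := by
        have hs : 0 ≤ ∑ m, I |(opt m h).1| := Finset.sum_nonneg (fun m _ => hI _)
        rw [ENNReal.ofReal_rpow_of_nonneg (by positivity) (by norm_num),
          show (K : ℝ≥0∞) = ENNReal.ofReal (K : ℝ) by rw [ENNReal.ofReal_coe_nnreal],
          ← ENNReal.ofReal_mul (by positivity)]
        congr 1
        rw [show ((2 : ℝ)) = ((2 : ℕ) : ℝ) by norm_num, Real.rpow_natCast]
        ring

theorem w11 : ∃ C : ℝ, 0 ≤ C ∧ ∀ (h : Sm), J (h * h) ≤ C * (∑ m, I |(opt m h).1|) ^ 2 := by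
  obtain ⟨a, ha⟩ := exists_cut
  choose C hC0 hC using fun (b : Bool) (c : Fin 3) => w11_chart b c a
  set D := ∑ b, ∑ c, C b c with hD
  have hD0 : 0 ≤ D := Finset.sum_nonneg (fun b _ => Finset.sum_nonneg (fun c _ => hC0 b c))
  refine ⟨6 * D, by positivity, fun h => ?_⟩
  have h1 := le_chart (h * h).1 (fun p => mul_self_nonneg _)
    (ENNReal.ofReal (D * (∑ m, I |(opt m h).1|) ^ 2)) (by
    intro c b
    calc ∫⁻ y in box 1, ENNReal.ofReal (ex (h * h).1 (Rs b (ins c 1 y)))
        ≤ ∫⁻ y in box 1, ‖a.f y * Gc b c h.1 y‖ₑ ^ (2 : ℝ) := by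
          apply setLIntegral_mono_ae
          · apply AEMeasurable.pow_const
            exact (meas_aG b c a h).aemeasurable
          · apply Filter.Eventually.of_forall
            intro y hy
            rw [ha y hy, one_mul, ← ofReal_norm, ENNReal.ofReal_rpow_of_nonneg (norm_nonneg _)
              (by norm_num)]
            apply ENNReal.ofReal_le_ofReal
            rw [show ((2 : ℝ)) = ((2 : ℕ) : ℝ) by norm_num, Real.rpow_natCast, Real.norm_eq_abs,
              sq_abs, sq]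
            exact le_rfl
      _ ≤ ∫⁻ y, ‖a.f y * Gc b c h.1 y‖ₑ ^ (2 : ℝ) := setLIntegral_le_lintegral _ _
      _ ≤ _ := hC b c h
      _ ≤ _ := by
          apply ENNReal.ofReal_le_ofReal
          apply mul_le_mul_of_nonneg_right _ (sq_nonneg _)
          calc C b c ≤ ∑ c, C b c := Finset.single_le_sum (f := fun c => C b c)
                (fun i _ => hC0 b i) (Finset.mem_univ c)
            _ ≤ _ := Finset.single_le_sum (f := fun b => ∑ c, C b c)
                (fun i _ => Finset.sum_nonneg (fun j _ => hC0 i j)) (Finset.mem_univ b))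
  rw [show (6 : ℝ≥0∞) = ENNReal.ofReal 6 by norm_num, ← ENNReal.ofReal_mul (by norm_num),
    ENNReal.ofReal_le_ofReal_iff (by positivity), ← mul_assoc] at h1
  exact h1

end

end Pool.Agent.H797
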