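import Pool.Agent.H797.Compact

set_option autoImplicit false
open Set MeasureTheory Filter Topology
open scoped ContDiff

namespace Pool.Agent.H797

noncomputable section

/-- weighted mean -/
def mu (u φ : Sm) : ℝ := J (φ * expS (cst 2 * u)) / ar u

/-- right side of the extended system -/
def Fe (u φ : Sm) : Sm := bet u * (φ * φ) * lap φ + cst 2 * (φ * φ) - cst (2 * mu u φ) * φ

/-- Galerkin solutions with a time factor -/
structure Gal (P : Submodule ℝ Sm) (T : ℝ) (u0 : Sm) (χ : ℝ → ℝ) (V φ G : ℝ → Sm) : Prop where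
  V0 : V 0 = 0
  memV : ∀ t ∈ Icc 0 T, V t ∈ P
  memφ : ∀ t ∈ Icc 0 T, φ t ∈ P
  memG : ∀ t ∈ Icc 0 T, G t ∈ P
  proj : ∀ t ∈ Icc 0 T, ∀ h ∈ P, J (G t * h) = J (Fe (u0 + V t) (φ t) * h)
  chi : ∀ t ∈ Icc 0 T, 0 ≤ χ t ∧ χ t ≤ 1
  dV : ∀ n, HD (Icc 0 T) n V (fun t => cst (χ t) * (φ t - 1))
  dφ : ∀ n, HD (Icc 0 T) n φ (fun t => cst (χ t) * G t)

end

end Pool.Agent.H797
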