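import Pool.Agent.H797.Comp

set_option autoImplicit false
open Set MeasureTheory
open scoped ContDiff ENNReal

namespace Pool.Agent.H797

noncomputable section

/-- `c'` is the time derivative of `c` on `T`, in all rotation derivatives up to order `n` -/
def HD (T : Set ℝ) : ℕ → (ℝ → Sm) → (ℝ → Sm) → Prop
  | 0, c, c' => ∀ t ∈ T, HasDerivWithinAt (fun s => (c s).1) (c' t).1 T t
  | (n + 1), c, c' => (∀ t ∈ T, HasDerivWithinAt (fun s => (c s).1) (c' t).1 T t) ∧
      ∀ i, HD T n (fun s => L i (c s)) (fun s => L i (c' s))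

section HDlemmas

variable {T : Set ℝ}

theorem HD.base {n : ℕ} {c c' : ℝ → Sm} (h : HD T n c c') :
    ∀ t ∈ T, HasDerivWithinAt (fun s => (c s).1) (c' t).1 T t := by
  cases n with
  | zero => exact h
  | succ n => exact h.1

theorem HD.L {n : ℕ} {c c' : ℝ → Sm} (h : HD T (n + 1) c c') (i : Fin 3) :
    HD T n (fun s => L i (c s)) (fun s => L i (c' s)) := h.2 i

theorem HD.pred {n : ℕ} {c c' : ℝ → Sm} (h : HD T (n + 1) c c') : HD T n c c' := by
  induction n generalizing c c' with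
  | zero => exact h.1
  | succ n ih => exact ⟨h.1, fun i => ih (h.2 i)⟩

theorem HD.of_le {n m : ℕ} (hnm : n ≤ m) {c c' : ℝ → Sm} (h : HD T m c c') : HD T n c c' := by
  induction m, hnm using Nat.le_induction with
  | base => exact h
  | succ l _ ih => exact ih h.pred

theorem HD.mono {S : Set ℝ} (hS : S ⊆ T) {n : ℕ} {c c' : ℝ → Sm} (h : HD T n c c') :
    HD S n c c' := by
  induction n generalizing c c' with
  | zero => exact fun t ht => (h t (hS ht)).mono hS
  | succ n ih => exact ⟨fun t ht => (h.1 t (hS ht)).mono hS, fun i => ih (h.2 i)⟩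

theorem HD.congr {n : ℕ} {c c' d d' : ℝ → Sm} (h : HD T n c c') (h1 : ∀ t ∈ T, d t = c t)
    (h2 : ∀ t ∈ T, d' t = c' t) : HD T n d d' := by
  induction n generalizing c c' d d' with
  | zero =>
    intro t ht
    rw [h2 t ht]
    exact (h t ht).congr (fun s hs => by rw [h1 s hs]) (by rw [h1 t ht])
  | succ n ih =>
    refine ⟨?_, fun i => ih (h.2 i) (fun t ht => by rw [h1 t ht]) (fun t ht => by rw [h2 t ht])⟩
    intro t ht
    rw [h2 t ht]
    exact (h.1 t ht).congr (fun s hs => by rw [h1 s hs]) (by rw [h1 t ht])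

theorem HD.add {n : ℕ} {c c' d d' : ℝ → Sm} (h : HD T n c c') (h2 : HD T n d d') :
    HD T n (fun t => c t + d t) (fun t => c' t + d' t) := by
  induction n generalizing c c' d d' with
  | zero => exact fun t ht => (h t ht).add (h2 t ht)
  | succ n ih =>
    refine ⟨fun t ht => (h.1 t ht).add (h2.1 t ht), fun i => ?_⟩
    exact (ih (h.2 i) (h2.2 i)).congr (fun t _ => map_add _ _ _) (fun t _ => map_add _ _ _)

theorem HD.neg {n : ℕ} {c c' : ℝ → Sm} (h : HD T n c c') :
    HD T n (fun t => -c t) (fun t => -c' t) := by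
  induction n generalizing c c' with
  | zero => exact fun t ht => (h t ht).neg
  | succ n ih =>
    refine ⟨fun t ht => (h.1 t ht).neg, fun i => ?_⟩
    exact (ih (h.2 i)).congr (fun t _ => map_neg _ _) (fun t _ => map_neg _ _)

theorem HD.sub {n : ℕ} {c c' d d' : ℝ → Sm} (h : HD T n c c') (h2 : HD T n d d') :
    HD T n (fun t => c t - d t) (fun t => c' t - d' t) :=
  (h.add h2.neg).congr (fun t _ => sub_eq_add_neg _ _) (fun t _ => sub_eq_add_neg _ _)

theorem HD.const (n : ℕ) (g : Sm) : HD T n (fun _ => g) (fun _ => 0) := by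
  induction n generalizing g with
  | zero => exact fun t _ => hasDerivWithinAt_const t T g.1
  | succ n ih =>
    refine ⟨fun t _ => hasDerivWithinAt_const t T g.1, fun i => ?_⟩
    exact (ih (H797.L i g)).congr (fun _ _ => rfl) (fun _ _ => by simp)

theorem HD.scal (n : ℕ) {y y' : ℝ → ℝ} (h : ∀ t ∈ T, HasDerivWithinAt y (y' t) T t) :
    HD T n (fun t => cst (y t)) (fun t => cst (y' t)) := by
  have hb : ∀ t ∈ T, HasDerivWithinAt (fun s => (cst (y s)).1) (cst (y' t)).1 T t := by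
    intro t ht
    have := (h t ht).smul_const (1 : C(S2, ℝ))
    refine HasDerivWithinAt.congr_deriv (this.congr_of_eventuallyEq ?_ ?_) ?_
    · filter_upwards with s
      ext p; simp
    · ext p; simp
    · ext p; simp
  cases n with
  | zero => exact hb
  | succ n =>
    refine ⟨hb, fun i => ?_⟩
    exact (HD.const n 0).congr (fun t _ => L_cst _ _) (fun t _ => L_cst _ _)

theorem HD.mul {n : ℕ} {c c' d d' : ℝ → Sm} (h : HD T n c c') (h2 : HD T n d d') :
    HD T n (fun t => c t * d t) (fun t => c' t * d t + c t * d' t) := by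
  induction n generalizing c c' d d' with
  | zero => exact fun t ht => (h t ht).mul (h2 t ht)
  | succ n ih =>
    refine ⟨fun t ht => (h.1 t ht).mul (h2.1 t ht), fun i => ?_⟩
    have a1 := ih (h.2 i) h2.pred
    have a2 := ih h.pred (h2.2 i)
    refine (a1.add a2).congr (fun t _ => L_mul _ _ _) (fun t _ => ?_)
    rw [map_add, L_mul, L_mul]; ring

theorem HD.cmul {n : ℕ} {c c' : ℝ → Sm} (h : HD T n c c') (g : Sm) :
    HD T n (fun t => g * c t) (fun t => g * c' t) :=
  ((HD.const n g).mul h).congr (fun _ _ => rfl) (fun _ _ => by ring)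

theorem HD.expo {n : ℕ} {c c' : ℝ → Sm} (h : HD T n c c') :
    HD T n (fun t => expS (c t)) (fun t => expS (c t) * c' t) := by
  have hb : ∀ t ∈ T, HasDerivWithinAt (fun s => (expS (c s)).1) (expS (c t) * c' t).1 T t := by
    intro t ht
    have e : ∀ g : Sm, (expS g).1 = NormedSpace.exp g.1 := by
      intro g
      ext p
      rw [expS_apply, Real.exp_eq_exp_ℝ]
      exact (NormedSpace.map_exp (ContinuousMap.evalAlgHom ℝ ℝ p : C(S2, ℝ) →ₐ[ℝ] ℝ)
        (continuous_eval_const p) g.1).symm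
    have h1 := (hasFDerivAt_exp (𝕂 := ℝ) (x := (c t).1)).comp_hasDerivWithinAt t (h.base t ht)
    refine HasDerivWithinAt.congr_deriv (h1.congr_of_eventuallyEq ?_ ?_) ?_
    · filter_upwards with s
      exact e (c s)
    · exact e (c t)
    · rw [← e]; rfl
  induction n generalizing c c' with
  | zero => exact hb
  | succ n ih =>
    refine ⟨hb, fun i => ?_⟩
    have h1 : HD T n (fun t => expS (c t)) (fun t => expS (c t) * c' t) :=
      ih h.pred (fun t ht => hb t ht)
    refine (h1.mul (h.2 i)).congr (fun t _ => L_expS _ _) (fun t _ => ?_)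
    rw [L_mul, L_expS]; ring

theorem HD.invo {n : ℕ} {c c' : ℝ → Sm} (h : HD T n c c') (hne : ∀ t ∈ T, ∀ p, (c t).1 p ≠ 0) :
    HD T n (fun t => invS (c t)) (fun t => -(invS (c t) * invS (c t) * c' t)) := by
  have hb : ∀ t ∈ T, HasDerivWithinAt (fun s => (invS (c s)).1)
      (-(invS (c t) * invS (c t) * c' t)).1 T t := by
    intro t ht
    have e0 : ∀ g : Sm, (∀ p, g.1 p ≠ 0) → g.1 * (invS g).1 = 1 := by
      intro g hg
      have := congrArg (fun k : Sm => k.1) (mul_invS g hg)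
      exact this
    have e : ∀ g : Sm, (∀ p, g.1 p ≠ 0) → (invS g).1 = Ring.inverse g.1 := by
      intro g hg
      have h1 := e0 g hg
      have h2 : IsUnit g.1 := IsUnit.of_mul_eq_one _ h1
      have h3 := Ring.mul_inverse_cancel g.1 h2
      calc (invS g).1 = (g.1 * Ring.inverse g.1) * (invS g).1 := by rw [h3, one_mul]
        _ = (g.1 * (invS g).1) * Ring.inverse g.1 := by ring
        _ = _ := by rw [h1, one_mul]
    have hu : IsUnit (c t).1 := IsUnit.of_mul_eq_one _ (e0 (c t) (hne t ht))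
    have h1 := (hasFDerivAt_ringInverse (𝕜 := ℝ) hu.unit)
    rw [IsUnit.unit_spec] at h1
    have h2 := h1.comp_hasDerivWithinAt t (h.base t ht)
    refine HasDerivWithinAt.congr_deriv (h2.congr_of_eventuallyEq ?_ ?_) ?_
    · filter_upwards [self_mem_nhdsWithin] with s hs
      exact e (c s) (hne s hs)
    · exact e (c t) (hne t ht)
    · have h3 : ((hu.unit⁻¹ : (C(S2, ℝ))ˣ) : C(S2, ℝ)) = (invS (c t)).1 := by
        rw [e (c t) (hne t ht), Ring.inverse_of_isUnit hu]
      rw [h3]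
      ext p
      simp
      ring
  induction n generalizing c c' with
  | zero => exact hb
  | succ n ih =>
    refine ⟨hb, fun i => ?_⟩
    have h1 : HD T n (fun t => invS (c t)) (fun t => -(invS (c t) * invS (c t) * c' t)) :=
      ih h.pred hne (fun t ht => hb t ht)
    refine ((h1.mul h1).mul (h.2 i)).neg.congr (fun t ht => L_invS _ _ (hne t ht)) (fun t ht => ?_)
    rw [map_neg, L_mul, L_mul, L_invS _ _ (hne t ht)]; ring

theorem HD.lapl {n : ℕ} {c c' : ℝ → Sm} (h : HD T (n + 2) c c') :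
    HD T n (fun t => lap (c t)) (fun t => lap (c' t)) :=
  ((((h.L 0).L 0).add ((h.L 1).L 1)).add ((h.L 2).L 2)).congr (fun _ _ => lap_eq3 _)
    (fun _ _ => lap_eq3 _)

theorem HD.Jd {n : ℕ} {c c' : ℝ → Sm} (h : HD T n c c') :
    ∀ t ∈ T, HasDerivWithinAt (fun s => J (c s)) (J (c' t)) T t :=
  fun t ht => by
    have h1 : HasFDerivAt (fun g : C(S2, ℝ) => I g) I (c t).1 := I.hasFDerivAt
    exact h1.comp_hasDerivWithinAt t (h.base t ht)

theorem HD.pt {n : ℕ} {c c' : ℝ → Sm} (h : HD T n c c') (p : S2) :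
    ∀ t ∈ T, HasDerivWithinAt (fun s => (c s).1 p) ((c' t).1 p) T t :=
  fun t ht => by
    have h1 : HasFDerivAt (fun g : C(S2, ℝ) => g p) (ContinuousMap.evalCLM ℝ p : C(S2, ℝ) →L[ℝ] ℝ)
      (c t).1 := (ContinuousMap.evalCLM ℝ p : C(S2, ℝ) →L[ℝ] ℝ).hasFDerivAt
    exact h1.comp_hasDerivWithinAt t (h.base t ht)

theorem HD.cont {n : ℕ} {c c' : ℝ → Sm} (h : HD T n c c') :
    ContinuousOn (fun s => (c s).1) T := fun t ht => (h.base t ht).continuousWithinAt

theorem HD.Nd (k : ℕ) {c c' : ℝ → Sm} (h : HD T k c c') :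
    ∀ t ∈ T, HasDerivWithinAt (fun s => N k (c s)) (2 * B k (c' t) (c t)) T t := by
  induction k generalizing c c' with
  | zero =>
    intro t ht
    have := (h.mul h).Jd t ht
    refine HasDerivWithinAt.congr_deriv this ?_
    rw [map_add, B_zero, mul_comm (c t)]; ring
  | succ k ih =>
    intro t ht
    have h1 := (h.mul h).Jd t ht
    have h2 := HasDerivWithinAt.fun_sum (u := Finset.univ)
      (fun (i : Fin 3) _ => ih (h.2 i) t ht)
    have h3 := h1.add h2
    refine HasDerivWithinAt.congr_deriv h3 ?_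
    rw [map_add, B_succ, mul_comm (c t), ← Finset.mul_sum]; ring

end HDlemmas

/-! ### differential inequalities -/

theorem decr {h h' : ℝ → ℝ} {T : ℝ}
    (H : ∀ t ∈ Icc 0 T, HasDerivWithinAt h (h' t) (Icc 0 T) t)
    (Hn : ∀ t ∈ Icc 0 T, h' t ≤ 0) : AntitoneOn h (Icc 0 T) := by
  have hi : ∀ x ∈ interior (Icc 0 T), HasDerivAt h (h' x) x := by
    intro x hx
    rw [interior_Icc] at hx
    exact (H x (Ioo_subset_Icc_self hx)).hasDerivAt (Icc_mem_nhds hx.1 hx.2)
  apply antitoneOn_of_deriv_nonpos (convex_Icc 0 T)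
  · exact fun t ht => (H t ht).continuousWithinAt
  · exact fun x hx => (hi x hx).differentiableAt.differentiableWithinAt
  · intro x hx
    rw [(hi x hx).deriv]
    exact Hn x (interior_subset hx)

theorem growth {h h' : ℝ → ℝ} {T K : ℝ}
    (H : ∀ t ∈ Icc 0 T, HasDerivWithinAt h (h' t) (Icc 0 T) t)
    (Hn : ∀ t ∈ Icc 0 T, h' t ≤ K) {s t : ℝ} (hs : s ∈ Icc 0 T) (ht : t ∈ Icc 0 T) (hst : s ≤ t) :
    h t - h s ≤ K * (t - s) := by
  have h1 : AntitoneOn (fun t => h t - K * t) (Icc 0 T) := by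
    apply decr (h' := fun t => h' t - K)
    · intro t ht
      have := (H t ht).sub ((hasDerivWithinAt_id t (Icc 0 T)).const_mul K)
      refine HasDerivWithinAt.congr_deriv this ?_
      simp
    · intro t ht
      have := Hn t ht
      linarith
  have := h1 hs ht hst
  simp only at this
  linarith

/-- primitives -/
theorem prim {z : ℝ → ℝ} {T : ℝ} (hT : 0 ≤ T) (hz : ContinuousOn z (Icc 0 T)) :
    ∃ Q : ℝ → ℝ, ∀ t ∈ Icc 0 T, HasDerivWithinAt Q (z t) (Icc 0 T) t := by
  have hc : Continuous (IccExtend hT ((Icc 0 T).domRestrict z)) :=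
    (continuousOn_iff_continuous_domRestrict.mp hz).Icc_extend'
  refine ⟨fun t => ∫ s in (0 : ℝ)..t, IccExtend hT ((Icc 0 T).domRestrict z) s, fun t ht => ?_⟩
  have h1 := (hc.integral_hasStrictDerivAt 0 t).hasDerivAt
  rw [IccExtend_of_mem hT _ ht] at h1
  exact h1.hasDerivWithinAt

/-- bounded integrals over unit intervals -/
def IB (y : ℝ → ℝ) (C T : ℝ) : Prop :=
  ∃ P : ℝ → ℝ, (∀ t ∈ Icc 0 T, HasDerivWithinAt P (y t) (Icc 0 T) t) ∧
    ∀ s ∈ Icc 0 T, ∀ t ∈ Icc 0 T, s ≤ t → t ≤ s + 1 → P t - P s ≤ C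

theorem IB.le {y z : ℝ → ℝ} {C T K : ℝ} (hT : 0 ≤ T) (h : IB y C T)
    (hz : ContinuousOn z (Icc 0 T)) (hle : ∀ t ∈ Icc 0 T, z t ≤ y t + K) (hK : 0 ≤ K) :
    IB z (C + K) T := by
  obtain ⟨P, hP, hP2⟩ := h
  obtain ⟨Q, hQ⟩ := prim hT hz
  refine ⟨Q, hQ, fun s hs t ht hst hst1 => ?_⟩
  have h1 := growth (h := fun t => Q t - P t) (h' := fun t => z t - y t) (K := K)
    (fun t ht => (hQ t ht).sub (hP t ht)) (fun t ht => by have := hle t ht; linarith) hs ht hst
  have h2 := hP2 s hs t ht hst hst1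
  have h3 : K * (t - s) ≤ K * 1 := by gcongr; linarith
  linarith

theorem IB.smul {y : ℝ → ℝ} {C T K : ℝ} (h : IB y C T) (hK : 0 ≤ K) :
    IB (fun t => K * y t) (K * C) T := by
  obtain ⟨P, hP, hP2⟩ := h
  refine ⟨fun t => K * P t, fun t ht => (hP t ht).const_mul K, fun s hs t ht hst hst1 => ?_⟩
  have := hP2 s hs t ht hst hst1
  have h2 : K * (P t - P s) ≤ K * C := by gcongr
  linarith

theorem IB.of_bd {y : ℝ → ℝ} {C T : ℝ} (hT : 0 ≤ T) (hC : 0 ≤ C) (hy : ContinuousOn y (Icc 0 T))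
    (h : ∀ t ∈ Icc 0 T, y t ≤ C) : IB y C T := by
  obtain ⟨Q, hQ⟩ := prim hT hy
  refine ⟨Q, hQ, fun s hs t ht hst hst1 => ?_⟩
  have h1 := growth hQ h hs ht hst
  have h3 : C * (t - s) ≤ C * 1 := by gcongr; linarith
  linarith

/-- uniform Gronwall inequality with dissipation -/
theorem UG (c C C1 Y0 : ℝ) (hc : 0 < c) (hC : 0 ≤ C) (hC1 : 0 ≤ C1) (hY : 0 ≤ Y0) :
    ∃ C2 : ℝ, 0 ≤ C2 ∧ ∀ (T : ℝ) (y z y' : ℝ → ℝ), 0 ≤ T → ContinuousOn z (Icc 0 T) →
      (∀ t ∈ Icc 0 T, HasDerivWithinAt y (y' t) (Icc 0 T) t) →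
      (∀ t ∈ Icc 0 T, 0 ≤ y t) → (∀ t ∈ Icc 0 T, 0 ≤ z t) →
      (∀ t ∈ Icc 0 T, y' t ≤ - c * z t + C * (1 + y t) ^ 2) → IB y C1 T → y 0 ≤ Y0 →
      (∀ t ∈ Icc 0 T, y t ≤ C2) ∧ IB z C2 T := by
  obtain ⟨D, hD⟩ : ∃ x, x = (1 + max Y0 C1) * Real.exp (C * (1 + C1)) := ⟨_, rfl⟩
  have hD0 : 0 ≤ D := by rw [hD]; positivity
  refine ⟨max D ((D + C * (1 + D) ^ 2) / c), le_max_of_le_left hD0,
    fun T y z y' hT hz hy hy0 hz0 hin hib hY0 => ?_⟩
  obtain ⟨P, hP, hP2⟩ := hib
  have hbd : ∀ t ∈ Icc 0 T, y t ≤ D := by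
    intro t ht
    -- choose a good starting time
    obtain ⟨s, hs, hst, hst1, hys⟩ : ∃ s ∈ Icc 0 T, s ≤ t ∧ t ≤ s + 1 ∧ y s ≤ max Y0 C1 := by
      by_cases h1 : t ≤ 1
      · exact ⟨0, ⟨le_rfl, hT⟩, ht.1, by linarith, hY0.trans (le_max_left _ _)⟩
      · push Not at h1
        have hsub : Icc (t - 1) t ⊆ Icc 0 T := Icc_subset_Icc (by linarith) ht.2
        obtain ⟨s, hs, hs2⟩ := exists_hasDerivAt_eq_slope P y (a := t - 1) (b := t) (by linarith)
          (fun x hx => (hP x (hsub hx)).continuousWithinAt.mono hsub)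
          (fun x hx => (hP x (hsub (Ioo_subset_Icc_self hx))).hasDerivAt
            (Icc_mem_nhds (by linarith [hx.1]) (lt_of_lt_of_le hx.2 ht.2)))
        refine ⟨s, hsub (Ioo_subset_Icc_self hs), hs.2.le, by linarith [hs.1], ?_⟩
        rw [hs2]
        have := hP2 (t - 1) (hsub (left_mem_Icc.mpr (by linarith))) t ht (by linarith) (by linarith)
        have e : (P t - P (t - 1)) / (t - (t - 1)) = P t - P (t - 1) := by
          rw [sub_sub_cancel, div_one]
        rw [e]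
        exact this.trans (le_max_right _ _)
    have hanti : AntitoneOn (fun τ => Real.log (1 + y τ) - C * (τ + P τ)) (Icc 0 T) := by
      apply decr (h' := fun τ => y' τ / (1 + y τ) - C * (1 + y τ))
      · intro τ hτ
        have h1 : HasDerivWithinAt (fun τ => Real.log (1 + y τ)) (y' τ / (1 + y τ)) (Icc 0 T) τ := by
          have := ((hy τ hτ).const_add 1).log (by have := hy0 τ hτ; positivity)
          simpa using this
        have h2 : HasDerivWithinAt (fun τ => C * (τ + P τ)) (C * (1 + y τ)) (Icc 0 T) τ :=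
          ((hasDerivWithinAt_id τ (Icc 0 T)).add (hP τ hτ)).const_mul C
        exact h1.sub h2
      · intro τ hτ
        have h1 := hin τ hτ
        have h2 := hz0 τ hτ
        have h3 := hy0 τ hτ
        have h4 : y' τ / (1 + y τ) ≤ C * (1 + y τ) := by
          rw [div_le_iff₀ (by positivity)]
          have : 0 ≤ c * z τ := by positivity
          nlinarith
        linarith
    have h1 := hanti hs ht hst
    simp only at h1
    have h2 := hP2 s hs t ht hst hst1
    have h3 : Real.log (1 + y t) ≤ Real.log (1 + y s) + C * (1 + C1) := by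
      have : C * (t + P t) - C * (s + P s) ≤ C * (1 + C1) := by
        have : C * ((t - s) + (P t - P s)) ≤ C * (1 + C1) := by gcongr; linarith
        linarith
      linarith
    have h4 : 1 + y t ≤ (1 + y s) * Real.exp (C * (1 + C1)) := by
      have e1 := Real.exp_le_exp.mpr h3
      rw [Real.exp_add, Real.exp_log (by have := hy0 t ht; positivity),
        Real.exp_log (by have := hy0 s hs; positivity)] at e1
      exact e1
    have h5 : (1 + y s) * Real.exp (C * (1 + C1)) ≤ D := by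
      rw [hD]
      gcongr
    linarith
  refine ⟨fun t ht => (hbd t ht).trans (le_max_left _ _), ?_⟩
  obtain ⟨Q, hQ⟩ := prim hT hz
  refine ⟨Q, hQ, fun s hs t ht hst hst1 => ?_⟩
  have h1 := growth (h := fun t => y t + c * Q t) (h' := fun t => y' t + c * z t)
    (K := C * (1 + D) ^ 2) (fun t ht => (hy t ht).add ((hQ t ht).const_mul c)) (fun t ht => by
      have a1 := hin t ht
      have a2 := hbd t ht
      have a3 := hy0 t ht
      have a4 : C * (1 + y t) ^ 2 ≤ C * (1 + D) ^ 2 := by gcongr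
      linarith) hs ht hst
  have h2 := hbd s hs
  have h3 := hy0 t ht
  have h4 : C * (1 + D) ^ 2 * (t - s) ≤ C * (1 + D) ^ 2 * 1 := by gcongr; linarith
  refine le_trans ?_ (le_max_right _ _)
  rw [le_div_iff₀ hc]
  linarith

/-! ### maximum principle -/

theorem left_deriv_nonneg {T t0 d : ℝ} {y : ℝ → ℝ} (ht : t0 ∈ Icc 0 T) (hpos : 0 < t0)
    (hd : HasDerivWithinAt y d (Icc 0 T) t0) (hm : ∀ s ∈ Icc 0 t0, y s ≤ y t0) : 0 ≤ d := by
  have h1 : HasDerivWithinAt y d (Icc 0 t0) t0 := hd.mono (Icc_subset_Icc le_rfl ht.2)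
  have h2 : IsLocalMaxOn y (Icc 0 t0) t0 := by
    filter_upwards [self_mem_nhdsWithin] with s hs
    exact hm s hs
  have h3 : (0 : ℝ) - t0 ∈ posTangentConeAt (Icc 0 t0) t0 := by
    apply sub_mem_posTangentConeAt_of_segment_subset
    rw [segment_symm, segment_eq_Icc hpos.le]
  have h4 := h2.hasFDerivWithinAt_nonpos h1.hasFDerivWithinAt h3
  simp at h4
  nlinarith

theorem cont_joint {T : Set ℝ} {c : ℝ → Sm} (h : ContinuousOn (fun s => (c s).1) T) :
    ContinuousOn (fun z : ℝ × S2 => (c z.1).1 z.2) (T ×ˢ univ) := by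
  have h1 : ContinuousOn (fun z : ℝ × S2 => ((c z.1).1, z.2)) (T ×ˢ univ) :=
    (h.comp continuousOn_fst (fun z hz => hz.1)).prodMk continuousOn_snd
  have h2 : Continuous (fun w : C(S2, ℝ) × S2 => w.1 w.2) := by fun_prop
  exact h2.comp_continuousOn h1

theorem max_princ {T : ℝ} (hT : 0 ≤ T) {c c' : ℝ → Sm} (H : HD (Icc 0 T) 0 c c') (M : ℝ)
    (h0 : ∀ p, (c 0).1 p ≤ M)
    (hneg : ∀ t ∈ Icc 0 T, ∀ p, (∀ q, (c t).1 q ≤ (c t).1 p) → M < (c t).1 p → (c' t).1 p < 0) :
    ∀ t ∈ Icc 0 T, ∀ p, (c t).1 p ≤ M := by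
  have hK : IsCompact (Icc 0 T ×ˢ (univ : Set S2)) := isCompact_Icc.prod isCompact_univ
  obtain ⟨⟨t0, p0⟩, hz, hmax⟩ := hK.exists_isMaxOn ⟨(0, pole), ⟨⟨le_rfl, hT⟩, mem_univ _⟩⟩
    (cont_joint H.cont)
  have hmax' : ∀ t ∈ Icc 0 T, ∀ p, (c t).1 p ≤ (c t0).1 p0 :=
    fun t ht p => hmax (show (t, p) ∈ Icc 0 T ×ˢ (univ : Set S2) from ⟨ht, mem_univ _⟩)
  have ht0 : t0 ∈ Icc 0 T := hz.1
  by_cases hM : (c t0).1 p0 ≤ M
  · exact fun t ht p => (hmax' t ht p).trans hM
  · exfalso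
    push Not at hM
    have hpos : 0 < t0 := by
      rcases lt_or_eq_of_le ht0.1 with h | h
      · exact h
      · exfalso
        rw [← h] at hM
        exact absurd (h0 p0) (not_le.mpr hM)
    have h1 := hneg t0 ht0 p0 (fun q => hmax' t0 ht0 q) hM
    have h2 := left_deriv_nonneg ht0 hpos (H.pt p0 t0 ht0)
      (fun s hs => hmax' s ⟨hs.1, hs.2.trans ht0.2⟩ p0)
    linarith

end

end Pool.Agent.H797
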